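import Mathlib
import Pool.Agent.Helper68.LA.Main

/-!
Interface to part A (analytic part, project LA of helper68).  Exact statements used by part L.
-/

namespace Pool.Agent.Helper17.L3

open Filter MeasureTheory

/-- Polya-Vinogradov for all nonprincipal characters. -/
theorem PV {δ : ℝ} (hδ : 0 < δ) : ∃ C : ℝ, 0 < C ∧ ∀ (q : ℕ) [NeZero q]
    (χ : DirichletCharacter ℂ q), χ ≠ 1 → ∀ a b : ℕ,
      ‖∑ n ∈ Finset.Ioc a b, χ (n : ZMod q)‖ ≤ C * (q : ℝ) ^ (1 / 2 + δ) := by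
  exact Pool.Agent.Helper68.LA.pv hδ

/-- Sums over the integers prime to `q` and integrals. -/
theorem COP {q : ℕ} (hq : 0 < q) {F : ℝ → ℂ} {z Y M K : ℝ} (hz : 0 ≤ z) (hzY : z ≤ Y)
    (hM : ∀ x, z ≤ x → ‖F x‖ ≤ M) (hK0 : 0 ≤ K)
    (hK : ∀ x y, z ≤ x → z ≤ y → ‖F x - F y‖ ≤ K * |x - y|) (hF : ∀ x, Y ≤ x → F x = 0) :
    ‖(∑ n ∈ (Finset.Ioc ⌊z⌋₊ ⌊Y⌋₊).filter fun n => n.Coprime q, F n) -
        ((q.totient : ℂ) / q) * ∫ x in z..Y, F x‖ ≤ q.divisors.card * (2 * M + 2 * (K * Y)) := by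
  exact Pool.Agent.Helper68.LA.cop hq hz hzY hM hK0 hK hF

theorem card_divisors_le (q : ℕ) : (q.divisors.card : ℝ) ≤ 2 * √(q : ℝ) := by
  exact Pool.Agent.Helper68.LA.card_div_le q

/-- Lower bound for truncated sums, nonprincipal characters. -/
theorem AN1 {κ : ℝ} (hκ : 0 < κ) : ∀ᶠ N : ℕ in atTop, ∀ (q : ℕ) [NeZero q]
    (χ : DirichletCharacter ℂ q) (lam z : ℝ), q ≤ N → χ ≠ 1 →
      √(q : ℝ) * (1 + |lam|) * (N : ℝ) ^ κ ≤ z → z ≤ N →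
      (N : ℝ) ^ (-κ) ≤ ‖∑ n ∈ Finset.Icc 1 ⌊z⌋₊,
        χ (n : ZMod q) * (n : ℂ) ^ (-1 + lam * Complex.I : ℂ)‖ := by
  exact Pool.Agent.Helper68.LA.an1 hκ

/-- `∑_{n ≤ z, (n, q) = 1} n ^ (-1 + i λ)`. -/
noncomputable def SS (q : ℕ) (lam z : ℝ) : ℂ :=
  ∑ n ∈ (Finset.Icc 1 ⌊z⌋₊).filter fun n => n.Coprime q,
    (n : ℂ) ^ (-1 + lam * Complex.I : ℂ)

/-- Lower bound for the principal character. -/
theorem AN2 {κ : ℝ} (hκ : 0 < κ) : ∀ᶠ N : ℕ in atTop, ∀ (q : ℕ) (lam z : ℝ), 0 < q → q ≤ N →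
    (1 + |lam|) * (N : ℝ) ^ κ ≤ z → z ≤ N →
    ∃ r : ℝ, 1 ≤ r ∧ r ≤ (N : ℝ) ^ (κ / 2) ∧
      (N : ℝ) ^ (-κ) ≤ ‖SS q lam z - (r : ℂ) ^ (lam * Complex.I : ℂ) * SS q lam (z / r)‖ := by
  exact Pool.Agent.Helper68.LA.an2 hκ

end Pool.Agent.Helper17.L3
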