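import Pool.Agent.Helper17.L3.D

/-!
Block L3-B0.  Basic facts (used everywhere).

* `norm_Phi_le`: `‖Phi v y‖ ≤ 2 t`; `Phi_lip`: `‖Phi v y - Phi v y'‖ ≤ 4 π t² |y - y'|` (`|e(a) - e(b)| ≤ 2π|a - b|`, `|β| ≤ t`, the
  support has measure `2t`); continuity of `Phi v`.
* `kf`: `0 ≤ kf ≤ 1` for `y ≥ 0`, Lipschitz with constant `1/L`, `= 0` for `y ≥ L`.
* `Psi`: `‖Psi L v y‖ ≤ 2t` for `y ≥ 0`, `= 0` for `y ≥ L`,
  `‖Psi L v y - Psi L v y'‖ ≤ (4 π t² + 2t/L)|y - y'|` for `y, y' ≥ 0`.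
* `ex_toAddCircle`: `ex n (ZMod.toAddCircle b) = stdAddChar (n b)` (`ZMod.toAddCircle_intCast`, `ZMod.stdAddChar_coe`).
* `ex_ratCast`: `ex n (a/p) = ec (n a/p)`.
* `card_lt`: the number of `m ∈ [1, N]` with `X m < L` is at most `L / X`.
-/

namespace Pool.Agent.Helper17.L3

open MeasureTheory Pool.Agent.Helper25.MOB

theorem norm_ec (x : ℝ) : ‖ec x‖ = 1 := by
  have h : (2 * Real.pi * Complex.I * x : ℂ) = ((2 * Real.pi * x : ℝ) : ℂ) * Complex.I := by
    push_cast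
    ring
  rw [ec, h, Complex.norm_exp_ofReal_mul_I]

theorem continuous_ec : Continuous ec := by
  unfold ec
  fun_prop

theorem ec_add (x y : ℝ) : ec (x + y) = ec x * ec y := by
  rw [ec, ec, ec, ← Complex.exp_add]
  congr 1
  push_cast
  ring

theorem norm_ec_sub_le (x y : ℝ) : ‖ec x - ec y‖ ≤ 2 * Real.pi * |x - y| := by
  have h1 : ec x = ec y * ec (x - y) := by
    rw [← ec_add]
    congr 1
    ring
  have h2 : ec x - ec y = ec y * (ec (x - y) - 1) := by
    rw [mul_sub, mul_one, ← h1]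
  have h3 : ec (x - y) = Complex.exp (Complex.I * ((2 * Real.pi * (x - y) : ℝ) : ℂ)) := by
    rw [ec]
    congr 1
    push_cast
    ring
  rw [h2, norm_mul, norm_ec, one_mul, h3]
  refine (Real.norm_exp_I_mul_ofReal_sub_one_le).trans ?_
  rw [Real.norm_eq_abs, abs_mul, abs_of_pos (by positivity : (0 : ℝ) < 2 * Real.pi)]

theorem integrable_Ph {t : ℝ} {v : ℝ → ℂ} (hv : Ph t v) : Integrable v := by
  have h1 : IntegrableOn v (Set.Icc (-t) t) := by
    refine Measure.integrableOn_of_bounded (M := 1) ?_ hv.meas.aestronglyMeasurable ?_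
    · rw [Real.volume_Icc]
      exact ENNReal.ofReal_ne_top
    · exact Filter.Eventually.of_forall fun β => hv.bd β
  rw [integrableOn_iff_integrable_of_support_subset] at h1
  · exact h1
  · intro β hβ
    by_contra hcon
    apply hβ
    apply hv.supp
    rw [Set.mem_Icc, ← abs_le] at hcon
    exact not_le.1 hcon

private theorem norm_int_le4 {t B : ℝ} (ht : 0 ≤ t) {v : ℝ → ℂ} (hb : ∀ β, ‖v β‖ ≤ B)
    (hs : ∀ β, t < |β| → v β = 0) : ‖∫ β, v β‖ ≤ 2 * t * B := by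
  have h1 : ‖∫ β, v β‖ ≤ ∫ β, (Set.Icc (-t) t).indicator (fun _ => B) β := by
    apply norm_integral_le_of_norm_le
    · exact (integrable_indicator_iff measurableSet_Icc).2 (continuous_const.integrableOn_Icc)
    · refine Filter.Eventually.of_forall fun β => ?_
      by_cases hβ : β ∈ Set.Icc (-t) t
      · rw [Set.indicator_of_mem hβ]
        exact hb β
      · rw [Set.indicator_of_notMem hβ, hs β, norm_zero]
        rw [Set.mem_Icc, ← abs_le] at hβ
        exact not_le.1 hβ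
  refine h1.trans (le_of_eq ?_)
  rw [integral_indicator measurableSet_Icc, setIntegral_const, smul_eq_mul, Real.volume_real_Icc_of_le (by linarith)]
  ring

theorem norm_Phi_le {t : ℝ} {v : ℝ → ℂ} (ht : 0 ≤ t) (hv : Ph t v) (y : ℝ) :
    ‖Phi v y‖ ≤ 2 * t := by
  have h := norm_int_le4 ht (v := fun β => v β * ec (y * β)) (B := 1)
    (fun β => by rw [norm_mul, norm_ec, mul_one]; exact hv.bd β)
    (fun β hβ => by simp only [hv.supp β hβ, zero_mul])
  rw [Phi]
  linarith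

theorem Phi_lip {t : ℝ} {v : ℝ → ℂ} (ht : 0 ≤ t) (hv : Ph t v) (y y' : ℝ) :
    ‖Phi v y - Phi v y'‖ ≤ 4 * Real.pi * t ^ 2 * |y - y'| := by
  have hi : ∀ z : ℝ, Integrable (fun β => v β * ec (z * β)) := by
    intro z
    refine (integrable_Ph hv).mono ?_ (Filter.Eventually.of_forall fun β => ?_)
    · exact (hv.meas.mul (continuous_ec.comp (by fun_prop : Continuous fun β : ℝ => z * β)).measurable).aestronglyMeasurable
    · rw [norm_mul, norm_ec, mul_one]
  rw [Phi, Phi, ← integral_sub (hi y) (hi y')]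
  have h := norm_int_le4 ht (v := fun β => v β * ec (y * β) - v β * ec (y' * β))
    (B := 2 * Real.pi * t * |y - y'|) (fun β => ?_) (fun β hβ => ?_)
  · refine h.trans (le_of_eq ?_)
    ring
  · rw [← mul_sub, norm_mul]
    by_cases hβ : |β| ≤ t
    · calc ‖v β‖ * ‖ec (y * β) - ec (y' * β)‖ ≤ 1 * (2 * Real.pi * |y * β - y' * β|) :=
            mul_le_mul (hv.bd β) (norm_ec_sub_le _ _) (norm_nonneg _) zero_le_one
        _ = 2 * Real.pi * |β| * |y - y'| := by rw [← sub_mul, abs_mul]; ring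
        _ ≤ 2 * Real.pi * t * |y - y'| := by
            apply mul_le_mul_of_nonneg_right _ (abs_nonneg _)
            apply mul_le_mul_of_nonneg_left hβ
            positivity
    · rw [hv.supp β (not_le.1 hβ), norm_zero, zero_mul]
      positivity
  · simp only [hv.supp β hβ, zero_mul, sub_self]

theorem kf_nonneg (L y : ℝ) : 0 ≤ kf L y := by
  exact le_max_right _ _

theorem kf_le_one {L y : ℝ} (hL : 0 < L) (hy : 0 ≤ y) : kf L y ≤ 1 := by
  refine max_le ?_ zero_le_one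
  have := div_nonneg hy hL.le
  linarith

theorem kf_eq_zero {L y : ℝ} (hL : 0 < L) (hy : L ≤ y) : kf L y = 0 := by
  refine max_eq_right ?_
  have : 1 ≤ y / L := (one_le_div hL).2 hy
  linarith

theorem kf_lip {L : ℝ} (hL : 0 < L) (y y' : ℝ) : |kf L y - kf L y'| ≤ |y - y'| / L := by
  refine (abs_max_sub_max_le_abs _ _ _).trans (le_of_eq ?_)
  have h : 1 - y / L - (1 - y' / L) = -((y - y') / L) := by ring
  rw [h, abs_neg, abs_div, abs_of_pos hL]

theorem norm_Psi_le {L t : ℝ} {v : ℝ → ℂ} (hL : 0 < L) (ht : 0 ≤ t) (hv : Ph t v) {y : ℝ}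
    (hy : 0 ≤ y) : ‖Psi L v y‖ ≤ 2 * t := by
  rw [Psi, norm_mul, Complex.norm_real, Real.norm_eq_abs, abs_of_nonneg (kf_nonneg L y)]
  calc kf L y * ‖Phi v y‖ ≤ 1 * (2 * t) :=
        mul_le_mul (kf_le_one hL hy) (norm_Phi_le ht hv y) (norm_nonneg _) zero_le_one
    _ = 2 * t := one_mul _

theorem Psi_eq_zero {L : ℝ} {v : ℝ → ℂ} (hL : 0 < L) {y : ℝ} (hy : L ≤ y) :
    Psi L v y = 0 := by
  rw [Psi, kf_eq_zero hL hy, Complex.ofReal_zero, zero_mul]

theorem Psi_lip {L t : ℝ} {v : ℝ → ℂ} (hL : 0 < L) (ht : 0 ≤ t) (hv : Ph t v) {y y' : ℝ}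
    (hy : 0 ≤ y) (hy' : 0 ≤ y') :
    ‖Psi L v y - Psi L v y'‖ ≤ (4 * Real.pi * t ^ 2 + 2 * t / L) * |y - y'| := by
  have h1 : Psi L v y - Psi L v y' = (kf L y : ℂ) * (Phi v y - Phi v y') +
      ((kf L y - kf L y' : ℝ) : ℂ) * Phi v y' := by
    unfold Psi
    push_cast
    ring
  rw [h1]
  refine (norm_add_le _ _).trans ?_
  rw [norm_mul, norm_mul, Complex.norm_real, Complex.norm_real, Real.norm_eq_abs, Real.norm_eq_abs,
    abs_of_nonneg (kf_nonneg L y)]
  have h2 : kf L y * ‖Phi v y - Phi v y'‖ ≤ 1 * (4 * Real.pi * t ^ 2 * |y - y'|) :=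
    mul_le_mul (kf_le_one hL hy) (Phi_lip ht hv y y') (norm_nonneg _) zero_le_one
  have h3 : |kf L y - kf L y'| * ‖Phi v y'‖ ≤ |y - y'| / L * (2 * t) :=
    mul_le_mul (kf_lip hL y y') (norm_Phi_le ht hv y') (norm_nonneg _)
      (div_nonneg (abs_nonneg _) hL.le)
  have h4 : (4 * Real.pi * t ^ 2 + 2 * t / L) * |y - y'| =
      1 * (4 * Real.pi * t ^ 2 * |y - y'|) + |y - y'| / L * (2 * t) := by ring
  rw [h4]
  exact add_le_add h2 h3

theorem ex_toAddCircle {q : ℕ} [NeZero q] (n : ℤ) (b : ZMod q) :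
    ex n (ZMod.toAddCircle b) = ZMod.stdAddChar ((n : ZMod q) * b) := by
  obtain ⟨j, rfl⟩ := ZMod.intCast_surjective b
  have h1 : ((n : ZMod q) * ((j : ℤ) : ZMod q)) = ((n * j : ℤ) : ZMod q) := by push_cast; rfl
  rw [h1, ZMod.stdAddChar_coe, ZMod.toAddCircle_intCast, ex_coe]
  congr 1
  push_cast
  ring

theorem ex_real (n : ℤ) (x : ℝ) : ex n (x : UnitAddCircle) = ec (n * x) := by
  rw [ex_coe, ec]
  congr 1
  push_cast
  ring

theorem card_lt {N : ℕ} {L X : ℝ} (hX : 0 < X) (hL : 0 ≤ L) :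
    (((Finset.Icc 1 N).filter fun m : ℕ => X * m < L).card : ℝ) ≤ L / X := by
  have h1 : ((Finset.Icc 1 N).filter fun m : ℕ => X * m < L) ⊆ Finset.Icc 1 ⌊L / X⌋₊ := by
    intro m hm
    rw [Finset.mem_filter, Finset.mem_Icc] at hm
    rw [Finset.mem_Icc]
    refine ⟨hm.1.1, Nat.le_floor ?_⟩
    rw [le_div_iff₀ hX, mul_comm]
    exact hm.2.le
  calc (((Finset.Icc 1 N).filter fun m : ℕ => X * m < L).card : ℝ) ≤
        ((Finset.Icc 1 ⌊L / X⌋₊).card : ℝ) := by exact_mod_cast Finset.card_le_card h1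
    _ = (⌊L / X⌋₊ : ℝ) := by simp
    _ ≤ L / X := Nat.floor_le (div_nonneg hL hX.le)

end Pool.Agent.Helper17.L3
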