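import Pool.Agent.Helper17.L3.B0

/-!
Block L3-BES.  Bessel's inequality.

Let `Q(x) = ∑_{m ≤ N} a_m ex m x` on the circle.  `ex m (toAddCircle (g b) + X β) = stdAddChar (m g b) ec (X m β)`, so
`∑_m a_m ∑_b Phi (v b) (X m) stdAddChar (m g b) = ∑_b ∫_{|β| ≤ t} v_b(β) Q(g b/q + X β) dβ`.
Cauchy-Schwarz over `(b, β)`: `‖..‖² ≤ (φ(q) 2t) ∑_b ∫_{|β| ≤ t} ‖Q(gb/q + Xβ)‖² dβ = (φ(q) 2t/X) ∑_b ∫_{|u| ≤ tX} ‖Q(gb/q + u)‖² du`.
The arcs `gb/q + [-tX, tX]`, `b ∈ G`, are disjoint up to endpoints (`2 q t X ≤ 1`, distinct points of `(1/q)ℤ/ℤ` are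
`1/q` apart), so the sum is at most `∫_circle ‖Q‖² = ∑ ‖a_m‖²`.
(A way to do it: for `u ∈ (-1/(2q), 1/(2q))`, `∑_{c : ZMod q} ∫_{|u| ≤ 1/(2q)} ‖Q(c/q + u)‖² du = ∫_0^1 ‖Q‖²`, by
splitting `[−1/(2q), 1 − 1/(2q)]` into `q` intervals, `intervalIntegral.sum_integral_adjacent_intervals`.)
-/

namespace Pool.Agent.Helper17.L3

open MeasureTheory Pool.Agent.Helper25.MOB

private theorem cs82 {h : ℝ → ℝ} (hh : Continuous h) {t : ℝ} (ht : 0 < t) :
    (∫ x in (-t)..t, h x) ^ 2 ≤ 2 * t * ∫ x in (-t)..t, h x ^ 2 := by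
  have h0 : 0 ≤ ∫ x in (-t)..t, (h x - (∫ x in (-t)..t, h x) / (2 * t)) ^ 2 :=
    intervalIntegral.integral_nonneg (by linarith) (fun x _ => sq_nonneg _)
  set A := ∫ x in (-t)..t, h x with hA
  have h1 : ∫ x in (-t)..t, (h x - A / (2 * t)) ^ 2 =
      (∫ x in (-t)..t, h x ^ 2) - 2 * (A / (2 * t)) * A + (A / (2 * t)) ^ 2 * (2 * t) := by
    have h2 : (fun x => (h x - A / (2 * t)) ^ 2) =
        fun x => (h x ^ 2 - (2 * (A / (2 * t))) * h x) + (A / (2 * t)) ^ 2 := by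
      ext x; ring
    rw [h2, intervalIntegral.integral_add, intervalIntegral.integral_sub,
      intervalIntegral.integral_const_mul, intervalIntegral.integral_const, smul_eq_mul, ← hA]
    · ring
    · exact (hh.pow 2).intervalIntegrable _ _
    · exact (continuous_const.mul hh).intervalIntegrable _ _
    · exact ((hh.pow 2).sub (continuous_const.mul hh)).intervalIntegrable _ _
    · exact continuous_const.intervalIntegrable _ _
  rw [h1] at h0
  have h3 : (∫ x in (-t)..t, h x ^ 2) - 2 * (A / (2 * t)) * A + (A / (2 * t)) ^ 2 * (2 * t) =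
      (∫ x in (-t)..t, h x ^ 2) - A ^ 2 / (2 * t) := by
    field_simp
    ring
  rw [h3] at h0
  have h4 : A ^ 2 / (2 * t) ≤ ∫ x in (-t)..t, h x ^ 2 := by linarith
  rw [div_le_iff₀ (by positivity)] at h4
  linarith

theorem arcs_le {q : ℕ} [NeZero q] {s : ℝ} (hs : 0 ≤ s) (hqs : 2 * q * s ≤ 1)
    (f : UnitAddCircle → ℝ) (hf : Continuous f) (hf0 : ∀ x, 0 ≤ f x) (g : (ZMod q)ˣ) :
    ∑ b : (ZMod q)ˣ, ∫ u in (-s)..s,
      f (ZMod.toAddCircle ((g : ZMod q) * (b : ZMod q)) + (u : UnitAddCircle)) ≤ ∫ x, f x := by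
  have hq0 : (0 : ℝ) < q := by
    have := Nat.pos_of_ne_zero (NeZero.ne q)
    exact_mod_cast this
  have hs2 : s ≤ 1 / (2 * q) := by
    rw [le_div_iff₀ (by positivity)]
    linarith
  have hF : Continuous (fun x : ℝ => f (x : UnitAddCircle)) :=
    hf.comp (AddCircle.continuous_mk' 1)
  set J : ℕ → ℝ := fun k => ∫ u in (-s)..s, f ((((k : ℝ) / q + u : ℝ)) : UnitAddCircle) with hJ
  have hJ0 : ∀ k, 0 ≤ J k := fun k =>
    intervalIntegral.integral_nonneg (by linarith) (fun u _ => hf0 _)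
  have h1 : ∀ b : (ZMod q)ˣ, ∫ u in (-s)..s,
      f (ZMod.toAddCircle ((g : ZMod q) * (b : ZMod q)) + (u : UnitAddCircle)) =
      J (((g * b : (ZMod q)ˣ) : ZMod q).val) := by
    intro b
    rw [hJ]
    refine intervalIntegral.integral_congr fun u _ => ?_
    rw [ZMod.toAddCircle_apply, Units.val_mul]
    push_cast
    rfl
  have h2 : ∑ b : (ZMod q)ˣ, J (((g * b : (ZMod q)ˣ) : ZMod q).val) ≤ ∑ k ∈ Finset.range q, J k := by
    have hinj : Function.Injective (fun b : (ZMod q)ˣ => ((g * b : (ZMod q)ˣ) : ZMod q).val) := by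
      intro b b' h
      have h' := ZMod.val_injective q h
      exact mul_left_cancel (Units.ext h')
    rw [← Finset.sum_image (s := Finset.univ) (f := J) (fun x _ y _ h => hinj h)]
    refine Finset.sum_le_sum_of_subset_of_nonneg ?_ (fun k _ _ => hJ0 k)
    intro k hk
    rw [Finset.mem_image] at hk
    obtain ⟨b, -, rfl⟩ := hk
    exact Finset.mem_range.2 (ZMod.val_lt _)
  have h3 : ∀ k ∈ Finset.range q, J k ≤
      ∫ u in (((k : ℝ) - 1 / 2) / q)..((((k + 1 : ℕ) : ℝ) - 1 / 2) / q), f (u : UnitAddCircle) := by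
    intro k _
    have e1 : J k = ∫ u in ((k : ℝ) / q + -s)..((k : ℝ) / q + s), f (u : UnitAddCircle) :=
      intervalIntegral.integral_comp_add_left (fun x : ℝ => f (x : UnitAddCircle)) ((k : ℝ) / q)
    rw [e1]
    refine intervalIntegral.integral_mono_interval ?_ (by linarith) ?_
      (Filter.Eventually.of_forall fun u => hf0 _) (hF.intervalIntegrable _ _)
    · have : ((k : ℝ) - 1 / 2) / q = (k : ℝ) / q - 1 / (2 * q) := by field_simp
      linarith
    · have : (((k + 1 : ℕ) : ℝ) - 1 / 2) / q = (k : ℝ) / q + 1 / (2 * q) := by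
        push_cast
        field_simp
        ring
      linarith
  calc ∑ b : (ZMod q)ˣ, ∫ u in (-s)..s,
      f (ZMod.toAddCircle ((g : ZMod q) * (b : ZMod q)) + (u : UnitAddCircle))
      = ∑ b : (ZMod q)ˣ, J (((g * b : (ZMod q)ˣ) : ZMod q).val) :=
        Finset.sum_congr rfl fun b _ => h1 b
    _ ≤ ∑ k ∈ Finset.range q, J k := h2
    _ ≤ ∑ k ∈ Finset.range q, ∫ u in (((k : ℝ) - 1 / 2) / q)..((((k + 1 : ℕ) : ℝ) - 1 / 2) / q),
        f (u : UnitAddCircle) := Finset.sum_le_sum h3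
    _ = ∫ u in ((((0 : ℕ) : ℝ) - 1 / 2) / q)..(((q : ℝ) - 1 / 2) / q), f (u : UnitAddCircle) :=
        intervalIntegral.sum_integral_adjacent_intervals
          (a := fun k : ℕ => ((k : ℝ) - 1 / 2) / q) (fun k _ => hF.intervalIntegrable _ _)
    _ = ∫ x, f x := by
        have e2 : ((q : ℝ) - 1 / 2) / q = (((0 : ℕ) : ℝ) - 1 / 2) / q + 1 := by
          push_cast
          field_simp
          ring
        rw [e2]
        exact UnitAddCircle.intervalIntegral_preimage _ f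

theorem bessel {q : ℕ} [NeZero q] {N : ℕ} {t X : ℝ} (ht : 0 < t) (hX : 0 < X)
    (hqs : 2 * q * (t * X) ≤ 1) {v : (ZMod q)ˣ → ℝ → ℂ} (hv : ∀ b, Ph t (v b)) (g : (ZMod q)ˣ)
    (a : ℕ → ℂ) :
    ‖∑ m ∈ Finset.Icc 1 N, a m * ∑ b : (ZMod q)ˣ, Phi (v b) (X * m) *
        ZMod.stdAddChar ((m : ZMod q) * (g : ZMod q) * (b : ZMod q))‖ ^ 2 ≤
      2 * t * q / X * ∑ m ∈ Finset.Icc 1 N, ‖a m‖ ^ 2 := by
  have hq1 : 0 < q := Nat.pos_of_ne_zero (NeZero.ne q)
  have hq0 : (0 : ℝ) < q := by exact_mod_cast hq1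
  set Q : UnitAddCircle → ℂ := fun x => ∑ m ∈ Finset.Icc 1 N, a m * ex (m : ℤ) x with hQ
  have hQc : Continuous Q :=
    continuous_finsetSum _ fun m _ => continuous_const.mul (continuous_ex _)
  set c : (ZMod q)ˣ → UnitAddCircle := fun b => ZMod.toAddCircle ((g : ZMod q) * (b : ZMod q))
    with hc
  have hQb : ∀ b, Continuous fun β : ℝ => Q (c b + ((X * β : ℝ) : UnitAddCircle)) := by
    intro b
    exact hQc.comp (continuous_const.add ((AddCircle.continuous_mk' 1).comp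
      (continuous_const.mul continuous_id)))
  have hid : ∀ b : (ZMod q)ˣ, ∑ m ∈ Finset.Icc 1 N, a m * (Phi (v b) (X * m) *
      ZMod.stdAddChar ((m : ZMod q) * (g : ZMod q) * (b : ZMod q))) =
      ∫ β, v b β * Q (c b + ((X * β : ℝ) : UnitAddCircle)) := by
    intro b
    have e1 : ∀ β : ℝ, v b β * Q (c b + ((X * β : ℝ) : UnitAddCircle)) =
        ∑ m ∈ Finset.Icc 1 N, (a m * ZMod.stdAddChar ((m : ZMod q) * (g : ZMod q) * (b : ZMod q))) *
          (v b β * ec (X * m * β)) := by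
      intro β
      rw [hQ]
      simp only
      rw [Finset.mul_sum]
      refine Finset.sum_congr rfl fun m _ => ?_
      rw [ex_add_arg, hc]
      simp only
      rw [ex_toAddCircle, ex_real]
      have e2 : ((m : ℤ) : ℝ) * (X * β) = X * m * β := by push_cast; ring
      have e3 : (((m : ℤ) : ZMod q)) * ((g : ZMod q) * (b : ZMod q)) =
          (m : ZMod q) * (g : ZMod q) * (b : ZMod q) := by push_cast; ring
      rw [e2, e3]
      ring
    have hint : ∀ m ∈ Finset.Icc 1 N, Integrable (fun β : ℝ =>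
        (a m * ZMod.stdAddChar ((m : ZMod q) * (g : ZMod q) * (b : ZMod q))) *
          (v b β * ec (X * m * β))) := by
      intro m _
      refine Integrable.const_mul ?_ _
      refine (integrable_Ph (hv b)).mul_bdd (c := 1) ?_ (Filter.Eventually.of_forall fun β => ?_)
      · exact (continuous_ec.comp (continuous_const.mul continuous_id)).aestronglyMeasurable
      · rw [norm_ec]
    simp_rw [e1]
    rw [integral_finsetSum _ hint]
    refine Finset.sum_congr rfl fun m _ => ?_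
    rw [integral_const_mul]
    unfold Phi
    ring
  have hnb : ∀ b : (ZMod q)ˣ, ‖∫ β, v b β * Q (c b + ((X * β : ℝ) : UnitAddCircle))‖ ≤
      ∫ β in (-t)..t, ‖Q (c b + ((X * β : ℝ) : UnitAddCircle))‖ := by
    intro b
    have e1 : ∫ β, v b β * Q (c b + ((X * β : ℝ) : UnitAddCircle)) =
        ∫ β in (-t)..t, v b β * Q (c b + ((X * β : ℝ) : UnitAddCircle)) := by
      rw [intervalIntegral.integral_of_le (by linarith), ← integral_Icc_eq_integral_Ioc]
      symm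
      refine setIntegral_eq_integral_of_forall_compl_eq_zero fun β hβ => ?_
      rw [(hv b).supp β, zero_mul]
      by_contra hcon
      exact hβ (abs_le.1 (not_lt.1 hcon))
    rw [e1]
    refine intervalIntegral.norm_integral_le_of_norm_le (by linarith)
      (Filter.Eventually.of_forall fun β _ => ?_) ((hQb b).norm.intervalIntegrable _ _)
    rw [norm_mul]
    exact mul_le_of_le_one_left (norm_nonneg _) ((hv b).bd β)
  have hL : ‖∑ m ∈ Finset.Icc 1 N, a m * ∑ b : (ZMod q)ˣ, Phi (v b) (X * m) *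
        ZMod.stdAddChar ((m : ZMod q) * (g : ZMod q) * (b : ZMod q))‖ ≤
      ∑ b : (ZMod q)ˣ, ∫ β in (-t)..t, ‖Q (c b + ((X * β : ℝ) : UnitAddCircle))‖ := by
    have e1 : ∑ m ∈ Finset.Icc 1 N, a m * ∑ b : (ZMod q)ˣ, Phi (v b) (X * m) *
        ZMod.stdAddChar ((m : ZMod q) * (g : ZMod q) * (b : ZMod q)) =
        ∑ b : (ZMod q)ˣ, ∫ β, v b β * Q (c b + ((X * β : ℝ) : UnitAddCircle)) := by
      simp_rw [← hid, Finset.mul_sum]
      exact Finset.sum_comm
    rw [e1]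
    exact (norm_sum_le _ _).trans (Finset.sum_le_sum fun b _ => hnb b)
  have hcs : (∑ b : (ZMod q)ˣ, ∫ β in (-t)..t, ‖Q (c b + ((X * β : ℝ) : UnitAddCircle))‖) ^ 2 ≤
      (Fintype.card (ZMod q)ˣ : ℝ) * ∑ b : (ZMod q)ˣ,
        (2 * t * ∫ β in (-t)..t, ‖Q (c b + ((X * β : ℝ) : UnitAddCircle))‖ ^ 2) := by
    refine (sq_sum_le_card_mul_sum_sq (s := Finset.univ)).trans ?_
    rw [Finset.card_univ]
    exact mul_le_mul_of_nonneg_left
      (Finset.sum_le_sum fun b _ => cs82 (hQb b).norm ht) (by positivity)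
  have hsub : ∀ b : (ZMod q)ˣ, ∫ β in (-t)..t, ‖Q (c b + ((X * β : ℝ) : UnitAddCircle))‖ ^ 2 =
      X⁻¹ * ∫ u in (-(t * X))..(t * X), ‖Q (c b + (u : UnitAddCircle))‖ ^ 2 := by
    intro b
    have e1 := intervalIntegral.integral_comp_mul_left (a := -t) (b := t)
      (fun u : ℝ => ‖Q (c b + (u : UnitAddCircle))‖ ^ 2) hX.ne'
    rw [smul_eq_mul] at e1
    have e2 : X * -t = -(t * X) := by ring
    have e3 : X * t = t * X := by ring
    rw [e2, e3] at e1
    exact e1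
  have harc := arcs_le (q := q) (s := t * X) (by positivity) hqs (fun x => ‖Q x‖ ^ 2)
    (hQc.norm.pow 2) (fun x => sq_nonneg _) g
  have hpar : ∫ x, ‖Q x‖ ^ 2 = ∑ m ∈ Finset.Icc 1 N, ‖a m‖ ^ 2 := integral_norm_sq _ a
  rw [hpar] at harc
  have hcard : (Fintype.card (ZMod q)ˣ : ℝ) ≤ q := by
    rw [ZMod.card_units_eq_totient]
    exact_mod_cast Nat.totient_le q
  have hS0 : 0 ≤ ∑ m ∈ Finset.Icc 1 N, ‖a m‖ ^ 2 := Finset.sum_nonneg fun _ _ => sq_nonneg _
  calc ‖∑ m ∈ Finset.Icc 1 N, a m * ∑ b : (ZMod q)ˣ, Phi (v b) (X * m) *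
        ZMod.stdAddChar ((m : ZMod q) * (g : ZMod q) * (b : ZMod q))‖ ^ 2
      ≤ (∑ b : (ZMod q)ˣ, ∫ β in (-t)..t, ‖Q (c b + ((X * β : ℝ) : UnitAddCircle))‖) ^ 2 :=
        pow_le_pow_left₀ (norm_nonneg _) hL 2
    _ ≤ (Fintype.card (ZMod q)ˣ : ℝ) * ∑ b : (ZMod q)ˣ,
        (2 * t * ∫ β in (-t)..t, ‖Q (c b + ((X * β : ℝ) : UnitAddCircle))‖ ^ 2) := hcs
    _ = (Fintype.card (ZMod q)ˣ : ℝ) * (2 * t / X) * ∑ b : (ZMod q)ˣ,
        ∫ u in (-(t * X))..(t * X), ‖Q (c b + (u : UnitAddCircle))‖ ^ 2 := by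
        simp_rw [hsub]
        rw [← Finset.mul_sum, ← Finset.mul_sum]
        ring
    _ ≤ (q : ℝ) * (2 * t / X) * ∑ m ∈ Finset.Icc 1 N, ‖a m‖ ^ 2 := by
        refine mul_le_mul (mul_le_mul_of_nonneg_right hcard (by positivity)) harc ?_
          (by positivity)
        exact Finset.sum_nonneg fun b _ =>
          intervalIntegral.integral_nonneg (by nlinarith) (fun u _ => sq_nonneg _)
    _ = 2 * t * q / X * ∑ m ∈ Finset.Icc 1 N, ‖a m‖ ^ 2 := by ring

end Pool.Agent.Helper17.L3
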