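import Pool.Agent.Helper17.L3.B0

/-!
Block L3-C1.  The copying identity, first half: the integral of `F` against the test function of one prime.

`ker N L r v (x - y) = ∑_{|n| ≤ N} c_n ex (-n) (x - y)`, `c_n = r (1 - r|n|/L)_+ Phi v (r n)`, `ex (-n) (x - y) = ex (-n) x * ex n y`
(`ex_add_arg`).  `F N x = ∑_{n=1}^N μ(n) ex n x`; orthogonality (`integral_ex`, `ex_add`):
`∫ F N x * ker N L r v (x - y) dx = ∑_{n=1}^N μ(n) c_n ex n y = ∑_{n=1}^N r μ(n) Psi L v (r n) ex n y`.   (`int_F_ker`)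

Sum over `b` and `1 ≤ a ≤ p - 1`, `y = g b/q + a/p`: `ex n y = stdAddChar (n g b) * ec (n a / p)` and
`∑_{a=1}^{p-1} ec (n a / p) = p [p ∣ n] - 1` (geometric sum / roots of unity).   (`int_F_TT`)
-/

namespace Pool.Agent.Helper17.L3

open MeasureTheory Pool.Agent.Helper25.MOB

private theorem intble32 {f : UnitAddCircle → ℂ} (hf : Continuous f) : Integrable f volume :=
  hf.integrable_of_hasCompactSupport (HasCompactSupport.of_compactSpace f)

private theorem ex_sub32 (n : ℤ) (x y : UnitAddCircle) : ex (-n) (x - y) = ex (-n) x * ex n y := by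
  rw [sub_eq_add_neg, ex_add_arg]
  congr 1
  unfold ex
  rw [fourier_apply, fourier_apply, neg_smul, smul_neg, neg_neg]

private theorem continuous_ker32 (N : ℕ) (L r : ℝ) (v : ℝ → ℂ) : Continuous (ker N L r v) := by
  unfold ker
  exact continuous_finsetSum _ fun n _ => continuous_const.mul (continuous_ex _)

theorem int_F_ker {N : ℕ} {L r : ℝ} (v : ℝ → ℂ) (hr : 0 < r) (y : UnitAddCircle) :
    ∫ x, F N x * ker N L r v (x - y) =
      ∑ n ∈ Finset.Icc 1 N, (r : ℂ) * mu n * Psi L v (r * n) * ex n y := by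
  have h1 : ∀ x : UnitAddCircle, F N x * ker N L r v (x - y) =
      ∑ m ∈ Finset.Icc 1 N, ∑ n ∈ Finset.Icc (-(N : ℤ)) N,
        (mu m * ((r : ℂ) * (kf L (r * |(n : ℝ)|) : ℂ) * Phi v (r * n)) * ex n y) *
          ex ((m : ℤ) - n) x := by
    intro x
    unfold F ker
    rw [Finset.sum_mul_sum]
    refine Finset.sum_congr rfl fun m _ => Finset.sum_congr rfl fun n _ => ?_
    rw [ex_sub32, sub_eq_add_neg, ex_add]
    unfold mu
    ring
  simp_rw [h1]
  have hc : ∀ (m : ℕ) (n : ℤ), Continuous fun x : UnitAddCircle =>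
      (mu m * ((r : ℂ) * (kf L (r * |(n : ℝ)|) : ℂ) * Phi v (r * n)) * ex n y) *
          ex ((m : ℤ) - n) x := fun m n => continuous_const.mul (continuous_ex _)
  rw [integral_finsetSum _ fun m _ => intble32 (continuous_finsetSum _ fun n _ => hc m n)]
  refine Finset.sum_congr rfl fun m hm => ?_
  rw [Finset.mem_Icc] at hm
  rw [integral_finsetSum _ fun n _ => intble32 (hc m n)]
  have h3 : ∀ n ∈ Finset.Icc (-(N : ℤ)) N, (∫ x : UnitAddCircle,
      (mu m * ((r : ℂ) * (kf L (r * |(n : ℝ)|) : ℂ) * Phi v (r * n)) * ex n y) *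
          ex ((m : ℤ) - n) x) =
      if n = (m : ℤ) then (r : ℂ) * mu m * Psi L v (r * m) * ex m y else 0 := by
    intro n _
    rw [integral_const_mul, integral_ex]
    by_cases h : n = (m : ℤ)
    · subst h
      rw [if_pos (by omega), if_pos rfl, mul_one]
      unfold Psi
      have e : |(((m : ℕ) : ℤ) : ℝ)| = (m : ℝ) := by
        rw [Int.cast_natCast]
        exact abs_of_nonneg (Nat.cast_nonneg m)
      rw [e, Int.cast_natCast]
      ring
    · rw [if_neg h, if_neg (by omega), mul_zero]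
  rw [Finset.sum_congr rfl h3, Finset.sum_ite_eq', if_pos]
  rw [Finset.mem_Icc]
  constructor <;> omega

private theorem ec_int32 (n : ℤ) : ec n = 1 := by
  rw [ec]
  have h : (2 * Real.pi * Complex.I * ((n : ℤ) : ℝ) : ℂ) = n * (2 * Real.pi * Complex.I) := by
    push_cast
    ring
  rw [h, Complex.exp_int_mul_two_pi_mul_I]

private theorem ec_eq_one32 {x : ℝ} (h : ec x = 1) : ∃ n : ℤ, x = n := by
  rw [ec, Complex.exp_eq_one_iff] at h
  obtain ⟨n, hn⟩ := h
  refine ⟨n, ?_⟩
  have h2 : (2 * Real.pi * Complex.I : ℂ) ≠ 0 := Complex.two_pi_I_ne_zero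
  have h3 : (2 * Real.pi * Complex.I : ℂ) * x = (2 * Real.pi * Complex.I) * n := by
    rw [hn]
    ring
  have h4 := mul_left_cancel₀ h2 h3
  exact_mod_cast h4

theorem sum_ec {p : ℕ} (hp : 0 < p) (n : ℤ) :
    ∑ a ∈ Finset.Icc 1 (p - 1), ec (n * ((a : ℝ) / p)) = (if (p : ℤ) ∣ n then (p : ℂ) else 0) - 1 := by
  have hp' : (p : ℝ) ≠ 0 := by exact_mod_cast hp.ne'
  have hpow : ∀ a : ℕ, ec (n * ((a : ℝ) / p)) = ec ((n : ℝ) / p) ^ a := by
    intro a
    induction a with
    | zero =>
      have := ec_int32 0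
      simpa using this
    | succ a ih =>
      rw [pow_succ, ← ih, ← ec_add]
      congr 1
      push_cast
      ring
  have hset : Finset.Icc 1 (p - 1) = Finset.Ico 1 p := by
    ext a
    rw [Finset.mem_Icc, Finset.mem_Ico]
    omega
  have hsum : ∑ a ∈ Finset.range p, ec ((n : ℝ) / p) ^ a =
      1 + ∑ a ∈ Finset.Icc 1 (p - 1), ec (n * ((a : ℝ) / p)) := by
    rw [hset, Finset.range_eq_Ico, Finset.sum_eq_sum_Ico_succ_bot hp, pow_zero]
    congr 1
    exact Finset.sum_congr rfl fun a _ => (hpow a).symm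
  have hval : ∑ a ∈ Finset.range p, ec ((n : ℝ) / p) ^ a = if (p : ℤ) ∣ n then (p : ℂ) else 0 := by
    split_ifs with h
    · obtain ⟨k, rfl⟩ := h
      have e : ((((p : ℤ) * k : ℤ) : ℝ) / p) = ((k : ℤ) : ℝ) := by
        push_cast
        field_simp
      rw [e, ec_int32]
      simp
    · have hne : ec ((n : ℝ) / p) ≠ 1 := by
        intro h1
        obtain ⟨k, hk⟩ := ec_eq_one32 h1
        apply h
        refine ⟨k, ?_⟩
        rw [div_eq_iff hp'] at hk
        have : (n : ℝ) = ((p : ℤ) * k : ℤ) := by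
          rw [hk]
          push_cast
          ring
        exact_mod_cast this
      have h2 := mul_neg_geom_sum (ec ((n : ℝ) / p)) p
      have h3 : ec ((n : ℝ) / p) ^ p = 1 := by
        rw [← hpow p]
        have e : (n : ℝ) * ((p : ℝ) / p) = n := by
          rw [div_self hp', mul_one]
        rw [e]
        exact ec_int32 n
      rw [h3, sub_self] at h2
      rcases mul_eq_zero.mp h2 with h4 | h4
      · exact absurd (sub_eq_zero.mp h4).symm hne
      · exact h4
  rw [← hval, hsum]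
  ring

theorem int_F_TT {q : ℕ} [NeZero q] {N : ℕ} {L r : ℝ} (w : (ZMod q)ˣ → ℝ → ℂ) (hr : 0 < r)
    {p : ℕ} (hp : 0 < p) (g : ZMod q) :
    ∫ x, F N x * TT N L r w p g x =
      ∑ b : (ZMod q)ˣ, ∑ n ∈ Finset.Icc 1 N,
        (r : ℂ) * mu n * Psi L (w b) (r * n) * ZMod.stdAddChar ((n : ZMod q) * g * (b : ZMod q)) *
          ((if p ∣ n then (p : ℂ) else 0) - 1) := by
  have hcF : Continuous (F N) := by
    unfold F
    exact continuous_finsetSum _ fun n _ => continuous_const.mul (continuous_ex _)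
  have h1 : ∀ x : UnitAddCircle, F N x * TT N L r w p g x =
      ∑ b : (ZMod q)ˣ, ∑ a ∈ Finset.Icc 1 (p - 1), F N x * ker N L r (w b) (x - pnt p g b a) := by
    intro x
    unfold TT
    rw [Finset.mul_sum]
    exact Finset.sum_congr rfl fun b _ => Finset.mul_sum _ _ _
  simp_rw [h1]
  have hc : ∀ (b : (ZMod q)ˣ) (a : ℕ), Continuous fun x : UnitAddCircle =>
      F N x * ker N L r (w b) (x - pnt p g b a) := fun b a =>
    hcF.mul ((continuous_ker32 N L r (w b)).comp (continuous_id.sub continuous_const))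
  rw [integral_finsetSum _ fun b _ => intble32 (continuous_finsetSum _ fun a _ => hc b a)]
  refine Finset.sum_congr rfl fun b _ => ?_
  rw [integral_finsetSum _ fun a _ => intble32 (hc b a)]
  rw [Finset.sum_congr rfl fun a _ => int_F_ker (w b) hr (pnt p g b a), Finset.sum_comm]
  refine Finset.sum_congr rfl fun n _ => ?_
  have h2 : ∀ a : ℕ, ex n (pnt p g b a) =
      ZMod.stdAddChar ((n : ZMod q) * g * (b : ZMod q)) * ec ((n : ℤ) * ((a : ℝ) / p)) := by
    intro a
    unfold pnt
    rw [ex_add_arg, ex_toAddCircle, ex_real]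
    congr 2
    push_cast
    ring
  simp_rw [h2]
  have h3 := sum_ec hp (n : ℤ)
  have h4 : (if (p : ℤ) ∣ (n : ℤ) then (p : ℂ) else 0) = if p ∣ n then (p : ℂ) else 0 := by
    simp only [Int.natCast_dvd_natCast]
  rw [h4] at h3
  rw [← h3, Finset.mul_sum]
  exact Finset.sum_congr rfl fun a _ => by ring

end Pool.Agent.Helper17.L3
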