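import Pool.Agent.Helper17.L3.C1

/-!
Block L3-C2.  The copying identity.

By `int_F_TT` the integral is `- hh r g + p ∑_b ∑_{n ≤ N, p ∣ n} r μ(n) Psi(r n) e(n g b/q)`; put `n = p m`, `m ≤ N / p`
(we may let `m` run over `[1, N]`: for `p m > N` we have `r p m ≥ p m > N ≥ L`, so `Psi L (w b) (r p m) = 0`).  Also
`hh (r p) (g p) = ∑_b ∑_{m ≤ N} r p μ(m) Psi (r p m) e(m g p b/q)`.  The sum of the three terms is
`∑_b ∑_{m ≤ N} r p (μ(p m) + μ(m)) Psi(r p m) e(..)`, and `μ(p m) + μ(m) = 0` for `p ∤ m` (`μ(p) = -1`, multiplicative on coprime),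
`= μ(m)` for `p ∣ m` (`p² ∣ p m`).  So its norm is at most
`q * r p * #{m ≤ N : p ∣ m, r p m < L} * 2 t ≤ q r p * L/(r p²) * 2t = 2 q L t / p`
(`m = p k`: `card_lt` with `X = r p²`; `norm_Psi_le`, `Psi_eq_zero`, `#(ZMod q)ˣ = φ(q) ≤ q`, `‖stdAddChar‖ = 1`).
-/

namespace Pool.Agent.Helper17.L3

open MeasureTheory Pool.Agent.Helper25.MOB

private theorem sum_dvd99 {N p : ℕ} (hp : 0 < p) (f : ℕ → ℂ) (h0 : ∀ m, N < p * m → f (p * m) = 0) :
    ∑ n ∈ Finset.Icc 1 N, (if p ∣ n then f n else 0) = ∑ m ∈ Finset.Icc 1 N, f (p * m) := by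
  rw [← Finset.sum_filter]
  have h1 : ∑ m ∈ Finset.Icc 1 N, f (p * m) =
      ∑ m ∈ (Finset.Icc 1 N).filter (fun m => p * m ≤ N), f (p * m) := by
    symm
    apply Finset.sum_subset (Finset.filter_subset _ _)
    intro m hm hm'
    apply h0
    by_contra hcon
    exact hm' (Finset.mem_filter.2 ⟨hm, not_lt.1 hcon⟩)
  rw [h1]
  symm
  apply Finset.sum_nbij (fun m => p * m)
  · intro m hm
    simp only [Finset.mem_filter, Finset.mem_Icc] at hm ⊢
    exact ⟨⟨Nat.mul_pos hp hm.1.1, hm.2⟩, dvd_mul_right _ _⟩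
  · intro a _ b _ hab
    exact Nat.eq_of_mul_eq_mul_left hp hab
  · intro n hn
    simp only [Finset.coe_filter, Finset.mem_Icc, Set.mem_ofPred_eq] at hn
    obtain ⟨⟨hn1, hnN⟩, m, rfl⟩ := hn
    refine ⟨m, ?_, rfl⟩
    simp only [Finset.coe_filter, Finset.mem_Icc, Set.mem_ofPred_eq]
    refine ⟨⟨Nat.pos_of_ne_zero ?_, ?_⟩, hnN⟩
    · rintro rfl
      simp at hn1
    · exact (Nat.le_mul_of_pos_left m hp).trans hnN
  · intro m _
    rfl

private theorem mu_mul99 {p m : ℕ} (hp : p.Prime) :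
    ‖mu (p * m) + mu m‖ ≤ if p ∣ m then 1 else 0 := by
  have hmu : ∀ n : ℕ, ‖mu n‖ ≤ 1 := by
    intro n
    unfold mu
    rw [Complex.norm_intCast]
    exact_mod_cast ArithmeticFunction.abs_moebius_le_one
  split_ifs with h
  · have h1 : mu (p * m) = 0 := by
      unfold mu
      rw [ArithmeticFunction.moebius_eq_zero_of_not_squarefree]
      · simp
      · intro hsq
        obtain ⟨k, rfl⟩ := h
        have h2 : p * p ∣ p * (p * k) := ⟨k, by ring⟩
        have h3 := hsq p h2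
        exact hp.one_lt.ne' (Nat.isUnit_iff.1 h3)
    rw [h1, zero_add]
    exact hmu m
  · have h1 : mu (p * m) = -mu m := by
      unfold mu
      rw [ArithmeticFunction.isMultiplicative_moebius.map_mul_of_coprime
        ((Nat.Prime.coprime_iff_not_dvd hp).2 h), ArithmeticFunction.moebius_apply_prime hp]
      push_cast
      ring
    rw [h1, neg_add_cancel, norm_zero]

private theorem card99 {N p : ℕ} {L r : ℝ} (hp : 0 < p) (hr : 0 < r) (hL : 0 < L) :
    (((Finset.Icc 1 N).filter fun m : ℕ => p ∣ m ∧ r * p * m < L).card : ℝ) ≤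
      L / (r * p * p) := by
  have hp' : (0 : ℝ) < p := by exact_mod_cast hp
  refine le_trans ?_ (card_lt (N := N) (X := r * p * p) (by positivity) hL.le)
  have h1 : ((Finset.Icc 1 N).filter fun m : ℕ => p ∣ m ∧ r * p * m < L) ⊆
      ((Finset.Icc 1 N).filter fun m : ℕ => r * p * p * m < L).image (fun k => p * k) := by
    intro m hm
    simp only [Finset.mem_filter, Finset.mem_Icc] at hm
    obtain ⟨⟨h1, h2⟩, ⟨k, rfl⟩, h3⟩ := hm
    refine Finset.mem_image.2 ⟨k, ?_, rfl⟩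
    simp only [Finset.mem_filter, Finset.mem_Icc]
    refine ⟨⟨Nat.pos_of_ne_zero (by rintro rfl; simp at h1),
      (Nat.le_mul_of_pos_left k hp).trans h2⟩, ?_⟩
    push_cast at h3
    calc r * p * p * k = r * p * (p * k) := by ring
      _ < L := h3
  exact_mod_cast (Finset.card_le_card h1).trans Finset.card_image_le

theorem copy {q : ℕ} [NeZero q] {N : ℕ} {L t r : ℝ} {w : (ZMod q)ˣ → ℝ → ℂ}
    (hw : ∀ b, Ph t (w b)) (ht : 0 ≤ t) (hL : 0 < L) (hLN : L ≤ N) (hr : 1 ≤ r)
    {p : ℕ} (hp : p.Prime) (g : ZMod q) :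
    ‖(∫ x, F N x * TT N L r w p g x) + hh N L w r g + hh N L w (r * p) (g * p)‖ ≤
      2 * q * L * t / p := by
  have hp0 : 0 < p := hp.pos
  have hp1 : (1 : ℝ) ≤ p := by exact_mod_cast hp0
  have hp0' : (0 : ℝ) < p := by linarith
  have hr0 : 0 < r := by linarith
  rw [int_F_TT w hr0 hp0 g]
  have hb : ∀ b : (ZMod q)ˣ,
      (∑ n ∈ Finset.Icc 1 N,
        (r : ℂ) * mu n * Psi L (w b) (r * n) * ZMod.stdAddChar ((n : ZMod q) * g * (b : ZMod q)) *
          ((if p ∣ n then (p : ℂ) else 0) - 1)) +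
      (∑ m ∈ Finset.Icc 1 N,
        (r : ℂ) * mu m * Psi L (w b) (r * m) * ZMod.stdAddChar ((m : ZMod q) * g * (b : ZMod q))) +
      (∑ m ∈ Finset.Icc 1 N,
        ((r * p : ℝ) : ℂ) * mu m * Psi L (w b) (r * p * m) *
          ZMod.stdAddChar ((m : ZMod q) * (g * (p : ZMod q)) * (b : ZMod q))) =
      ∑ m ∈ Finset.Icc 1 N,
        ((r * p : ℝ) : ℂ) * (mu (p * m) + mu m) * Psi L (w b) (r * p * m) *
          ZMod.stdAddChar ((m : ZMod q) * (g * (p : ZMod q)) * (b : ZMod q)) := by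
    intro b
    have h1 := sum_dvd99 (N := N) hp0 (fun n : ℕ => (r : ℂ) * mu n * Psi L (w b) (r * n) *
      ZMod.stdAddChar ((n : ZMod q) * g * (b : ZMod q)) * (p : ℂ)) (by
        intro m hm
        have h2 : L ≤ r * ((p * m : ℕ) : ℝ) := by
          have h3 : (N : ℝ) ≤ ((p * m : ℕ) : ℝ) := by exact_mod_cast hm.le
          have h4 : (0 : ℝ) ≤ ((p * m : ℕ) : ℝ) := Nat.cast_nonneg _
          nlinarith
        rw [Psi_eq_zero hL h2]
        ring)
    have h2 : ∀ m : ℕ, (r : ℂ) * mu (p * m) * Psi L (w b) (r * ((p * m : ℕ) : ℝ)) *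
        ZMod.stdAddChar (((p * m : ℕ) : ZMod q) * g * (b : ZMod q)) * (p : ℂ) =
        ((r * p : ℝ) : ℂ) * mu (p * m) * Psi L (w b) (r * p * m) *
          ZMod.stdAddChar ((m : ZMod q) * (g * (p : ZMod q)) * (b : ZMod q)) := by
      intro m
      have e1 : r * ((p * m : ℕ) : ℝ) = r * p * m := by push_cast; ring
      have e2 : ((p * m : ℕ) : ZMod q) * g * (b : ZMod q) =
          (m : ZMod q) * (g * (p : ZMod q)) * (b : ZMod q) := by push_cast; ring
      rw [e1, e2]
      push_cast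
      ring
    simp only [h2] at h1
    have h3 : ∀ n : ℕ, (r : ℂ) * mu n * Psi L (w b) (r * n) *
        ZMod.stdAddChar ((n : ZMod q) * g * (b : ZMod q)) *
          ((if p ∣ n then (p : ℂ) else 0) - 1) =
        (if p ∣ n then (r : ℂ) * mu n * Psi L (w b) (r * n) *
          ZMod.stdAddChar ((n : ZMod q) * g * (b : ZMod q)) * (p : ℂ) else 0) -
        (r : ℂ) * mu n * Psi L (w b) (r * n) *
          ZMod.stdAddChar ((n : ZMod q) * g * (b : ZMod q)) := by
      intro n
      split_ifs <;> ring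
    simp only [h3, Finset.sum_sub_distrib]
    rw [h1, sub_add_cancel, ← Finset.sum_add_distrib]
    refine Finset.sum_congr rfl fun m _ => ?_
    ring
  unfold hh
  rw [← Finset.sum_add_distrib, ← Finset.sum_add_distrib]
  simp only [hb]
  have hterm : ∀ (b : (ZMod q)ˣ) (m : ℕ),
      ‖((r * p : ℝ) : ℂ) * (mu (p * m) + mu m) * Psi L (w b) (r * p * m) *
          ZMod.stdAddChar ((m : ZMod q) * (g * (p : ZMod q)) * (b : ZMod q))‖ ≤
      if p ∣ m ∧ r * p * m < L then r * p * (2 * t) else 0 := by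
    intro b m
    have hy : (0 : ℝ) ≤ r * p * m := by positivity
    have hchar : ‖ZMod.stdAddChar ((m : ZMod q) * (g * (p : ZMod q)) * (b : ZMod q))‖ = 1 :=
      AddChar.norm_apply _ _
    rw [norm_mul, norm_mul, norm_mul, hchar, mul_one, Complex.norm_real, Real.norm_eq_abs,
      abs_of_nonneg (by positivity : (0 : ℝ) ≤ r * p)]
    have h1 := mu_mul99 (m := m) hp
    by_cases hm : p ∣ m
    · by_cases hm2 : r * p * m < L
      · rw [if_pos ⟨hm, hm2⟩]
        rw [if_pos hm] at h1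
        have h2 := norm_Psi_le hL ht (hw b) hy
        calc r * p * ‖mu (p * m) + mu m‖ * ‖Psi L (w b) (r * p * m)‖
            ≤ r * p * 1 * (2 * t) := by
              apply mul_le_mul (mul_le_mul_of_nonneg_left h1 (by positivity)) h2
                (norm_nonneg _) (by positivity)
          _ = r * p * (2 * t) := by ring
      · rw [if_neg (fun h => hm2 h.2), Psi_eq_zero hL (not_lt.1 hm2), norm_zero, mul_zero]
    · rw [if_neg (fun h => hm h.1)]
      rw [if_neg hm] at h1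
      have h3 : ‖mu (p * m) + mu m‖ = 0 := le_antisymm h1 (norm_nonneg _)
      rw [h3, mul_zero, zero_mul]
  have hsum : ∀ b : (ZMod q)ˣ,
      ‖∑ m ∈ Finset.Icc 1 N,
        ((r * p : ℝ) : ℂ) * (mu (p * m) + mu m) * Psi L (w b) (r * p * m) *
          ZMod.stdAddChar ((m : ZMod q) * (g * (p : ZMod q)) * (b : ZMod q))‖ ≤ 2 * L * t / p := by
    intro b
    refine (norm_sum_le _ _).trans ((Finset.sum_le_sum fun m _ => hterm b m).trans ?_)
    rw [← Finset.sum_filter, Finset.sum_const, nsmul_eq_mul]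
    have h1 := card99 (N := N) hp0 hr0 hL
    calc _ ≤ L / (r * p * p) * (r * p * (2 * t)) :=
          mul_le_mul_of_nonneg_right h1 (by positivity)
      _ = 2 * L * t / p := by field_simp
  refine (norm_sum_le _ _).trans ((Finset.sum_le_sum fun b _ => hsum b).trans ?_)
  rw [Finset.sum_const, nsmul_eq_mul, Finset.card_univ, ZMod.card_units_eq_totient]
  have h1 : ((q.totient : ℕ) : ℝ) ≤ q := by exact_mod_cast Nat.totient_le q
  calc (q.totient : ℝ) * (2 * L * t / p) ≤ q * (2 * L * t / p) :=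
        mul_le_mul_of_nonneg_right h1 (by positivity)
    _ = 2 * q * L * t / p := by ring

end Pool.Agent.Helper17.L3
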