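import Mathlib

/-!
Block L3-CHAIN.  Chaining over the blocks.

Let `v_k ∈ [U₁ + kℓ, U₁ + (k+1)ℓ]`, `c_k` from `hv` (`u = U₁ + kℓ`, for `k = 0, 1, …` as long as `u ≤ U₂`; `‖c_k‖ = 1`).
For `x ∈ [0, T]`: `‖H(v_k + x) - c_k exp(iλx)‖ ≤ 2ε`.  Put `κ_k = c_k exp(-iλ v_k)`: `‖H y - κ_k exp(iλy)‖ ≤ 2ε` for
`y ∈ [v_k, v_k + T]`.  As `0 ≤ v_{k+1} - v_k ≤ 2ℓ ≤ T`, at `y = v_{k+1}` both hold: `‖κ_{k+1} - κ_k‖ ≤ 4ε`.  So `‖κ_k - κ_0‖ ≤ 4kε`.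
For `y ∈ [U₁ + ℓ, U₂]` let `k = ⌊(y - U₁)/ℓ⌋ - 1 ≥ 0`: `v_k ≤ U₁ + (k+1)ℓ ≤ y ≤ U₁ + (k+2)ℓ ≤ v_k + 2ℓ`; `U₁ + kℓ ≤ U₂`.
`k ≤ (U₂ - U₁)/ℓ ≤ n`.  Error `2ε + 4nε`.
-/

namespace Pool.Agent.Helper17.L3

private lemma chain_norm (lam y : ℝ) : ‖Complex.exp (lam * y * Complex.I)‖ = 1 := by
  rw [show ((lam : ℂ) * y * Complex.I) = ((lam * y : ℝ) : ℂ) * Complex.I by push_cast; ring]
  exact Complex.norm_exp_ofReal_mul_I _

theorem chain {H : ℝ → ℂ} {T U₁ U₂ ε lam ℓ : ℝ} (n : ℕ) (hℓ : 0 < ℓ) (hT : 2 * ℓ ≤ T)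
    (hε : 0 ≤ ε) (hU : U₁ + ℓ ≤ U₂) (hn : U₂ - U₁ ≤ n * ℓ)
    (h0 : ∀ x, 0 ≤ x → x ≤ T → ‖H x - Complex.exp (lam * x * Complex.I)‖ ≤ ε)
    (hv : ∀ u, U₁ ≤ u → u ≤ U₂ → ∃ v, u ≤ v ∧ v ≤ u + ℓ ∧ ∃ c : ℂ, ‖c‖ = 1 ∧
      ∀ x, 0 ≤ x → x ≤ T → ‖H (v + x) - c * H x‖ ≤ ε) :
    ∃ κ : ℂ, ‖κ‖ = 1 ∧ ∀ y, U₁ + ℓ ≤ y → y ≤ U₂ →
      ‖H y - κ * Complex.exp (lam * y * Complex.I)‖ ≤ (4 * n + 2) * ε := by
  choose! v hv1 hv2 c hc hH using hv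
  set κ : ℝ → ℂ := fun u => c u * Complex.exp (-(lam * v u * Complex.I)) with hκ
  have hκn : ∀ u, U₁ ≤ u → u ≤ U₂ → ‖κ u‖ = 1 := by
    intro u h1 h2
    have h3 : ‖Complex.exp (-(lam * v u * Complex.I))‖ = 1 := by
      have := chain_norm (-lam) (v u)
      rw [← this]
      congr 2
      push_cast
      ring
    rw [hκ]
    simp only [norm_mul, hc u h1 h2, h3, mul_one]
  -- claim A
  have hA : ∀ u, U₁ ≤ u → u ≤ U₂ → ∀ y, v u ≤ y → y ≤ v u + T →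
      ‖H y - κ u * Complex.exp (lam * y * Complex.I)‖ ≤ 2 * ε := by
    intro u h1 h2 y h3 h4
    have h5 := hH u h1 h2 (y - v u) (by linarith) (by linarith)
    have h6 := h0 (y - v u) (by linarith) (by linarith)
    rw [show v u + (y - v u) = y by ring] at h5
    have h7 : κ u * Complex.exp (lam * y * Complex.I) =
        c u * Complex.exp (lam * (y - v u : ℝ) * Complex.I) := by
      rw [hκ]
      simp only
      rw [mul_assoc, ← Complex.exp_add]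
      congr 2
      push_cast
      ring
    rw [h7]
    have h8 : H y - c u * Complex.exp (lam * (y - v u : ℝ) * Complex.I) =
        (H y - c u * H (y - v u)) +
          c u * (H (y - v u) - Complex.exp (lam * (y - v u : ℝ) * Complex.I)) := by ring
    rw [h8]
    calc ‖(H y - c u * H (y - v u)) +
          c u * (H (y - v u) - Complex.exp (lam * (y - v u : ℝ) * Complex.I))‖
        ≤ ‖H y - c u * H (y - v u)‖ +
          ‖c u * (H (y - v u) - Complex.exp (lam * (y - v u : ℝ) * Complex.I))‖ := norm_add_le _ _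
      _ ≤ ε + ε := by
          rw [norm_mul, hc u h1 h2, one_mul]
          exact add_le_add h5 h6
      _ = 2 * ε := by ring
  -- claim B
  have hB : ∀ u, U₁ ≤ u → u + ℓ ≤ U₂ → ‖κ (u + ℓ) - κ u‖ ≤ 4 * ε := by
    intro u h1 h2
    have a1 : U₁ ≤ u + ℓ := by linarith
    have a2 : u ≤ U₂ := by linarith
    have b1 := hv1 u h1 a2
    have b2 := hv2 u h1 a2
    have b3 := hv1 (u + ℓ) a1 h2
    have b4 := hv2 (u + ℓ) a1 h2
    have c1 := hA (u + ℓ) a1 h2 (v (u + ℓ)) le_rfl (by linarith)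
    have c2 := hA u h1 a2 (v (u + ℓ)) (by linarith) (by linarith)
    have h9 : ‖κ (u + ℓ) - κ u‖ =
        ‖(κ (u + ℓ) - κ u) * Complex.exp (lam * v (u + ℓ) * Complex.I)‖ := by
      rw [norm_mul, chain_norm, mul_one]
    rw [h9]
    have h10 : (κ (u + ℓ) - κ u) * Complex.exp (lam * v (u + ℓ) * Complex.I) =
        (H (v (u + ℓ)) - κ u * Complex.exp (lam * v (u + ℓ) * Complex.I)) -
          (H (v (u + ℓ)) - κ (u + ℓ) * Complex.exp (lam * v (u + ℓ) * Complex.I)) := by ring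
    rw [h10]
    refine (norm_sub_le _ _).trans ?_
    linarith
  -- claim C
  have hC : ∀ k : ℕ, U₁ + k * ℓ ≤ U₂ → ‖κ (U₁ + k * ℓ) - κ U₁‖ ≤ 4 * k * ε := by
    intro k
    induction k with
    | zero => intro _; simp
    | succ k ih =>
      intro h
      push_cast at h ⊢
      have h1 : U₁ + k * ℓ ≤ U₂ := by linarith
      have h2 := ih h1
      have h3 : (0 : ℝ) ≤ k * ℓ := by positivity
      have h4 := hB (U₁ + k * ℓ) (by linarith) (by linarith)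
      rw [show U₁ + (k : ℝ) * ℓ + ℓ = U₁ + (k + 1) * ℓ by ring] at h4
      calc ‖κ (U₁ + (k + 1) * ℓ) - κ U₁‖
          = ‖(κ (U₁ + (k + 1) * ℓ) - κ (U₁ + k * ℓ)) + (κ (U₁ + k * ℓ) - κ U₁)‖ := by
            congr 1; ring
        _ ≤ 4 * ε + 4 * k * ε := (norm_add_le _ _).trans (add_le_add h4 h2)
        _ = 4 * (k + 1) * ε := by ring
  refine ⟨κ U₁, hκn U₁ le_rfl (by linarith), ?_⟩
  intro y hy1 hy2
  have hm1 : 1 ≤ (y - U₁) / ℓ := by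
    rw [le_div_iff₀ hℓ]; linarith
  have hm2 : 1 ≤ ⌊(y - U₁) / ℓ⌋₊ := by
    rw [Nat.one_le_floor_iff]; exact hm1
  obtain ⟨k, hk⟩ : ∃ k, ⌊(y - U₁) / ℓ⌋₊ = k + 1 := ⟨⌊(y - U₁) / ℓ⌋₊ - 1, by omega⟩
  have hf1 : ((k : ℝ) + 1) * ℓ ≤ y - U₁ := by
    have h1 := Nat.floor_le (show 0 ≤ (y - U₁) / ℓ by linarith)
    rw [hk] at h1
    push_cast at h1
    rwa [le_div_iff₀ hℓ] at h1
  have hf2 : y - U₁ < ((k : ℝ) + 1 + 1) * ℓ := by
    have h1 := Nat.lt_floor_add_one ((y - U₁) / ℓ)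
    rw [hk] at h1
    push_cast at h1
    rwa [div_lt_iff₀ hℓ] at h1
  have hk0 : (0 : ℝ) ≤ k := Nat.cast_nonneg k
  have hkℓ : 0 ≤ (k : ℝ) * ℓ := by positivity
  have hu2 : U₁ + k * ℓ ≤ U₂ := by linarith
  have b1 := hv1 (U₁ + k * ℓ) (by linarith) hu2
  have b2 := hv2 (U₁ + k * ℓ) (by linarith) hu2
  have e1 := hA (U₁ + k * ℓ) (by linarith) hu2 y (by linarith) (by linarith)
  have e2 := hC k hu2
  have hkn : (k : ℝ) ≤ n := by
    have h1 : (k : ℝ) * ℓ ≤ n * ℓ := by linarith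
    exact le_of_mul_le_mul_right h1 hℓ
  have h11 : H y - κ U₁ * Complex.exp (lam * y * Complex.I) =
      (H y - κ (U₁ + k * ℓ) * Complex.exp (lam * y * Complex.I)) +
        (κ (U₁ + k * ℓ) - κ U₁) * Complex.exp (lam * y * Complex.I) := by ring
  rw [h11]
  calc ‖(H y - κ (U₁ + k * ℓ) * Complex.exp (lam * y * Complex.I)) +
        (κ (U₁ + k * ℓ) - κ U₁) * Complex.exp (lam * y * Complex.I)‖
      ≤ 2 * ε + 4 * k * ε := by
        refine (norm_add_le _ _).trans (add_le_add e1 ?_)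
        rw [norm_mul, chain_norm, mul_one]
        exact e2
    _ ≤ 2 * ε + 4 * n * ε := by gcongr
    _ = (4 * n + 2) * ε := by ring

end Pool.Agent.Helper17.L3
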