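import Mathlib

/-!
Block L3-CHI.  Extraction of one character.

Let `K = #P`.  Average over `p, p' ∈ P` at `g = 1`: `‖f 1 - K⁻² ∑_{p,p'} f (u p (u p')⁻¹)‖ ≤ δ`.
Fourier inversion on `G = (ZMod q)ˣ`: `f g = ∑_χ χ(g) c χ`, `c χ = (1/φ(q)) ∑_g χ⁻¹(g) f g`
(`DirichletCharacter.sum_char_inv_mul_char_eq`).  So the average is `∑_χ |π χ|² c χ` with `π χ = K⁻¹ ∑_{p ∈ P} χ(p)`, and
`∑_χ |π χ|² = φ(q) ∑_{c : ZMod q} π(c)²`, `π(c) = #{p ∈ P : p ≡ c}/K` (orthogonality), and `π(c) ≤ (D/q + 1)/K ≤ 2D/(qK)` (`P` lies in an interval of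
`D ≥ q` integers), `∑_c π(c) = 1`: so `∑_χ |π χ|² ≤ φ(q) 2D/(qK) ≤ 2D/K`.
Let `χ` be such that `‖c χ‖` is maximal: `‖f 1‖ ≤ δ + (2D/K) ‖c χ‖`.
-/

namespace Pool.Agent.Helper17.L3

/-- the number of elements of `P` in one residue class -/
private theorem chi30_count {q : ℕ} [NeZero q] (P : Finset ℕ) {Y D : ℕ}
    (hY : ∀ p ∈ P, Y ≤ p ∧ p < Y + D) (hD : q ≤ D) (p : ℕ) :
    ((P.filter (fun p' : ℕ => ((p : ℕ) : ZMod q) = ((p' : ℕ) : ZMod q))).card : ℝ) ≤ 2 * D / q := by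
  have hq : 0 < q := Nat.pos_of_ne_zero (NeZero.ne q)
  have h1 : P.filter (fun p' : ℕ => ((p : ℕ) : ZMod q) = ((p' : ℕ) : ZMod q)) ⊆
      (Finset.Ico Y (Y + D)).filter (fun x => x ≡ p [MOD q]) := by
    intro x hx
    rw [Finset.mem_filter] at hx ⊢
    rw [Finset.mem_Ico]
    refine ⟨hY x hx.1, ?_⟩
    rw [← ZMod.natCast_eq_natCast_iff]
    exact hx.2.symm
  have h2 := Finset.card_le_card h1
  have h3 := Nat.Ico_filter_modEq_card Y (Y + D) hq p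
  have hq' : (0 : ℚ) < q := by exact_mod_cast hq
  have h4 : (((Finset.Ico Y (Y + D)).filter (fun x => x ≡ p [MOD q])).card : ℤ) ≤
      max (⌈(((Y + D : ℕ) : ℚ) - p) / (q : ℚ)⌉ - ⌈((Y : ℚ) - p) / (q : ℚ)⌉) 0 := le_of_eq h3
  have h5 : ((((Finset.Ico Y (Y + D)).filter (fun x => x ≡ p [MOD q])).card : ℤ) : ℚ) ≤
      (D : ℚ) / q + 1 := by
    refine (Int.cast_le.2 h4).trans ?_
    rw [Int.cast_max]
    apply max_le
    · push_cast
      have h6 := Int.ceil_lt_add_one (((Y : ℚ) + D - p) / (q : ℚ))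
      have h7 := Int.le_ceil (((Y : ℚ) - p) / (q : ℚ))
      have h8 : ((Y : ℚ) + D - p) / (q : ℚ) = ((Y : ℚ) - p) / q + D / q := by
        field_simp
        ring
      rw [h8] at h6 ⊢
      linarith
    · push_cast
      positivity
  have h6 : ((((Finset.Ico Y (Y + D)).filter (fun x => x ≡ p [MOD q])).card : ℕ) : ℝ) ≤
      (D : ℝ) / q + 1 := by
    have h7 := (Rat.cast_le (K := ℝ)).2 h5
    push_cast at h7
    exact h7
  have h7 : (1 : ℝ) ≤ (D : ℝ) / q := by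
    rw [le_div_iff₀ (by exact_mod_cast hq), one_mul]
    exact_mod_cast hD
  have h8 : ((P.filter (fun p' : ℕ => ((p : ℕ) : ZMod q) = ((p' : ℕ) : ZMod q))).card : ℝ) ≤
      (D : ℝ) / q + 1 := le_trans (by exact_mod_cast h2) h6
  calc _ ≤ (D : ℝ) / q + 1 := h8
    _ ≤ (D : ℝ) / q + D / q := by linarith
    _ = 2 * D / q := by ring

private theorem chi30_inv_unit {q : ℕ} [NeZero q] (χ : DirichletCharacter ℂ q) (h : (ZMod q)ˣ) :
    χ⁻¹ (h : ZMod q) = χ ((h⁻¹ : (ZMod q)ˣ) : ZMod q) := by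
  rw [MulChar.inv_apply_eq_inv']
  symm
  apply eq_inv_of_mul_eq_one_left
  rw [← map_mul, ← Units.val_mul, inv_mul_cancel, Units.val_one, map_one]

/-- orthogonality for units -/
private theorem chi30_orth {q : ℕ} [NeZero q] (h g : (ZMod q)ˣ) :
    ∑ χ : DirichletCharacter ℂ q, χ⁻¹ (h : ZMod q) * χ (g : ZMod q) =
      if h = g then (q.totient : ℂ) else 0 := by
  have h1 := DirichletCharacter.sum_char_inv_mul_char_eq ℂ (Units.isUnit h) (g : ZMod q)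
  rw [ZMod.inv_coe_unit] at h1
  simp only [chi30_inv_unit]
  rw [h1]
  simp only [Units.val_inj]

/-- Fourier inversion -/
private theorem chi30_inv {q : ℕ} [NeZero q] (f : (ZMod q)ˣ → ℂ) (g : (ZMod q)ˣ) :
    f g = ∑ χ : DirichletCharacter ℂ q, χ (g : ZMod q) *
      ((1 / (q.totient : ℂ)) * ∑ h : (ZMod q)ˣ, χ⁻¹ (h : ZMod q) * f h) := by
  have hphi : (q.totient : ℂ) ≠ 0 := by
    exact_mod_cast (Nat.totient_pos.2 (Nat.pos_of_ne_zero (NeZero.ne q))).ne'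
  have h1 : ∑ χ : DirichletCharacter ℂ q, χ (g : ZMod q) *
      ((1 / (q.totient : ℂ)) * ∑ h : (ZMod q)ˣ, χ⁻¹ (h : ZMod q) * f h) =
      (1 / (q.totient : ℂ)) * ∑ h : (ZMod q)ˣ, (∑ χ : DirichletCharacter ℂ q,
        χ⁻¹ (h : ZMod q) * χ (g : ZMod q)) * f h := by
    simp only [Finset.mul_sum, Finset.sum_mul]
    rw [Finset.sum_comm]
    refine Finset.sum_congr rfl fun h _ => Finset.sum_congr rfl fun χ _ => ?_
    ring
  rw [h1]
  simp only [chi30_orth, ite_mul, zero_mul, Finset.sum_ite_eq', Finset.mem_univ, if_true]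
  field_simp

/-- the average over `P × P` -/
private theorem chi30_avg {q : ℕ} [NeZero q] (f : (ZMod q)ˣ → ℂ) (P : Finset ℕ) (hP : P.Nonempty)
    (u : ℕ → (ZMod q)ˣ) {δ : ℝ}
    (hδ : ∀ p ∈ P, ∀ p' ∈ P, ∀ g, ‖f g - f (g * u p * (u p')⁻¹)‖ ≤ δ) :
    ‖f 1‖ ≤ δ + ‖(1 / (P.card : ℂ) ^ 2) * ∑ p ∈ P, ∑ p' ∈ P, f (u p * (u p')⁻¹)‖ := by
  have hK : (0 : ℝ) < P.card := by exact_mod_cast hP.card_pos
  have hKc : (P.card : ℂ) ≠ 0 := by exact_mod_cast hP.card_pos.ne'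
  have h1 : f 1 = (1 / (P.card : ℂ) ^ 2) * ∑ p ∈ P, ∑ p' ∈ P, (f 1 - f (1 * u p * (u p')⁻¹)) +
      (1 / (P.card : ℂ) ^ 2) * ∑ p ∈ P, ∑ p' ∈ P, f (u p * (u p')⁻¹) := by
    have e : ∑ p ∈ P, ∑ p' ∈ P, (f 1 - f (1 * u p * (u p')⁻¹)) =
        (P.card : ℂ) ^ 2 * f 1 - ∑ p ∈ P, ∑ p' ∈ P, f (u p * (u p')⁻¹) := by
      rw [Finset.sum_congr rfl fun p _ => Finset.sum_sub_distrib _ _, Finset.sum_sub_distrib]
      simp only [one_mul]
      rw [Finset.sum_const, Finset.sum_const, nsmul_eq_mul, nsmul_eq_mul]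
      ring
    rw [e, mul_sub, ← mul_assoc, one_div_mul_cancel (pow_ne_zero 2 hKc), one_mul]
    ring
  have h2 : ‖∑ p ∈ P, ∑ p' ∈ P, (f 1 - f (1 * u p * (u p')⁻¹))‖ ≤ (P.card : ℝ) ^ 2 * δ := by
    refine (norm_sum_le _ _).trans ?_
    have h3 : ∀ p ∈ P, ‖∑ p' ∈ P, (f 1 - f (1 * u p * (u p')⁻¹))‖ ≤ (P.card : ℝ) * δ := by
      intro p hp
      refine (norm_sum_le _ _).trans ?_
      refine (Finset.sum_le_sum fun p' hp' => hδ p hp p' hp' 1).trans ?_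
      rw [Finset.sum_const, nsmul_eq_mul]
    refine (Finset.sum_le_sum h3).trans ?_
    rw [Finset.sum_const, nsmul_eq_mul]
    apply le_of_eq
    ring
  have h3 : ‖(1 / (P.card : ℂ) ^ 2) * ∑ p ∈ P, ∑ p' ∈ P, (f 1 - f (1 * u p * (u p')⁻¹))‖ ≤ δ := by
    rw [norm_mul, norm_div, norm_one, norm_pow, Complex.norm_natCast, div_mul_eq_mul_div, one_mul,
      div_le_iff₀ (pow_pos hK 2)]
    linarith
  calc ‖f 1‖ ≤ _ := le_of_eq (congrArg norm h1)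
    _ ≤ _ := norm_add_le _ _
    _ ≤ _ := add_le_add h3 le_rfl

/-- the second moment of the character averages -/
private theorem chi30_second {q : ℕ} [NeZero q] (P : Finset ℕ)
    (u : ℕ → (ZMod q)ˣ) (hu : ∀ p ∈ P, ((u p : (ZMod q)ˣ) : ZMod q) = (p : ZMod q)) {Y D : ℕ}
    (hY : ∀ p ∈ P, Y ≤ p ∧ p < Y + D) (hD : q ≤ D) :
    ∑ χ : DirichletCharacter ℂ q, ‖∑ p ∈ P, χ (u p : ZMod q)‖ ^ 2 ≤ 2 * D * P.card := by
  have hq : 0 < q := Nat.pos_of_ne_zero (NeZero.ne q)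
  have hq' : (0 : ℝ) < q := by exact_mod_cast hq
  have h1 : ∀ χ : DirichletCharacter ℂ q, ((‖∑ p ∈ P, χ (u p : ZMod q)‖ ^ 2 : ℝ) : ℂ) =
      ∑ p ∈ P, ∑ p' ∈ P, χ⁻¹ (u p' : ZMod q) * χ (u p : ZMod q) := by
    intro χ
    rw [← Complex.normSq_eq_norm_sq, Complex.normSq_eq_conj_mul_self, map_sum, Finset.sum_mul_sum,
      Finset.sum_comm]
    refine Finset.sum_congr rfl fun p _ => Finset.sum_congr rfl fun p' _ => ?_
    congr 1
    rw [← MulChar.star_apply']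
    rfl
  have h2 : ((∑ χ : DirichletCharacter ℂ q, ‖∑ p ∈ P, χ (u p : ZMod q)‖ ^ 2 : ℝ) : ℂ) =
      ((∑ p ∈ P, (q.totient : ℝ) * ((P.filter (fun p' => u p' = u p)).card : ℝ) : ℝ) : ℂ) := by
    rw [Complex.ofReal_sum]
    simp only [h1]
    rw [Finset.sum_comm, Complex.ofReal_sum]
    refine Finset.sum_congr rfl fun p _ => ?_
    rw [Finset.sum_comm]
    simp only [chi30_orth]
    rw [← Finset.sum_filter, Finset.sum_const, nsmul_eq_mul]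
    push_cast
    ring
  have h3 : ∑ χ : DirichletCharacter ℂ q, ‖∑ p ∈ P, χ (u p : ZMod q)‖ ^ 2 =
      ∑ p ∈ P, (q.totient : ℝ) * ((P.filter (fun p' => u p' = u p)).card : ℝ) := by
    exact_mod_cast h2
  rw [h3]
  have h4 : ∀ p ∈ P, (q.totient : ℝ) * ((P.filter (fun p' => u p' = u p)).card : ℝ) ≤ 2 * D := by
    intro p hp
    have h5 : P.filter (fun p' => u p' = u p) ⊆
        P.filter (fun p' : ℕ => ((p : ℕ) : ZMod q) = ((p' : ℕ) : ZMod q)) := by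
      intro x hx
      rw [Finset.mem_filter] at hx ⊢
      refine ⟨hx.1, ?_⟩
      rw [← hu p hp, ← hu x hx.1, hx.2]
    have h6 : ((P.filter (fun p' => u p' = u p)).card : ℝ) ≤ 2 * D / q :=
      le_trans (by exact_mod_cast Finset.card_le_card h5) (chi30_count P hY hD p)
    have h7 : (q.totient : ℝ) ≤ q := by exact_mod_cast Nat.totient_le q
    calc _ ≤ (q : ℝ) * (2 * D / q) := mul_le_mul h7 h6 (Nat.cast_nonneg _) hq'.le
      _ = 2 * D := by field_simp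
  refine (Finset.sum_le_sum h4).trans ?_
  rw [Finset.sum_const, nsmul_eq_mul]
  apply le_of_eq
  ring

theorem chi_exists {q : ℕ} [NeZero q] (f : (ZMod q)ˣ → ℂ) (P : Finset ℕ) (hP : P.Nonempty)
    (u : ℕ → (ZMod q)ˣ) (hu : ∀ p ∈ P, ((u p : (ZMod q)ˣ) : ZMod q) = (p : ZMod q)) {Y D : ℕ}
    (hY : ∀ p ∈ P, Y ≤ p ∧ p < Y + D) (hD : q ≤ D) {δ : ℝ}
    (hδ : ∀ p ∈ P, ∀ p' ∈ P, ∀ g, ‖f g - f (g * u p * (u p')⁻¹)‖ ≤ δ) :
    ∃ χ : DirichletCharacter ℂ q, ‖f 1‖ ≤ δ + 2 * D / P.card *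
      ‖(1 / (q.totient : ℂ)) * ∑ g : (ZMod q)ˣ, χ⁻¹ (g : ZMod q) * f g‖ := by
  have hK : (0 : ℝ) < P.card := by exact_mod_cast hP.card_pos
  have hKc : (P.card : ℂ) ≠ 0 := by exact_mod_cast hP.card_pos.ne'
  set c : DirichletCharacter ℂ q → ℂ := fun χ =>
    (1 / (q.totient : ℂ)) * ∑ g : (ZMod q)ˣ, χ⁻¹ (g : ZMod q) * f g with hc
  obtain ⟨χ, _, hχ⟩ := Finset.exists_max_image (Finset.univ : Finset (DirichletCharacter ℂ q))
    (fun χ => ‖c χ‖) Finset.univ_nonempty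
  refine ⟨χ, ?_⟩
  have h1 := chi30_avg f P hP u hδ
  have h2 : ∑ p ∈ P, ∑ p' ∈ P, f (u p * (u p')⁻¹) =
      ∑ ψ : DirichletCharacter ℂ q, ((‖∑ p ∈ P, ψ (u p : ZMod q)‖ ^ 2 : ℝ) : ℂ) * c ψ := by
    have h3 : ∀ p ∈ P, ∀ p' ∈ P, f (u p * (u p')⁻¹) = ∑ ψ : DirichletCharacter ℂ q,
        (ψ⁻¹ (u p' : ZMod q) * ψ (u p : ZMod q)) * c ψ := by
      intro p _ p' _
      rw [chi30_inv f (u p * (u p')⁻¹)]
      refine Finset.sum_congr rfl fun ψ _ => ?_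
      rw [Units.val_mul, map_mul, chi30_inv_unit ψ (u p')]
      simp only [hc]
      ring
    rw [Finset.sum_congr rfl fun p hp => Finset.sum_congr rfl fun p' hp' => h3 p hp p' hp']
    rw [Finset.sum_congr rfl fun p _ => Finset.sum_comm, Finset.sum_comm]
    refine Finset.sum_congr rfl fun ψ _ => ?_
    rw [← Complex.normSq_eq_norm_sq, Complex.normSq_eq_conj_mul_self, map_sum, Finset.sum_mul_sum,
      Finset.sum_comm, Finset.sum_mul]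
    refine Finset.sum_congr rfl fun p _ => ?_
    rw [Finset.sum_mul]
    refine Finset.sum_congr rfl fun p' _ => ?_
    congr 2
    rw [← MulChar.star_apply']
    rfl
  have h4 := chi30_second P u hu hY hD
  have h5 : ‖(1 / (P.card : ℂ) ^ 2) * ∑ p ∈ P, ∑ p' ∈ P, f (u p * (u p')⁻¹)‖ ≤
      2 * D / P.card * ‖c χ‖ := by
    rw [h2, norm_mul, norm_div, norm_one, norm_pow, Complex.norm_natCast]
    have h6 : ‖∑ ψ : DirichletCharacter ℂ q, ((‖∑ p ∈ P, ψ (u p : ZMod q)‖ ^ 2 : ℝ) : ℂ) * c ψ‖ ≤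
        (2 * D * P.card) * ‖c χ‖ := by
      refine (norm_sum_le _ _).trans ?_
      have h7 : ∀ ψ ∈ (Finset.univ : Finset (DirichletCharacter ℂ q)),
          ‖((‖∑ p ∈ P, ψ (u p : ZMod q)‖ ^ 2 : ℝ) : ℂ) * c ψ‖ ≤
          ‖∑ p ∈ P, ψ (u p : ZMod q)‖ ^ 2 * ‖c χ‖ := by
        intro ψ hψ
        rw [norm_mul, Complex.norm_real, Real.norm_of_nonneg (by positivity)]
        exact mul_le_mul_of_nonneg_left (hχ ψ hψ) (by positivity)
      refine (Finset.sum_le_sum h7).trans ?_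
      rw [← Finset.sum_mul]
      exact mul_le_mul_of_nonneg_right h4 (norm_nonneg _)
    calc 1 / (P.card : ℝ) ^ 2 * _ ≤ 1 / (P.card : ℝ) ^ 2 * ((2 * D * P.card) * ‖c χ‖) :=
          mul_le_mul_of_nonneg_left h6 (by positivity)
      _ = 2 * D / P.card * ‖c χ‖ := by
          field_simp
  exact h1.trans (by linarith)

end Pool.Agent.Helper17.L3
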