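import Pool.Agent.Helper25.MOB.Bas
import Pool.Agent.Helper25.MOB.Pt

/-!
Project L3 (the `L¹` norm of the Moebius exponential sum, exponent `1/3`), part L (low levels).

Definitions.  `G = (ZMod q)ˣ`.  A family of phases is `w : G → ℝ → ℂ`, each `w b` measurable, bounded by `1` and
supported in `[-t, t]`.  The scalar function of the project is

`hh N L w X g = ∑_b ∑_m X μ(m) Psi L (w b) (X m) e(m g b / q)`,  `Psi L v y = (1 - y/L)_+ ∫ v(β) e(y β) dβ`.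
-/

namespace Pool.Agent.Helper17.L3

open MeasureTheory Pool.Agent.Helper25.MOB

/-- `ec x = e(x)` for real `x`. -/
noncomputable def ec (x : ℝ) : ℂ := Complex.exp (2 * Real.pi * Complex.I * x)

/-- The Moebius function with complex values. -/
noncomputable def mu (n : ℕ) : ℂ := ((ArithmeticFunction.moebius n : ℤ) : ℂ)

/-- The Fejer weight `(1 - y / L)_+`. -/
noncomputable def kf (L y : ℝ) : ℝ := max (1 - y / L) 0

/-- The Fejer mean of the Moebius exponential sum. -/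
noncomputable def sig (N : ℕ) (L : ℝ) (y : UnitAddCircle) : ℂ :=
  ∑ n ∈ Finset.Icc 1 N, (kf L n : ℂ) * mu n * ex n y

/-- `Phi v y = ∫ v(β) e(y β) dβ`. -/
noncomputable def Phi (v : ℝ → ℂ) (y : ℝ) : ℂ := ∫ β, v β * ec (y * β)

/-- `Psi L v y = (1 - y / L)_+ Phi v y`. -/
noncomputable def Psi (L : ℝ) (v : ℝ → ℂ) (y : ℝ) : ℂ := (kf L y : ℂ) * Phi v y

/-- A phase of width `t`. -/
structure Ph (t : ℝ) (v : ℝ → ℂ) : Prop where
  meas : Measurable v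
  bd : ∀ β, ‖v β‖ ≤ 1
  supp : ∀ β, t < |β| → v β = 0

/-- The main scalar function. -/
noncomputable def hh {q : ℕ} [NeZero q] (N : ℕ) (L : ℝ) (w : (ZMod q)ˣ → ℝ → ℂ) (X : ℝ)
    (g : ZMod q) : ℂ :=
  ∑ b : (ZMod q)ˣ, ∑ m ∈ Finset.Icc 1 N,
    (X : ℂ) * mu m * Psi L (w b) (X * m) * ZMod.stdAddChar ((m : ZMod q) * g * (b : ZMod q))

/-- The real Fejer kernel of (real) length `M`, truncated at `N ≥ M`. -/
noncomputable def fej (N : ℕ) (M : ℝ) (x : UnitAddCircle) : ℂ :=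
  ∑ n ∈ Finset.Icc (-(N : ℤ)) N, (kf M |(n : ℝ)| : ℂ) * ex n x

/-- The smoothed arc. -/
noncomputable def ker (N : ℕ) (L r : ℝ) (v : ℝ → ℂ) (x : UnitAddCircle) : ℂ :=
  ∑ n ∈ Finset.Icc (-(N : ℤ)) N,
    (r : ℂ) * (kf L (r * |(n : ℝ)|) : ℂ) * Phi v (r * n) * ex (-n) x

/-- The points `g b / q + a / p`. -/
noncomputable def pnt {q : ℕ} [NeZero q] (p : ℕ) (g : ZMod q) (b : (ZMod q)ˣ) (a : ℕ) :
    UnitAddCircle :=
  ZMod.toAddCircle (g * (b : ZMod q)) + (((a : ℝ) / p : ℝ) : UnitAddCircle)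

/-- The test function of one prime. -/
noncomputable def TT {q : ℕ} [NeZero q] (N : ℕ) (L r : ℝ) (w : (ZMod q)ˣ → ℝ → ℂ) (p : ℕ)
    (g : ZMod q) (x : UnitAddCircle) : ℂ :=
  ∑ b : (ZMod q)ˣ, ∑ a ∈ Finset.Icc 1 (p - 1), ker N L r (w b) (x - pnt p g b a)

/-- The `χ`-component of `hh`. -/
noncomputable def hc {q : ℕ} [NeZero q] (N : ℕ) (L : ℝ) (w : (ZMod q)ˣ → ℝ → ℂ)
    (χ : DirichletCharacter ℂ q) (X : ℝ) : ℂ :=
  (1 / (q.totient : ℂ)) * ∑ g : (ZMod q)ˣ, χ⁻¹ (g : ZMod q) * hh N L w X g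

/-- The Gauss sum `∑_u conj χ(u) e(u x / q)`. -/
noncomputable def Gs {q : ℕ} [NeZero q] (χ : DirichletCharacter ℂ q) (x : ZMod q) : ℂ :=
  ∑ u : ZMod q, χ⁻¹ u * ZMod.stdAddChar (u * x)

/-- The `χ`-component of `Psi`. -/
noncomputable def Pc {q : ℕ} [NeZero q] (L : ℝ) (w : (ZMod q)ˣ → ℝ → ℂ)
    (χ : DirichletCharacter ℂ q) (y : ℝ) : ℂ :=
  (1 / (q.totient : ℂ)) * ∑ b : (ZMod q)ˣ, χ (b : ZMod q) * Psi L (w b) y

end Pool.Agent.Helper17.L3
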