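import Pool.Agent.Helper25.MOB.Bas
import Pool.Agent.Helper25.MOB.Pt
import Pool.Agent.Helper5.LE.Main

/-!
Interface to part E (structure theorem for all levels, architect helper5).  Exact statement used by the assembly.
-/

namespace Pool.Agent.Helper17.L3

open Filter MeasureTheory Pool.Agent.Helper25.MOB

theorem structureE {d d' : ℝ} (hd : 0 < d) (hd' : 0 < d') : ∀ᶠ N : ℕ in atTop,
    ∫ y, ‖F N y‖ ≤ (N : ℝ) ^ (1 / 3 - d) →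
    ∃ (R : Set UnitAddCircle) (V : ℝ) (Q0 j : ℕ) (Qs : Finset ℕ), MeasurableSet R ∧ 0 < V ∧
      (∀ y ∈ R, V ≤ ‖F N y‖ ∧ ‖F N y‖ ≤ 2 * V) ∧
      (N : ℝ) ^ (1 - d') ≤ V ^ 2 * volume.real R ∧ 1 ≤ Q0 ∧
      Qs ⊆ Finset.Ico Q0 (2 * Q0) ∧ R ⊆ ⋃ q ∈ Qs, cl (2 ^ j / N) q ∧
      (Qs.card : ℝ) * Q0 * 2 ^ j ≤ (N : ℝ) ^ d' * (N * volume.real R) := by
  exact Pool.Agent.Helper5.LE.structureE hd hd'

end Pool.Agent.Helper17.L3
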