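import Pool.Agent.Helper17.L3.B0

/-!
Block L3-FOU.  The components `hc χ` of `hh`.

`hc_rel`: multiply by `χ⁻¹(g)/φ(q)` and sum over `g ∈ G`; `∑_g χ⁻¹(g) hh (X') (g p) = χ(p) ∑_g χ⁻¹(g) hh X' g` (substitute `g → g p⁻¹`,
`p` is a unit mod `q`: `ZMod.unitOfCoprime`).
`hc_sub`: average (`#G = φ(q)`, `ZMod.card_units_eq_totient`, `‖χ⁻¹(g)‖ = 1`).
`hc_le`: same.
`hc_eq`: `∑_g χ⁻¹(g) stdAddChar (m g b) = χ(b) Gs χ m` (substitute `g → g b⁻¹`; the sum over `ZMod q` in `Gs` is the sum over the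
units, `χ⁻¹` vanishes elsewhere).
-/

namespace Pool.Agent.Helper17.L3

open MeasureTheory Pool.Agent.Helper25.MOB

private lemma avg_le {q : ℕ} [NeZero q] (χ : DirichletCharacter ℂ q) (F : (ZMod q)ˣ → ℂ) {e : ℝ}
    (h : ∀ g, ‖F g‖ ≤ e) :
    ‖(1 / (q.totient : ℂ)) * ∑ g : (ZMod q)ˣ, χ⁻¹ (g : ZMod q) * F g‖ ≤ e := by
  have hq : 0 < q.totient := Nat.totient_pos.2 (Nat.pos_of_ne_zero (NeZero.ne q))
  have hq' : (0 : ℝ) < q.totient := by exact_mod_cast hq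
  have h1 : ‖∑ g : (ZMod q)ˣ, χ⁻¹ (g : ZMod q) * F g‖ ≤ q.totient * e := by
    calc ‖∑ g : (ZMod q)ˣ, χ⁻¹ (g : ZMod q) * F g‖
        ≤ ∑ g : (ZMod q)ˣ, ‖χ⁻¹ (g : ZMod q) * F g‖ := norm_sum_le _ _
      _ ≤ ∑ _g : (ZMod q)ˣ, e := by
          refine Finset.sum_le_sum fun g _ => ?_
          rw [norm_mul, DirichletCharacter.unit_norm_eq_one, one_mul]
          exact h g
      _ = q.totient * e := by
          rw [Finset.sum_const, nsmul_eq_mul, Finset.card_univ, ZMod.card_units_eq_totient]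
  rw [norm_mul, norm_div, norm_one, Complex.norm_natCast, one_div, inv_mul_le_iff₀ hq']
  exact h1

private lemma chi_inv_mul {q : ℕ} (χ : DirichletCharacter ℂ q) (u : (ZMod q)ˣ) :
    χ⁻¹ (u : ZMod q) * χ (u : ZMod q) = 1 := by
  rw [← MulChar.mul_apply, inv_mul_cancel, MulChar.one_apply_coe]

theorem hc_rel {q : ℕ} [NeZero q] {N : ℕ} {L X X' e : ℝ} {w : (ZMod q)ˣ → ℝ → ℂ} {p : ℕ}
    (hp : p.Coprime q)
    (h : ∀ g : (ZMod q)ˣ, ‖hh N L w X (g : ZMod q) + hh N L w X' ((g : ZMod q) * p)‖ ≤ e)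
    (χ : DirichletCharacter ℂ q) : ‖hc N L w χ X + χ p * hc N L w χ X'‖ ≤ e := by
  set u : (ZMod q)ˣ := ZMod.unitOfCoprime p hp with hu
  have hup : (u : ZMod q) = (p : ZMod q) := ZMod.coe_unitOfCoprime p hp
  have h1 : χ p * ∑ g : (ZMod q)ˣ, χ⁻¹ (g : ZMod q) * hh N L w X' g =
      ∑ g : (ZMod q)ˣ, χ⁻¹ (g : ZMod q) * hh N L w X' ((g : ZMod q) * p) := by
    rw [← Equiv.sum_comp (Equiv.mulRight u) (fun g : (ZMod q)ˣ => χ⁻¹ (g : ZMod q) * hh N L w X' g),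
      Finset.mul_sum]
    refine Finset.sum_congr rfl fun g _ => ?_
    have h2 := chi_inv_mul χ u
    simp only [Equiv.coe_mulRight, Units.val_mul, map_mul]
    rw [← hup]
    linear_combination (χ⁻¹ (g : ZMod q) * hh N L w X' ((g : ZMod q) * u)) * h2
  have h3 : hc N L w χ X + χ p * hc N L w χ X' = (1 / (q.totient : ℂ)) * ∑ g : (ZMod q)ˣ,
      χ⁻¹ (g : ZMod q) * (hh N L w X (g : ZMod q) + hh N L w X' ((g : ZMod q) * p)) := by
    unfold hc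
    simp only [mul_add, Finset.sum_add_distrib]
    rw [← h1]
    ring
  rw [h3]
  exact avg_le χ _ h

theorem hc_sub {q : ℕ} [NeZero q] {N : ℕ} {L X X' e : ℝ} {w : (ZMod q)ˣ → ℝ → ℂ}
    (h : ∀ g : (ZMod q)ˣ, ‖hh N L w X (g : ZMod q) - hh N L w X' (g : ZMod q)‖ ≤ e)
    (χ : DirichletCharacter ℂ q) : ‖hc N L w χ X - hc N L w χ X'‖ ≤ e := by
  have h3 : hc N L w χ X - hc N L w χ X' = (1 / (q.totient : ℂ)) * ∑ g : (ZMod q)ˣ,
      χ⁻¹ (g : ZMod q) * (hh N L w X (g : ZMod q) - hh N L w X' (g : ZMod q)) := by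
    unfold hc
    simp only [mul_sub, Finset.sum_sub_distrib]
  rw [h3]
  exact avg_le χ _ h

theorem hc_le {q : ℕ} [NeZero q] {N : ℕ} {L X e : ℝ} {w : (ZMod q)ˣ → ℝ → ℂ}
    (h : ∀ g : (ZMod q)ˣ, ‖hh N L w X (g : ZMod q)‖ ≤ e)
    (χ : DirichletCharacter ℂ q) : ‖hc N L w χ X‖ ≤ e := by
  exact avg_le χ _ h

theorem hc_eq {q : ℕ} [NeZero q] {N : ℕ} {L X : ℝ} (w : (ZMod q)ˣ → ℝ → ℂ)
    (χ : DirichletCharacter ℂ q) :
    hc N L w χ X =
      ∑ m ∈ Finset.Icc 1 N, (X : ℂ) * mu m * Gs χ (m : ZMod q) * Pc L w χ (X * m) := by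
  classical
  have hsum : ∀ (m : ℕ) (b : (ZMod q)ˣ), ∑ g : (ZMod q)ˣ, χ⁻¹ (g : ZMod q) *
      ZMod.stdAddChar ((m : ZMod q) * (g : ZMod q) * (b : ZMod q)) = χ (b : ZMod q) * Gs χ (m : ZMod q) := by
    intro m b
    have h1 : Gs χ (m : ZMod q) =
        ∑ g : (ZMod q)ˣ, χ⁻¹ (g : ZMod q) * ZMod.stdAddChar ((g : ZMod q) * (m : ZMod q)) := by
      unfold Gs
      have h2 : ∑ g : (ZMod q)ˣ, χ⁻¹ (g : ZMod q) * ZMod.stdAddChar ((g : ZMod q) * (m : ZMod q)) =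
          ∑ u ∈ (Finset.univ : Finset (ZMod q)ˣ).map ⟨Units.val, Units.val_injective⟩,
            χ⁻¹ u * ZMod.stdAddChar (u * (m : ZMod q)) := by
        rw [Finset.sum_map]
        rfl
      rw [h2]
      symm
      refine Finset.sum_subset (Finset.subset_univ _) fun u _ hu => ?_
      have h3 : ¬ IsUnit u := by
        rintro ⟨v, rfl⟩
        exact hu (Finset.mem_map.2 ⟨v, Finset.mem_univ _, rfl⟩)
      rw [MulChar.map_nonunit _ h3, zero_mul]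
    rw [h1, ← Equiv.sum_comp (Equiv.mulRight b)
      (fun g : (ZMod q)ˣ => χ⁻¹ (g : ZMod q) * ZMod.stdAddChar ((g : ZMod q) * (m : ZMod q))),
      Finset.mul_sum]
    refine Finset.sum_congr rfl fun g _ => ?_
    have h2 := chi_inv_mul χ b
    simp only [Equiv.coe_mulRight, Units.val_mul, map_mul]
    have h4 : (g : ZMod q) * (b : ZMod q) * (m : ZMod q) = (m : ZMod q) * g * (b : ZMod q) := by ring
    rw [h4]
    linear_combination (-(χ⁻¹ (g : ZMod q) * ZMod.stdAddChar ((m : ZMod q) * (g : ZMod q) * (b : ZMod q)))) * h2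
  unfold hc hh Pc
  simp only [Finset.mul_sum]
  rw [Finset.sum_congr rfl fun g _ => Finset.sum_comm, Finset.sum_comm]
  refine Finset.sum_congr rfl fun m _ => ?_
  rw [Finset.sum_comm]
  refine Finset.sum_congr rfl fun b _ => ?_
  have h5 := hsum m b
  calc ∑ g : (ZMod q)ˣ, 1 / (q.totient : ℂ) * (χ⁻¹ (g : ZMod q) *
        ((X : ℂ) * mu m * Psi L (w b) (X * m) * ZMod.stdAddChar ((m : ZMod q) * (g : ZMod q) * (b : ZMod q))))
      = 1 / (q.totient : ℂ) * ((X : ℂ) * mu m * Psi L (w b) (X * m)) * ∑ g : (ZMod q)ˣ,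
        χ⁻¹ (g : ZMod q) * ZMod.stdAddChar ((m : ZMod q) * (g : ZMod q) * (b : ZMod q)) := by
        rw [Finset.mul_sum]
        refine Finset.sum_congr rfl fun g _ => ?_
        ring
    _ = _ := by
        rw [h5]
        ring

end Pool.Agent.Helper17.L3
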