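import Pool.Agent.Helper17.L3.M2
import Pool.Agent.Helper17.L3.E0
import Pool.Agent.Helper71.L3X.X3

/-!
Project L3, final assembly: `∫ |F_N| ≥ N ^ (1/3 - ε)`.
-/

namespace Pool.Agent.Helper17.L3

open MeasureTheory Filter Pool.Agent.Helper25.MOB

theorem L1_circle13 {ε : ℝ} (hε : 0 < ε) : ∀ᶠ N : ℕ in atTop,
    (N : ℝ) ^ (1 / 3 - ε) ≤ ∫ y, ‖F N y‖ := by
  set d' : ℝ := min (ε / 13) (1 / 1000) with hd'def
  have hd' : 0 < d' := lt_min (by positivity) (by norm_num)
  have hd'1 : d' ≤ 1 / 1000 := min_le_right _ _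
  have hd'2 : 13 * d' ≤ ε := by
    have := min_le_left (ε / 13) (1 / 1000)
    rw [← hd'def] at this
    linarith
  have hdd : d' ≤ ε := by linarith
  filter_upwards [structureE hε hd', low_structured (d := ε) hd' hd'1 hdd,
    Pool.Agent.Helper71.L3X.caseX hd' hd'1, eventually_ge_atTop 1] with N hE hL hX hN
  have hN1 : (1 : ℝ) ≤ N := by exact_mod_cast hN
  have hN0 : (0 : ℝ) < N := by linarith
  by_contra hcon
  push Not at hcon
  obtain ⟨R, V, Q0, j, Qs, hR, hV, hVR, hVol, hQ0, hQs, hRc, hW⟩ := hE hcon.le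
  have hlow := hL hcon.le R V Q0 j Qs hR hV hVR hVol hQ0 hQs hRc hW
  -- volume bound
  have hint : Integrable (fun y => ‖F N y‖) (volume : Measure UnitAddCircle) := by
    have hc : Continuous fun z : UnitAddCircle => ‖F N z‖ := (continuous_F N).norm
    exact hc.integrable_of_hasCompactSupport (HasCompactSupport.of_compactSpace _)
  have h1 : V * volume.real R ≤ ∫ y, ‖F N y‖ := by
    have e1 : ∫ y in R, V = V * volume.real R := by
      rw [setIntegral_const, smul_eq_mul, mul_comm]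
    rw [← e1]
    refine (setIntegral_mono_on (integrableOn_const (measure_ne_top _ _)) hint.integrableOn hR
      fun y hy => (hVR y hy).1).trans ?_
    exact setIntegral_le_integral hint (ae_of_all _ fun y => norm_nonneg _)
  have hρ0 : 0 ≤ volume.real R := measureReal_nonneg
  have h2 : N * volume.real R ≤ (N : ℝ) ^ (2 / 3 : ℝ) := by
    have e1 : V * volume.real R ≤ (N : ℝ) ^ (1 / 3 - ε) := h1.trans hcon.le
    have e2 : (V * volume.real R) ^ 2 ≤ ((N : ℝ) ^ (1 / 3 - ε)) ^ 2 :=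
      pow_le_pow_left₀ (by positivity) e1 2
    have e3 : ((N : ℝ) ^ (1 / 3 - ε)) ^ 2 = (N : ℝ) ^ (2 / 3 - 2 * ε) := by
      rw [← Real.rpow_natCast, ← Real.rpow_mul hN0.le]
      congr 1
      push_cast
      ring
    have e4 : (N : ℝ) ^ (1 - d') * volume.real R ≤ (N : ℝ) ^ (2 / 3 - 2 * ε) := by
      calc (N : ℝ) ^ (1 - d') * volume.real R ≤ V ^ 2 * volume.real R * volume.real R :=
            mul_le_mul_of_nonneg_right hVol hρ0
        _ = (V * volume.real R) ^ 2 := by ring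
        _ ≤ _ := e2.trans_eq e3
    have e5 : N * volume.real R = (N : ℝ) ^ d' * ((N : ℝ) ^ (1 - d') * volume.real R) := by
      rw [← mul_assoc, ← Real.rpow_add hN0]
      norm_num
    rw [e5]
    calc (N : ℝ) ^ d' * ((N : ℝ) ^ (1 - d') * volume.real R) ≤
          (N : ℝ) ^ d' * (N : ℝ) ^ (2 / 3 - 2 * ε) :=
          mul_le_mul_of_nonneg_left e4 (Real.rpow_nonneg hN0.le _)
      _ = (N : ℝ) ^ (d' + (2 / 3 - 2 * ε)) := (Real.rpow_add hN0 _ _).symm
      _ ≤ _ := Real.rpow_le_rpow_of_exponent_le hN1 (by linarith)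
  have h3 : (N : ℝ) ^ (1 / 3 - 12 * d') ≤ ∫ y, ‖F N y‖ := by
    refine hX R V Q0 j Qs hR hV (fun y hy => (hVR y hy).1) hVol hQ0 hQs hRc hW h2 ?_
    rcases le_total ((N : ℝ) ^ (1 / 3 - 12 * d')) (N * volume.real R) with h | h
    · exact Or.inl h
    · refine Or.inr (hlow (h.trans ?_))
      exact Real.rpow_le_rpow_of_exponent_le hN1 (by linarith)
  have h4 : (N : ℝ) ^ (1 / 3 - ε) ≤ (N : ℝ) ^ (1 / 3 - 12 * d') :=
    Real.rpow_le_rpow_of_exponent_le hN1 (by linarith)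
  linarith

theorem L1_main13 {ε : ℝ} (hε : 0 < ε) : ∀ᶠ N : ℕ in atTop,
    (N : ℝ) ^ (1 / 3 - ε) ≤ ∫ x in (0 : ℝ)..1, ‖∑ n ∈ Finset.Icc 1 N,
      ((ArithmeticFunction.moebius n : ℤ) : ℂ) *
        Complex.exp (2 * Real.pi * Complex.I * n * x)‖ := by
  filter_upwards [L1_circle13 hε] with N h1
  refine h1.trans (le_of_eq ?_)
  have h2 := UnitAddCircle.intervalIntegral_preimage 0 (fun y => ‖F N y‖)
  rw [zero_add] at h2
  rw [← h2]
  congr 1
  funext x
  unfold F
  congr 1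
  refine Finset.sum_congr rfl fun n _ => ?_
  rw [ex_coe]
  push_cast
  rfl

end Pool.Agent.Helper17.L3
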