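import Mathlib

/-!
Block L3-GEN.  Generation of all shifts.

Call `τ ∈ [0, T]` `E`-good if there is `c`, `‖c‖ = 1`, with `‖H (x + τ) - c H x‖ ≤ E` for `x ≥ 0`, `x + τ ≤ T`.  If `τ` is `E`-good and
`τ'` is `E'`-good, `τ + τ' ≤ T`, then `τ + τ'` is `(E + E')`-good (product of the constants).  So if `σ` is `ε`-good, `k σ` is `k ε`-good.
Claim, by induction on `j ≤ R`: every `τ ∈ [0, T]` with `τ ≤ K^j (K² s₁)` is `(j K² + 1) ε`-good.
`j = 0`: `τ ≤ K² s₁`, take `c = 1` and `hslow`.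
Step: let `τ ≤ K^(j+1) K² s₁`, not `≤ K^j K² s₁` (else done).  Put `u = min(K^(j+1) K² s₁, T)`; `s = u / K²`.  Then `s ≥ s₁`
(`u ≥ τ > K^j K² s₁ ≥ K² s₁`), `s ≤ T/K² ≤ T/K`; take `σ ∈ [s, K s]`, `k = ⌊τ/σ⌋ ≤ u/s = K²`, `τ - k σ < σ ≤ K s = u/K ≤ K^j K² s₁`.
So `τ - kσ` is `(j K² + 1) ε`-good and `kσ` is `K² ε`-good.
-/

namespace Pool.Agent.Helper17.L3

theorem gen {H : ℝ → ℂ} {T s₁ K ε : ℝ} (R : ℕ) (hK : 1 < K) (hT : 0 < T) (hs₁ : 0 < s₁)
    (hε : 0 ≤ ε) (hR : T ≤ K ^ R * (K ^ 2 * s₁))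
    (hσ : ∀ s, s₁ ≤ s → s ≤ T / K → ∃ σ, s ≤ σ ∧ σ ≤ K * s ∧ ∃ c : ℂ, ‖c‖ = 1 ∧
      ∀ x, 0 ≤ x → x + σ ≤ T → ‖H (x + σ) - c * H x‖ ≤ ε)
    (hslow : ∀ x y, 0 ≤ x → x ≤ T → 0 ≤ y → y ≤ T → |x - y| ≤ K ^ 2 * s₁ →
      ‖H x - H y‖ ≤ ε) :
    ∀ τ, 0 ≤ τ → τ ≤ T → ∃ c : ℂ, ‖c‖ = 1 ∧
      ∀ x, 0 ≤ x → x + τ ≤ T → ‖H (x + τ) - c * H x‖ ≤ (R * K ^ 2 + 1) * ε := by
  have hK0 : 0 < K := by linarith
  have hKK : 0 < K ^ 2 := by positivity
  -- composition of good shifts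
  have hcomp : ∀ (a b A B : ℝ), 0 ≤ a → 0 ≤ b →
      (∃ c : ℂ, ‖c‖ = 1 ∧ ∀ x, 0 ≤ x → x + a ≤ T → ‖H (x + a) - c * H x‖ ≤ A) →
      (∃ c : ℂ, ‖c‖ = 1 ∧ ∀ x, 0 ≤ x → x + b ≤ T → ‖H (x + b) - c * H x‖ ≤ B) →
      ∃ c : ℂ, ‖c‖ = 1 ∧ ∀ x, 0 ≤ x → x + (a + b) ≤ T → ‖H (x + (a + b)) - c * H x‖ ≤ A + B := by
    rintro a b A B ha hb ⟨c, hc, h1⟩ ⟨d, hd, h2⟩
    refine ⟨c * d, by rw [norm_mul, hc, hd, one_mul], fun x hx hxT => ?_⟩
    have e1 := h1 (x + b) (by linarith) (by linarith)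
    have e2 := h2 x hx (by linarith)
    have e3 : H (x + (a + b)) - c * d * H x =
        (H (x + b + a) - c * H (x + b)) + c * (H (x + b) - d * H x) := by
      have : x + (a + b) = x + b + a := by ring
      rw [this]; ring
    rw [e3]
    refine (norm_add_le _ _).trans ?_
    rw [norm_mul, hc, one_mul]
    linarith
  have hmul : ∀ (σ : ℝ), 0 ≤ σ → (∃ c : ℂ, ‖c‖ = 1 ∧
      ∀ x, 0 ≤ x → x + σ ≤ T → ‖H (x + σ) - c * H x‖ ≤ ε) → ∀ k : ℕ,
      ∃ c : ℂ, ‖c‖ = 1 ∧ ∀ x, 0 ≤ x → x + (k : ℝ) * σ ≤ T →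
        ‖H (x + (k : ℝ) * σ) - c * H x‖ ≤ (k : ℝ) * ε := by
    intro σ hσ0 hg k
    induction k with
    | zero => exact ⟨1, by simp, fun x _ _ => by simp⟩
    | succ k ih =>
      obtain ⟨c, hc, h⟩ := hcomp _ _ _ _ (mul_nonneg (Nat.cast_nonneg k) hσ0) hσ0 ih hg
      refine ⟨c, hc, fun x hx hxT => ?_⟩
      have e : ((k + 1 : ℕ) : ℝ) * σ = (k : ℝ) * σ + σ := by push_cast; ring
      have e' : ((k + 1 : ℕ) : ℝ) * ε = (k : ℝ) * ε + ε := by push_cast; ring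
      rw [e] at hxT ⊢
      rw [e']
      exact h x hx hxT
  have main : ∀ j : ℕ, ∀ τ, 0 ≤ τ → τ ≤ T → τ ≤ K ^ j * (K ^ 2 * s₁) → ∃ c : ℂ, ‖c‖ = 1 ∧
      ∀ x, 0 ≤ x → x + τ ≤ T → ‖H (x + τ) - c * H x‖ ≤ (j * K ^ 2 + 1) * ε := by
    intro j
    induction j with
    | zero =>
      intro τ h0 hτT hτ
      refine ⟨1, by simp, fun x hx hxT => ?_⟩
      have := hslow (x + τ) x (by linarith) hxT hx (by linarith)
        (by rw [show x + τ - x = τ by ring, abs_of_nonneg h0]; simpa using hτ)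
      simpa using this
    | succ j ih =>
      intro τ h0 hτT hτ
      by_cases hle : τ ≤ K ^ j * (K ^ 2 * s₁)
      · obtain ⟨c, hc, h⟩ := ih τ h0 hτT hle
        refine ⟨c, hc, fun x hx hxT => (h x hx hxT).trans ?_⟩
        refine mul_le_mul_of_nonneg_right ?_ hε
        push_cast
        nlinarith
      · push Not at hle
        set u := min (K ^ (j + 1) * (K ^ 2 * s₁)) T with hu
        have hτu : τ ≤ u := le_min hτ hτT
        have hKj : 1 ≤ K ^ j := one_le_pow₀ hK.le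
        have hu1 : K ^ 2 * s₁ < u := by
          refine lt_of_le_of_lt ?_ (lt_of_lt_of_le hle hτu)
          have : 0 < K ^ 2 * s₁ := by positivity
          nlinarith
        have hs1 : s₁ ≤ u / K ^ 2 := by
          rw [le_div_iff₀ hKK]; linarith
        have huT : u ≤ T := min_le_right _ _
        have hu0 : 0 < u := lt_trans (by positivity) hu1
        have hs2 : u / K ^ 2 ≤ T / K := by
          rw [div_le_div_iff₀ hKK hK0]
          have : u * K ≤ T * K := mul_le_mul_of_nonneg_right huT hK0.le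
          have h2 : T * K ≤ T * K ^ 2 := by
            have : K ≤ K ^ 2 := by nlinarith
            exact mul_le_mul_of_nonneg_left this hT.le
          linarith
        obtain ⟨σ, hσ1, hσ2, hg⟩ := hσ _ hs1 hs2
        have hσ0 : 0 < σ := lt_of_lt_of_le (by positivity) hσ1
        set k := ⌊τ / σ⌋₊ with hk
        have hk1 : (k : ℝ) ≤ τ / σ := Nat.floor_le (by positivity)
        have hk2 : τ / σ < (k : ℝ) + 1 := Nat.lt_floor_add_one _
        have hkσ : (k : ℝ) * σ ≤ τ := by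
          rwa [le_div_iff₀ hσ0] at hk1
        have hkσ2 : τ < ((k : ℝ) + 1) * σ := by
          rwa [div_lt_iff₀ hσ0] at hk2
        have hkK : (k : ℝ) ≤ K ^ 2 := by
          have h1 : (k : ℝ) * (u / K ^ 2) ≤ u :=
            (mul_le_mul_of_nonneg_left hσ1 (Nat.cast_nonneg k)).trans (hkσ.trans hτu)
          have h2 : (k : ℝ) * (u / K ^ 2) = (k : ℝ) / K ^ 2 * u := by ring
          rw [h2] at h1
          have h3 : (k : ℝ) / K ^ 2 ≤ 1 := by
            by_contra h4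
            push Not at h4
            nlinarith
          rwa [div_le_one hKK] at h3
        have hρ : τ - (k : ℝ) * σ ≤ K ^ j * (K ^ 2 * s₁) := by
          have h1 : τ - (k : ℝ) * σ ≤ σ := by linarith
          have h2 : K * (u / K ^ 2) = u / K := by field_simp
          have h3 : u / K ≤ K ^ j * (K ^ 2 * s₁) := by
            rw [div_le_iff₀ hK0]
            refine (min_le_left _ _).trans (le_of_eq ?_)
            ring
          linarith [hσ2]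
        have hρ0 : 0 ≤ τ - (k : ℝ) * σ := by linarith
        have hkσ0 : 0 ≤ (k : ℝ) * σ := by positivity
        obtain ⟨c, hc, h⟩ := hcomp _ _ _ _ hkσ0 hρ0 (hmul σ hσ0.le hg k)
          (ih _ hρ0 (by linarith) hρ)
        refine ⟨c, hc, fun x hx hxT => ?_⟩
        have e : (k : ℝ) * σ + (τ - (k : ℝ) * σ) = τ := by ring
        rw [e] at h
        refine (h x hx hxT).trans ?_
        rw [← add_mul]
        refine mul_le_mul_of_nonneg_right ?_ hε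
        push_cast
        linarith
  exact fun τ h0 hτT => main R τ h0 hτT (hτT.trans hR)

end Pool.Agent.Helper17.L3
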