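import Mathlib

/-!
Block L3-HU.  Approximate characters of an interval.

`x_i = T / 2^i`, `i ≤ n`.  `‖H x_i - H(x_{i+1})²‖ ≤ ε` (`hm`).  Construct reals `θ_n, …, θ_0` with
`‖H x_i - exp(i θ_i)‖ ≤ 3ε` and `|θ_i - 2 θ_{i+1}| ≤ 20ε`: `θ_n = arg H(x_n)` (small: `‖H x_n - 1‖ ≤ ε`, `|θ_n| ≤ 2ε`); given
`θ_{i+1}`: `H x_i` is within `ε + ‖H(x_{i+1})² - exp(2iθ_{i+1})‖ ≤ ε + 3ε (2 + 3ε) ≤ 8ε` of `exp(2iθ_{i+1})` and its modulus is within `ε` of
`1`; let `θ_i = 2θ_{i+1} + arg(H x_i exp(-2iθ_{i+1}))`; then `‖H x_i - exp(iθ_i)‖ = |‖H x_i‖ - 1| ≤ ε` and the argument is at most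
`20ε` in absolute value (`|arg z| ≤ (π/2)·|z - 1|/..` for `z` near `1`).
`λ = θ_0 / T`.  From `θ_{i+1} = θ_i/2 + e_i`, `|e_i| ≤ 10ε`: `|θ_i - 2^{-i} θ_0| ≤ 20ε`, i.e. `|θ_i - λ x_i| ≤ 20 ε`.
In particular `|λ| x_n ≤ |θ_n| + 20ε ≤ 22ε`, and `‖H x_i - exp(iλ x_i)‖ ≤ 23ε`.
For `x ∈ [0, T]` write `x = x_{i_1} + … + x_{i_k} + r`, `i_1 < i_2 < …` (binary digits, greedy; each index used at most once except that
`x = T` is `x_0` itself), `0 ≤ r < x_n` or `r = 0`; partial sums `S_j`; `D_j = ‖H(S_j) - exp(iλ S_j)‖` satisfies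
`D_{j+1} ≤ ε + D_j (1 + ε) + 23ε` (`hm`, `‖H x_i‖ ≤ 1 + ε`), so `D_j ≤ 24 j ε (1+ε)^j ≤ 48 j ε`
(`(n+1) ε ≤ 1/100`); the rest `r < x_n`: `‖H r - 1‖ ≤ ε`, `‖exp(iλr) - 1‖ ≤ |λ| x_n ≤ 22ε`.  Total at most `100 (n + 1) ε`.
(An induction on `n` for intervals `[0, T/2^i]`, downwards, is perhaps the simplest organisation: claim for `x ≤ T/2^i`
error `≤ 50 (n - i + 1) ε`.)
-/

namespace Pool.Agent.Helper17.L3

private theorem abs_le_of_norm19 {x : ℝ} (hx : |x| ≤ Real.pi) :
    |x| ≤ 2 * ‖Complex.exp (x * Complex.I) - 1‖ := by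
  rw [mul_comm (x : ℂ) Complex.I, Complex.norm_exp_I_mul_ofReal_sub_one, norm_mul,
    Real.norm_eq_abs, Real.norm_eq_abs, abs_two]
  have h1 : |x / 2| ≤ Real.pi / 2 := by
    rw [abs_div, abs_two]
    linarith
  have h2 := Real.mul_abs_le_abs_sin h1
  rw [abs_div, abs_two] at h2
  have h3 : (1 : ℝ) / 2 ≤ 2 / Real.pi := by
    rw [div_le_div_iff₀ (by norm_num) Real.pi_pos]
    linarith [Real.pi_le_four]
  have h4 : 1 / 2 * (|x| / 2) ≤ 2 / Real.pi * (|x| / 2) :=
    mul_le_mul_of_nonneg_right h3 (by positivity)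
  linarith

private theorem norm_exp_sub_exp19 (a b : ℝ) :
    ‖Complex.exp (a * Complex.I) - Complex.exp (b * Complex.I)‖ ≤ |a - b| := by
  have h1 : Complex.exp (a * Complex.I) - Complex.exp (b * Complex.I) =
      Complex.exp (b * Complex.I) * (Complex.exp (Complex.I * ((a - b : ℝ) : ℂ)) - 1) := by
    rw [mul_sub, ← Complex.exp_add, mul_one]
    congr 2
    push_cast
    ring
  rw [h1, norm_mul, Complex.norm_exp_ofReal_mul_I, one_mul]
  exact Real.norm_exp_I_mul_ofReal_sub_one_le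

private theorem seq_exists19 {H : ℝ → ℂ} {ε : ℝ} (hε : 0 ≤ ε) (hε1 : ε ≤ 1 / 100) (n : ℕ) :
    ∀ T : ℝ, 0 < T → (∀ x y, 0 ≤ x → 0 ≤ y → x + y ≤ T → ‖H (x + y) - H x * H y‖ ≤ ε) →
    (∀ x, 0 ≤ x → x ≤ T → |‖H x‖ - 1| ≤ ε) →
    (∀ x, 0 ≤ x → x ≤ T / 2 ^ n → ‖H x - 1‖ ≤ ε) →
    ∃ θ : ℕ → ℝ, (∀ i ≤ n, ‖H (T / 2 ^ i) - Complex.exp (θ i * Complex.I)‖ ≤ ε) ∧
      (∀ i < n, |θ i - 2 * θ (i + 1)| ≤ 10 * ε) ∧ θ n = 0 := by
  induction n with
  | zero =>
    intro T hT hm h1 hs
    refine ⟨fun _ => 0, fun i hi => ?_, fun i hi => absurd hi (Nat.not_lt_zero _), rfl⟩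
    have hi0 : i = 0 := Nat.le_zero.1 hi
    subst hi0
    have := hs (T / 2 ^ 0) (by positivity) le_rfl
    simpa using this
  | succ n ih =>
    intro T hT hm h1 hs
    obtain ⟨θ, hθ1, hθ2, hθ3⟩ := ih (T / 2) (by positivity)
      (fun x y hx hy hxy => hm x y hx hy (by linarith))
      (fun x hx hxT => h1 x hx (by linarith))
      (fun x hx hxT => hs x hx (by rw [pow_succ', ← div_div]; exact hxT))
    set w : ℂ := H T * Complex.exp (-(2 * θ 0 : ℝ) * Complex.I) with hw
    set φ : ℝ := Complex.arg w with hφ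
    have hwn : ‖w‖ = ‖H T‖ := by
      have h2 : ‖Complex.exp (-(2 * θ 0 : ℝ) * Complex.I)‖ = 1 := by
        rw [← Complex.ofReal_neg, Complex.norm_exp_ofReal_mul_I]
      rw [hw, norm_mul, h2, mul_one]
    have hTn := h1 T hT.le le_rfl
    have hwφ : ‖w - Complex.exp (φ * Complex.I)‖ ≤ ε := by
      have h2 : w - Complex.exp (φ * Complex.I) =
          ((‖w‖ - 1 : ℝ) : ℂ) * Complex.exp (φ * Complex.I) := by
        conv_lhs => rw [← Complex.norm_mul_exp_arg_mul_I w]
        push_cast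
        ring
      rw [h2, norm_mul, Complex.norm_exp_ofReal_mul_I, mul_one, Complex.norm_real,
        Real.norm_eq_abs, hwn]
      exact hTn
    have hHT : H T = w * Complex.exp ((2 * θ 0 : ℝ) * Complex.I) := by
      rw [hw, mul_assoc, ← Complex.exp_add]
      have : -((2 * θ 0 : ℝ) : ℂ) * Complex.I + ((2 * θ 0 : ℝ) : ℂ) * Complex.I = 0 := by ring
      rw [this, Complex.exp_zero, mul_one]
    have hw1 : ‖w - 1‖ ≤ 4 * ε := by
      have e1 : ‖H T - H (T / 2) * H (T / 2)‖ ≤ ε := by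
        have := hm (T / 2) (T / 2) (by positivity) (by positivity) (by linarith)
        rwa [add_halves] at this
      have e2 : ‖H (T / 2) - Complex.exp (θ 0 * Complex.I)‖ ≤ ε := by
        have := hθ1 0 (Nat.zero_le _)
        simpa using this
      have e3 : ‖H (T / 2)‖ ≤ 1 + ε := by
        have := abs_le.1 (h1 (T / 2) (by positivity) (by linarith))
        linarith [this.2]
      have e4 : Complex.exp ((2 * θ 0 : ℝ) * Complex.I) =
          Complex.exp (θ 0 * Complex.I) * Complex.exp (θ 0 * Complex.I) := by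
        rw [← Complex.exp_add]
        congr 1
        push_cast
        ring
      have e5 : ‖H T - Complex.exp ((2 * θ 0 : ℝ) * Complex.I)‖ ≤ 4 * ε := by
        have h3 : H T - Complex.exp ((2 * θ 0 : ℝ) * Complex.I) =
            (H T - H (T / 2) * H (T / 2)) +
            (H (T / 2) * (H (T / 2) - Complex.exp (θ 0 * Complex.I)) +
            Complex.exp (θ 0 * Complex.I) * (H (T / 2) - Complex.exp (θ 0 * Complex.I))) := by
          rw [e4]; ring
        rw [h3]
        refine (norm_add_le _ _).trans ?_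
        have h4 := norm_add_le (H (T / 2) * (H (T / 2) - Complex.exp (θ 0 * Complex.I)))
          (Complex.exp (θ 0 * Complex.I) * (H (T / 2) - Complex.exp (θ 0 * Complex.I)))
        rw [norm_mul, norm_mul, Complex.norm_exp_ofReal_mul_I, one_mul] at h4
        have h5 : ‖H (T / 2)‖ * ‖H (T / 2) - Complex.exp (θ 0 * Complex.I)‖ ≤ (1 + ε) * ε :=
          mul_le_mul e3 e2 (norm_nonneg _) (by positivity)
        nlinarith
      have h6 : w - 1 = (H T - Complex.exp ((2 * θ 0 : ℝ) * Complex.I)) *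
          Complex.exp (-(2 * θ 0 : ℝ) * Complex.I) := by
        rw [sub_mul, ← hw, ← Complex.exp_add]
        have : ((2 * θ 0 : ℝ) : ℂ) * Complex.I + -((2 * θ 0 : ℝ) : ℂ) * Complex.I = 0 := by ring
        rw [this, Complex.exp_zero]
      have h2 : ‖Complex.exp (-(2 * θ 0 : ℝ) * Complex.I)‖ = 1 := by
        rw [← Complex.ofReal_neg, Complex.norm_exp_ofReal_mul_I]
      rw [h6, norm_mul, h2, mul_one]
      exact e5
    have hφ1 : |φ| ≤ 10 * ε := by
      have h2 : ‖Complex.exp (φ * Complex.I) - 1‖ ≤ 5 * ε := by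
        have h3 : Complex.exp (φ * Complex.I) - 1 =
            -(w - Complex.exp (φ * Complex.I)) + (w - 1) := by ring
        rw [h3]
        refine (norm_add_le _ _).trans ?_
        rw [norm_neg]
        linarith
      have h3 := abs_le_of_norm19 (Complex.abs_arg_le_pi w)
      rw [← hφ] at h3
      linarith
    refine ⟨fun i => Nat.casesOn i (2 * θ 0 + φ) θ, ?_, ?_, ?_⟩
    · intro i hi
      cases i with
      | zero =>
        change ‖H (T / 2 ^ 0) - Complex.exp (((2 * θ 0 + φ : ℝ) : ℂ) * Complex.I)‖ ≤ ε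
        rw [pow_zero, div_one]
        have h3 : H T - Complex.exp (((2 * θ 0 + φ : ℝ) : ℂ) * Complex.I) =
            (w - Complex.exp (φ * Complex.I)) * Complex.exp ((2 * θ 0 : ℝ) * Complex.I) := by
          rw [sub_mul, ← hHT, ← Complex.exp_add]
          congr 2
          push_cast
          ring
        rw [h3, norm_mul, Complex.norm_exp_ofReal_mul_I, mul_one]
        exact hwφ
      | succ i =>
        have := hθ1 i (by omega)
        rw [div_div, ← pow_succ'] at this
        exact this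
    · intro i hi
      cases i with
      | zero =>
        change |2 * θ 0 + φ - 2 * θ 0| ≤ 10 * ε
        have : 2 * θ 0 + φ - 2 * θ 0 = φ := by ring
        rw [this]
        exact hφ1
      | succ i => exact hθ2 i (by omega)
    · exact hθ3

theorem approx_char {H : ℝ → ℂ} {T ε : ℝ} (n : ℕ) (hT : 0 < T) (hε : 0 ≤ ε)
    (hnε : (n + 1) * ε ≤ 1 / 100)
    (hm : ∀ x y, 0 ≤ x → 0 ≤ y → x + y ≤ T → ‖H (x + y) - H x * H y‖ ≤ ε)
    (h1 : ∀ x, 0 ≤ x → x ≤ T → |‖H x‖ - 1| ≤ ε)
    (hs : ∀ x, 0 ≤ x → x ≤ T / 2 ^ n → ‖H x - 1‖ ≤ ε) :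
    ∃ lam : ℝ, |lam| * (T / 2 ^ n) ≤ 22 * ε ∧
      ∀ x, 0 ≤ x → x ≤ T → ‖H x - Complex.exp (lam * x * Complex.I)‖ ≤ 100 * (n + 1) * ε := by
  have hn0 : (0 : ℝ) ≤ n := Nat.cast_nonneg n
  have hε1 : ε ≤ 1 / 100 := by nlinarith
  obtain ⟨θ, hθ1, hθ2, hθ3⟩ := seq_exists19 hε hε1 n T hT hm h1 hs
  have hθ4 : ∀ i ≤ n, |θ i - θ 0 / 2 ^ i| ≤ 10 * ε := by
    intro i
    induction i with
    | zero => intro _; simp; positivity
    | succ i ih =>
      intro hi
      have h2 := ih (by omega)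
      have h3 := hθ2 i (by omega)
      have h4 : θ (i + 1) - θ 0 / 2 ^ (i + 1) =
          -(1 / 2) * (θ i - 2 * θ (i + 1)) + 1 / 2 * (θ i - θ 0 / 2 ^ i) := by
        rw [pow_succ]
        ring
      rw [h4]
      refine (abs_add_le _ _).trans ?_
      rw [abs_mul, abs_mul, abs_neg, abs_of_pos (by norm_num : (0 : ℝ) < 1 / 2)]
      linarith
  set lam : ℝ := θ 0 / T with hlam
  have hlami : ∀ i : ℕ, lam * (T / 2 ^ i) = θ 0 / 2 ^ i := by
    intro i
    rw [hlam]
    field_simp
  have hlamn : |lam| * (T / 2 ^ n) ≤ 10 * ε := by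
    have h2 := hθ4 n le_rfl
    rw [hθ3, zero_sub, abs_neg] at h2
    have h3 : |lam| * (T / 2 ^ n) = |θ 0 / 2 ^ n| := by
      rw [← hlami n, abs_mul, abs_of_pos (by positivity : (0 : ℝ) < T / 2 ^ n)]
    rw [h3]
    exact h2
  have hdy : ∀ i ≤ n, ‖H (T / 2 ^ i) - Complex.exp (lam * ((T / 2 ^ i : ℝ) : ℂ) * Complex.I)‖ ≤
      11 * ε := by
    intro i hi
    have h2 := hθ1 i hi
    have h3 := norm_exp_sub_exp19 (θ i) (lam * (T / 2 ^ i))
    rw [hlami i] at h3
    have h4 := hθ4 i hi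
    have h5 : (lam : ℂ) * ((T / 2 ^ i : ℝ) : ℂ) * Complex.I =
        ((θ 0 / 2 ^ i : ℝ) : ℂ) * Complex.I := by
      rw [← hlami i]
      push_cast
      ring
    rw [h5]
    have h6 : H (T / 2 ^ i) - Complex.exp (((θ 0 / 2 ^ i : ℝ) : ℂ) * Complex.I) =
        (H (T / 2 ^ i) - Complex.exp (θ i * Complex.I)) + (Complex.exp (θ i * Complex.I) -
          Complex.exp (((θ 0 / 2 ^ i : ℝ) : ℂ) * Complex.I)) := by ring
    rw [h6]
    refine (norm_add_le _ _).trans ?_
    linarith
  refine ⟨lam, by linarith, ?_⟩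
  have key : ∀ j ≤ n, ∀ x, 0 ≤ x → x ≤ T / 2 ^ (n - j) →
      ‖H x - Complex.exp (lam * x * Complex.I)‖ ≤ 13 * (j + 1) * ε := by
    intro j
    induction j with
    | zero =>
      intro _ x hx hxT
      rw [Nat.sub_zero] at hxT
      have h2 := hs x hx hxT
      have h3 : ‖Complex.exp (lam * x * Complex.I) - 1‖ ≤ |lam * x| := by
        have := norm_exp_sub_exp19 (lam * x) 0
        simpa using this
      have h4 : |lam * x| ≤ 10 * ε := by
        rw [abs_mul, abs_of_nonneg hx]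
        exact (mul_le_mul_of_nonneg_left hxT (abs_nonneg _)).trans hlamn
      have h5 : H x - Complex.exp (lam * x * Complex.I) =
          (H x - 1) - (Complex.exp (lam * x * Complex.I) - 1) := by ring
      rw [h5]
      refine (norm_sub_le _ _).trans ?_
      push_cast
      linarith
    | succ j ih =>
      intro hj x hx hxT
      have hih := ih (by omega)
      have e0 : n - j = (n - (j + 1)) + 1 := by omega
      set y : ℝ := T / 2 ^ (n - j) with hy
      have hy0 : 0 < y := by positivity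
      have hyx : x ≤ y + y := by
        refine hxT.trans (le_of_eq ?_)
        rw [hy, e0, pow_succ]
        field_simp
        norm_num
      push_cast
      rcases le_total x y with hxy | hxy
      · have := hih x hx hxy
        nlinarith
      · have hyT : y ≤ T := by
          rw [hy]
          exact div_le_self hT.le (one_le_pow₀ (by norm_num))
        have hxT' : x ≤ T := hxT.trans (div_le_self hT.le (one_le_pow₀ (by norm_num)))
        have h2 := hm y (x - y) hy0.le (by linarith) (by linarith)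
        have h3 : y + (x - y) = x := by ring
        rw [h3] at h2
        have h4 := hih (x - y) (by linarith) (by linarith)
        have h5 := hdy (n - j) (by omega)
        rw [← hy] at h5
        have h6 : ‖H (x - y)‖ ≤ 1 + ε := by
          have := abs_le.1 (h1 (x - y) (by linarith) (by linarith))
          linarith [this.2]
        have h7 : Complex.exp (lam * x * Complex.I) = Complex.exp (lam * y * Complex.I) *
            Complex.exp (lam * ((x - y : ℝ) : ℂ) * Complex.I) := by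
          rw [← Complex.exp_add]
          congr 1
          push_cast
          ring
        have h8 : H x - Complex.exp (lam * x * Complex.I) = (H x - H y * H (x - y)) +
            ((H y - Complex.exp (lam * y * Complex.I)) * H (x - y) +
            Complex.exp (lam * y * Complex.I) *
              (H (x - y) - Complex.exp (lam * ((x - y : ℝ) : ℂ) * Complex.I))) := by
          rw [h7]; ring
        have h9 : ‖Complex.exp (lam * y * Complex.I)‖ = 1 := by
          rw [← Complex.ofReal_mul, Complex.norm_exp_ofReal_mul_I]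
        rw [h8]
        refine (norm_add_le _ _).trans ?_
        have h10 := norm_add_le ((H y - Complex.exp (lam * y * Complex.I)) * H (x - y))
          (Complex.exp (lam * y * Complex.I) *
              (H (x - y) - Complex.exp (lam * ((x - y : ℝ) : ℂ) * Complex.I)))
        rw [norm_mul, norm_mul, h9, one_mul] at h10
        have h11 : ‖H y - Complex.exp (lam * y * Complex.I)‖ * ‖H (x - y)‖ ≤
            11 * ε * (1 + ε) := mul_le_mul h5 h6 (norm_nonneg _) (by positivity)
        nlinarith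
  intro x hx hxT
  have h2 := key n le_rfl x hx (by simpa using hxT)
  nlinarith

end Pool.Agent.Helper17.L3
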