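import Pool.Agent.Helper17.L3.B0

/-!
Block L3-I1.  Arithmetic of the identity.

`conv_mu`: `∑_{n ∣ l, (n,q)=1} μ(l/n) = ∑_{n ∣ l} ∑_{d ∣ (n,q)} μ(d) μ(l/n) = ∑_{d ∣ (l,q)} μ(d) ∑_{n' ∣ l/d} μ((l/d)/n')`, and the inner sum is
`1` if `l = d`, else `0` (`ArithmeticFunction.coe_zeta_mul_moebius`, `sum over divisors of moebius`).  So it is
`μ(l)` if `l ∣ q` and `0` otherwise.
`Gs_mul`: substitute `u → u n⁻¹` (`n` a unit mod `q`); `χ⁻¹(n⁻¹) = χ(n)`.
`norm_Gs_le`: trivial bound.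
`sum_Gs`: Parseval on `ZMod q`: `∑_{x : ZMod q} ‖Gs χ x‖² = q ∑_u ‖χ⁻¹ u‖² ≤ q²` (orthogonality of `stdAddChar`), so for
`M ≥ q`: `∑_{m ≤ M} ‖Gs χ m‖² ≤ (M/q + 1) q² ≤ 2 M q` (each class has at most `M/q + 1` elements `m ∈ [1, M]`), and
Cauchy-Schwarz: `∑_{m ≤ M} ‖Gs χ m‖ ≤ √(M * 2Mq) ≤ 2 √q M`.
-/

namespace Pool.Agent.Helper17.L3

open MeasureTheory Pool.Agent.Helper25.MOB

private theorem muq67 {q : ℕ} (_hq : 0 < q) : ∀ n > 0,
    ∑ i ∈ n.divisors, (if i ∣ q then mu i else 0) = if n.Coprime q then (1 : ℂ) else 0 := by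
  intro n hn
  have h1 : n.divisors.filter (fun i => i ∣ q) = (Nat.gcd n q).divisors := by
    ext i
    simp only [Finset.mem_filter, Nat.mem_divisors, Nat.dvd_gcd_iff]
    constructor
    · rintro ⟨⟨h1, h2⟩, h3⟩
      exact ⟨⟨h1, h3⟩, (Nat.gcd_pos_of_pos_left q hn).ne'⟩
    · rintro ⟨⟨h1, h3⟩, _⟩
      exact ⟨⟨h1, hn.ne'⟩, h3⟩
  rw [← Finset.sum_filter, h1]
  have h2 : ∑ i ∈ (Nat.gcd n q).divisors, mu i =
      ((∑ i ∈ (Nat.gcd n q).divisors, ArithmeticFunction.moebius i : ℤ) : ℂ) := by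
    rw [Int.cast_sum]
    rfl
  rw [h2, ← ArithmeticFunction.coe_mul_zeta_apply, ArithmeticFunction.moebius_mul_coe_zeta,
    ArithmeticFunction.one_apply]
  by_cases h : n.Coprime q
  · rw [if_pos h, if_pos h]
    norm_num
  · rw [if_neg h, if_neg h]
    norm_num

private theorem norm_std67 {q : ℕ} [NeZero q] (x : ZMod q) : ‖ZMod.stdAddChar x‖ = 1 := by
  rw [ZMod.stdAddChar_apply]
  exact Circle.norm_coe _

private theorem sum_range67 {q : ℕ} [NeZero q] (F : ZMod q → ℝ) :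
    ∀ k : ℕ, ∑ m ∈ Finset.range (q * k), F (m : ZMod q) = k * ∑ x : ZMod q, F x := by
  have hq : 0 < q := Nat.pos_of_ne_zero (NeZero.ne q)
  have h1 : ∑ m ∈ Finset.range q, F (m : ZMod q) = ∑ x : ZMod q, F x := by
    refine Finset.sum_bij (fun m _ => (m : ZMod q)) (fun _ _ => Finset.mem_univ _) ?_ ?_ ?_
    · intro a ha b hb h
      rw [Finset.mem_range] at ha hb
      rw [ZMod.natCast_eq_natCast_iff'] at h
      rwa [Nat.mod_eq_of_lt ha, Nat.mod_eq_of_lt hb] at h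
    · intro x _
      exact ⟨x.val, Finset.mem_range.2 (ZMod.val_lt x), ZMod.natCast_zmod_val x⟩
    · intro _ _; rfl
  intro k
  induction k with
  | zero => simp
  | succ k ih =>
    rw [Nat.mul_succ, Finset.sum_range_add, ih]
    have h2 : ∑ x ∈ Finset.range q, F ((q * k + x : ℕ) : ZMod q) = ∑ x : ZMod q, F x := by
      rw [← h1]
      refine Finset.sum_congr rfl fun m _ => ?_
      congr 1
      push_cast
      simp
    rw [h2]
    push_cast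
    ring

open Classical in
private theorem parseval67 {q : ℕ} [NeZero q] (χ : DirichletCharacter ℂ q) :
    ∑ x : ZMod q, ‖Gs χ x‖ ^ 2 ≤ (q : ℝ) ^ 2 := by
  have h1 : (((∑ x : ZMod q, ‖Gs χ x‖ ^ 2 : ℝ)) : ℂ) = q * ∑ u : ZMod q, χ⁻¹ u * (starRingEnd ℂ) (χ⁻¹ u) := by
    push_cast
    have h2 : ∀ x : ZMod q, ((‖Gs χ x‖ : ℂ)) ^ 2 =
        ∑ u : ZMod q, ∑ u' : ZMod q, χ⁻¹ u * (starRingEnd ℂ) (χ⁻¹ u') *
          ZMod.stdAddChar (x * (u - u')) := by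
      intro x
      rw [← Complex.mul_conj', Gs, map_sum, Finset.sum_mul_sum]
      refine Finset.sum_congr rfl fun u _ => Finset.sum_congr rfl fun u' _ => ?_
      rw [map_mul (starRingEnd ℂ)]
      have h3 : (starRingEnd ℂ) (ZMod.stdAddChar (u' * x)) = ZMod.stdAddChar (-(u' * x)) := by
        rw [AddChar.map_neg_eq_conj]
      have h4 : (ZMod.stdAddChar (x * (u - u')) : ℂ) =
          ZMod.stdAddChar (u * x) * ZMod.stdAddChar (-(u' * x)) := by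
        rw [← AddChar.map_add_eq_mul]
        congr 1
        ring
      rw [h3, h4]
      ring
    simp_rw [h2]
    rw [Finset.sum_comm]
    have h5 : ∀ u : ZMod q, ∑ x : ZMod q, ∑ u' : ZMod q, χ⁻¹ u * (starRingEnd ℂ) (χ⁻¹ u') *
          (ZMod.stdAddChar (x * (u - u')) : ℂ) = q * (χ⁻¹ u * (starRingEnd ℂ) (χ⁻¹ u)) := by
      intro u
      rw [Finset.sum_comm]
      have h6 : ∀ u' : ZMod q, ∑ x : ZMod q, χ⁻¹ u * (starRingEnd ℂ) (χ⁻¹ u') *
          (ZMod.stdAddChar (x * (u - u')) : ℂ) =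
          if u' = u then q * (χ⁻¹ u * (starRingEnd ℂ) (χ⁻¹ u)) else 0 := by
        intro u'
        rw [← Finset.mul_sum, AddChar.sum_mulShift _ (ZMod.isPrimitive_stdAddChar q)]
        by_cases h : u' = u
        · subst h
          rw [if_pos rfl, if_pos (sub_self _), ZMod.card]
          ring
        · rw [if_neg h, if_neg (sub_ne_zero.2 (Ne.symm h))]
          simp
      simp_rw [h6]
      rw [Finset.sum_ite_eq' Finset.univ u, if_pos (Finset.mem_univ _)]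
    simp_rw [h5]
    rw [← Finset.mul_sum]
  have h2 : q * ∑ u : ZMod q, χ⁻¹ u * (starRingEnd ℂ) (χ⁻¹ u) =
      (((q : ℝ) * ∑ u : ZMod q, ‖χ⁻¹ u‖ ^ 2 : ℝ) : ℂ) := by
    push_cast
    congr 1
    refine Finset.sum_congr rfl fun u _ => ?_
    rw [Complex.mul_conj']
  rw [h2] at h1
  have h3 : ∑ x : ZMod q, ‖Gs χ x‖ ^ 2 = (q : ℝ) * ∑ u : ZMod q, ‖χ⁻¹ u‖ ^ 2 := by
    exact_mod_cast h1
  rw [h3, sq]
  refine mul_le_mul_of_nonneg_left ?_ (Nat.cast_nonneg q)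
  calc ∑ u : ZMod q, ‖χ⁻¹ u‖ ^ 2 ≤ ∑ u : ZMod q, (1 : ℝ) := by
        refine Finset.sum_le_sum fun u _ => ?_
        have h4 := DirichletCharacter.norm_le_one (χ⁻¹) u
        have h5 := norm_nonneg (χ⁻¹ u)
        nlinarith
    _ = q := by simp

theorem conv_mu {q l : ℕ} (hl : 0 < l) (hq : 0 < q) :
    ∑ n ∈ l.divisors.filter (fun n => n.Coprime q), mu (l / n) = if l ∣ q then mu l else 0 := by
  have h1 := (ArithmeticFunction.sum_eq_iff_sum_mul_moebius_eq (R := ℂ)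
    (f := fun i => if i ∣ q then mu i else 0)
    (g := fun n => if n.Coprime q then (1 : ℂ) else 0)).1 (muq67 hq) l hl
  rw [← h1, Nat.sum_divisorsAntidiagonal' (fun a b => ((ArithmeticFunction.moebius a : ℤ) : ℂ) *
    (if b.Coprime q then (1 : ℂ) else 0)), Finset.sum_filter]
  refine Finset.sum_congr rfl fun n _ => ?_
  by_cases h : n.Coprime q
  · rw [if_pos h, if_pos h, mul_one]
    rfl
  · rw [if_neg h, if_neg h, mul_zero]

theorem Gs_mul {q : ℕ} [NeZero q] (χ : DirichletCharacter ℂ q) {n : ℕ} (hn : n.Coprime q)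
    (x : ZMod q) : Gs χ ((n : ZMod q) * x) = χ n * Gs χ x := by
  set v : (ZMod q)ˣ := ZMod.unitOfCoprime n hn with hv
  have hv1 : (v : ZMod q) = n := ZMod.coe_unitOfCoprime n hn
  have h1 : χ (n : ZMod q) * χ⁻¹ (n : ZMod q) = 1 := by
    rw [← hv1, ← MulChar.mul_apply, mul_inv_cancel]
    exact MulChar.one_apply_coe v
  unfold Gs
  rw [Finset.mul_sum]
  refine (Fintype.sum_equiv (Units.mulRight v) _ _ fun u => ?_)
  have h3 : Units.mulRight v u = u * (n : ZMod q) := by rw [← hv1]; rfl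
  have h4 : χ⁻¹ (u * (n : ZMod q)) = χ⁻¹ u * χ⁻¹ (n : ZMod q) := map_mul _ _ _
  have h2 : u * ((n : ZMod q) * x) = u * (n : ZMod q) * x := by ring
  rw [h3, h4, h2]
  linear_combination (-(χ⁻¹ u * ZMod.stdAddChar (u * (n : ZMod q) * x) : ℂ)) * h1

theorem norm_Gs_le {q : ℕ} [NeZero q] (χ : DirichletCharacter ℂ q) (x : ZMod q) :
    ‖Gs χ x‖ ≤ q := by
  unfold Gs
  refine (norm_sum_le _ _).trans ?_
  calc ∑ u : ZMod q, ‖χ⁻¹ u * ZMod.stdAddChar (u * x)‖ ≤ ∑ u : ZMod q, (1 : ℝ) := by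
        refine Finset.sum_le_sum fun u _ => ?_
        rw [norm_mul, norm_std67, mul_one]
        exact DirichletCharacter.norm_le_one (χ⁻¹) u
    _ = q := by simp

theorem sum_Gs {q : ℕ} [NeZero q] (χ : DirichletCharacter ℂ q) {M : ℝ} (hM : q ≤ M) :
    ∑ m ∈ Finset.Icc 1 ⌊M⌋₊, ‖Gs χ (m : ZMod q)‖ ≤ 2 * √(q : ℝ) * M := by
  have hq : 0 < q := Nat.pos_of_ne_zero (NeZero.ne q)
  have hqr : (0 : ℝ) < q := by exact_mod_cast hq
  have hM0 : 0 < M := by linarith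
  set n := ⌊M⌋₊ with hn
  have hnM : (n : ℝ) ≤ M := Nat.floor_le hM0.le
  set k := n / q + 1 with hk
  have h1 : ∑ m ∈ Finset.Icc 1 n, ‖Gs χ (m : ZMod q)‖ ^ 2 ≤ 2 * M * q := by
    have h2 : ∑ m ∈ Finset.Icc 1 n, ‖Gs χ (m : ZMod q)‖ ^ 2 ≤
        ∑ m ∈ Finset.range (q * k), ‖Gs χ (m : ZMod q)‖ ^ 2 := by
      refine Finset.sum_le_sum_of_subset_of_nonneg ?_ fun _ _ _ => by positivity
      intro m hm
      rw [Finset.mem_Icc] at hm
      rw [Finset.mem_range]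
      refine lt_of_le_of_lt hm.2 ?_
      rw [hk]
      exact Nat.lt_mul_div_succ n hq
    rw [sum_range67 (fun x => ‖Gs χ x‖ ^ 2) k] at h2
    refine h2.trans ?_
    have h3 : (k : ℝ) * q ≤ 2 * M := by
      have h4 : k * q ≤ n + q := by
        rw [hk, add_mul, one_mul]
        exact Nat.add_le_add_right (Nat.div_mul_le_self n q) q
      have h5 : (k : ℝ) * q ≤ n + q := by exact_mod_cast h4
      linarith
    calc (k : ℝ) * ∑ x : ZMod q, ‖Gs χ x‖ ^ 2 ≤ k * (q : ℝ) ^ 2 :=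
          mul_le_mul_of_nonneg_left (parseval67 χ) (Nat.cast_nonneg k)
      _ = (k * q) * q := by ring
      _ ≤ 2 * M * q := mul_le_mul_of_nonneg_right h3 hqr.le
  have h2 : (∑ m ∈ Finset.Icc 1 n, ‖Gs χ (m : ZMod q)‖) ^ 2 ≤
      n * ∑ m ∈ Finset.Icc 1 n, ‖Gs χ (m : ZMod q)‖ ^ 2 := by
    have := sq_sum_le_card_mul_sum_sq (s := Finset.Icc 1 n) (f := fun m => ‖Gs χ (m : ZMod q)‖)
    simpa using this
  refine le_of_sq_le_sq ?_ (by positivity)
  refine h2.trans ?_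
  have h3 : (2 * √(q : ℝ) * M) ^ 2 = 4 * q * M ^ 2 := by
    rw [mul_pow, mul_pow, Real.sq_sqrt hqr.le]
    ring
  rw [h3]
  have h4 : 0 ≤ ∑ m ∈ Finset.Icc 1 n, ‖Gs χ (m : ZMod q)‖ ^ 2 :=
    Finset.sum_nonneg fun _ _ => by positivity
  calc (n : ℝ) * ∑ m ∈ Finset.Icc 1 n, ‖Gs χ (m : ZMod q)‖ ^ 2 ≤ M * (2 * M * q) :=
        mul_le_mul hnM h1 h4 hM0.le
    _ ≤ 4 * q * M ^ 2 := by nlinarith [mul_pos hqr (mul_pos hM0 hM0)]

end Pool.Agent.Helper17.L3
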