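import Pool.Agent.Helper17.L3.B0

/-!
Block L3-I2.  The component `Pc` of `Psi`, and Abel summation.

`Pc L w χ y` is an average over `b ∈ G` (`#G = φ(q)`) of `χ(b) Psi L (w b) y`: the bounds of `Psi` carry over.

`abel_tail`: `f` vanishes beyond `Y` and is Lipschitz with constant `K` on `[z, ∞)`, `‖f‖ ≤ M`; `a n` has all interval sums
bounded by `P`.  Let `z₀ = ⌊z⌋₊`, `Z = ⌊Y⌋₊`, `S n = ∑_{k ∈ Ioc z₀ n} a k`.
`∑_{n ∈ Ioc z₀ Z} a n f n = S(Z) f(Z) - ∑_{n = z₀+1}^{Z-1} S n (f (n+1) - f n)` (summation by parts;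
`Finset.sum_range_by_parts`), norm `≤ P (M + K (Z - z₀)) ≤ P (M + K Y)`.
-/

namespace Pool.Agent.Helper17.L3

open MeasureTheory Pool.Agent.Helper25.MOB

private theorem avg77 {q : ℕ} [NeZero q] (χ : DirichletCharacter ℂ q) {F : (ZMod q)ˣ → ℂ}
    {C : ℝ} (hF : ∀ b, ‖F b‖ ≤ C) :
    ‖(1 / (q.totient : ℂ)) * ∑ b : (ZMod q)ˣ, χ (b : ZMod q) * F b‖ ≤ C := by
  have hφ : (0 : ℝ) < q.totient := by
    exact_mod_cast Nat.totient_pos.mpr (Nat.pos_of_ne_zero (NeZero.ne q))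
  have h1 : ‖∑ b : (ZMod q)ˣ, χ (b : ZMod q) * F b‖ ≤ q.totient * C := by
    refine (norm_sum_le _ _).trans ?_
    have h2 : ∀ b ∈ (Finset.univ : Finset (ZMod q)ˣ), ‖χ (b : ZMod q) * F b‖ ≤ C := by
      intro b _
      rw [norm_mul]
      calc _ ≤ 1 * ‖F b‖ := mul_le_mul_of_nonneg_right (χ.norm_le_one _) (norm_nonneg _)
        _ = ‖F b‖ := one_mul _
        _ ≤ C := hF b
    refine (Finset.sum_le_card_nsmul _ _ _ h2).trans ?_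
    rw [nsmul_eq_mul, Finset.card_univ, ZMod.card_units_eq_totient]
  rw [norm_mul, norm_div, norm_one, Complex.norm_natCast]
  calc _ ≤ 1 / (q.totient : ℝ) * (q.totient * C) :=
        mul_le_mul_of_nonneg_left h1 (by positivity)
    _ = C := by field_simp

theorem norm_Pc_le {q : ℕ} [NeZero q] {L t : ℝ} {w : (ZMod q)ˣ → ℝ → ℂ} (hL : 0 < L)
    (ht : 0 ≤ t) (hw : ∀ b, Ph t (w b)) (χ : DirichletCharacter ℂ q) {y : ℝ} (hy : 0 ≤ y) :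
    ‖Pc L w χ y‖ ≤ 2 * t :=
  avg77 χ fun b => norm_Psi_le hL ht (hw b) hy

theorem Pc_eq_zero {q : ℕ} [NeZero q] {L : ℝ} {w : (ZMod q)ˣ → ℝ → ℂ} (hL : 0 < L)
    (χ : DirichletCharacter ℂ q) {y : ℝ} (hy : L ≤ y) : Pc L w χ y = 0 := by
  unfold Pc
  rw [Finset.sum_eq_zero fun b _ => by rw [Psi_eq_zero hL hy, mul_zero], mul_zero]

theorem Pc_lip {q : ℕ} [NeZero q] {L t : ℝ} {w : (ZMod q)ˣ → ℝ → ℂ} (hL : 0 < L)
    (ht : 0 ≤ t) (hw : ∀ b, Ph t (w b)) (χ : DirichletCharacter ℂ q) {y y' : ℝ} (hy : 0 ≤ y)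
    (hy' : 0 ≤ y') :
    ‖Pc L w χ y - Pc L w χ y'‖ ≤ (4 * Real.pi * t ^ 2 + 2 * t / L) * |y - y'| := by
  have h : Pc L w χ y - Pc L w χ y' = (1 / (q.totient : ℂ)) *
      ∑ b : (ZMod q)ˣ, χ (b : ZMod q) * (Psi L (w b) y - Psi L (w b) y') := by
    unfold Pc
    rw [← mul_sub, ← Finset.sum_sub_distrib]
    simp only [mul_sub]
  rw [h]
  exact avg77 χ fun b => Psi_lip hL ht (hw b) hy hy'

private theorem abel77 (a : ℕ → ℂ) (f : ℝ → ℂ) (z m : ℕ) :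
    ∑ n ∈ Finset.Ioc z (z + m), a n * f n =
      (∑ k ∈ Finset.Ioc z (z + m), a k) * f ((z + m : ℕ) : ℝ) -
        ∑ j ∈ Finset.range m, (∑ k ∈ Finset.Ioc z (z + j), a k) *
          (f ((z + j + 1 : ℕ) : ℝ) - f ((z + j : ℕ) : ℝ)) := by
  induction m with
  | zero => simp
  | succ m ih =>
    have h1 : Finset.Ioc z (z + (m + 1)) = insert (z + m + 1) (Finset.Ioc z (z + m)) := by
      ext k
      simp only [Finset.mem_Ioc, Finset.mem_insert]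
      omega
    have h2 : z + m + 1 ∉ Finset.Ioc z (z + m) := by
      simp only [Finset.mem_Ioc]
      omega
    rw [h1, Finset.sum_insert h2, Finset.sum_insert h2, ih, Finset.sum_range_succ]
    have h3 : z + (m + 1) = z + m + 1 := by omega
    rw [h3]
    ring

theorem abel_tail {a : ℕ → ℂ} {P : ℝ} (hP : ∀ m n : ℕ, ‖∑ k ∈ Finset.Ioc m n, a k‖ ≤ P)
    {f : ℝ → ℂ} {z Y M K : ℝ} (hz : 0 ≤ z) (hzY : z ≤ Y) (hM : ∀ x, z ≤ x → ‖f x‖ ≤ M)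
    (hK0 : 0 ≤ K) (hK : ∀ x y, z ≤ x → z ≤ y → ‖f x - f y‖ ≤ K * |x - y|) :
    ‖∑ n ∈ Finset.Ioc ⌊z⌋₊ ⌊Y⌋₊, a n * f n‖ ≤ P * (M + K * Y) := by
  have hP0 : 0 ≤ P := (norm_nonneg _).trans (hP 0 0)
  have hM0 : 0 ≤ M := (norm_nonneg _).trans (hM z le_rfl)
  have hY0 : 0 ≤ Y := hz.trans hzY
  have hfl : ⌊z⌋₊ ≤ ⌊Y⌋₊ := Nat.floor_mono hzY
  obtain ⟨m, hm⟩ : ∃ m, ⌊Y⌋₊ = ⌊z⌋₊ + m := ⟨⌊Y⌋₊ - ⌊z⌋₊, by omega⟩
  have hmY : (m : ℝ) ≤ Y := by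
    have h1 : (⌊Y⌋₊ : ℝ) ≤ Y := Nat.floor_le hY0
    have h2 : (m : ℝ) ≤ (⌊Y⌋₊ : ℝ) := by
      have : m ≤ ⌊Y⌋₊ := by omega
      exact_mod_cast this
    exact h2.trans h1
  have hge : ∀ j : ℕ, 1 ≤ j → z ≤ ((⌊z⌋₊ + j : ℕ) : ℝ) := by
    intro j hj
    have h1 := Nat.lt_floor_add_one z
    have h2 : (1 : ℝ) ≤ j := by exact_mod_cast hj
    push_cast
    linarith
  rw [hm, abel77]
  have h1 : ‖(∑ k ∈ Finset.Ioc ⌊z⌋₊ (⌊z⌋₊ + m), a k) * f ((⌊z⌋₊ + m : ℕ) : ℝ)‖ ≤ P * M := by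
    rcases Nat.eq_zero_or_pos m with h0 | h0
    · subst h0
      simp only [add_zero, Finset.Ioc_self, Finset.sum_empty, zero_mul, norm_zero]
      positivity
    · rw [norm_mul]
      exact mul_le_mul (hP _ _) (hM _ (hge m h0)) (norm_nonneg _) hP0
  have h2 : ‖∑ j ∈ Finset.range m, (∑ k ∈ Finset.Ioc ⌊z⌋₊ (⌊z⌋₊ + j), a k) *
          (f ((⌊z⌋₊ + j + 1 : ℕ) : ℝ) - f ((⌊z⌋₊ + j : ℕ) : ℝ))‖ ≤ m * (P * K) := by
    refine (norm_sum_le _ _).trans ?_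
    have h3 : ∀ j ∈ Finset.range m, ‖(∑ k ∈ Finset.Ioc ⌊z⌋₊ (⌊z⌋₊ + j), a k) *
          (f ((⌊z⌋₊ + j + 1 : ℕ) : ℝ) - f ((⌊z⌋₊ + j : ℕ) : ℝ))‖ ≤ P * K := by
      intro j _
      rcases Nat.eq_zero_or_pos j with h0 | h0
      · subst h0
        simp only [add_zero, Finset.Ioc_self, Finset.sum_empty, zero_mul, norm_zero]
        positivity
      · rw [norm_mul]
        have h4 := hK _ _ (hge (j + 1) (by omega)) (hge j h0)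
        have h5 : |((⌊z⌋₊ + (j + 1) : ℕ) : ℝ) - ((⌊z⌋₊ + j : ℕ) : ℝ)| = 1 := by
          push_cast
          rw [show (⌊z⌋₊ : ℝ) + (j + 1) - (⌊z⌋₊ + j) = 1 by ring, abs_one]
        rw [h5, mul_one] at h4
        exact mul_le_mul (hP _ _) h4 (norm_nonneg _) hP0
    refine (Finset.sum_le_card_nsmul _ _ _ h3).trans ?_
    rw [nsmul_eq_mul, Finset.card_range]
  refine (norm_sub_le _ _).trans ((add_le_add h1 h2).trans ?_)
  have h3 : (m : ℝ) * (P * K) ≤ Y * (P * K) :=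
    mul_le_mul_of_nonneg_right hmY (mul_nonneg hP0 hK0)
  linarith

end Pool.Agent.Helper17.L3
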