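import Pool.Agent.Helper17.L3.I1
import Pool.Agent.Helper17.L3.I2
import Pool.Agent.Helper17.L3.FOU

/-!
Block L3-I3.  The truncated identity.

`hc_eq`: `hc χ (X n) = ∑_{m ≤ N} X n μ(m) Gs χ m Pc (X n m)`, so `∑_n (χ(n)/n) hc χ (X n) = ∑_n ∑_m X μ(m) χ(n) Gs χ m Pc (X n m)` and
`χ(n) Gs χ m = Gs χ (n m)` for `(n, q) = 1` (`Gs_mul`), `χ(n) = 0` otherwise.

Full sum `n ∈ [1, N]`: terms with `n m > N` vanish (`X n m ≥ n m > N ≥ L`).  Group by `l = n m`:
`X ∑_{l ≤ N} Gs χ l Pc (X l) ∑_{n ∣ l, (n,q)=1} μ(l/n) = X ∑_{l ≤ N, l ∣ q} μ(l) Gs χ l Pc (X l)` (`conv_mu`), norm at most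
`X * q * q * 2t` (`norm_Gs_le`, `norm_Pc_le`, at most `q` divisors).

Tail `n ∈ (⌊z⌋, N]`: exchange the sums; for fixed `m` the term with `X m n ≥ L` vanish, so `n ≤ ⌊L/(X m)⌋` (which is `≤ N`), and
if `X m z > L` everything vanishes: `m ≤ ⌊L/(X z)⌋`.
-/

namespace Pool.Agent.Helper17.L3

open MeasureTheory Pool.Agent.Helper25.MOB

theorem chi_mul_Gs {q : ℕ} [NeZero q] (χ : DirichletCharacter ℂ q) (n m : ℕ) :
    χ (n : ZMod q) * Gs χ (m : ZMod q) =
      if n.Coprime q then Gs χ ((n * m : ℕ) : ZMod q) else 0 := by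
  split_ifs with h
  · rw [Nat.cast_mul, Gs_mul χ h]
  · rw [MulChar.map_nonunit, zero_mul]
    rw [ZMod.isUnit_iff_coprime]
    exact h

/-- Grouping a double sum by the product. -/
theorem group_prod {N R : ℕ} (hNR : N ≤ R) (f : ℕ → ℕ → ℂ) (G : ℕ → ℂ)
    (hG : ∀ l, N < l → G l = 0) :
    ∑ n ∈ Finset.Icc 1 R, ∑ m ∈ Finset.Icc 1 R, f n m * G (n * m) =
      ∑ l ∈ Finset.Icc 1 N, ∑ n ∈ l.divisors, f n (l / n) * G l := by
  rw [← Finset.sum_product']
  have h1 : ∑ x ∈ Finset.Icc 1 R ×ˢ Finset.Icc 1 R, f x.1 x.2 * G (x.1 * x.2) =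
      ∑ x ∈ (Finset.Icc 1 R ×ˢ Finset.Icc 1 R).filter (fun x => x.1 * x.2 ≤ N),
        f x.1 x.2 * G (x.1 * x.2) := by
    rw [Finset.sum_filter]
    refine Finset.sum_congr rfl fun x _ => ?_
    split_ifs with h
    · rfl
    · rw [hG _ (not_le.mp h), mul_zero]
  rw [h1]
  have hmaps : ∀ x ∈ (Finset.Icc 1 R ×ˢ Finset.Icc 1 R).filter (fun x => x.1 * x.2 ≤ N),
      x.1 * x.2 ∈ Finset.Icc 1 N := by
    intro x hx
    simp only [Finset.mem_filter, Finset.mem_product, Finset.mem_Icc] at hx ⊢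
    exact ⟨Nat.mul_pos hx.1.1.1 hx.1.2.1, hx.2⟩
  rw [← Finset.sum_fiberwise_of_maps_to hmaps]
  refine Finset.sum_congr rfl fun l hl => ?_
  have hl' := Finset.mem_Icc.mp hl
  have h2 : ((Finset.Icc 1 R ×ˢ Finset.Icc 1 R).filter (fun x => x.1 * x.2 ≤ N)).filter
      (fun x => x.1 * x.2 = l) = l.divisorsAntidiagonal := by
    ext x
    simp only [Finset.mem_filter, Finset.mem_product, Finset.mem_Icc,
      Nat.mem_divisorsAntidiagonal]
    constructor
    · rintro ⟨_, h⟩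
      exact ⟨h, by omega⟩
    · rintro ⟨h, h0⟩
      have ha : 0 < x.1 := by
        rcases Nat.eq_zero_or_pos x.1 with h3 | h3
        · rw [h3, zero_mul] at h; omega
        · exact h3
      have hb : 0 < x.2 := by
        rcases Nat.eq_zero_or_pos x.2 with h3 | h3
        · rw [h3, mul_zero] at h; omega
        · exact h3
      have hxa : x.1 ≤ l := by
        rw [← h]; exact Nat.le_mul_of_pos_right _ hb
      have hxb : x.2 ≤ l := by
        rw [← h]; exact Nat.le_mul_of_pos_left _ ha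
      refine ⟨⟨⟨⟨ha, by omega⟩, ⟨hb, by omega⟩⟩, by omega⟩, h⟩
  rw [h2, ← Nat.sum_divisorsAntidiagonal (fun n m => f n m * G l)]
  refine Finset.sum_congr rfl fun x hx => ?_
  rw [(Nat.mem_divisorsAntidiagonal.mp hx).1]

theorem trunc_id {q : ℕ} [NeZero q] {N : ℕ} {L t X z : ℝ} {w : (ZMod q)ˣ → ℝ → ℂ}
    (hw : ∀ b, Ph t (w b)) (ht : 0 ≤ t) (hL : 0 < L) (hLN : L ≤ N) (hX : 1 ≤ X) (hz : 1 ≤ z)
    (χ : DirichletCharacter ℂ q) :
    ‖(∑ n ∈ Finset.Icc 1 ⌊z⌋₊, χ (n : ZMod q) / (n : ℂ) * hc N L w χ (X * n)) +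
        ∑ m ∈ Finset.Icc 1 ⌊L / (X * z)⌋₊, (X : ℂ) * mu m * Gs χ (m : ZMod q) *
          ∑ n ∈ Finset.Ioc ⌊z⌋₊ ⌊L / (X * m)⌋₊, χ (n : ZMod q) * Pc L w χ (X * m * n)‖ ≤
      2 * X * (q : ℝ) ^ 2 * t := by
  have hX0 : 0 < X := by linarith
  have hz0 : 0 < z := by linarith
  set K : ℕ := ⌊z⌋₊ with hK
  set R : ℕ := N + K with hR
  set G : ℕ → ℂ := fun l => (X : ℂ) * Gs χ (l : ZMod q) * Pc L w χ (X * l) with hG
  have hG0 : ∀ l : ℕ, N < l → G l = 0 := by
    intro l hl
    have : L ≤ X * l := by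
      have h1 : (N : ℝ) ≤ l := by exact_mod_cast hl.le
      nlinarith
    simp only [hG, Pc_eq_zero hL χ this, mul_zero]
  set f : ℕ → ℕ → ℂ := fun n m => (if n.Coprime q then 1 else 0) * mu m with hf
  have hterm : ∀ n m : ℕ, f n m * G (n * m) =
      (X : ℂ) * mu m * Gs χ (m : ZMod q) * (χ (n : ZMod q) * Pc L w χ (X * m * n)) := by
    intro n m
    have h1 := chi_mul_Gs χ n m
    have h2 : X * ((n * m : ℕ) : ℝ) = X * m * n := by push_cast; ring
    simp only [hf, hG]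
    rw [h2]
    calc (if n.Coprime q then (1 : ℂ) else 0) * mu m *
          ((X : ℂ) * Gs χ ((n * m : ℕ) : ZMod q) * Pc L w χ (X * m * n))
        = (X : ℂ) * mu m * (if n.Coprime q then Gs χ ((n * m : ℕ) : ZMod q) else 0) *
            Pc L w χ (X * m * n) := by split_ifs <;> ring
      _ = _ := by rw [← h1]; ring
  have hvan : ∀ n m : ℕ, L ≤ X * m * n → f n m * G (n * m) = 0 := by
    intro n m h
    rw [hterm, Pc_eq_zero hL χ h, mul_zero, mul_zero]
  -- first term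
  have hT1 : ∑ n ∈ Finset.Icc 1 K, χ (n : ZMod q) / (n : ℂ) * hc N L w χ (X * n) =
      ∑ n ∈ Finset.Icc 1 K, ∑ m ∈ Finset.Icc 1 R, f n m * G (n * m) := by
    refine Finset.sum_congr rfl fun n hn => ?_
    have hn1 : 1 ≤ n := (Finset.mem_Icc.mp hn).1
    have hn0 : (n : ℂ) ≠ 0 := by
      have : n ≠ 0 := by omega
      exact_mod_cast this
    rw [hc_eq, Finset.mul_sum]
    have hsub : Finset.Icc 1 N ⊆ Finset.Icc 1 R := Finset.Icc_subset_Icc le_rfl (by omega)
    rw [← Finset.sum_subset hsub]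
    · refine Finset.sum_congr rfl fun m hm => ?_
      rw [hterm]
      have h3 : X * (n : ℝ) * m = X * m * n := by ring
      rw [h3]
      push_cast
      field_simp
    · intro m hm hm'
      apply hvan
      have hm1 := Finset.mem_Icc.mp hm
      have hmN : N < m := by
        by_contra h
        exact hm' (Finset.mem_Icc.mpr ⟨hm1.1, by omega⟩)
      have h4 : (N : ℝ) ≤ m := by exact_mod_cast hmN.le
      have h5 : (1 : ℝ) ≤ n := by exact_mod_cast hn1
      have h6 : (0 : ℝ) ≤ m := Nat.cast_nonneg _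
      calc L ≤ m := hLN.trans h4
        _ ≤ X * m := by nlinarith
        _ ≤ X * m * n := le_mul_of_one_le_right (by positivity) h5
  -- second term
  have hT2 : ∑ m ∈ Finset.Icc 1 ⌊L / (X * z)⌋₊, (X : ℂ) * mu m * Gs χ (m : ZMod q) *
          ∑ n ∈ Finset.Ioc K ⌊L / (X * m)⌋₊, χ (n : ZMod q) * Pc L w χ (X * m * n) =
      ∑ n ∈ Finset.Ioc K R, ∑ m ∈ Finset.Icc 1 R, f n m * G (n * m) := by
    rw [Finset.sum_comm]
    have hsub : Finset.Icc 1 ⌊L / (X * z)⌋₊ ⊆ Finset.Icc 1 R := by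
      refine Finset.Icc_subset_Icc le_rfl ?_
      have h1 : L / (X * z) ≤ N := by
        rw [div_le_iff₀ (by positivity)]
        have : (1 : ℝ) ≤ X * z := by nlinarith
        nlinarith [Nat.cast_nonneg (α := ℝ) N]
      have h2 : ⌊L / (X * z)⌋₊ ≤ N := by
        rw [← Nat.floor_natCast (R := ℝ) N]
        exact Nat.floor_le_floor h1
      omega
    rw [← Finset.sum_subset hsub]
    · refine Finset.sum_congr rfl fun m hm => ?_
      have hm1 := (Finset.mem_Icc.mp hm).1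
      have hm1' : (1 : ℝ) ≤ m := by exact_mod_cast hm1
      rw [Finset.mul_sum]
      have hsub2 : Finset.Ioc K ⌊L / (X * m)⌋₊ ⊆ Finset.Ioc K R := by
        refine Finset.Ioc_subset_Ioc le_rfl ?_
        have h1 : L / (X * m) ≤ N := by
          rw [div_le_iff₀ (by positivity)]
          have : (1 : ℝ) ≤ X * m := by nlinarith
          nlinarith [Nat.cast_nonneg (α := ℝ) N]
        have h2 : ⌊L / (X * m)⌋₊ ≤ N := by
          rw [← Nat.floor_natCast (R := ℝ) N]
          exact Nat.floor_le_floor h1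
        omega
      rw [← Finset.sum_subset hsub2]
      · refine Finset.sum_congr rfl fun n hn => ?_
        rw [hterm]
      · intro n hn hn'
        apply hvan
        have hn1 := Finset.mem_Ioc.mp hn
        have h3 : ⌊L / (X * m)⌋₊ < n := by
          by_contra h
          exact hn' (Finset.mem_Ioc.mpr ⟨hn1.1, by omega⟩)
        have h4 : L / (X * m) < n := Nat.lt_of_floor_lt h3
        rw [div_lt_iff₀ (by positivity)] at h4
        nlinarith
    · intro m hm hm'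
      refine Finset.sum_eq_zero fun n hn => ?_
      apply hvan
      have hm1 := Finset.mem_Icc.mp hm
      have hn1 := Finset.mem_Ioc.mp hn
      have hm1' : (1 : ℝ) ≤ m := by exact_mod_cast hm1.1
      have h3 : ⌊L / (X * z)⌋₊ < m := by
        by_contra h
        exact hm' (Finset.mem_Icc.mpr ⟨hm1.1, by omega⟩)
      have h4 : L / (X * z) < m := Nat.lt_of_floor_lt h3
      rw [div_lt_iff₀ (by positivity)] at h4
      have h5 : z < n := Nat.lt_of_floor_lt hn1.1
      have h6 : X * m * z ≤ X * m * n := by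
        apply mul_le_mul_of_nonneg_left h5.le; positivity
      nlinarith
  -- total
  have hT : (∑ n ∈ Finset.Icc 1 K, ∑ m ∈ Finset.Icc 1 R, f n m * G (n * m)) +
      ∑ n ∈ Finset.Ioc K R, ∑ m ∈ Finset.Icc 1 R, f n m * G (n * m) =
      ∑ n ∈ Finset.Icc 1 R, ∑ m ∈ Finset.Icc 1 R, f n m * G (n * m) := by
    have hKR : K ≤ R := by omega
    have hdis : Disjoint (Finset.Icc 1 K) (Finset.Ioc K R) := by
      rw [Finset.disjoint_left]
      intro a ha hb
      rw [Finset.mem_Icc] at ha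
      rw [Finset.mem_Ioc] at hb
      omega
    have hun : Finset.Icc 1 R = Finset.Icc 1 K ∪ Finset.Ioc K R := by
      ext a
      simp only [Finset.mem_union, Finset.mem_Icc, Finset.mem_Ioc]
      omega
    rw [hun, Finset.sum_union hdis]
  rw [hT1, hT2, hT, group_prod (by omega : N ≤ R) f G hG0]
  have hq0 : 0 < q := Nat.pos_of_ne_zero (NeZero.ne q)
  have hgr : ∑ l ∈ Finset.Icc 1 N, ∑ n ∈ l.divisors, f n (l / n) * G l =
      ∑ l ∈ (Finset.Icc 1 N).filter (fun l => l ∣ q), mu l * G l := by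
    rw [Finset.sum_filter]
    refine Finset.sum_congr rfl fun l hl => ?_
    have hl1 := (Finset.mem_Icc.mp hl).1
    rw [← Finset.sum_mul]
    have h1 : ∑ n ∈ l.divisors, f n (l / n) =
        ∑ n ∈ l.divisors.filter (fun n => n.Coprime q), mu (l / n) := by
      rw [Finset.sum_filter]
      refine Finset.sum_congr rfl fun n _ => ?_
      simp only [hf]
      split_ifs <;> simp
    rw [h1, conv_mu (by omega) hq0]
    split_ifs <;> simp
  rw [hgr]
  have hmu : ∀ l : ℕ, ‖mu l‖ ≤ 1 := by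
    intro l
    rw [mu, Complex.norm_intCast]
    exact_mod_cast ArithmeticFunction.abs_moebius_le_one
  have hb : ∀ l ∈ (Finset.Icc 1 N).filter (fun l => l ∣ q), ‖mu l * G l‖ ≤ X * q * (2 * t) := by
    intro l _
    have h1 := hmu l
    have h2 := norm_Gs_le χ (l : ZMod q)
    have h3 : ‖Pc L w χ (X * l)‖ ≤ 2 * t := norm_Pc_le hL ht hw χ (by positivity)
    have h4 : ‖G l‖ ≤ X * q * (2 * t) := by
      simp only [hG, norm_mul, Complex.norm_real, Real.norm_eq_abs, abs_of_pos hX0]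
      gcongr
    rw [norm_mul]
    calc ‖mu l‖ * ‖G l‖ ≤ 1 * (X * q * (2 * t)) := by gcongr
      _ = _ := one_mul _
  refine (norm_sum_le_of_le _ hb).trans ?_
  rw [Finset.sum_const, nsmul_eq_mul]
  have hcard : ((Finset.Icc 1 N).filter (fun l => l ∣ q)).card ≤ q := by
    have hsub : (Finset.Icc 1 N).filter (fun l => l ∣ q) ⊆ Finset.Icc 1 q := by
      intro l hl
      simp only [Finset.mem_filter, Finset.mem_Icc] at hl ⊢
      exact ⟨hl.1.1, Nat.le_of_dvd hq0 hl.2⟩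
    calc _ ≤ (Finset.Icc 1 q).card := Finset.card_le_card hsub
      _ = q := by simp
  have hcard' : (((Finset.Icc 1 N).filter (fun l => l ∣ q)).card : ℝ) ≤ q := by
    exact_mod_cast hcard
  calc _ ≤ (q : ℝ) * (X * q * (2 * t)) := by gcongr
    _ = 2 * X * (q : ℝ) ^ 2 * t := by ring

end Pool.Agent.Helper17.L3
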