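import Pool.Agent.Helper17.L3.I3
import Pool.Agent.Helper17.L3.A0

/-!
Block L3-I4.  The identity, both cases.

`ID1` (`χ ≠ 1`).  In `trunc_id` the inner sum is at most `P (M + K Y)` by `abel_tail`, `a n = χ n`, `f x = Pc (X m x)`, `Y = L/(X m)` (`≥ z`),
`M = 2t`, `K = X m (4π t² + 2t/L)`, `K Y = 4π t² L + 2 t`; `M + K Y = 4 t + 4π t² L ≤ 21 t² L` as `1 ≤ 2 t L`.  Sum over `m` with
`sum_Gs` (`M = L/(Xz) ≥ q`): `X * 2 √q (L/(Xz)) * 21 P t² L = 42 √q P (tL)²/z`.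

`ID0` (`χ = 1`).  `J(y) = (φ(q)/q) ∑_{m ≤ L/y} μ(m) Gs 1 m ∫_{y}^{L/m} Pc (m s) ds` (independent of `X`, `z`).  In `trunc_id` the inner sum is the
sum over `n` prime to `q` of `f n`; `COP`: it is `(φ(q)/q) ∫_z^{L/(Xm)} Pc(X m x) dx` up to `#divisors(q) (2M + 2KY) ≤ 2 √q (8t + 8π t² L)
≤ 84 √q t² L`; substitute `s = X x`: `X ∫_z^{L/(Xm)} Pc (X m x) dx = ∫_{Xz}^{L/m} Pc(m s) ds`.  Sum of the errors:
`X * 2 √q (L/(Xz)) 84 √q t² L = 168 q (tL)²/z`.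
-/

namespace Pool.Agent.Helper17.L3

open MeasureTheory Pool.Agent.Helper25.MOB

theorem I4_norm_mu_le (n : ℕ) : ‖mu n‖ ≤ 1 := by
  unfold mu
  rw [Complex.norm_intCast]
  exact_mod_cast ArithmeticFunction.abs_moebius_le_one (n := n)

theorem I4_range {L X z : ℝ} (hX : 1 ≤ X) (hz : 1 ≤ z) {m : ℕ}
    (hm : m ∈ Finset.Icc 1 ⌊L / (X * z)⌋₊) : 1 ≤ (m : ℝ) ∧ z ≤ L / (X * m) := by
  have hX0 : 0 < X := by linarith
  have hz0 : 0 < z := by linarith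
  rw [Finset.mem_Icc] at hm
  have h1 : (1 : ℝ) ≤ m := by exact_mod_cast hm.1
  have h2 : (m : ℝ) ≤ L / (X * z) := by
    have := (Nat.le_floor_iff' (by omega)).1 hm.2
    exact this
  refine ⟨h1, ?_⟩
  rw [le_div_iff₀ (by positivity)] at h2 ⊢
  nlinarith

theorem I4_bd {q : ℕ} [NeZero q] {L t X : ℝ} {w : (ZMod q)ˣ → ℝ → ℂ}
    (hw : ∀ b, Ph t (w b)) (ht : 0 < t) (hL : 0 < L) (hX : 1 ≤ X) {z : ℝ} (hz : 1 ≤ z)
    {m : ℕ} (χ : DirichletCharacter ℂ q) (x : ℝ) (hx : z ≤ x) :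
    ‖Pc L w χ (X * m * x)‖ ≤ 2 * t := by
  have hX0 : 0 < X := by linarith
  have hx0 : 0 ≤ x := by linarith
  exact norm_Pc_le hL ht.le hw χ (by positivity)

theorem I4_lip {q : ℕ} [NeZero q] {L t X : ℝ} {w : (ZMod q)ˣ → ℝ → ℂ}
    (hw : ∀ b, Ph t (w b)) (ht : 0 < t) (hL : 0 < L) (hX : 1 ≤ X) {z : ℝ} (hz : 1 ≤ z)
    {m : ℕ} (χ : DirichletCharacter ℂ q) (x y : ℝ) (hx : z ≤ x) (hy : z ≤ y) :
    ‖Pc L w χ (X * m * x) - Pc L w χ (X * m * y)‖ ≤
      X * m * (4 * Real.pi * t ^ 2 + 2 * t / L) * |x - y| := by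
  have hX0 : 0 < X := by linarith
  have hx0 : 0 ≤ x := by linarith
  have hy0 : 0 ≤ y := by linarith
  have h := Pc_lip hL ht.le hw χ (y := X * m * x) (y' := X * m * y) (by positivity)
    (by positivity)
  have e : |X * m * x - X * m * y| = X * m * |x - y| := by
    rw [← mul_sub, abs_mul, abs_of_nonneg (by positivity : (0 : ℝ) ≤ X * m)]
  rw [e] at h
  calc _ ≤ _ := h
    _ = _ := by ring

theorem I4_num {t L : ℝ} (hL : 0 < L) {X : ℝ}
    (hX : 1 ≤ X) {m : ℝ} (hm : 1 ≤ m) :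
    X * m * (4 * Real.pi * t ^ 2 + 2 * t / L) * (L / (X * m)) =
      4 * Real.pi * t ^ 2 * L + 2 * t := by
  have hX0 : X ≠ 0 := by positivity
  have hm0 : m ≠ 0 := by positivity
  field_simp

theorem ID1 {q : ℕ} [NeZero q] {N : ℕ} {L t X z P : ℝ} {w : (ZMod q)ˣ → ℝ → ℂ}
    (hw : ∀ b, Ph t (w b)) (ht : 0 < t) (hL : 0 < L) (hLN : L ≤ N) (htL : 1 / 2 ≤ t * L)
    (hX : 1 ≤ X) (hz : 1 ≤ z) (hq : q ≤ L / (X * z)) (χ : DirichletCharacter ℂ q)
    (hP : ∀ a b : ℕ, ‖∑ n ∈ Finset.Ioc a b, χ (n : ZMod q)‖ ≤ P) :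
    ‖∑ n ∈ Finset.Icc 1 ⌊z⌋₊, χ (n : ZMod q) / (n : ℂ) * hc N L w χ (X * n)‖ ≤
      42 * √(q : ℝ) * P * (t * L) ^ 2 / z + 2 * X * (q : ℝ) ^ 2 * t := by
  have hX0 : 0 < X := by linarith
  have hz0 : 0 < z := by linarith
  have hP0 : 0 ≤ P := (norm_nonneg _).trans (hP 0 0)
  have hpi : Real.pi ≤ 3.15 := by linarith [Real.pi_lt_d2]
  have hT := trunc_id hw ht.le hL hLN hX hz χ
  set A := ∑ n ∈ Finset.Icc 1 ⌊z⌋₊, χ (n : ZMod q) / (n : ℂ) * hc N L w χ (X * n) with hA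
  set T := ∑ m ∈ Finset.Icc 1 ⌊L / (X * z)⌋₊, (X : ℂ) * mu m * Gs χ (m : ZMod q) *
          ∑ n ∈ Finset.Ioc ⌊z⌋₊ ⌊L / (X * m)⌋₊, χ (n : ZMod q) * Pc L w χ (X * m * n) with hTd
  have hin : ∀ m ∈ Finset.Icc 1 ⌊L / (X * z)⌋₊,
      ‖∑ n ∈ Finset.Ioc ⌊z⌋₊ ⌊L / (X * m)⌋₊, χ (n : ZMod q) * Pc L w χ (X * m * n)‖ ≤
        21 * P * (t ^ 2 * L) := by
    intro m hm
    obtain ⟨hm1, hzY⟩ := I4_range hX hz hm
    have h := abel_tail (a := fun n : ℕ => χ (n : ZMod q)) hP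
      (f := fun x => Pc L w χ (X * m * x)) (z := z) (Y := L / (X * m)) (M := 2 * t)
      (K := X * m * (4 * Real.pi * t ^ 2 + 2 * t / L)) hz0.le hzY
      (fun x hx => I4_bd hw ht hL hX hz χ x hx) (by positivity)
      (fun x y hx hy => I4_lip hw ht hL hX hz χ x y hx hy)
    rw [I4_num (t := t) hL hX hm1] at h
    refine h.trans ?_
    have e1 : t ≤ 2 * (t ^ 2 * L) := by nlinarith
    have e2 : Real.pi * (t ^ 2 * L) ≤ 3.15 * (t ^ 2 * L) := by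
      apply mul_le_mul_of_nonneg_right hpi; positivity
    have e3 : 2 * t + (4 * Real.pi * t ^ 2 * L + 2 * t) ≤ 21 * (t ^ 2 * L) := by nlinarith
    calc P * (2 * t + (4 * Real.pi * t ^ 2 * L + 2 * t)) ≤ P * (21 * (t ^ 2 * L)) :=
          mul_le_mul_of_nonneg_left e3 hP0
      _ = _ := by ring
  have hTn : ‖T‖ ≤ 42 * √(q : ℝ) * P * (t * L) ^ 2 / z := by
    have hs := sum_Gs χ hq
    calc ‖T‖ ≤ ∑ m ∈ Finset.Icc 1 ⌊L / (X * z)⌋₊,
          X * (21 * P * (t ^ 2 * L)) * ‖Gs χ (m : ZMod q)‖ := by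
          refine norm_sum_le_of_le _ fun m hm => ?_
          rw [norm_mul, norm_mul, norm_mul, Complex.norm_real, Real.norm_of_nonneg hX0.le]
          have h1 := hin m hm
          have h2 := I4_norm_mu_le m
          have h3 : X * ‖mu m‖ * ‖Gs χ (m : ZMod q)‖ ≤ X * ‖Gs χ (m : ZMod q)‖ := by
            apply mul_le_mul_of_nonneg_right _ (norm_nonneg _)
            nlinarith
          calc _ ≤ (X * ‖Gs χ (m : ZMod q)‖) * (21 * P * (t ^ 2 * L)) := by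
                apply mul_le_mul h3 h1 (norm_nonneg _)
                have := norm_nonneg (Gs χ (m : ZMod q))
                positivity
            _ = _ := by ring
      _ = X * (21 * P * (t ^ 2 * L)) * ∑ m ∈ Finset.Icc 1 ⌊L / (X * z)⌋₊,
            ‖Gs χ (m : ZMod q)‖ := by rw [Finset.mul_sum]
      _ ≤ X * (21 * P * (t ^ 2 * L)) * (2 * √(q : ℝ) * (L / (X * z))) := by
          apply mul_le_mul_of_nonneg_left hs; positivity
      _ = _ := by field_simp; ring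
  calc ‖A‖ = ‖(A + T) - T‖ := by rw [add_sub_cancel_right]
    _ ≤ ‖A + T‖ + ‖T‖ := norm_sub_le _ _
    _ ≤ _ := by linarith

theorem ID0 {q : ℕ} [NeZero q] {N : ℕ} {L t : ℝ} {w : (ZMod q)ˣ → ℝ → ℂ}
    (hw : ∀ b, Ph t (w b)) (ht : 0 < t) (hL : 0 < L) (hLN : L ≤ N) (htL : 1 / 2 ≤ t * L) :
    ∃ J : ℝ → ℂ, ∀ X z : ℝ, 1 ≤ X → 1 ≤ z → q ≤ L / (X * z) →
      ‖(∑ n ∈ (Finset.Icc 1 ⌊z⌋₊).filter (fun n => n.Coprime q),
          1 / (n : ℂ) * hc N L w (1 : DirichletCharacter ℂ q) (X * n)) + J (X * z)‖ ≤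
        168 * q * (t * L) ^ 2 / z + 2 * X * (q : ℝ) ^ 2 * t := by
  set χ : DirichletCharacter ℂ q := 1 with hχ
  refine ⟨fun y => ∑ m ∈ Finset.Icc 1 ⌊L / y⌋₊, mu m * Gs χ (m : ZMod q) *
    (((q.totient : ℂ) / q) * ∫ s in y..(L / m), Pc L w χ (m * s)), ?_⟩
  intro X z hX hz hq
  have hX0 : 0 < X := by linarith
  have hz0 : 0 < z := by linarith
  have hpi : Real.pi ≤ 3.15 := by linarith [Real.pi_lt_d2]
  have hq0 : 0 < q := NeZero.pos q
  have hT := trunc_id hw ht.le hL hLN hX hz χ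
  have hχn : ∀ n : ℕ, χ (n : ZMod q) = if n.Coprime q then 1 else 0 := by
    intro n
    split_ifs with h
    · rw [hχ, MulChar.one_apply]
      exact (ZMod.isUnit_iff_coprime n q).2 h
    · rw [hχ, MulChar.map_nonunit]
      rwa [ZMod.isUnit_iff_coprime]
  have hAe : ∑ n ∈ Finset.Icc 1 ⌊z⌋₊, χ (n : ZMod q) / (n : ℂ) * hc N L w χ (X * n) =
      ∑ n ∈ (Finset.Icc 1 ⌊z⌋₊).filter (fun n => n.Coprime q),
          1 / (n : ℂ) * hc N L w χ (X * n) := by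
    rw [Finset.sum_filter]
    refine Finset.sum_congr rfl fun n _ => ?_
    rw [hχn]
    split_ifs with h
    · rfl
    · simp
  rw [hAe] at hT
  set A := ∑ n ∈ (Finset.Icc 1 ⌊z⌋₊).filter (fun n => n.Coprime q),
          1 / (n : ℂ) * hc N L w χ (X * n) with hA
  set T := ∑ m ∈ Finset.Icc 1 ⌊L / (X * z)⌋₊, (X : ℂ) * mu m * Gs χ (m : ZMod q) *
          ∑ n ∈ Finset.Ioc ⌊z⌋₊ ⌊L / (X * m)⌋₊, χ (n : ZMod q) * Pc L w χ (X * m * n) with hTd
  have hin : ∀ m ∈ Finset.Icc 1 ⌊L / (X * z)⌋₊,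
      ‖(∑ n ∈ Finset.Ioc ⌊z⌋₊ ⌊L / (X * m)⌋₊, χ (n : ZMod q) * Pc L w χ (X * m * n)) -
        ((q.totient : ℂ) / q) * ∫ x in z..(L / (X * m)), Pc L w χ (X * m * x)‖ ≤
        84 * √(q : ℝ) * (t ^ 2 * L) := by
    intro m hm
    obtain ⟨hm1, hzY⟩ := I4_range hX hz hm
    have hXm : 0 < X * m := by positivity
    have h := COP hq0 (F := fun x => Pc L w χ (X * m * x)) (z := z) (Y := L / (X * m))
      (M := 2 * t) (K := X * m * (4 * Real.pi * t ^ 2 + 2 * t / L)) hz0.le hzY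
      (fun x hx => I4_bd hw ht hL hX hz χ x hx) (by positivity)
      (fun x y hx hy => I4_lip hw ht hL hX hz χ x y hx hy)
      (fun x hx => Pc_eq_zero hL χ (by
        rw [div_le_iff₀ hXm] at hx
        linarith))
    rw [I4_num (t := t) hL hX hm1] at h
    have hs : ∑ n ∈ Finset.Ioc ⌊z⌋₊ ⌊L / (X * m)⌋₊, χ (n : ZMod q) * Pc L w χ (X * m * n) =
        ∑ n ∈ (Finset.Ioc ⌊z⌋₊ ⌊L / (X * m)⌋₊).filter fun n => n.Coprime q,
          Pc L w χ (X * m * n) := by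
      rw [Finset.sum_filter]
      refine Finset.sum_congr rfl fun n _ => ?_
      rw [hχn]
      split_ifs with h
      · simp
      · simp
    rw [hs]
    refine h.trans ?_
    have hd := card_divisors_le q
    have e1 : t ≤ 2 * (t ^ 2 * L) := by nlinarith
    have e2 : Real.pi * (t ^ 2 * L) ≤ 3.15 * (t ^ 2 * L) := by
      apply mul_le_mul_of_nonneg_right hpi; positivity
    have e3 : 2 * (2 * t) + 2 * (4 * Real.pi * t ^ 2 * L + 2 * t) ≤ 42 * (t ^ 2 * L) := by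
      nlinarith
    calc (q.divisors.card : ℝ) * (2 * (2 * t) + 2 * (4 * Real.pi * t ^ 2 * L + 2 * t))
        ≤ (2 * √(q : ℝ)) * (42 * (t ^ 2 * L)) := by
          apply mul_le_mul hd e3 (by positivity) (by positivity)
      _ = _ := by ring
  have hint : ∀ m ∈ Finset.Icc 1 ⌊L / (X * z)⌋₊,
      (X : ℂ) * ∫ x in z..(L / (X * m)), Pc L w χ (X * m * x) =
        ∫ s in (X * z)..(L / m), Pc L w χ (m * s) := by
    intro m hm
    obtain ⟨hm1, hzY⟩ := I4_range hX hz hm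
    have h := intervalIntegral.smul_integral_comp_mul_left (a := z) (b := L / (X * m))
      (fun s => Pc L w χ (m * s)) X
    rw [Complex.real_smul] at h
    have e : X * (L / (X * m)) = L / m := by field_simp
    rw [e] at h
    rw [← h]
    congr 1
    refine intervalIntegral.integral_congr fun x _ => ?_
    show Pc L w χ (X * m * x) = Pc L w χ (m * (X * x))
    congr 1
    ring
  have hTn : ‖T - ∑ m ∈ Finset.Icc 1 ⌊L / (X * z)⌋₊, mu m * Gs χ (m : ZMod q) *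
      (((q.totient : ℂ) / q) * ∫ s in (X * z)..(L / m), Pc L w χ (m * s))‖ ≤
      168 * q * (t * L) ^ 2 / z := by
    have hs := sum_Gs χ hq
    rw [hTd, ← Finset.sum_sub_distrib]
    calc _ ≤ ∑ m ∈ Finset.Icc 1 ⌊L / (X * z)⌋₊,
          X * (84 * √(q : ℝ) * (t ^ 2 * L)) * ‖Gs χ (m : ZMod q)‖ := by
          refine norm_sum_le_of_le _ fun m hm => ?_
          rw [← hint m hm]
          have e : (X : ℂ) * mu m * Gs χ (m : ZMod q) *
              (∑ n ∈ Finset.Ioc ⌊z⌋₊ ⌊L / (X * m)⌋₊, χ (n : ZMod q) * Pc L w χ (X * m * n)) -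
              mu m * Gs χ (m : ZMod q) * (((q.totient : ℂ) / q) *
                ((X : ℂ) * ∫ x in z..(L / (X * m)), Pc L w χ (X * m * x))) =
              (X : ℂ) * mu m * Gs χ (m : ZMod q) *
              ((∑ n ∈ Finset.Ioc ⌊z⌋₊ ⌊L / (X * m)⌋₊,
                  χ (n : ZMod q) * Pc L w χ (X * m * n)) -
                ((q.totient : ℂ) / q) * ∫ x in z..(L / (X * m)), Pc L w χ (X * m * x)) := by
            ring
          rw [e, norm_mul, norm_mul, norm_mul, Complex.norm_real, Real.norm_of_nonneg hX0.le]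
          have h1 := hin m hm
          have h2 := I4_norm_mu_le m
          have h3 : X * ‖mu m‖ * ‖Gs χ (m : ZMod q)‖ ≤ X * ‖Gs χ (m : ZMod q)‖ := by
            apply mul_le_mul_of_nonneg_right _ (norm_nonneg _)
            nlinarith
          calc _ ≤ (X * ‖Gs χ (m : ZMod q)‖) * (84 * √(q : ℝ) * (t ^ 2 * L)) := by
                apply mul_le_mul h3 h1 (norm_nonneg _)
                have := norm_nonneg (Gs χ (m : ZMod q))
                positivity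
            _ = _ := by ring
      _ = X * (84 * √(q : ℝ) * (t ^ 2 * L)) * ∑ m ∈ Finset.Icc 1 ⌊L / (X * z)⌋₊,
            ‖Gs χ (m : ZMod q)‖ := by rw [Finset.mul_sum]
      _ ≤ X * (84 * √(q : ℝ) * (t ^ 2 * L)) * (2 * √(q : ℝ) * (L / (X * z))) := by
          apply mul_le_mul_of_nonneg_left hs; positivity
      _ = 168 * (√(q : ℝ) * √(q : ℝ)) * (t * L) ^ 2 / z := by field_simp; ring
      _ = _ := by rw [Real.mul_self_sqrt (Nat.cast_nonneg q)]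
  simp only
  set J := ∑ m ∈ Finset.Icc 1 ⌊L / (X * z)⌋₊, mu m * Gs χ (m : ZMod q) *
      (((q.totient : ℂ) / q) * ∫ s in (X * z)..(L / m), Pc L w χ (m * s)) with hJ
  calc ‖A + J‖ = ‖(A + T) - (T - J)‖ := by congr 1; ring
    _ ≤ ‖A + T‖ + ‖T - J‖ := norm_sub_le _ _
    _ ≤ _ := by linarith

end Pool.Agent.Helper17.L3
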