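import Pool.Agent.Helper17.L3.D

/-!
Block L3-K1.  The Fejer kernel of real length `M ≥ 1`: `fej N M x = ∑_{|n| ≤ N} (1 - |n|/M)_+ e(n x)`, `N ≥ M`.

Proof.  For an integer `m ≥ 1` let `Fe m x = (1/m) |∑_{k < m} e(k x)|² = ∑_{|n| < m} (1 - |n|/m) e(n x)` (expand the
square; or compute `(1/m) ∑_{j,k<m} e((j-k)x)` and count pairs).  It is real and `≥ 0`, its integral is `1`
(`integral_ex`), and `Fe m x ≤ 1 / (4 m ‖x‖²)` because `|∑_{k<m} e(kx)| ≤ 1/(2‖x‖)` (geometric sum,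
`|e(x) - 1| = 2 |sin π x| ≥ 4 ‖x‖`, so `|sum| ≤ 2 / (4 ‖x‖)`).
Let `m = ⌊M⌋₊`, `b = (m+1)(1 - m/M) ∈ [0, 1)`, `a = 1 - b`.  Then for all integers `n` (both sides vanish for
`|n| ≥ m + 1`, are linear in `|n|` on `[0, m]`, equal at `0` and at `m`):
`(1 - |n|/M)_+ = a (1 - |n|/m)_+ + b (1 - |n|/(m+1))_+`.
So `fej N M = a Fe m + b Fe (m+1)` (terms with `|n| > N` vanish: `N ≥ m`, and `|n| ≤ m` in the support), `‖fej‖ = fej ≥ 0`,
integral `1`, and `‖fej N M x‖ ‖x‖² ≤ a/(4m) + b/(4(m+1)) ≤ 1/(4m) ≤ 1/(2M)` as `m ≥ M/2`.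
-/

namespace Pool.Agent.Helper17.L3

open MeasureTheory Pool.Agent.Helper25.MOB

open scoped ComplexConjugate

private noncomputable def Dirk21 (L : ℕ) (x : UnitAddCircle) : ℂ :=
  ∑ j ∈ Finset.range L, ex j x

private theorem Dir_mulk21 (L : ℕ) (x : UnitAddCircle) :
    Dirk21 L x * (ex 1 x - 1) = ex L x - 1 := by
  induction L with
  | zero => simp [Dirk21, ex_zero]
  | succ L ih =>
    have h1 : Dirk21 (L + 1) x = Dirk21 L x + ex L x := by
      unfold Dirk21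
      rw [Finset.sum_range_succ]
    rw [h1, add_mul, ih]
    push_cast
    rw [ex_add]
    ring

private theorem norm_sub_onek21 (x : UnitAddCircle) : 4 * ‖x‖ ≤ ‖ex 1 x - 1‖ := by
  obtain ⟨z, rfl⟩ := QuotientAddGroup.mk_surjective x
  change 4 * ‖(z : UnitAddCircle)‖ ≤ ‖ex 1 (z : UnitAddCircle) - 1‖
  have hz : ((z - round z : ℝ) : UnitAddCircle) = (z : UnitAddCircle) := by
    rw [AddCircle.coe_sub]
    have : ((round z : ℝ) : UnitAddCircle) = 0 := by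
      have h := AddCircle.coe_eq_zero_iff (p := (1 : ℝ)) (x := (round z : ℝ))
      exact h.2 ⟨round z, by simp⟩
    rw [this, sub_zero]
  rw [UnitAddCircle.norm_eq, ← hz, ex_coe]
  set y : ℝ := z - round z with hy
  have hy2 : |y| ≤ 1 / 2 := by
    rw [hy]
    exact abs_sub_round z
  have h1 : Complex.exp (2 * Real.pi * Complex.I * ((1 : ℤ) : ℂ) * y) =
      Complex.exp (Complex.I * ((2 * Real.pi * y : ℝ) : ℂ)) := by
    congr 1
    push_cast
    ring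
  rw [h1, Complex.norm_exp_I_mul_ofReal_sub_one]
  rw [Real.norm_eq_abs, abs_mul, abs_of_pos (by norm_num : (0 : ℝ) < 2)]
  have h2 : |Real.sin (2 * Real.pi * y / 2)| = Real.sin (Real.pi * |y|) := by
    have h3 : 2 * Real.pi * y / 2 = Real.pi * y := by ring
    rw [h3]
    have h4 : 0 ≤ Real.sin (Real.pi * |y|) := by
      apply Real.sin_nonneg_of_nonneg_of_le_pi
      · have := Real.pi_pos
        positivity
      · have := Real.pi_pos
        nlinarith [abs_nonneg y]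
    rcases abs_cases y with ⟨h5, _⟩ | ⟨h5, _⟩
    · rw [h5] at h4 ⊢
      exact abs_of_nonneg h4
    · rw [h5] at h4 ⊢
      rw [mul_neg, Real.sin_neg] at h4 ⊢
      exact abs_of_nonpos (by linarith)
  rw [h2]
  have h6 := Real.mul_le_sin (x := Real.pi * |y|) (by have := Real.pi_pos; positivity)
    (by have := Real.pi_pos; nlinarith)
  have h7 : 2 / Real.pi * (Real.pi * |y|) = 2 * |y| := by
    have := Real.pi_ne_zero
    field_simp
  rw [h7] at h6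
  linarith

private theorem norm_Dir_fark21 (L : ℕ) (x : UnitAddCircle) (δ : ℝ) (hx : δ ≤ ‖x‖) :
    ‖Dirk21 L x‖ * (2 * δ) ≤ 1 := by
  have h1 : ‖Dirk21 L x‖ * ‖ex 1 x - 1‖ = ‖ex L x - 1‖ := by
    rw [← norm_mul, Dir_mulk21]
  have h2 : ‖ex (L : ℤ) x - 1‖ ≤ 2 := by
    refine (norm_sub_le _ _).trans ?_
    rw [norm_ex, norm_one]
    norm_num
  have h3 := norm_sub_onek21 x
  have h4 : ‖Dirk21 L x‖ * (4 * δ) ≤ ‖Dirk21 L x‖ * ‖ex 1 x - 1‖ :=
    mul_le_mul_of_nonneg_left (by linarith) (norm_nonneg _)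
  linarith


private theorem sum_Icc21 (g : ℤ → ℂ) (m : ℕ) :
    ∑ n ∈ Finset.Icc (-(m : ℤ)) m, g n =
      ∑ j ∈ Finset.range m, g ((j : ℤ) - m) + ∑ k ∈ Finset.range (m + 1), g ((m : ℤ) - k) := by
  have h1 : Finset.Icc (-(m : ℤ)) m = (Finset.range (m + (m + 1))).image (fun j : ℕ => (j : ℤ) - m) := by
    ext n
    simp only [Finset.mem_Icc, Finset.mem_image, Finset.mem_range]
    constructor
    · rintro ⟨h1, h2⟩
      exact ⟨(n + m).toNat, by omega, by omega⟩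
    · rintro ⟨j, hj, rfl⟩
      omega
  rw [h1, Finset.sum_image (fun a _ b _ h => by simpa using h), Finset.sum_range_add]
  congr 1
  rw [← Finset.sum_range_reflect]
  refine Finset.sum_congr rfl fun j hj => ?_
  have := Finset.mem_range.1 hj
  congr 1
  omega

private theorem pairs21 (g : ℤ → ℂ) (N m : ℕ) (hm : m ≤ N + 1) :
    ∑ j ∈ Finset.range m, ∑ k ∈ Finset.range m, g ((j : ℤ) - k) =
      ∑ n ∈ Finset.Icc (-(N : ℤ)) N, ((max ((m : ℝ) - |(n : ℝ)|) 0 : ℝ) : ℂ) * g n := by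
  induction m with
  | zero =>
    symm
    simp only [Finset.range_zero, Finset.sum_empty]
    refine Finset.sum_eq_zero fun n _ => ?_
    have : max (((0 : ℕ) : ℝ) - |(n : ℝ)|) 0 = 0 := by
      rw [max_eq_right]
      push_cast
      linarith [abs_nonneg (n : ℝ)]
    rw [this]
    simp
  | succ m ih =>
    have ih' := ih (by omega)
    rw [Finset.sum_range_succ]
    have h1 : ∑ j ∈ Finset.range m, ∑ k ∈ Finset.range (m + 1), g ((j : ℤ) - k) =
        ∑ j ∈ Finset.range m, ∑ k ∈ Finset.range m, g ((j : ℤ) - k) +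
          ∑ j ∈ Finset.range m, g ((j : ℤ) - m) := by
      rw [← Finset.sum_add_distrib]
      refine Finset.sum_congr rfl fun j _ => ?_
      rw [Finset.sum_range_succ]
    rw [h1, ih', add_assoc, ← sum_Icc21 g m]
    have h2 : ∑ n ∈ Finset.Icc (-(m : ℤ)) m, g n =
        ∑ n ∈ Finset.Icc (-(N : ℤ)) N, (if |n| ≤ (m : ℤ) then g n else 0) := by
      rw [← Finset.sum_filter]
      refine Finset.sum_congr ?_ fun _ _ => rfl
      ext n
      simp only [Finset.mem_Icc, Finset.mem_filter, abs_le]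
      omega
    rw [h2, ← Finset.sum_add_distrib]
    refine Finset.sum_congr rfl fun n _ => ?_
    have h3 : |(n : ℝ)| = ((|n| : ℤ) : ℝ) := by push_cast; rfl
    rw [h3]
    split_ifs with h
    · have h4 : ((|n| : ℤ) : ℝ) ≤ m := by exact_mod_cast h
      rw [max_eq_left (by linarith), max_eq_left (by push_cast; linarith)]
      push_cast
      ring
    · have h4 : (m : ℝ) + 1 ≤ ((|n| : ℤ) : ℝ) := by
        have : (m : ℤ) + 1 ≤ |n| := by omega
        exact_mod_cast this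
      rw [max_eq_right (by linarith), max_eq_right (by push_cast; linarith)]
      simp

private theorem fe21 (N m : ℕ) (h1 : 1 ≤ m) (hm : m ≤ N + 1) (x : UnitAddCircle) :
    ∑ n ∈ Finset.Icc (-(N : ℤ)) N, (kf m |(n : ℝ)| : ℂ) * ex n x =
      ((‖Dirk21 m x‖ ^ 2 / m : ℝ) : ℂ) := by
  have hm0 : (0 : ℝ) < m := by exact_mod_cast h1
  have h3 : (((‖Dirk21 m x‖ ^ 2 : ℝ)) : ℂ) = Dirk21 m x * conj (Dirk21 m x) := by
    rw [RCLike.mul_conj]
    push_cast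
    rfl
  have h4 : (((‖Dirk21 m x‖ ^ 2 : ℝ)) : ℂ) =
      ∑ j ∈ Finset.range m, ∑ k ∈ Finset.range m, ex ((j : ℤ) - k) x := by
    rw [h3]
    unfold Dirk21
    rw [map_sum, Finset.sum_mul_sum]
    refine Finset.sum_congr rfl fun j _ => Finset.sum_congr rfl fun k _ => ?_
    rw [conj_ex, sub_eq_add_neg, ex_add]
  rw [pairs21 (fun n => ex n x) N m hm] at h4
  have h5 : ((‖Dirk21 m x‖ ^ 2 / m : ℝ) : ℂ) = ((‖Dirk21 m x‖ ^ 2 : ℝ) : ℂ) / (m : ℂ) := by
    push_cast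
    rfl
  rw [h5, h4, Finset.sum_div]
  refine Finset.sum_congr rfl fun n _ => ?_
  have h6 : kf m |(n : ℝ)| = max ((m : ℝ) - |(n : ℝ)|) 0 / m := by
    unfold kf
    rw [eq_div_iff hm0.ne', max_mul_of_nonneg _ _ hm0.le, zero_mul]
    congr 1
    field_simp
  rw [h6]
  push_cast
  ring

private theorem coef21 {M : ℝ} (hM : 1 ≤ M) :
    ∃ (m : ℕ) (a b : ℝ), 1 ≤ m ∧ (m : ℝ) ≤ M ∧ 0 ≤ a ∧ 0 ≤ b ∧ a / m + b / ((m : ℝ) + 1) = 1 / M ∧
      ∀ n : ℤ, kf M |(n : ℝ)| = a * kf m |(n : ℝ)| + b * kf ((m + 1 : ℕ) : ℝ) |(n : ℝ)| := by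
  have hM0 : 0 < M := by linarith
  obtain ⟨m, hm⟩ : ∃ m : ℕ, m = ⌊M⌋₊ := ⟨_, rfl⟩
  have h1 : (m : ℝ) ≤ M := by rw [hm]; exact Nat.floor_le hM0.le
  have h2 : M < m + 1 := by rw [hm]; exact Nat.lt_floor_add_one M
  have h3 : 1 ≤ m := by rw [hm]; exact Nat.le_floor (by exact_mod_cast hM)
  have hm0 : (0 : ℝ) < m := by exact_mod_cast h3
  have ha : 1 - ((m : ℝ) + 1) * (1 - m / M) = m * (((m : ℝ) + 1) / M - 1) := by
    field_simp
    ring
  have hsum : (1 - ((m : ℝ) + 1) * (1 - m / M)) / m + ((m : ℝ) + 1) * (1 - m / M) / ((m : ℝ) + 1) =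
      1 / M := by
    rw [ha]
    field_simp
    ring
  refine ⟨m, 1 - ((m : ℝ) + 1) * (1 - m / M), ((m : ℝ) + 1) * (1 - m / M), h3, h1, ?_, ?_, hsum, ?_⟩
  · rw [ha]
    refine mul_nonneg hm0.le ?_
    rw [sub_nonneg, le_div_iff₀ hM0]
    linarith
  · refine mul_nonneg (by positivity) ?_
    rw [sub_nonneg, div_le_iff₀ hM0]
    linarith
  · intro n
    have h4 : |(n : ℝ)| = ((n.natAbs : ℕ) : ℝ) := by
      rw [Nat.cast_natAbs]
      push_cast
      rfl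
    rw [h4]
    unfold kf
    push_cast
    rcases le_or_gt n.natAbs m with h | h
    · have h5 : ((n.natAbs : ℕ) : ℝ) ≤ m := by exact_mod_cast h
      have e1 : 0 ≤ 1 - ((n.natAbs : ℕ) : ℝ) / M := by
        rw [sub_nonneg, div_le_one hM0]; linarith
      have e2 : 0 ≤ 1 - ((n.natAbs : ℕ) : ℝ) / m := by
        rw [sub_nonneg, div_le_one hm0]; linarith
      have e3 : 0 ≤ 1 - ((n.natAbs : ℕ) : ℝ) / ((m : ℝ) + 1) := by
        rw [sub_nonneg, div_le_one (by positivity)]; linarith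
      rw [max_eq_left e1, max_eq_left e2, max_eq_left e3]
      have e4 : ((n.natAbs : ℕ) : ℝ) / M = ((n.natAbs : ℕ) : ℝ) * (1 / M) := by ring
      rw [e4, ← hsum]
      ring
    · have h5 : (m : ℝ) + 1 ≤ ((n.natAbs : ℕ) : ℝ) := by exact_mod_cast h
      have e1 : 1 - ((n.natAbs : ℕ) : ℝ) / M ≤ 0 := by
        rw [sub_nonpos, one_le_div hM0]; linarith
      have e2 : 1 - ((n.natAbs : ℕ) : ℝ) / m ≤ 0 := by
        rw [sub_nonpos, one_le_div hm0]; linarith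
      have e3 : 1 - ((n.natAbs : ℕ) : ℝ) / ((m : ℝ) + 1) ≤ 0 := by
        rw [sub_nonpos, one_le_div (by positivity)]; linarith
      rw [max_eq_right e1, max_eq_right e2, max_eq_right e3]
      ring

private theorem fej21 {N : ℕ} {M : ℝ} (hM : 1 ≤ M) (hN : M ≤ N) :
    ∃ (m : ℕ) (a b : ℝ), 1 ≤ m ∧ 0 ≤ a ∧ 0 ≤ b ∧ a / m + b / ((m : ℝ) + 1) = 1 / M ∧
      ∀ x, fej N M x = ((a * (‖Dirk21 m x‖ ^ 2 / m) +
        b * (‖Dirk21 (m + 1) x‖ ^ 2 / ((m : ℝ) + 1)) : ℝ) : ℂ) := by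
  obtain ⟨m, a, b, h1, h2, ha, hb, hs, hk⟩ := coef21 hM
  refine ⟨m, a, b, h1, ha, hb, hs, fun x => ?_⟩
  have hmN : m ≤ N := by
    have : (m : ℝ) ≤ N := h2.trans hN
    exact_mod_cast this
  have e1 := fe21 N m h1 (by omega) x
  have e2 := fe21 N (m + 1) (by omega) (by omega) x
  have e3 : ((a * (‖Dirk21 m x‖ ^ 2 / m) + b * (‖Dirk21 (m + 1) x‖ ^ 2 / ((m : ℝ) + 1)) : ℝ) : ℂ) =
      (a : ℂ) * ((‖Dirk21 m x‖ ^ 2 / m : ℝ) : ℂ) +
        (b : ℂ) * ((‖Dirk21 (m + 1) x‖ ^ 2 / ((m + 1 : ℕ) : ℝ) : ℝ) : ℂ) := by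
    push_cast
    rfl
  rw [e3, ← e1, ← e2, Finset.mul_sum, Finset.mul_sum, ← Finset.sum_add_distrib]
  unfold fej
  refine Finset.sum_congr rfl fun n _ => ?_
  rw [hk n]
  push_cast
  ring

theorem fej_int {N : ℕ} {M : ℝ} (hM : 1 ≤ M) (hN : M ≤ N) : ∫ x, ‖fej N M x‖ ≤ 1 := by
  obtain ⟨m, a, b, h1, ha, hb, -, hf⟩ := fej21 hM hN
  have h2 : ∀ x, ((‖fej N M x‖ : ℝ) : ℂ) = fej N M x := by
    intro x
    have h3 : 0 ≤ a * (‖Dirk21 m x‖ ^ 2 / m) + b * (‖Dirk21 (m + 1) x‖ ^ 2 / ((m : ℝ) + 1)) := by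
      positivity
    rw [hf x, Complex.norm_real, Real.norm_of_nonneg h3]
  have h3 : ((∫ x, ‖fej N M x‖ : ℝ) : ℂ) = 1 := by
    rw [← integral_complex_ofReal]
    have h4 : (fun x => ((‖fej N M x‖ : ℝ) : ℂ)) = fun x => fej N M x := funext h2
    have h5 : ∫ x, fej N M x = 1 := by
      unfold fej
      rw [integral_finsetSum _ (fun n _ => ?_)]
      · have h6 : ∀ n ∈ Finset.Icc (-(N : ℤ)) N,
            ∫ x : UnitAddCircle, (kf M |(n : ℝ)| : ℂ) * ex n x = if n = 0 then 1 else 0 := by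
          intro n _
          rw [integral_const_mul, integral_ex]
          split_ifs with h
          · rw [h]
            unfold kf
            simp
          · simp
        rw [Finset.sum_congr rfl h6, Finset.sum_ite_eq' (Finset.Icc (-(N : ℤ)) N) 0 (fun _ => (1 : ℂ)),
          if_pos (by simp)]
      · exact (continuous_const.mul (continuous_ex n)).integrable_of_hasCompactSupport
          (HasCompactSupport.of_compactSpace _)
    exact (congrArg (fun f : UnitAddCircle → ℂ => ∫ x, f x) h4).trans h5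
  have h4 : (∫ x, ‖fej N M x‖ : ℝ) = 1 := by exact_mod_cast h3
  exact h4.le

theorem fej_decay {N : ℕ} {M : ℝ} (hM : 1 ≤ M) (hN : M ≤ N) (x : UnitAddCircle) :
    ‖fej N M x‖ * ‖x‖ ^ 2 ≤ 1 / (2 * M) := by
  obtain ⟨m, a, b, h1, ha, hb, hs, hf⟩ := fej21 hM hN
  have hM0 : 0 < M := by linarith
  have hm0 : (0 : ℝ) < m := by exact_mod_cast h1
  have h3 : 0 ≤ a * (‖Dirk21 m x‖ ^ 2 / m) + b * (‖Dirk21 (m + 1) x‖ ^ 2 / ((m : ℝ) + 1)) := by
    positivity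
  rw [hf x, Complex.norm_real, Real.norm_of_nonneg h3]
  have h4 : ∀ L : ℕ, ‖Dirk21 L x‖ ^ 2 * ‖x‖ ^ 2 ≤ 1 / 4 := by
    intro L
    have h5 := norm_Dir_fark21 L x ‖x‖ le_rfl
    have h6 : 0 ≤ ‖Dirk21 L x‖ * (2 * ‖x‖) := by positivity
    nlinarith
  calc (a * (‖Dirk21 m x‖ ^ 2 / m) + b * (‖Dirk21 (m + 1) x‖ ^ 2 / ((m : ℝ) + 1))) * ‖x‖ ^ 2 =
        a / m * (‖Dirk21 m x‖ ^ 2 * ‖x‖ ^ 2) +
          b / ((m : ℝ) + 1) * (‖Dirk21 (m + 1) x‖ ^ 2 * ‖x‖ ^ 2) := by ring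
    _ ≤ a / m * (1 / 4) + b / ((m : ℝ) + 1) * (1 / 4) :=
        add_le_add (mul_le_mul_of_nonneg_left (h4 _) (by positivity))
          (mul_le_mul_of_nonneg_left (h4 _) (by positivity))
    _ = 1 / M * (1 / 4) := by rw [← hs]; ring
    _ ≤ 1 / (2 * M) := by
        rw [div_mul_div_comm, div_le_div_iff₀ (by positivity) (by positivity)]
        linarith

end Pool.Agent.Helper17.L3
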