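import Pool.Agent.Helper17.L3.K1
import Pool.Agent.Helper17.L3.B0

/-!
Block L3-K2.  The smoothed arc `ker`.

`ker_eq`: exchange the finite sum and the integral in `Phi` (`v` is bounded with bounded support, so integrable):
`ker N L r v x = ∫ v(β) r ∑_n (1 - r|n|/L)_+ e(n r β) e(-n x) dβ` and `kf L (r |n|) = kf (L / r) |n|`,
`ex n (rβ - x) = e(n r β) ex (-n) x`.
`ker_le_one`: `‖ker‖ ≤ ∫_{|β| ≤ t} r ‖fej N (L/r) (rβ - x)‖ dβ = ∫_{|u| ≤ rt} ‖fej (u - x)‖ du ≤ ∫_circle ‖fej‖ ≤ 1`,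
as the interval `[-rt, rt]` has length `2rt ≤ 1` (a period; `UnitAddCircle.intervalIntegral_preimage`,
or `AddCircle.intervalIntegral_preimage`).
`ker_decay`: if `‖x‖ < 2 r t` use `ker_le_one`: `‖x‖² ≤ 4 r² t²`.  If `‖x‖ ≥ 2 r t` then for `|β| ≤ t`:
`‖rβ - x‖ ≥ ‖x‖ - r t ≥ ‖x‖/2`, so by `fej_decay` `‖fej (rβ - x)‖ ≤ (r/(2L)) 4/‖x‖² = 2 r/(L ‖x‖²)` and
`‖ker‖ ≤ 2 t r * 2 r/(L‖x‖²) = 4 r² t/(L ‖x‖²) ≤ 8 r² t²/‖x‖²` as `1/L ≤ 2t`.
-/

namespace Pool.Agent.Helper17.L3

open MeasureTheory Pool.Agent.Helper25.MOB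

private theorem ex_neg26 (n : ℤ) (x : UnitAddCircle) : ex n (-x) = ex (-n) x := by
  unfold ex
  rw [fourier_apply, fourier_apply, smul_neg, neg_smul]

private theorem ex_sub26 (n : ℤ) (y x : UnitAddCircle) : ex n (y - x) = ex n y * ex (-n) x := by
  rw [sub_eq_add_neg, ex_add_arg, ex_neg26]

private theorem kf_div26 (L r y : ℝ) : kf (L / r) y = kf L (r * y) := by
  unfold kf
  rw [div_div_eq_mul_div, mul_comm y r]

private theorem integ26 {t : ℝ} {v : ℝ → ℂ} (hv : Ph t v) (y : ℝ) :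
    Integrable fun β => v β * ec (y * β) := by
  refine Integrable.mono' (integrable_Ph hv).norm ?_ ?_
  · exact (hv.meas.mul (continuous_ec.comp (continuous_const.mul continuous_id)).measurable).aestronglyMeasurable
  · refine Filter.Eventually.of_forall fun β => ?_
    rw [norm_mul, norm_ec, mul_one]

private theorem cont_fej26 (N : ℕ) (M : ℝ) : Continuous (fej N M) := by
  unfold fej
  exact continuous_finsetSum _ fun n _ => continuous_const.mul (continuous_ex _)

private theorem cont26 (N : ℕ) (M r : ℝ) (x : UnitAddCircle) :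
    Continuous fun β : ℝ => fej N M (((r * β : ℝ) : UnitAddCircle) - x) := by
  have h1 : Continuous fun β : ℝ => ((r * β : ℝ) : UnitAddCircle) :=
    (AddCircle.continuous_mk' (1 : ℝ)).comp (continuous_const.mul continuous_id)
  have h2 : Continuous fun β : ℝ => ((r * β : ℝ) : UnitAddCircle) - x := h1.sub continuous_const
  exact (cont_fej26 N M).comp h2

theorem ker_eq {N : ℕ} {L r t : ℝ} {v : ℝ → ℂ} (hv : Ph t v) (hr : 0 < r) (x : UnitAddCircle) :
    ker N L r v x = ∫ β, v β * ((r : ℂ) * fej N (L / r) (((r * β : ℝ) : UnitAddCircle) - x)) := by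
  have h1 : ∀ β : ℝ, v β * ((r : ℂ) * fej N (L / r) (((r * β : ℝ) : UnitAddCircle) - x)) =
      ∑ n ∈ Finset.Icc (-(N : ℤ)) N,
        ((r : ℂ) * (kf L (r * |(n : ℝ)|) : ℂ) * ex (-n) x) * (v β * ec ((r * n) * β)) := by
    intro β
    unfold fej
    rw [Finset.mul_sum, Finset.mul_sum]
    refine Finset.sum_congr rfl fun n _ => ?_
    rw [ex_sub26, ex_real, kf_div26]
    have h2 : (n : ℝ) * (r * β) = r * n * β := by ring
    rw [h2]
    ring
  simp_rw [h1]
  rw [integral_finsetSum _ fun n _ => (integ26 hv _).const_mul _]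
  unfold ker
  refine Finset.sum_congr rfl fun n _ => ?_
  rw [integral_const_mul]
  unfold Phi
  ring

private theorem norm_ker26 {N : ℕ} {L r t : ℝ} {v : ℝ → ℂ} (hv : Ph t v) (hr : 0 < r)
    (ht : 0 ≤ t) (x : UnitAddCircle) :
    ‖ker N L r v x‖ ≤ ∫ β in (-t)..t, r * ‖fej N (L / r) (((r * β : ℝ) : UnitAddCircle) - x)‖ := by
  rw [ker_eq hv hr]
  have hc : Continuous fun β : ℝ => r * ‖fej N (L / r) (((r * β : ℝ) : UnitAddCircle) - x)‖ :=
    continuous_const.mul (cont26 N (L / r) r x).norm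
  have h1 := norm_integral_le_of_norm_le
    (f := fun β => v β * ((r : ℂ) * fej N (L / r) (((r * β : ℝ) : UnitAddCircle) - x)))
    (g := (Set.Icc (-t) t).indicator
      fun β : ℝ => r * ‖fej N (L / r) (((r * β : ℝ) : UnitAddCircle) - x)‖)
    ((hc.integrableOn_Icc (μ := volume) (a := -t) (b := t)).integrable_indicator
      measurableSet_Icc)
    (Filter.Eventually.of_forall fun β => by
      by_cases hb : β ∈ Set.Icc (-t) t
      · rw [Set.indicator_of_mem hb, norm_mul, norm_mul, Complex.norm_real, Real.norm_of_nonneg hr.le]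
        have h2 := hv.bd β
        have h3 : 0 ≤ r * ‖fej N (L / r) (((r * β : ℝ) : UnitAddCircle) - x)‖ := by positivity
        nlinarith
      · rw [Set.indicator_of_notMem hb]
        have h2 : v β = 0 := hv.supp β (by
          by_contra h3
          push Not at h3
          exact hb (abs_le.1 h3))
        rw [h2, zero_mul, norm_zero])
  rw [integral_indicator measurableSet_Icc, integral_Icc_eq_integral_Ioc,
    ← intervalIntegral.integral_of_le (by linarith)] at h1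
  exact h1

theorem ker_le_one {N : ℕ} {L r t : ℝ} {v : ℝ → ℂ} (hv : Ph t v) (hr : 1 ≤ r) (hrL : r ≤ L)
    (hLN : L ≤ N) (hrt : 2 * r * t ≤ 1) (x : UnitAddCircle) : ‖ker N L r v x‖ ≤ 1 := by
  have hr0 : 0 < r := by linarith
  have hL0 : 0 < L := by linarith
  rcases lt_or_ge t 0 with ht | ht
  · have h0 : ∀ β, v β = 0 := fun β => hv.supp β (lt_of_lt_of_le ht (abs_nonneg β))
    rw [ker_eq hv hr0]
    simp only [h0, zero_mul, integral_zero, norm_zero]
    norm_num
  refine (norm_ker26 hv hr0 ht x).trans ?_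
  have h1 : ∫ β in (-t)..t, r * ‖fej N (L / r) (((r * β : ℝ) : UnitAddCircle) - x)‖ =
      ∫ u in (r * (-t))..(r * t), ‖fej N (L / r) ((u : UnitAddCircle) - x)‖ := by
    rw [intervalIntegral.integral_const_mul]
    exact intervalIntegral.mul_integral_comp_mul_left
      (f := fun u : ℝ => ‖fej N (L / r) ((u : UnitAddCircle) - x)‖) r
  rw [h1]
  have hc : Continuous fun u : ℝ => ‖fej N (L / r) ((u : UnitAddCircle) - x)‖ := by
    have h3 : Continuous fun u : ℝ => (u : UnitAddCircle) - x :=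
      (AddCircle.continuous_mk' (1 : ℝ)).sub continuous_const
    exact ((cont_fej26 N (L / r)).comp h3).norm
  have hrt0 : 0 ≤ r * t := by positivity
  have h2 : ∫ u in (r * (-t))..(r * t), ‖fej N (L / r) ((u : UnitAddCircle) - x)‖ ≤
      ∫ u in (r * (-t))..(r * (-t) + 1), ‖fej N (L / r) ((u : UnitAddCircle) - x)‖ :=
    intervalIntegral.integral_mono_interval le_rfl (by linarith) (by linarith)
      (Filter.Eventually.of_forall fun u => norm_nonneg _) (hc.intervalIntegrable _ _)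
  refine h2.trans ?_
  rw [UnitAddCircle.intervalIntegral_preimage (r * (-t))
    (fun y : UnitAddCircle => ‖fej N (L / r) (y - x)‖)]
  rw [integral_sub_right_eq_self (fun y : UnitAddCircle => ‖fej N (L / r) y‖) x]
  refine fej_int ?_ ?_
  · rw [le_div_iff₀ hr0, one_mul]; exact hrL
  · exact (div_le_self hL0.le hr).trans hLN

theorem ker_decay {N : ℕ} {L r t : ℝ} {v : ℝ → ℂ} (hv : Ph t v) (hr : 1 ≤ r) (hrL : r ≤ L)
    (hLN : L ≤ N) (hrt : 2 * r * t ≤ 1) (htL : 1 / 2 ≤ t * L) (x : UnitAddCircle) :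
    ‖ker N L r v x‖ * ‖x‖ ^ 2 ≤ 8 * r ^ 2 * t ^ 2 := by
  have hr0 : 0 < r := by linarith
  have hL0 : 0 < L := by linarith
  have ht : 0 < t := by
    by_contra h
    push Not at h
    nlinarith [mul_nonneg (neg_nonneg.2 h) hL0.le]
  have hx0 : 0 ≤ ‖x‖ := norm_nonneg x
  rcases lt_or_ge ‖x‖ (2 * r * t) with h | h
  · have h1 := ker_le_one (x := x) hv hr hrL hLN hrt
    have h2 : ‖x‖ ^ 2 ≤ (2 * r * t) ^ 2 := pow_le_pow_left₀ hx0 h.le 2
    have h3 : ‖ker N L r v x‖ * ‖x‖ ^ 2 ≤ 1 * (2 * r * t) ^ 2 :=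
      mul_le_mul h1 h2 (by positivity) zero_le_one
    have h4 : 0 ≤ r ^ 2 * t ^ 2 := by positivity
    nlinarith
  · have hxp : 0 < ‖x‖ := lt_of_lt_of_le (by positivity) h
    have h1 := norm_ker26 (N := N) (L := L) hv hr0 ht.le x
    have h2 : ∫ β in (-t)..t, r * ‖fej N (L / r) (((r * β : ℝ) : UnitAddCircle) - x)‖ ≤
        ∫ β in (-t)..t, (2 * r ^ 2 / (L * ‖x‖ ^ 2) : ℝ) := by
      refine intervalIntegral.integral_mono_on (by linarith)
        ((continuous_const.mul (cont26 N (L / r) r x).norm).intervalIntegrable _ _)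
        (continuous_const.intervalIntegrable _ _) ?_
      intro β hβ
      have hb : |β| ≤ t := abs_le.2 ⟨hβ.1, hβ.2⟩
      set y : UnitAddCircle := ((r * β : ℝ) : UnitAddCircle) - x with hy
      have h3 : ‖x‖ / 2 ≤ ‖y‖ := by
        have h4 : ‖x‖ - ‖((r * β : ℝ) : UnitAddCircle)‖ ≤ ‖x - ((r * β : ℝ) : UnitAddCircle)‖ :=
          norm_sub_norm_le _ _
        rw [norm_sub_rev, ← hy] at h4
        have h5 : ‖((r * β : ℝ) : UnitAddCircle)‖ ≤ |r * β| := h33_norm_coe_le _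
        rw [abs_mul, abs_of_pos hr0] at h5
        have h6 : r * |β| ≤ r * t := mul_le_mul_of_nonneg_left hb hr0.le
        linarith
      have h4 := fej_decay (N := N) (M := L / r) (by rw [le_div_iff₀ hr0, one_mul]; exact hrL)
        ((div_le_self hL0.le hr).trans hLN) y
      have h5 : (‖x‖ / 2) ^ 2 ≤ ‖y‖ ^ 2 := pow_le_pow_left₀ (by positivity) h3 2
      have h6 : ‖fej N (L / r) y‖ * (‖x‖ / 2) ^ 2 ≤ 1 / (2 * (L / r)) :=
        (mul_le_mul_of_nonneg_left h5 (norm_nonneg _)).trans h4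
      have h7 : 1 / (2 * (L / r)) = r / (2 * L) := by field_simp
      rw [h7, le_div_iff₀ (by positivity)] at h6
      rw [le_div_iff₀ (by positivity)]
      nlinarith
    rw [intervalIntegral.integral_const, smul_eq_mul] at h2
    have h3 : ‖ker N L r v x‖ ≤ (t - -t) * (2 * r ^ 2 / (L * ‖x‖ ^ 2)) := h1.trans h2
    have h4 : ‖ker N L r v x‖ * ‖x‖ ^ 2 ≤ (t - -t) * (2 * r ^ 2 / (L * ‖x‖ ^ 2)) * ‖x‖ ^ 2 :=
      mul_le_mul_of_nonneg_right h3 (by positivity)
    refine h4.trans ?_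
    have h5 : (t - -t) * (2 * r ^ 2 / (L * ‖x‖ ^ 2)) * ‖x‖ ^ 2 = 4 * r ^ 2 * t / L := by
      field_simp
      ring
    rw [h5, div_le_iff₀ hL0]
    have h6 : 0 ≤ 4 * r ^ 2 * t := by positivity
    nlinarith

end Pool.Agent.Helper17.L3
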