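import Mathlib

/-!
Block L3-PIG.  Two pigeonhole lemmas for a set `P` of integers in `[X, 2X)`.

`exists_gap`: cut `[X, 2X)` into windows `[X + iKD, X + (i+1)KD)`, at most `X/(KD) + 1` of them.  If no two elements of
`P` have `D ≤ p - p' < KD`, the elements in one window are pairwise less than `D` apart, so at most `D` per
window, and `#P ≤ (X/(KD) + 1) D = X/K + D`, a contradiction.
`exists_window`: windows of length `D`; at most `X/D + 1 ≤ 2X/D` of them.
-/

namespace Pool.Agent.Helper17.L3

theorem exists_gap (P : Finset ℕ) {X D K : ℕ} (hP : ∀ p ∈ P, X ≤ p ∧ p < 2 * X) (hD : 1 ≤ D)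
    (hK : 1 ≤ K) (hc : (X : ℝ) / K + D < P.card) :
    ∃ p ∈ P, ∃ p' ∈ P, p' + D ≤ p ∧ p < p' + K * D := by
  by_contra hcon
  push Not at hcon
  have hKD : 0 < K * D := Nat.mul_pos (by omega) (by omega)
  -- windows of length `K * D`
  have h1 : P.card ≤ (X / (K * D) + 1) * D := by
    have h2 : ∀ p ∈ P, (p - X) / (K * D) ∈ Finset.range (X / (K * D) + 1) := by
      intro p hp
      obtain ⟨h3, h4⟩ := hP p hp
      rw [Finset.mem_range]
      have : (p - X) / (K * D) ≤ X / (K * D) := Nat.div_le_div_right (by omega)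
      omega
    have h3 := Finset.card_eq_sum_card_fiberwise h2
    rw [h3]
    have h4 : ∀ i ∈ Finset.range (X / (K * D) + 1), (P.filter fun p => (p - X) / (K * D) = i).card ≤ D := by
      intro i _
      by_cases hne : (P.filter fun p => (p - X) / (K * D) = i).Nonempty
      · set Q := P.filter fun p => (p - X) / (K * D) = i with hQ
        set m := Q.min' hne with hm
        have hmQ : m ∈ Q := Q.min'_mem hne
        have hsub : Q ⊆ Finset.Ico m (m + D) := by
          intro p hp
          have hmp : m ≤ p := Q.min'_le p hp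
          rw [hQ, Finset.mem_filter] at hp
          have hm2 := hmQ
          rw [hQ, Finset.mem_filter] at hm2
          rw [Finset.mem_Ico]
          refine ⟨hmp, ?_⟩
          by_contra hge
          push Not at hge
          have h5 := hcon p hp.1 m hm2.1 hge
          have h6 : p - X < K * D * ((p - X) / (K * D)) + K * D := by
            have := Nat.div_add_mod (p - X) (K * D)
            have := Nat.mod_lt (p - X) hKD
            omega
          have h7 : K * D * ((m - X) / (K * D)) ≤ m - X := Nat.mul_div_le _ _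
          rw [hp.2] at h6
          rw [hm2.2] at h7
          have := (hP p hp.1).1
          have := (hP m hm2.1).1
          omega
        have := Finset.card_le_card hsub
        rw [Nat.card_Ico] at this
        omega
      · rw [Finset.not_nonempty_iff_eq_empty] at hne
        rw [hne, Finset.card_empty]
        exact Nat.zero_le D
    refine (Finset.sum_le_sum h4).trans ?_
    rw [Finset.sum_const, Finset.card_range, smul_eq_mul]
  have hDr : (1 : ℝ) ≤ D := by exact_mod_cast hD
  have hKr : (1 : ℝ) ≤ K := by exact_mod_cast hK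
  have h5 : (P.card : ℝ) ≤ ((X / (K * D) : ℕ) + 1) * D := by exact_mod_cast h1
  have h6 : ((X / (K * D) : ℕ) : ℝ) ≤ X / (K * D) := by
    have := @Nat.cast_div_le ℝ _ _ _ X (K * D)
    push_cast at this
    exact this
  have h7 : (((X / (K * D) : ℕ) : ℝ) + 1) * D ≤ X / K + D := by
    have h8 : (((X / (K * D) : ℕ) : ℝ) + 1) * D ≤ (X / (K * D) + 1) * D :=
      mul_le_mul_of_nonneg_right (by linarith) (by linarith)
    refine h8.trans (le_of_eq ?_)
    field_simp
  linarith

theorem exists_window (P : Finset ℕ) {X D : ℕ} (hP : ∀ p ∈ P, X ≤ p ∧ p < 2 * X) (hD : 1 ≤ D)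
    (hDX : D ≤ X) :
    ∃ Y : ℕ, X ≤ Y ∧ (P.card : ℝ) * D / (2 * X) ≤
      (P.filter fun p => Y ≤ p ∧ p < Y + D).card := by
  by_contra hcon
  push Not at hcon
  have hX : 1 ≤ X := by omega
  have h2 : ∀ p ∈ P, (p - X) / D ∈ Finset.range ((X - 1) / D + 1) := by
    intro p hp
    obtain ⟨h3, h4⟩ := hP p hp
    rw [Finset.mem_range]
    have : (p - X) / D ≤ (X - 1) / D := Nat.div_le_div_right (by omega)
    omega
  have h3 := Finset.card_eq_sum_card_fiberwise h2
  have hDr : (1 : ℝ) ≤ D := by exact_mod_cast hD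
  have hXr : (1 : ℝ) ≤ X := by exact_mod_cast hX
  set c : ℝ := (P.card : ℝ) * D / (2 * X) with hc
  have h4 : ∀ i ∈ Finset.range ((X - 1) / D + 1), ((P.filter fun p => (p - X) / D = i).card : ℝ) < c := by
    intro i _
    refine lt_of_le_of_lt ?_ (hcon (X + i * D) (by omega))
    have hsub : (P.filter fun p => (p - X) / D = i) ⊆ (P.filter fun p => X + i * D ≤ p ∧ p < X + i * D + D) := by
      intro p hp
      rw [Finset.mem_filter] at hp ⊢
      obtain ⟨h5, h6⟩ := hp
      have h7 := (hP p h5).1
      have h8 := Nat.div_add_mod (p - X) D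
      have h9 := Nat.mod_lt (p - X) (show 0 < D by omega)
      rw [h6] at h8
      have h10 : D * i = i * D := Nat.mul_comm _ _
      exact ⟨h5, by omega, by omega⟩
    exact_mod_cast Finset.card_le_card hsub
  have h5 : (P.card : ℝ) < (((X - 1) / D + 1 : ℕ) : ℝ) * c := by
    rw [h3]
    push_cast
    have h6 := Finset.sum_lt_sum_of_nonempty (s := Finset.range ((X - 1) / D + 1)) ⟨0, by simp⟩ h4
    rw [Finset.sum_const, Finset.card_range, nsmul_eq_mul] at h6
    push_cast at h6
    exact h6
  have h6 : (((X - 1) / D + 1 : ℕ) : ℝ) * D ≤ 2 * X := by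
    have h7 : ((X - 1) / D + 1) * D ≤ 2 * X := by
      have h8 := Nat.div_mul_le_self (X - 1) D
      have h9 : ((X - 1) / D + 1) * D = (X - 1) / D * D + D := by ring
      omega
    exact_mod_cast h7
  have h7 : (((X - 1) / D + 1 : ℕ) : ℝ) * c ≤ P.card := by
    rw [hc, mul_div_assoc', div_le_iff₀ (by positivity)]
    have h8 : (0 : ℝ) ≤ P.card := Nat.cast_nonneg _
    calc (((X - 1) / D + 1 : ℕ) : ℝ) * (P.card * D) = P.card * ((((X - 1) / D + 1 : ℕ) : ℝ) * D) := by ring
      _ ≤ P.card * (2 * X) := mul_le_mul_of_nonneg_left h6 h8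
  linarith

end Pool.Agent.Helper17.L3
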