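import Pool.Agent.Helper17.L3.N1
import Pool.Agent.Helper17.L3.CHI
import Pool.Agent.Helper17.L3.PIG

/-!
Block L3-N2.  One character.

`A = N^η`, `B = tN`, `X = ⌊XB/2⌋₊` (so `X ≤ XB`, `X ≥ XA`, `2 X ≤ XB`, `X ≥ XB/3`), `P` from `good`.
`s = ρ/(A B √(qB))`, `D = ⌊s X⌋₊`; `f_s` (`ctx_facts`): `s X ≥ s XB/3 ≥ A^109 q/3`, so `q ≤ D ≤ X` and `1 ≤ D` (`s ≤ 1`: `ρ ≤ √(2qB)`).
`exists_window`: a window `[Y, Y + D)` containing a subset `P'` of `P` with `K = #P' ≥ #P D/(2X) ≥ D/(2A)`.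
`f g = hh N L w 1 g`.  For `p, p' ∈ P'` and `g`: `‖f g + hh p (g p)‖ ≤ e₀`, `‖f (g p p'⁻¹) + hh p' (g p)‖ ≤ e₀` (`e₀ = ρ A^(-96)`, `r = 1`), and by `hh_slow` (the
larger over the smaller is at most `1 + D/X ≤ 1 + s`; `2 q t p ≤ 1` by `64 q t XB ≤ 1`):
`‖hh p (gp) - hh p' (gp)‖ ≤ 13 B √(2qB) s ≤ 20 ρ/A ≤ ρ/8`.  So `δ = 2e₀ + ρ/8 ≤ ρ/4`.  `chi_exists`:
`ρ = ‖f 1‖ ≤ ρ/4 + (2D/K) ‖hc χ 1‖ ≤ ρ/4 + 4A ‖hc χ 1‖`.  So `‖hc χ 1‖ ≥ (3/16) ρ/A ≥ ρ A^(-2)`.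
-/

namespace Pool.Agent.Helper17.L3

open MeasureTheory Filter Pool.Agent.Helper25.MOB

theorem one_char {η : ℝ} (hη : 0 < η) (hη1 : η ≤ 1 / 100000) : ∀ᶠ N : ℕ in atTop,
    ∀ (q : ℕ) [NeZero q] (L t : ℝ) (w : (ZMod q)ˣ → ℝ → ℂ), Ctx η N q L t w →
      ∃ χ : DirichletCharacter ℂ q, rho N L w * (N : ℝ) ^ (-(2 * η)) ≤ ‖hc N L w χ 1‖ := by
  classical
  have hev : ∀ᶠ N : ℕ in atTop, (200 : ℝ) ≤ (N : ℝ) ^ η :=
    ((tendsto_rpow_atTop hη).comp tendsto_natCast_atTop_atTop).eventually_ge_atTop 200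
  filter_upwards [good hη hη1, ctx_facts hη hη1, hev, eventually_ge_atTop 1] with
    N hgood hfacts hA hN1 q _ L t w hctx
  obtain ⟨f1, f2, f3, f4, f5, f6, _, _, _, _, _⟩ := hfacts q L t w hctx
  have hG := hgood q L t w hctx
  obtain ⟨ρ, hρd⟩ : ∃ ρ, ρ = rho N L w := ⟨_, rfl⟩
  rw [← hρd] at f1 f2 f3 f4 f5 f6 hG
  obtain ⟨a, ha⟩ : ∃ a, a = (N : ℝ) ^ η := ⟨_, rfl⟩
  rw [← ha] at hA
  have ha0 : 0 < a := by linarith
  have hN0 : (0 : ℝ) < N := by exact_mod_cast hN1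
  have hN1' : (1 : ℝ) ≤ N := by exact_mod_cast hN1
  have hq1 : (1 : ℝ) ≤ q := by exact_mod_cast Nat.one_le_iff_ne_zero.2 (NeZero.ne q)
  -- powers
  have pneg : (N : ℝ) ^ (-η) = 1 / a := by
    rw [Real.rpow_neg hN0.le, ha, one_div]
  have p2 : (N : ℝ) ^ (-(2 * η)) = 1 / a ^ 2 := by
    rw [Real.rpow_neg hN0.le, ha, ← Real.rpow_natCast, ← Real.rpow_mul hN0.le, one_div]
    congr 2
    push_cast
    ring
  have p96 : (N : ℝ) ^ (-(96 * η)) ≤ 1 / a := by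
    rw [← pneg]
    exact Real.rpow_le_rpow_of_exponent_le hN1' (by linarith)
  have p110 : a ^ 2 ≤ (N : ℝ) ^ (110 * η) := by
    have h1 : a ^ 2 = (N : ℝ) ^ (2 * η) := by
      rw [ha, ← Real.rpow_natCast, ← Real.rpow_mul hN0.le]
      congr 1
      push_cast
      ring
    rw [h1]
    exact Real.rpow_le_rpow_of_exponent_le hN1' (by linarith)
  have p1000 : a ≤ (N : ℝ) ^ (1000 * η) := by
    rw [ha]
    exact Real.rpow_le_rpow_of_exponent_le hN1' (by linarith)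
  have p12 : (1 : ℝ) ≤ (N : ℝ) ^ (1 / 12 : ℝ) := Real.one_le_rpow hN1' (by norm_num)
  obtain ⟨A1, hA1⟩ : ∃ A1, A1 = XA η N ρ := ⟨_, rfl⟩
  obtain ⟨B1, hB1⟩ : ∃ B1, B1 = XB η N q t ρ := ⟨_, rfl⟩
  rw [← hA1] at f3 f6 hG
  rw [← hB1] at f4 f5 f6 hG
  obtain ⟨B, hB⟩ : ∃ B, B = t * N := ⟨_, rfl⟩
  rw [← hB] at f2 f5 f6
  have hB1' : 1 ≤ B := by rw [hB]; exact hctx.htN
  have ht : 0 < t := by
    by_contra hcon
    have h2 : t * N ≤ 0 := mul_nonpos_of_nonpos_of_nonneg (not_lt.1 hcon) hN0.le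
    rw [← hB] at h2
    linarith
  have hL2 := hctx.hL
  have hLN := hctx.hLN
  have hL0 : 0 < L := by linarith
  have hA10 : 1 ≤ A1 := p12.trans f3
  obtain ⟨σ, hσ⟩ : ∃ σ, σ = √(q * B) := ⟨_, rfl⟩
  rw [← hσ] at f5
  have hqB : 0 < (q : ℝ) * B := by positivity
  have hqB1 : 1 ≤ (q : ℝ) * B := one_le_mul_of_one_le_of_one_le hq1 hB1'
  have hσ0 : 0 < σ := by rw [hσ]; exact Real.sqrt_pos.2 hqB
  have hσ2 : σ ^ 2 = q * B := by rw [hσ]; exact Real.sq_sqrt hqB.le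
  -- `100 XA ≤ XB`
  have g1 : 100 * A1 ≤ B1 := by
    have h1 : ρ ≤ 2 * (q * B ^ 2) := by
      have h2 : ρ ^ 2 ≤ (2 * (q * B ^ 2)) ^ 2 := by
        have h4 : 1 ≤ B ^ 2 := one_le_pow₀ hB1'
        have h5 : 1 * 1 ≤ (q * B) * B ^ 2 := mul_le_mul hqB1 h4 (by norm_num) hqB.le
        have h6 : 2 * (q * B) ≤ (4 * (q * B)) * ((q * B) * B ^ 2) := by
          have h7 := mul_le_mul_of_nonneg_left h5 (show (0 : ℝ) ≤ 4 * (q * B) by positivity)
          linarith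
        calc ρ ^ 2 ≤ 2 * (q * B) := f2
          _ ≤ (4 * (q * B)) * ((q * B) * B ^ 2) := h6
          _ = (2 * (q * B ^ 2)) ^ 2 := by ring
      exact abs_le_of_sq_le_sq' h2 (by positivity) |>.2
    have h2 : 1 / 2 ≤ q * B ^ 2 / ρ := by
      rw [le_div_iff₀ f1]
      linarith
    have h3 : 200 * (1 / 2) ≤ (N : ℝ) ^ (1000 * η) * (q * B ^ 2 / ρ) :=
      mul_le_mul (hA.trans p1000) h2 (by norm_num) (by positivity)
    have h4 : 100 ≤ B1 / A1 := by linarith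
    rwa [le_div_iff₀ (by linarith)] at h4
  obtain ⟨X, hX⟩ : ∃ X, X = ⌊B1 / 2⌋₊ := ⟨_, rfl⟩
  have hX1 : (X : ℝ) ≤ B1 / 2 := by rw [hX]; exact Nat.floor_le (by linarith)
  have hX2 : B1 / 2 - 1 < X := by rw [hX]; linarith [Nat.lt_floor_add_one (B1 / 2)]
  have hX3 : B1 / 3 ≤ X := by linarith
  have hXA : A1 ≤ X := by linarith
  have hX0 : (0 : ℝ) < X := by linarith
  obtain ⟨P, hP, hPc⟩ := hG X hXA (by linarith)
  -- the length of the window
  obtain ⟨s, hs⟩ : ∃ s, s = ρ / (B * σ) / a := ⟨_, rfl⟩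
  have hs0 : 0 < s := by rw [hs]; positivity
  have hs1 : s ≤ 1 := by
    rw [hs, div_le_one ha0]
    have h1 : ρ / (B * σ) ≤ 2 := by
      rw [div_le_iff₀ (by positivity)]
      have h2 : ρ ^ 2 ≤ (2 * σ) ^ 2 := by
        rw [mul_pow, hσ2]
        linarith
      have h3 : ρ ≤ 2 * σ := abs_le_of_sq_le_sq' h2 (by positivity) |>.2
      have h4 := mul_le_mul_of_nonneg_right hB1' hσ0.le
      linarith
    linarith
  have hsX : 66 * (q : ℝ) ≤ s * X := by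
    have h1 : a ^ 2 * q ≤ B1 * (ρ / (B * σ)) :=
      (mul_le_mul_of_nonneg_right p110 (by positivity)).trans f5
    have h2 : B1 * (ρ / (B * σ)) = B1 * s * a := by
      rw [hs]
      field_simp
    have h3 : a * q ≤ B1 * s := by
      have h4 : a * (a * q) ≤ a * (B1 * s) := by
        calc a * (a * q) = a ^ 2 * q := by ring
          _ ≤ B1 * s * a := by rw [← h2]; exact h1
          _ = a * (B1 * s) := by ring
      exact le_of_mul_le_mul_left h4 ha0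
    have h4 : s * (B1 / 3) ≤ s * X := mul_le_mul_of_nonneg_left hX3 hs0.le
    have h5 : 200 * (q : ℝ) ≤ a * q := mul_le_mul_of_nonneg_right hA (by linarith)
    linarith
  obtain ⟨D, hD⟩ : ∃ D, D = ⌊s * X⌋₊ := ⟨_, rfl⟩
  have hD1 : (D : ℝ) ≤ s * X := by rw [hD]; exact Nat.floor_le (by positivity)
  have hDq : q ≤ D := by
    rw [hD]
    exact Nat.le_floor (by linarith)
  have hD0 : 1 ≤ D := le_trans (Nat.one_le_iff_ne_zero.2 (NeZero.ne q)) hDq
  have hDX : D ≤ X := by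
    have h1 : (D : ℝ) ≤ X := hD1.trans (mul_le_of_le_one_left hX0.le hs1)
    exact_mod_cast h1
  have hDr0 : (0 : ℝ) < D := by exact_mod_cast hD0
  obtain ⟨Y, hXY, hY⟩ := exists_window P (X := X) (D := D)
    (fun p hp => ⟨(hP p hp).2.1, (hP p hp).2.2.1⟩) hD0 hDX
  obtain ⟨P', hP'⟩ : ∃ P', P' = P.filter fun p => Y ≤ p ∧ p < Y + D := ⟨_, rfl⟩
  rw [← hP'] at hY
  have hK : (D : ℝ) / (2 * a) ≤ P'.card := by
    refine le_trans ?_ hY
    rw [pneg] at hPc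
    rw [div_le_div_iff₀ (by positivity) (by positivity)]
    have h1 : X * (1 / a) * a = X := by field_simp
    have h2 : (X : ℝ) ≤ P.card * a := by
      have h3 := mul_le_mul_of_nonneg_right hPc ha0.le
      rwa [h1] at h3
    linarith [mul_le_mul_of_nonneg_left h2 hDr0.le]
  have hK0 : (0 : ℝ) < P'.card := lt_of_lt_of_le (by positivity) hK
  have hP'ne : P'.Nonempty := by
    rw [← Finset.card_pos]
    exact_mod_cast hK0
  have hmem : ∀ p ∈ P', p ∈ P ∧ Y ≤ p ∧ p < Y + D := by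
    intro p hp
    rw [hP', Finset.mem_filter] at hp
    exact hp
  -- the units
  let u : ℕ → (ZMod q)ˣ := fun p => if h : p.Coprime q then ZMod.unitOfCoprime p h else 1
  have hu : ∀ p ∈ P', ((u p : (ZMod q)ˣ) : ZMod q) = (p : ZMod q) := by
    intro p hp
    have hc := (hP p (hmem p hp).1).2.2.2.1
    simp only [u, dif_pos hc, ZMod.coe_unitOfCoprime]
  -- slow variation for two elements of the window
  have hslow : ∀ p ∈ P', ∀ p' ∈ P', p ≤ p' → ∀ g : (ZMod q)ˣ,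
      ‖hh N L w p (g : ZMod q) - hh N L w p' (g : ZMod q)‖ ≤ ρ / 8 := by
    intro p hp p' hp' hpp g
    have h1 := hmem p hp
    have h2 := hmem p' hp'
    have hXp : (X : ℝ) ≤ p := by exact_mod_cast (hP p h1.1).2.1
    have hp0 : (0 : ℝ) < p := by linarith
    have hpp' : (p : ℝ) ≤ p' := by exact_mod_cast hpp
    have hd : (p' : ℝ) ≤ p + D := by
      have h3 : p' ≤ p + D := by omega
      exact_mod_cast h3
    have hp2X : (p' : ℝ) ≤ 2 * X := by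
      have h3 : p' ≤ 2 * X := (hP p' h2.1).2.2.1.le
      exact_mod_cast h3
    have hDX' : (D : ℝ) ≤ X := by exact_mod_cast hDX
    have hqs : 2 * q * (t * p') ≤ 1 := by
      have h3 : (p' : ℝ) ≤ B1 := by linarith
      have h4 : (q : ℝ) * t * p' ≤ q * t * B1 := mul_le_mul_of_nonneg_left h3 (by positivity)
      have h5 : 0 ≤ (q : ℝ) * t * B1 := by
        have : 0 ≤ B1 := by linarith
        positivity
      linarith
    have htL : 1 / 2 ≤ t * L := by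
      have h3 : t * (N / 2) ≤ t * L := mul_le_mul_of_nonneg_left hL2 ht.le
      have h4 : t * ((N : ℝ) / 2) = B / 2 := by rw [hB]; ring
      linarith
    have h3 := hh_slow (N := N) hctx.hw ht hL0 htL hp0 hpp' (by linarith) hqs g
    refine h3.trans ?_
    have htLB : t * L ≤ B := by
      rw [hB]
      exact mul_le_mul_of_nonneg_left hLN ht.le
    have h4 : √(2 * q * (t * L)) ≤ 3 / 2 * σ := by
      apply Real.sqrt_le_iff.2
      refine ⟨by positivity, ?_⟩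
      have h5 : (q : ℝ) * (t * L) ≤ q * B := mul_le_mul_of_nonneg_left htLB (by positivity)
      have h6 : (3 / 2 * σ) ^ 2 = 9 / 4 * (q * B) := by
        rw [mul_pow, hσ2]
        norm_num
      rw [h6]
      linarith
    have h5 : (p' : ℝ) / p - 1 ≤ s := by
      rw [sub_le_iff_le_add, div_le_iff₀ hp0]
      have h6 : s * X ≤ s * p := mul_le_mul_of_nonneg_left hXp hs0.le
      linarith
    have h50 : 0 ≤ (p' : ℝ) / p - 1 := by
      rw [sub_nonneg, le_div_iff₀ hp0]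
      linarith
    have h7 : 13 * (t * L) * √(2 * q * (t * L)) * ((p' : ℝ) / p - 1) ≤
        13 * B * (3 / 2 * σ) * s := by
      refine mul_le_mul ?_ h5 h50 (by positivity)
      refine mul_le_mul (by linarith) h4 (Real.sqrt_nonneg _) (by positivity)
    refine h7.trans ?_
    have h8 : 13 * B * (3 / 2 * σ) * s = 39 / 2 * ρ / a := by
      rw [hs]
      field_simp
      ring
    rw [h8, div_le_iff₀ ha0]
    linarith [mul_le_mul_of_nonneg_left hA f1.le]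
  have hslow2 : ∀ p ∈ P', ∀ p' ∈ P', ∀ g : (ZMod q)ˣ,
      ‖hh N L w p (g : ZMod q) - hh N L w p' (g : ZMod q)‖ ≤ ρ / 8 := by
    intro p hp p' hp' g
    rcases le_total p p' with h | h
    · exact hslow p hp p' hp' h g
    · rw [norm_sub_rev]
      exact hslow p' hp' p hp h g
  have he0 : ρ * (N : ℝ) ^ (-(96 * η)) ≤ ρ / 16 := by
    have h1 : 1 / a ≤ 1 / 16 := by
      apply one_div_le_one_div_of_le <;> linarith
    calc ρ * (N : ℝ) ^ (-(96 * η)) ≤ ρ * (1 / 16) :=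
          mul_le_mul_of_nonneg_left (p96.trans h1) f1.le
      _ = ρ / 16 := by ring
  have hrel : ∀ p ∈ P', ∀ g : (ZMod q)ˣ,
      ‖hh N L w 1 (g : ZMod q) + hh N L w p ((g * u p : (ZMod q)ˣ) : ZMod q)‖ ≤ ρ / 16 := by
    intro p hp g
    have h1 := (hP p (hmem p hp).1).2.2.2.2 1 le_rfl (by norm_num) g
    rw [one_mul] at h1
    rw [Units.val_mul, hu p hp]
    exact h1.trans he0
  have hδ : ∀ p ∈ P', ∀ p' ∈ P', ∀ g : (ZMod q)ˣ,
      ‖hh N L w 1 (g : ZMod q) - hh N L w 1 ((g * u p * (u p')⁻¹ : (ZMod q)ˣ) : ZMod q)‖ ≤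
        ρ / 4 := by
    intro p hp p' hp' g
    have h1 := hrel p hp g
    have h2 := hrel p' hp' (g * u p * (u p')⁻¹)
    rw [inv_mul_cancel_right] at h2
    have h3 := hslow2 p hp p' hp' (g * u p)
    have h4 : hh N L w 1 (g : ZMod q) - hh N L w 1 ((g * u p * (u p')⁻¹ : (ZMod q)ˣ) : ZMod q) =
        (hh N L w 1 (g : ZMod q) + hh N L w p ((g * u p : (ZMod q)ˣ) : ZMod q)) -
        (hh N L w 1 ((g * u p * (u p')⁻¹ : (ZMod q)ˣ) : ZMod q) +
          hh N L w p' ((g * u p : (ZMod q)ˣ) : ZMod q)) -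
        (hh N L w p ((g * u p : (ZMod q)ˣ) : ZMod q) -
          hh N L w p' ((g * u p : (ZMod q)ˣ) : ZMod q)) := by ring
    rw [h4]
    refine (norm_sub_le _ _).trans ?_
    refine (add_le_add_left (norm_sub_le _ _) _).trans ?_
    linarith
  obtain ⟨χ, hχ⟩ := chi_exists (fun g : (ZMod q)ˣ => hh N L w 1 (g : ZMod q)) P' hP'ne u hu
    (fun p hp => (hmem p hp).2) hDq hδ
  refine ⟨χ, ?_⟩
  rw [← hρd, p2]
  have h1 : ‖hh N L w 1 (((1 : (ZMod q)ˣ)) : ZMod q)‖ = ρ := by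
    rw [hρd, Units.val_one]
    rfl
  have h2 : ρ ≤ ρ / 4 + 2 * D / P'.card * ‖hc N L w χ 1‖ := by
    have h3 := hχ
    rw [h1] at h3
    exact h3
  have h3 : 2 * (D : ℝ) / P'.card ≤ 4 * a := by
    rw [div_le_iff₀ hK0]
    rw [div_le_iff₀ (by positivity)] at hK
    linarith
  have h4 : 2 * (D : ℝ) / P'.card * ‖hc N L w χ 1‖ ≤ 4 * a * ‖hc N L w χ 1‖ :=
    mul_le_mul_of_nonneg_right h3 (norm_nonneg _)
  have h5 : 3 / 16 * (ρ / a) ≤ ‖hc N L w χ 1‖ := by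
    have h6 : 3 / 4 * ρ ≤ 4 * a * ‖hc N L w χ 1‖ := by linarith
    have h7 : 3 / 16 * (ρ / a) = 3 / 4 * ρ / (4 * a) := by
      field_simp
      ring
    rw [h7, div_le_iff₀ (by positivity)]
    linarith
  refine le_trans ?_ h5
  have h8 : ρ * (1 / a ^ 2) = 1 / a * (ρ / a) := by
    field_simp
  rw [h8]
  refine mul_le_mul_of_nonneg_right ?_ (by positivity)
  rw [div_le_iff₀ ha0]
  linarith

end Pool.Agent.Helper17.L3
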