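import Pool.Agent.Helper17.L3.GEN
import Pool.Agent.Helper17.L3.HU

/-!
Block L3-RD.  From shifts to a character (combination of `gen` and `approx_char`).

Let `E = (R K² + 1) ε`.  By `gen`, for `τ ∈ [0, T]` there is `c_τ` of modulus one with `‖H(x + τ) - c_τ H x‖ ≤ E`; `x = 0`, `H 0 = 1`:
`‖H τ - c_τ‖ ≤ E`, so `|‖H τ‖ - 1| ≤ E` and `‖H(x+τ) - H x H τ‖ ≤ E + E ‖H x‖ ≤ E + E(1 + E) ≤ 3E`.  Let `n` be such that
`T/2^n ≤ K² s₁` and `(n + 1) 3E ≤ 1/100` (`hn`).  `‖H x - 1‖ = ‖H x - H 0‖ ≤ ε ≤ 3E` for `x ≤ T/2^n`.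
`approx_char` with `3E`: `|λ| T/2^n ≤ 66E`, error `300 (n+1) E`.
-/

namespace Pool.Agent.Helper17.L3

theorem real_dir {H : ℝ → ℂ} {T s₁ K ε : ℝ} (R n : ℕ) (hK : 1 < K) (hT : 0 < T) (hs₁ : 0 < s₁)
    (hε : 0 ≤ ε) (hR : T ≤ K ^ R * (K ^ 2 * s₁)) (h0 : H 0 = 1)
    (hσ : ∀ s, s₁ ≤ s → s ≤ T / K → ∃ σ, s ≤ σ ∧ σ ≤ K * s ∧ ∃ c : ℂ, ‖c‖ = 1 ∧
      ∀ x, 0 ≤ x → x + σ ≤ T → ‖H (x + σ) - c * H x‖ ≤ ε)
    (hslow : ∀ x y, 0 ≤ x → x ≤ T → 0 ≤ y → y ≤ T → |x - y| ≤ K ^ 2 * s₁ →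
      ‖H x - H y‖ ≤ ε)
    (hn : T / 2 ^ n ≤ K ^ 2 * s₁) (hn1 : (n + 1) * (3 * ((R * K ^ 2 + 1) * ε)) ≤ 1 / 100) :
    ∃ lam : ℝ, |lam| * (T / 2 ^ n) ≤ 66 * ((R * K ^ 2 + 1) * ε) ∧
      ∀ x, 0 ≤ x → x ≤ T → ‖H x - Complex.exp (lam * x * Complex.I)‖ ≤
        300 * (n + 1) * ((R * K ^ 2 + 1) * ε) := by
  set E := (R * K ^ 2 + 1) * ε with hE_def
  have hK0 : 0 < K := by linarith
  have hE0 : 0 ≤ E := by positivity
  have hεE : ε ≤ E := by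
    have h1 : (1 : ℝ) ≤ R * K ^ 2 + 1 := by
      have : (0 : ℝ) ≤ R * K ^ 2 := by positivity
      linarith
    have h2 := mul_le_mul_of_nonneg_right h1 hε
    linarith
  have hn0 : (0 : ℝ) ≤ n := Nat.cast_nonneg n
  have hE1 : E ≤ 1 := by
    have h1 : 3 * E ≤ (n + 1) * (3 * E) := by nlinarith
    linarith
  have hg := gen R hK hT hs₁ hε hR hσ hslow
  -- the constants
  have hc : ∀ τ, 0 ≤ τ → τ ≤ T → ∃ c : ℂ, ‖c‖ = 1 ∧ ‖H τ - c‖ ≤ E ∧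
      ∀ x, 0 ≤ x → x + τ ≤ T → ‖H (x + τ) - c * H x‖ ≤ E := by
    intro τ h1 h2
    obtain ⟨c, hc1, hc2⟩ := hg τ h1 h2
    refine ⟨c, hc1, ?_, hc2⟩
    have h3 := hc2 0 le_rfl (by linarith)
    rwa [zero_add, h0, mul_one] at h3
  have hm1 : ∀ x, 0 ≤ x → x ≤ T → |‖H x‖ - 1| ≤ E := by
    intro x h1 h2
    obtain ⟨c, hc1, hc2, -⟩ := hc x h1 h2
    rw [← hc1]
    exact (abs_norm_sub_norm_le _ _).trans hc2
  have hmul : ∀ x y, 0 ≤ x → 0 ≤ y → x + y ≤ T → ‖H (x + y) - H x * H y‖ ≤ 3 * E := by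
    intro x y hx hy hxy
    obtain ⟨c, hc1, hc2, hc3⟩ := hc y hy (by linarith)
    have h1 := hc3 x hx hxy
    have h2 := hm1 x hx (by linarith)
    have h3 : ‖H x‖ ≤ 1 + E := by
      have := (abs_le.mp h2).2
      linarith
    have h4 : H (x + y) - H x * H y = (H (x + y) - c * H x) - (H y - c) * H x := by ring
    rw [h4]
    refine (norm_sub_le _ _).trans ?_
    rw [norm_mul]
    have h5 : ‖H y - c‖ * ‖H x‖ ≤ E * (1 + E) := mul_le_mul hc2 h3 (norm_nonneg _) hE0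
    nlinarith
  have hsm : ∀ x, 0 ≤ x → x ≤ T / 2 ^ n → ‖H x - 1‖ ≤ 3 * E := by
    intro x hx hxn
    have h1 : T / 2 ^ n ≤ T := by
      refine div_le_self hT.le ?_
      exact one_le_pow₀ (by norm_num)
    have h2 := hslow x 0 hx (hxn.trans h1) le_rfl hT.le (by
      rw [sub_zero, abs_of_nonneg hx]
      exact hxn.trans hn)
    rw [h0] at h2
    linarith
  obtain ⟨lam, hl1, hl2⟩ := approx_char (H := H) (T := T) (ε := 3 * E) n hT (by positivity) hn1 hmul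
    (fun x h1 h2 => (hm1 x h1 h2).trans (by linarith)) hsm
  refine ⟨lam, ?_, ?_⟩
  · linarith
  · intro x hx hxT
    refine (hl2 x hx hxT).trans (le_of_eq ?_)
    ring

end Pool.Agent.Helper17.L3
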