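import Pool.Agent.Helper17.L3.N1
import Pool.Agent.Helper17.L3.FOU
import Pool.Agent.Helper17.L3.RD
import Pool.Agent.Helper17.L3.PIG

/-!
Block L3-N3.  The real direction.

`A = N^η`, `B = tN`, `H x = hc χ (e^x)/hc χ 1`, `T = log 16`, `K = A³`, `ε = A^(-93)`, `s_slow = ρ A^(-96)/(B √(qB))`, `s₁ = s_slow/K²`,
`R = ⌈1/(3η)⌉₊ + 1`, `n = ⌈log₂ (T/s_slow)⌉`.  Check the hypotheses of `real_dir`:
* `hslow`: by `hh_slow` and `hc_sub`, for `0 ≤ x ≤ y ≤ T`, `y - x ≤ s_slow ≤ log 2`: `‖H x - H y‖ ≤ 13 B √(2qB) (e^(y-x) - 1) A²/ρ ≤ 40 B √(qB) A² s_slow/ρ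
  = 40 A^(-94) ≤ ε` (`‖hc χ 1‖ ≥ ρ A^(-2)`; `2 q t e^y ≤ 32 q t ≤ 1`).
* `hR`: `K^R ≥ N^(1+3η)`, `s_slow ≥ N^(-1/2) A^(-96)` (`ctx_facts`).
* `hσ`: let `X = ⌊XB/2⌋₊`, `P` from `good`, `#P ≥ X/A`.  Given `s ∈ [s₁, T/K]`: `X s ≥ X s₁ ≥ 1` by `f_s` (`X s₁ ≥ (XB/3) ρ A^(-102)/(B√(qB)) ≥ A^8 q/3`).
  `D = ⌈2 X s⌉₊`, `Kp = ⌈2A⌉₊ + 1`; `X/Kp + D < X/(2A) + 2XT/K + 1 + .. ≤ X/A ≤ #P`.  `exists_gap`: `p, p' ∈ P`, `p' + D ≤ p < p' + Kp D`.  `σ = log(p/p')`:
  `σ ≥ (p - p')/p ≥ D/(2X) ≥ s`; `σ ≤ (p - p')/p' ≤ Kp D/X ≤ Kp (2 X s + 1)/X ≤ 3 Kp s ≤ K s`.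
  `c = χ(p') χ(p)⁻¹`.  For `x ≥ 0`, `x + σ ≤ T`: with `r = e^(x+σ)` (`≤ 16`) and `p'`: `‖hc(r) + χ(p') hc(r p')‖ ≤ e₀`, with `r' = e^x` and `p`:
  `‖hc(r') + χ(p) hc(r' p)‖ ≤ e₀`, and `r p' = r' p`.  So `‖hc(r) - c hc(r')‖ ≤ 2 e₀`, `‖H(x+σ) - c H x‖ ≤ 2 A^(-96) A² ≤ ε` (`hc_rel`).
* `hn1`: `E = (R K² + 1) ε ≤ A^7 A^(-93) = A^(-86)`, `n + 1 ≤ A`.
Conclusion: error `300 (n+1) E ≤ A^(-80)`; `|λ| ≤ 66 E 2^n/T ≤ 132 E/s_slow ≤ 1/s_slow = A^96 B √(qB)/ρ`.
-/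

namespace Pool.Agent.Helper17.L3

open MeasureTheory Filter Pool.Agent.Helper25.MOB

private lemma rp24 (N : ℕ) (η : ℝ) (k : ℕ) : (N : ℝ) ^ ((k : ℝ) * η) = ((N : ℝ) ^ η) ^ k := by
  rw [mul_comm, Real.rpow_mul (Nat.cast_nonneg N), Real.rpow_natCast]

private lemma rpn24 (N : ℕ) (η : ℝ) (k : ℕ) : (N : ℝ) ^ (-((k : ℝ) * η)) = (((N : ℝ) ^ η) ^ k)⁻¹ := by
  rw [Real.rpow_neg (Nat.cast_nonneg N), rp24]

private lemma exp24 {z : ℝ} (h0 : 0 ≤ z) (h1 : z ≤ 1 / 2) : Real.exp z - 1 ≤ 2 * z := by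
  have h2 := Real.add_one_le_exp (-z)
  have h3 : Real.exp (-z) * Real.exp z = 1 := by
    rw [← Real.exp_add, neg_add_cancel, Real.exp_zero]
  have h4 : 0 < Real.exp z := Real.exp_pos z
  have h5 : (1 - z) * Real.exp z ≤ 1 := by
    rw [← h3]
    refine mul_le_mul_of_nonneg_right ?_ h4.le
    linarith
  nlinarith

private lemma quot24 {z w : ℂ} {a ρ c : ℝ} (ha : 1000 ≤ a) (hρ : 0 < ρ) (h1 : ρ * (a ^ 2)⁻¹ ≤ ‖w‖) (hc : c ≤ 1000)
    (hz : ‖z‖ ≤ c * (ρ * (a ^ 96)⁻¹)) : ‖z / w‖ ≤ (a ^ 93)⁻¹ := by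
  have ha0 : 0 < a := by linarith
  have hw : 0 < ‖w‖ := lt_of_lt_of_le (by positivity) h1
  rw [norm_div, div_le_iff₀ hw]
  refine hz.trans ?_
  have h2 : (a ^ 93)⁻¹ * (ρ * (a ^ 2)⁻¹) ≤ (a ^ 93)⁻¹ * ‖w‖ := mul_le_mul_of_nonneg_left h1 (by positivity)
  refine le_trans ?_ h2
  have h3 : (a ^ 93)⁻¹ * (ρ * (a ^ 2)⁻¹) = a * (ρ * (a ^ 96)⁻¹) := by
    field_simp
  rw [h3]
  exact mul_le_mul_of_nonneg_right (hc.trans ha) (by positivity)

private lemma slow24 {q : ℕ} [NeZero q] {N : ℕ} {L t a ρ : ℝ} {w : (ZMod q)ˣ → ℝ → ℂ} (hw : ∀ b, Ph t (w b))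
    (hN : 0 < N) (ht : 0 < t) (htN : 1 ≤ t * N) (hL : N / 2 ≤ L) (hLN : L ≤ N) (h32 : 32 * (q * t) ≤ 1)
    (χ : DirichletCharacter ℂ q) (ha : 1000 ≤ a) (hρ : 0 < ρ) (h1 : ρ * (a ^ 2)⁻¹ ≤ ‖hc N L w χ 1‖)
    {x y : ℝ} (hxy : x ≤ y) (hy : y ≤ Real.log 16)
    (hd : y - x ≤ ρ / (t * N * √(q * (t * N))) * (a ^ 96)⁻¹) (hd1 : y - x ≤ 1 / 2) :
    ‖hc N L w χ (Real.exp x) / hc N L w χ 1 - hc N L w χ (Real.exp y) / hc N L w χ 1‖ ≤ (a ^ 93)⁻¹ := by
  have hNr : (0 : ℝ) < N := by exact_mod_cast hN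
  have hq : (0 : ℝ) < q := by exact_mod_cast Nat.pos_of_ne_zero (NeZero.ne q)
  have hL0 : 0 < L := by linarith
  have ha0 : 0 < a := by linarith
  have hX0 : 0 < Real.exp x := Real.exp_pos x
  have he : Real.exp y = Real.exp (y - x) * Real.exp x := by
    rw [← Real.exp_add]
    ring_nf
  have hez := exp24 (sub_nonneg.mpr hxy) hd1
  have hX16 : Real.exp y ≤ 16 := by
    rw [← Real.exp_log (show (0 : ℝ) < 16 by norm_num)]
    exact Real.exp_le_exp.mpr hy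
  have htL : t * L ≤ t * N := mul_le_mul_of_nonneg_left hLN ht.le
  have hslow : ∀ g : (ZMod q)ˣ, ‖hh N L w (Real.exp x) (g : ZMod q) - hh N L w (Real.exp y) (g : ZMod q)‖ ≤
      39 * (ρ * (a ^ 96)⁻¹) := by
    intro g
    refine (hh_slow (X := Real.exp x) (X' := Real.exp y) hw ht hL0 ?_ hX0 (Real.exp_le_exp.mpr hxy) ?_ ?_ g).trans ?_
    · nlinarith
    · rw [he]
      exact mul_le_mul_of_nonneg_right (by linarith) hX0.le
    · have : 2 * q * (t * Real.exp y) ≤ 2 * q * (t * 16) := by gcongr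
      linarith
    · have h2 : Real.exp y / Real.exp x - 1 ≤ 2 * (y - x) := by
        rw [he, mul_div_assoc, div_self hX0.ne', mul_one]
        exact hez
      have h3 : √(2 * q * (t * L)) ≤ 3 / 2 * √(q * (t * N)) := by
        have h4 : 2 * q * (t * L) ≤ (3 / 2) ^ 2 * (q * (t * N)) := by
          have : q * (t * L) ≤ q * (t * N) := mul_le_mul_of_nonneg_left htL hq.le
          have h5 : 0 ≤ q * (t * N) := by positivity
          nlinarith
        refine (Real.sqrt_le_sqrt h4).trans ?_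
        rw [Real.sqrt_mul (by positivity), Real.sqrt_sq (by norm_num)]
      have h5 : 0 ≤ Real.exp y / Real.exp x - 1 := by
        rw [he, mul_div_assoc, div_self hX0.ne', mul_one]
        have := Real.add_one_le_exp (y - x)
        linarith
      have hS : 0 < √(q * (t * N)) := Real.sqrt_pos.mpr (by positivity)
      calc 13 * (t * L) * √(2 * q * (t * L)) * (Real.exp y / Real.exp x - 1)
          ≤ 13 * (t * N) * (3 / 2 * √(q * (t * N))) * (2 * (y - x)) := by gcongr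
        _ = 39 * ((t * N * √(q * (t * N))) * (y - x)) := by ring
        _ ≤ 39 * ((t * N * √(q * (t * N))) * (ρ / (t * N * √(q * (t * N))) * (a ^ 96)⁻¹)) := by gcongr
        _ = 39 * (ρ * (a ^ 96)⁻¹) := by
          field_simp
  have h2 := hc_sub hslow χ
  rw [← sub_div]
  exact quot24 ha hρ h1 (by norm_num) h2

private lemma norm_chi24 {q : ℕ} [NeZero q] (χ : DirichletCharacter ℂ q) {p : ℕ} (hp : p.Coprime q) :
    ‖χ (p : ZMod q)‖ = 1 := by
  have := DirichletCharacter.unit_norm_eq_one χ (ZMod.unitOfCoprime p hp)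
  rwa [ZMod.coe_unitOfCoprime] at this

private lemma shift24 {q : ℕ} [NeZero q] {N : ℕ} {L a ρ : ℝ} {w : (ZMod q)ˣ → ℝ → ℂ}
    (χ : DirichletCharacter ℂ q) (ha : 1000 ≤ a) (hρ : 0 < ρ) (h1 : ρ * (a ^ 2)⁻¹ ≤ ‖hc N L w χ 1‖)
    {p p' : ℕ} (hp : p.Coprime q) (hp' : p'.Coprime q) (hp0 : 0 < p) (hp'0 : 0 < p')
    (hg : ∀ r : ℝ, 1 ≤ r → r ≤ 16 → ∀ g : (ZMod q)ˣ,
      ‖hh N L w r (g : ZMod q) + hh N L w (r * p) ((g : ZMod q) * p)‖ ≤ ρ * (a ^ 96)⁻¹)
    (hg' : ∀ r : ℝ, 1 ≤ r → r ≤ 16 → ∀ g : (ZMod q)ˣ,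
      ‖hh N L w r (g : ZMod q) + hh N L w (r * p') ((g : ZMod q) * p')‖ ≤ ρ * (a ^ 96)⁻¹)
    {x : ℝ} (hx : 0 ≤ x) (hσ : 0 ≤ Real.log ((p : ℝ) / p')) (hxs : x + Real.log ((p : ℝ) / p') ≤ Real.log 16) :
    ‖hc N L w χ (Real.exp (x + Real.log ((p : ℝ) / p'))) / hc N L w χ 1 -
      (χ (p' : ZMod q) * (χ (p : ZMod q))⁻¹) * (hc N L w χ (Real.exp x) / hc N L w χ 1)‖ ≤ (a ^ 93)⁻¹ := by
  have hpr : (0 : ℝ) < p := by exact_mod_cast hp0
  have hpr' : (0 : ℝ) < p' := by exact_mod_cast hp'0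
  have h16 : ∀ z : ℝ, 0 ≤ z → z ≤ Real.log 16 → 1 ≤ Real.exp z ∧ Real.exp z ≤ 16 := by
    intro z hz hz2
    refine ⟨Real.one_le_exp hz, ?_⟩
    rw [← Real.exp_log (show (0 : ℝ) < 16 by norm_num)]
    exact Real.exp_le_exp.mpr hz2
  set r := Real.exp (x + Real.log ((p : ℝ) / p')) with hr
  set r' := Real.exp x with hr'
  have h2 := h16 _ (add_nonneg hx hσ) hxs
  have h3 := h16 x hx (by linarith)
  have e1 := hc_rel hp' (hg' r h2.1 h2.2) χ
  have e2 := hc_rel hp (hg r' h3.1 h3.2) χ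
  have hrr : r * p' = r' * p := by
    rw [hr, hr', Real.exp_add, Real.exp_log (by positivity)]
    field_simp
  rw [hrr] at e1
  set Z := hc N L w χ (r' * p) with hZ
  have hχ : χ (p : ZMod q) ≠ 0 := by
    intro h
    have := norm_chi24 χ hp
    rw [h, norm_zero] at this
    norm_num at this
  have e3 : ‖hc N L w χ r - (χ (p' : ZMod q) * (χ (p : ZMod q))⁻¹) * hc N L w χ r'‖ ≤ 2 * (ρ * (a ^ 96)⁻¹) := by
    have e4 : hc N L w χ r - (χ (p' : ZMod q) * (χ (p : ZMod q))⁻¹) * hc N L w χ r' =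
        (hc N L w χ r + χ (p' : ZMod q) * Z) -
        (χ (p' : ZMod q) * (χ (p : ZMod q))⁻¹) * (hc N L w χ r' + χ (p : ZMod q) * Z) := by
      field_simp
      ring
    rw [e4]
    refine (norm_sub_le _ _).trans ?_
    rw [norm_mul, norm_mul, norm_inv, norm_chi24 χ hp, norm_chi24 χ hp', inv_one, mul_one, one_mul]
    linarith
  rw [← mul_div_assoc, ← sub_div]
  exact quot24 ha hρ h1 (by norm_num) e3

private lemma sigma24 (P : Finset ℕ) {X : ℕ} {a s : ℝ} (ha : 1000 ≤ a) (hP : ∀ p ∈ P, X ≤ p ∧ p < 2 * X)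
    (hcard : (X : ℝ) * a⁻¹ ≤ P.card) (hXa : a ^ 2 ≤ X) (hs : 0 < s) (hXs : 1 ≤ X * s) (hsT : s * a ^ 3 ≤ 3) :
    ∃ p ∈ P, ∃ p' ∈ P, s ≤ Real.log ((p : ℝ) / p') ∧ Real.log ((p : ℝ) / p') ≤ a ^ 3 * s := by
  have ha0 : 0 < a := by linarith
  have hX0 : (0 : ℝ) < X := lt_of_lt_of_le (by positivity) hXa
  set D := ⌈2 * X * s⌉₊ with hD
  set Kp := ⌈2 * a⌉₊ + 1 with hKp
  have hD1 : 1 ≤ D := Nat.one_le_iff_ne_zero.mpr (by
    rw [hD]
    intro h
    rw [Nat.ceil_eq_zero] at h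
    have : 0 < 2 * (X : ℝ) * s := by positivity
    linarith)
  have hDlo : 2 * X * s ≤ D := Nat.le_ceil _
  have hDhi : (D : ℝ) < 2 * X * s + 1 := Nat.ceil_lt_add_one (by positivity)
  have hKlo : 2 * a + 1 ≤ (Kp : ℝ) := by
    rw [hKp]
    push_cast
    have := Nat.le_ceil (2 * a)
    linarith
  have hKhi : (Kp : ℝ) ≤ 2 * a + 2 := by
    rw [hKp]
    push_cast
    have := Nat.ceil_lt_add_one (show 0 ≤ 2 * a by positivity)
    linarith
  have hc : (X : ℝ) / Kp + D < P.card := by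
    refine lt_of_lt_of_le ?_ hcard
    have h1 : (X : ℝ) / Kp ≤ X / (2 * a) := by
      refine div_le_div_of_nonneg_left hX0.le (by positivity) ?_
      linarith
    have h2 : s ≤ 3 / a ^ 3 := by rwa [le_div_iff₀ (by positivity)]
    have h3 : 2 * X * s ≤ X / (8 * a) := by
      have h4 : 2 * X * s ≤ 2 * X * (3 / a ^ 3) := by gcongr
      refine h4.trans ?_
      rw [mul_div_assoc', div_le_div_iff₀ (by positivity) (by positivity)]
      have h5 : (48 : ℝ) ≤ a ^ 2 := by nlinarith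
      have h6 : 0 ≤ X * a := by positivity
      nlinarith [mul_le_mul_of_nonneg_left h5 h6]
    have h4 : 1 ≤ X / (8 * a) := by
      rw [le_div_iff₀ (by positivity)]
      nlinarith
    have h5 : (X : ℝ) * a⁻¹ = X / (2 * a) + 4 * (X / (8 * a)) := by
      field_simp
      norm_num
    have h6 : 0 < (X : ℝ) / (8 * a) := by positivity
    linarith
  obtain ⟨p, hp, p', hp', hlo, hhi⟩ := exists_gap P hP hD1 (show 1 ≤ Kp by omega) hc
  have h1 := hP p hp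
  have h2 := hP p' hp'
  have hX1 : 0 < X := by exact_mod_cast hX0
  have hp0 : (0 : ℝ) < p := by
    have : 0 < p := by omega
    exact_mod_cast this
  have hp'0 : (0 : ℝ) < p' := by
    have : 0 < p' := by omega
    exact_mod_cast this
  have hlo' : (p' : ℝ) + D ≤ p := by exact_mod_cast hlo
  have hhi' : (p : ℝ) ≤ p' + Kp * D := by exact_mod_cast hhi.le
  have hp2 : (p : ℝ) ≤ 2 * X := by exact_mod_cast h1.2.le
  have hpX : (X : ℝ) ≤ p' := by exact_mod_cast h2.1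
  refine ⟨p, hp, p', hp', ?_, ?_⟩
  · have h3 := Real.one_sub_inv_le_log_of_pos (show 0 < (p : ℝ) / p' by positivity)
    refine le_trans ?_ h3
    rw [inv_div, le_sub_iff_add_le, ← le_sub_iff_add_le', div_le_iff₀ hp0]
    have h4 : s * p ≤ s * (2 * X) := mul_le_mul_of_nonneg_left hp2 hs.le
    nlinarith
  · have h3 := Real.log_le_sub_one_of_pos (show 0 < (p : ℝ) / p' by positivity)
    refine h3.trans ?_
    rw [sub_le_iff_le_add, div_le_iff₀ hp'0]
    have h4 : (Kp : ℝ) * D ≤ (2 * a + 2) * (3 * (X * s)) := by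
      have h5 : (D : ℝ) ≤ 3 * (X * s) := by linarith
      gcongr
    have h5 : (2 * a + 2) * 3 ≤ a ^ 3 := by nlinarith [sq_nonneg a]
    have h6 : (2 * a + 2) * (3 * (X * s)) ≤ a ^ 3 * s * p' := by
      have h7 : (2 * a + 2) * 3 * (X * s) ≤ a ^ 3 * (X * s) := mul_le_mul_of_nonneg_right h5 (by positivity)
      have h8 : a ^ 3 * s * X ≤ a ^ 3 * s * p' := mul_le_mul_of_nonneg_left hpX (by positivity)
      linarith
    linarith

theorem real_direction {η : ℝ} (hη : 0 < η) (hη1 : η ≤ 1 / 100000) : ∀ᶠ N : ℕ in atTop,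
    ∀ (q : ℕ) [NeZero q] (L t : ℝ) (w : (ZMod q)ˣ → ℝ → ℂ), Ctx η N q L t w →
      ∀ χ : DirichletCharacter ℂ q, rho N L w * (N : ℝ) ^ (-(2 * η)) ≤ ‖hc N L w χ 1‖ →
      ∃ lam : ℝ, |lam| ≤ (N : ℝ) ^ (105 * η) * (t * N) * √(q * (t * N)) / rho N L w ∧
        ∀ x, 0 ≤ x → x ≤ Real.log 16 →
          ‖hc N L w χ (Real.exp x) / hc N L w χ 1 - Complex.exp (lam * x * Complex.I)‖ ≤
            (N : ℝ) ^ (-(80 * η)) := by
  have hA1 : ∀ᶠ N : ℕ in atTop, 1000 + 1 / η ≤ (N : ℝ) ^ η :=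
    ((tendsto_rpow_atTop hη).comp tendsto_natCast_atTop_atTop).eventually_ge_atTop _
  have hA2 : ∀ᶠ N : ℕ in atTop, 4 * Real.log N + 10 ≤ (N : ℝ) ^ η := by
    have h1 := (isLittleO_log_rpow_atTop hη).comp_tendsto (tendsto_natCast_atTop_atTop (R := ℝ))
    have h2 := h1.bound (show (0 : ℝ) < 1 / 8 by norm_num)
    have h3 : ∀ᶠ N : ℕ in atTop, (20 : ℝ) ≤ (N : ℝ) ^ η :=
      ((tendsto_rpow_atTop hη).comp tendsto_natCast_atTop_atTop).eventually_ge_atTop _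
    filter_upwards [h2, h3, eventually_ge_atTop 1] with N h2 h3 hN
    simp only [Function.comp] at h2
    have hN1 : (1 : ℝ) ≤ N := by exact_mod_cast hN
    rw [Real.norm_eq_abs, Real.norm_eq_abs, abs_of_nonneg (Real.log_nonneg hN1),
      abs_of_nonneg (by positivity)] at h2
    linarith
  filter_upwards [ctx_facts hη hη1, good hη hη1, hA1, hA2, eventually_ge_atTop 1000]
    with N hfacts hgood hA1 hA2 hN q _ L t w hC χ hχ
  obtain ⟨f1, f2, f3, f4, f5, f6, f7, f8, f9, f10, f11⟩ := hfacts q L t w hC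
  have hgood' := hgood q L t w hC
  have hNr : (1000 : ℝ) ≤ N := by exact_mod_cast hN
  have hN0 : (0 : ℝ) < N := by linarith
  have hN1 : (1 : ℝ) ≤ N := by linarith
  have hq : (1 : ℝ) ≤ q := by exact_mod_cast Nat.pos_of_ne_zero (NeZero.ne q)
  have ht : 0 < t := by
    by_contra hh
    push Not at hh
    have h1 := hC.htN
    have h2 := mul_nonpos_of_nonpos_of_nonneg hh hN0.le
    linarith
  -- abbreviations
  set a : ℝ := (N : ℝ) ^ η with ha_def
  have hinvη : 0 < 1 / η := by positivity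
  have ha : 1000 ≤ a := by linarith
  have ha0 : 0 < a := by linarith
  have ha1 : 1 ≤ a := by linarith
  set ρ := rho N L w with hρ_def
  set B := t * N with hB_def
  set S := √(q * B) with hS_def
  have hB1 : 1 ≤ B := hC.htN
  have hqB : 1 ≤ q * B := one_le_mul_of_one_le_of_one_le hq hB1
  have hS1 : 1 ≤ S := Real.one_le_sqrt.mpr hqB
  have hS2 : S ^ 2 = q * B := Real.sq_sqrt (by linarith)
  have hBS : 0 < B * S := by positivity
  set m := ρ / (B * S) with hm_def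
  have hm0 : 0 < m := by positivity
  have e2 : (N : ℝ) ^ (-(2 * η)) = (a ^ 2)⁻¹ := by exact_mod_cast rpn24 N η 2
  have e96 : (N : ℝ) ^ (-(96 * η)) = (a ^ 96)⁻¹ := by exact_mod_cast rpn24 N η 96
  have e80 : (N : ℝ) ^ (-(80 * η)) = (a ^ 80)⁻¹ := by exact_mod_cast rpn24 N η 80
  have e105 : (N : ℝ) ^ (105 * η) = a ^ 105 := by exact_mod_cast rp24 N η 105
  have e110 : (N : ℝ) ^ (110 * η) = a ^ 110 := by exact_mod_cast rp24 N η 110
  have e1000 : (N : ℝ) ^ (1000 * η) = a ^ 1000 := by exact_mod_cast rp24 N η 1000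
  rw [e2] at hχ
  rw [e110] at f5
  rw [e1000] at f6
  rw [e80, e105]
  -- size of `m`
  have hρS : ρ ≤ 3 / 2 * S := by
    refine le_of_sq_le_sq (f2.trans ?_) (by positivity)
    rw [mul_pow, hS2]
    linarith
  have hm2 : m ≤ 3 / 2 := by
    rw [hm_def, div_le_iff₀ hBS]
    have h1 : S ≤ B * S := le_mul_of_one_le_left (by linarith) hB1
    linarith
  -- large powers
  have hpow : ∀ (c : ℝ) (k : ℕ), (k : ℝ) * η ≤ c → a ^ k ≤ (N : ℝ) ^ c := by
    intro c k hk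
    rw [ha_def, ← rp24]
    exact Real.rpow_le_rpow_of_exponent_le hN1 hk
  have h12 : a ^ 2 ≤ (N : ℝ) ^ (1 / 12 : ℝ) := hpow _ 2 (by push_cast; linarith)
  have hhalf : a ^ 98 ≤ (N : ℝ) ^ (1 / 2 : ℝ) := hpow _ 98 (by push_cast; linarith)
  have hNhalf : (N : ℝ) ^ (1 / 2 : ℝ) * (N : ℝ) ^ (1 / 2 : ℝ) = N := by
    rw [← Real.rpow_add hN0]
    norm_num
  have hNhalf' : (N : ℝ) ^ (1 / 2 : ℝ) * (N : ℝ) ^ (-(1 / 2) : ℝ) = 1 := by
    rw [← Real.rpow_add hN0]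
    norm_num
  -- `q t`
  have h32 : 32 * (q * t) ≤ 1 := by
    have h1 : q * (t * N) ≤ (N : ℝ) ^ (1 / 2 : ℝ) :=
      hC.hq.trans (Real.rpow_le_rpow_of_exponent_le hN1 (by linarith))
    have h2 : (32 : ℝ) ≤ (N : ℝ) ^ (1 / 2 : ℝ) := by
      refine le_trans ?_ hhalf
      have h3 : a ^ 1 ≤ a ^ 98 := pow_le_pow_right₀ ha1 (by norm_num)
      linarith
    have h3 : 0 < (N : ℝ) ^ (1 / 2 : ℝ) := by positivity
    have h4 : 32 * (q * t) * N ≤ 1 * N := by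
      calc 32 * (q * t) * N = 32 * (q * (t * N)) := by ring
        _ ≤ (N : ℝ) ^ (1 / 2 : ℝ) * (N : ℝ) ^ (1 / 2 : ℝ) := mul_le_mul h2 h1 (by positivity) h3.le
        _ = 1 * N := by rw [hNhalf, one_mul]
    exact le_of_mul_le_mul_right h4 hN0
  -- the window
  have hXA1 : 1 ≤ XA η N ρ := by
    refine le_trans ?_ (h12.trans f3)
    exact one_le_pow₀ ha1
  have hXAB : 4 * XA η N ρ ≤ XB η N q t ρ := by
    have h1 : 4 ≤ XB η N q t ρ / XA η N ρ := by
      refine le_trans ?_ f6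
      have h2 : (2 : ℝ) / 3 ≤ q * B ^ 2 / ρ := by
        rw [le_div_iff₀ f1]
        have h3 : S ≤ q * B := by
          rw [← hS2]
          exact le_self_pow₀ hS1 two_ne_zero
        have h4 : q * B ≤ q * B ^ 2 := mul_le_mul_of_nonneg_left (le_self_pow₀ hB1 two_ne_zero) (by linarith)
        linarith
      have h3 : a ^ 1 ≤ a ^ 1000 := pow_le_pow_right₀ ha1 (by norm_num)
      have h4 : 1000 * (2 / 3) ≤ a ^ 1000 * (q * B ^ 2 / ρ) := by
        refine mul_le_mul ?_ h2 (by norm_num) (by positivity)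
        linarith
      linarith
    rwa [le_div_iff₀ (by linarith)] at h1
  set Xb := XB η N q t ρ with hXb_def
  set X := ⌊Xb⌋₊ with hX_def
  have hXb0 : 0 ≤ Xb := by linarith
  have hXle : (X : ℝ) ≤ Xb := Nat.floor_le hXb0
  have hXgt : Xb - 1 < X := by
    have := Nat.lt_floor_add_one Xb
    linarith
  have hXA : XA η N ρ ≤ X := by linarith
  have hX2 : Xb / 2 ≤ X := by linarith
  have hXa : a ^ 2 ≤ X := (h12.trans f3).trans hXA
  obtain ⟨P, hP, hPc⟩ := hgood' X hXA hXle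
  rw [Real.rpow_neg (Nat.cast_nonneg N), ← ha_def] at hPc
  -- `T`
  set T := Real.log 16 with hT_def
  have hT0 : 0 < T := Real.log_pos (by norm_num)
  have hT3 : T ≤ 3 := by
    have h1 : T = 4 * Real.log 2 := by
      rw [hT_def, show (16 : ℝ) = 2 ^ 4 by norm_num, Real.log_pow]
      norm_num
    have := Real.log_two_lt_d9
    linarith
  have hT1 : 1 ≤ T := by
    have h1 : T = 4 * Real.log 2 := by
      rw [hT_def, show (16 : ℝ) = 2 ^ 4 by norm_num, Real.log_pow]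
      norm_num
    have := Real.log_two_gt_d9
    linarith
  -- the slow scale
  set sl := m * (a ^ 96)⁻¹ with hsl_def
  have hsl0 : 0 < sl := by positivity
  have hsl1 : sl ≤ 1 / 2 := by
    have h1 : a ^ 1 ≤ a ^ 96 := pow_le_pow_right₀ ha1 (by norm_num)
    rw [hsl_def, ← div_eq_mul_inv, div_le_iff₀ (by positivity)]
    linarith
  have hslN : 1 ≤ sl * N := by
    have h1 : a ^ 98 * 1 ≤ N * m := by
      calc a ^ 98 * 1 ≤ (N : ℝ) ^ (1 / 2 : ℝ) * ((N : ℝ) ^ (1 / 2 : ℝ) * (N : ℝ) ^ (-(1 / 2) : ℝ)) := by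
            rw [hNhalf']
            linarith
        _ = ((N : ℝ) ^ (1 / 2 : ℝ) * (N : ℝ) ^ (1 / 2 : ℝ)) * (N : ℝ) ^ (-(1 / 2) : ℝ) := by ring
        _ ≤ N * m := by
            rw [hNhalf]
            exact mul_le_mul_of_nonneg_left f10 hN0.le
    have h2 : a ^ 96 ≤ a ^ 98 := pow_le_pow_right₀ ha1 (by norm_num)
    rw [hsl_def, mul_assoc, ← div_eq_inv_mul, ← mul_div_assoc, le_div_iff₀ (by positivity)]
    linarith
  set K := a ^ 3 with hK_def
  set s₁ := sl / K ^ 2 with hs₁_def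
  have hK1 : 1 < K := by
    rw [hK_def]
    exact one_lt_pow₀ (by linarith) (by norm_num)
  have hK0 : 0 < K := by linarith
  have hs₁0 : 0 < s₁ := by positivity
  have hKs : K ^ 2 * s₁ = sl := by
    rw [hs₁_def]
    field_simp
  set R := ⌈1 / (3 * η)⌉₊ + 1 with hR_def
  have hRlo : 1 / (3 * η) + 1 ≤ (R : ℝ) := by
    rw [hR_def]
    push_cast
    have := Nat.le_ceil (1 / (3 * η))
    linarith
  have hRhi : (R : ℝ) ≤ 1 / (3 * η) + 2 := by
    rw [hR_def]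
    push_cast
    have := Nat.ceil_lt_add_one (show 0 ≤ 1 / (3 * η) by positivity)
    linarith
  have hRa : (R : ℝ) ≤ a - 1 := by
    have : 1 / (3 * η) ≤ 1 / η := by
      refine one_div_le_one_div_of_le hη ?_
      linarith
    linarith
  have hR : T ≤ K ^ R * (K ^ 2 * s₁) := by
    rw [hKs]
    have h1 : (N : ℝ) * a ^ 3 ≤ K ^ R := by
      have h2 : K ^ R = (N : ℝ) ^ (((3 * R : ℕ) : ℝ) * η) := by
        rw [rp24, hK_def, ← pow_mul]
      have h3 : (N : ℝ) * a ^ 3 = (N : ℝ) ^ (1 + ((3 : ℕ) : ℝ) * η) := by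
        rw [Real.rpow_add hN0, Real.rpow_one, rp24]
      rw [h2, h3]
      refine Real.rpow_le_rpow_of_exponent_le hN1 ?_
      push_cast
      have h4 : 3 * η * (1 / (3 * η) + 1) ≤ 3 * η * R := mul_le_mul_of_nonneg_left hRlo (by positivity)
      have h5 : 3 * η * (1 / (3 * η) + 1) = 1 + 3 * η := by
        field_simp
      linarith
    have h2 : a ^ 3 * 1 ≤ a ^ 3 * (sl * N) := mul_le_mul_of_nonneg_left hslN (by positivity)
    have h3 : a ^ 1 ≤ a ^ 3 := pow_le_pow_right₀ ha1 (by norm_num)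
    have h4 : (N : ℝ) * a ^ 3 * sl ≤ K ^ R * sl := mul_le_mul_of_nonneg_right h1 hsl0.le
    have h5 : (N : ℝ) * a ^ 3 * sl = a ^ 3 * (sl * N) := by ring
    linarith
  -- the number `n`
  obtain ⟨n, hn1, hn2, hn3⟩ : ∃ n : ℕ, T / 2 ^ n ≤ sl ∧ (n : ℝ) + 1 ≤ a ∧ (2 : ℝ) ^ n ≤ 6 / sl := by
    have h0 : 1 ≤ T / sl := by
      rw [le_div_iff₀ hsl0]
      linarith
    obtain ⟨n, hn⟩ : ∃ n : ℕ, n = ⌈Real.logb 2 (T / sl)⌉₊ := ⟨_, rfl⟩
    have hlog0 : 0 ≤ Real.logb 2 (T / sl) := Real.logb_nonneg (by norm_num) h0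
    have hpos : 0 < T / sl := by positivity
    have h1 : T / sl ≤ 2 ^ n := by
      have h2 : Real.logb 2 (T / sl) ≤ n := by
        rw [hn]
        exact Nat.le_ceil _
      rw [Real.logb_le_iff_le_rpow (by norm_num) hpos, Real.rpow_natCast] at h2
      exact h2
    have h2 : (n : ℝ) < Real.logb 2 (T / sl) + 1 := by
      rw [hn]
      exact Nat.ceil_lt_add_one hlog0
    have h3 : (2 : ℝ) ^ n ≤ 2 * (T / sl) := by
      have h4 : (n : ℝ) ≤ Real.logb 2 (2 * (T / sl)) := by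
        rw [Real.logb_mul (by norm_num) hpos.ne', Real.logb_self_eq_one (by norm_num)]
        linarith
      rw [Real.le_logb_iff_rpow_le (by norm_num) (by positivity), Real.rpow_natCast] at h4
      exact h4
    refine ⟨n, ?_, ?_, ?_⟩
    · rw [div_le_iff₀ (by positivity)]
      rw [div_le_iff₀ hsl0] at h1
      linarith
    · -- `2 ^ n ≤ 6 N`
      have h4 : (2 : ℝ) ^ n ≤ 6 * N := by
        refine h3.trans ?_
        have h5 : T / sl ≤ 3 * N := by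
          rw [div_le_iff₀ hsl0]
          have h6 : 3 * (N : ℝ) * sl = 3 * (sl * N) := by ring
          rw [h6]
          linarith
        linarith
      have h5 : (n : ℝ) * Real.log 2 ≤ Real.log 6 + Real.log N := by
        rw [← Real.log_pow, ← Real.log_mul (by norm_num) hN0.ne']
        exact Real.log_le_log (by positivity) h4
      have h6 : Real.log 6 ≤ 2 := by
        rw [Real.log_le_iff_le_exp (by norm_num)]
        have h7 : Real.exp 1 ^ 2 = Real.exp 2 := by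
          rw [← Real.exp_nat_mul]
          norm_num
        rw [← h7]
        have h8 := Real.exp_one_gt_d9
        have h9 : (2.5 : ℝ) ^ 2 ≤ Real.exp 1 ^ 2 := pow_le_pow_left₀ (by norm_num) (by linarith) 2
        refine le_trans (by norm_num) h9
      have h7 := Real.log_two_gt_d9
      have h8 : 0 ≤ Real.log N := Real.log_nonneg hN1
      have h9 : (n : ℝ) * (1 / 2) ≤ (n : ℝ) * Real.log 2 := mul_le_mul_of_nonneg_left (by linarith) (Nat.cast_nonneg n)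
      linarith
    · refine h3.trans ?_
      rw [mul_div_assoc', div_le_div_iff_of_pos_right hsl0]
      linarith
  -- the error
  set E := ((R : ℝ) * K ^ 2 + 1) * (a ^ 93)⁻¹ with hE_def
  have hE : E ≤ (a ^ 86)⁻¹ := by
    have h1 : (R : ℝ) * K ^ 2 + 1 ≤ a ^ 7 := by
      have h2 : K ^ 2 = a ^ 6 := by
        rw [hK_def]
        ring
      rw [h2]
      have h3 : 1 ≤ a ^ 6 := one_le_pow₀ ha1
      have h4 : (R : ℝ) * a ^ 6 ≤ (a - 1) * a ^ 6 := mul_le_mul_of_nonneg_right hRa (by positivity)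
      have h5 : a ^ 7 = a * a ^ 6 := by ring
      rw [h5]
      linarith
    rw [hE_def]
    calc ((R : ℝ) * K ^ 2 + 1) * (a ^ 93)⁻¹ ≤ a ^ 7 * (a ^ 93)⁻¹ := mul_le_mul_of_nonneg_right h1 (by positivity)
      _ = (a ^ 86)⁻¹ := by
        field_simp
  have hE0 : 0 ≤ E := by positivity
  have hnE : ((n : ℝ) + 1) * E ≤ (a ^ 85)⁻¹ := by
    calc ((n : ℝ) + 1) * E ≤ a * (a ^ 86)⁻¹ := mul_le_mul hn2 hE hE0 ha0.le
      _ = (a ^ 85)⁻¹ := by
        field_simp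
  have h85 : (a ^ 85)⁻¹ * 1000 ≤ (a ^ 80)⁻¹ := by
    rw [← div_eq_inv_mul, div_le_iff₀ (by positivity)]
    have h1 : (a ^ 80)⁻¹ * a ^ 85 = a ^ 5 := by
      field_simp
    rw [h1]
    have h2 : a ^ 1 ≤ a ^ 5 := pow_le_pow_right₀ ha1 (by norm_num)
    linarith
  have h80 : (a ^ 80)⁻¹ ≤ 1 := inv_le_one_of_one_le₀ (one_le_pow₀ ha1)
  have hc1 : hc N L w χ 1 ≠ 0 := by
    intro h
    rw [h, norm_zero] at hχ
    have : 0 < ρ * (a ^ 2)⁻¹ := by positivity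
    linarith
  obtain ⟨lam, hlam, hH⟩ := real_dir (H := fun x => hc N L w χ (Real.exp x) / hc N L w χ 1) (T := T) (s₁ := s₁)
    (K := K) (ε := (a ^ 93)⁻¹) R n hK1 hT0 hs₁0 (by positivity) hR
    (by
      simp only [Real.exp_zero]
      exact div_self hc1)
    (by
      intro s hs1 hs2
      have hs0 : 0 < s := lt_of_lt_of_le hs₁0 hs1
      have hXs : 1 ≤ X * s := by
        have h1 : (1 : ℝ) ≤ X * s₁ := by
          have h2 : a ^ 110 * 1 ≤ Xb * m := by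
            refine le_trans ?_ f5
            exact mul_le_mul_of_nonneg_left hq (by positivity)
          have h3 : s₁ = m * (a ^ 102)⁻¹ := by
            rw [hs₁_def, hsl_def, hK_def]
            field_simp
          have h4 : a ^ 110 * 1 * (a ^ 102)⁻¹ ≤ Xb * m * (a ^ 102)⁻¹ := mul_le_mul_of_nonneg_right h2 (by positivity)
          have h5 : a ^ 110 * 1 * (a ^ 102)⁻¹ = a ^ 8 := by
            field_simp
          have h6 : a ^ 1 ≤ a ^ 8 := pow_le_pow_right₀ ha1 (by norm_num)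
          have h7 : Xb / 2 * s₁ ≤ X * s₁ := mul_le_mul_of_nonneg_right hX2 hs₁0.le
          rw [h3] at h7 ⊢
          rw [h5] at h4
          linarith
        have h2 : (X : ℝ) * s₁ ≤ X * s := mul_le_mul_of_nonneg_left hs1 (Nat.cast_nonneg X)
        linarith
      have hsT : s * a ^ 3 ≤ 3 := by
        rw [le_div_iff₀ hK0] at hs2
        linarith
      obtain ⟨p, hp, p', hp', hσ1, hσ2⟩ := sigma24 P ha (fun p hp => ⟨(hP p hp).2.1, (hP p hp).2.2.1⟩)
        hPc hXa hs0 hXs hsT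
      have hpp := hP p hp
      have hpp' := hP p' hp'
      rw [e96] at hpp hpp'
      refine ⟨Real.log ((p : ℝ) / p'), hσ1, hσ2, χ (p' : ZMod q) * (χ (p : ZMod q))⁻¹, ?_, ?_⟩
      · rw [norm_mul, norm_inv, norm_chi24 χ hpp.2.2.2.1, norm_chi24 χ hpp'.2.2.2.1]
        norm_num
      · intro x hx hxs
        exact shift24 χ ha f1 hχ hpp.2.2.2.1 hpp'.2.2.2.1 hpp.1.pos hpp'.1.pos hpp.2.2.2.2 hpp'.2.2.2.2 hx
          (hs0.le.trans hσ1) hxs)
    (by
      intro x y hx hxT hy hyT hxy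
      rw [hKs] at hxy
      rcases le_total x y with h | h
      · rw [abs_sub_comm, abs_of_nonneg (by linarith)] at hxy
        exact slow24 hC.hw (by omega) ht hC.htN hC.hL hC.hLN h32 χ ha f1 hχ h hyT hxy (hxy.trans hsl1)
      · rw [abs_of_nonneg (by linarith)] at hxy
        have h2 := slow24 hC.hw (by omega) ht hC.htN hC.hL hC.hLN h32 χ ha f1 hχ h hxT hxy (hxy.trans hsl1)
        rw [norm_sub_rev] at h2
        exact h2)
    (by rw [hKs]; exact hn1)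
    (by
      rw [← hE_def]
      have h1 : ((n : ℝ) + 1) * (3 * E) = 3 * (((n : ℝ) + 1) * E) := by ring
      rw [h1]
      linarith)
  rw [← hE_def] at hlam hH
  refine ⟨lam, ?_, ?_⟩
  · -- size of `lam`
    have h1 : |lam| * (sl / 6) ≤ 66 * E := by
      refine le_trans ?_ hlam
      refine mul_le_mul_of_nonneg_left ?_ (abs_nonneg lam)
      rw [div_le_div_iff₀ (by norm_num) (by positivity)]
      have h2 : sl * 2 ^ n ≤ 6 := by
        rw [le_div_iff₀ hsl0] at hn3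
        linarith
      linarith
    have h2 : a ^ 105 * B * S / ρ = a ^ 105 / m := by
      rw [hm_def]
      field_simp
    rw [h2, le_div_iff₀ hm0]
    have h3 : |lam| * m ≤ 396 * E * a ^ 96 := by
      have h4 : |lam| * (sl / 6) = |lam| * m * (a ^ 96)⁻¹ / 6 := by
        rw [hsl_def]
        ring
      rw [h4, ← div_eq_mul_inv, div_div, div_le_iff₀ (by positivity)] at h1
      linarith
    refine h3.trans ?_
    calc 396 * E * a ^ 96 ≤ 396 * (a ^ 86)⁻¹ * a ^ 96 := by gcongr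
      _ = 396 * a ^ 10 := by
        field_simp
      _ ≤ a * a ^ 104 := by
        have h5 : a ^ 10 ≤ a ^ 104 := pow_le_pow_right₀ ha1 (by norm_num)
        have h6 : 0 ≤ a ^ 10 := by positivity
        exact mul_le_mul (by linarith) h5 h6 ha0.le
      _ = a ^ 105 := by ring
  · intro x hx hxT
    refine (hH x hx hxT).trans ?_
    have h1 : 300 * ((n : ℝ) + 1) * E = 300 * (((n : ℝ) + 1) * E) := by ring
    rw [h1]
    have h2 : 0 ≤ (a ^ 85)⁻¹ := by positivity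
    linarith

end Pool.Agent.Helper17.L3
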