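import Pool.Agent.Helper17.L3.N1
import Pool.Agent.Helper17.L3.FOU
import Pool.Agent.Helper17.L3.CHAIN

/-!
Block L3-N4.  The chain.

`H x = hc χ (e^x)/hc χ 1`, `ℓ = 2 log 2`, `T = log 16 = 2ℓ`, `U₁ = log XA`, `U₂ = log (XB/2)`, `ε = N^(-80η)`, `n = ⌈log N/ℓ⌉₊` (`XB ≤ N`, `XA ≥ 1`).
`hv`: for `u ∈ [U₁, U₂]` let `X = ⌈e^u⌉₊`: `XA ≤ e^u ≤ X ≤ e^u + 1 ≤ 2e^u ≤ XB`.  Take a prime `p` from `good` (the set is nonempty), `v = log p`:
`u ≤ v`, `p < 2X ≤ 4 e^u`.  `c = -χ(p)⁻¹`: `‖hc(e^x) + χ(p) hc(p e^x)‖ ≤ ρ N^(-96η)` (`hc_rel`), divide by `‖hc χ 1‖ ≥ ρ N^(-2η)`.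
`(4n + 2) ε ≤ N^(-78η)`.  `hU`: `4 XA ≤ XB/2` by the `XB/XA` bound in `ctx_facts` (`q B²/ρ ≥ 1/2`, as `ρ ≤ √(2qB) ≤ 2 q B²`).
If `y = log Y` then `H y = hc χ Y/hc χ 1`.
-/

namespace Pool.Agent.Helper17.L3

open MeasureTheory Filter Pool.Agent.Helper25.MOB

private theorem eventually61 {η : ℝ} (hη : 0 < η) : ∀ᶠ N : ℕ in atTop,
    (1 ≤ N ∧ 4 * Real.log N + 6 ≤ (N : ℝ) ^ (2 * η) ∧ 16 ≤ (N : ℝ) ^ (1000 * η)) := by
  have hcast : Tendsto (fun N : ℕ => (N : ℝ)) atTop atTop := tendsto_natCast_atTop_atTop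
  have h1 : ∀ᶠ x : ℝ in atTop, 4 * Real.log x + 6 ≤ x ^ (2 * η) := by
    have h2 := (isLittleO_log_rpow_atTop (r := 2 * η) (by positivity)).def (c := 1 / 8) (by norm_num)
    have h3 := (tendsto_rpow_atTop (y := 2 * η) (by positivity)).eventually_ge_atTop 12
    filter_upwards [h2, h3, eventually_ge_atTop 1] with x h4 h5 h6
    rw [Real.norm_of_nonneg (Real.log_nonneg h6), Real.norm_of_nonneg (by positivity)] at h4
    linarith
  have h2 := (tendsto_rpow_atTop (y := 1000 * η) (by positivity)).eventually_ge_atTop 16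
  filter_upwards [hcast.eventually h1, hcast.eventually h2, eventually_ge_atTop 1] with N h3 h4 h5
  exact ⟨h5, h3, h4⟩

theorem chain_num {η : ℝ} (hη : 0 < η) (hη1 : η ≤ 1 / 100000) : ∀ᶠ N : ℕ in atTop,
    ∀ (q : ℕ) [NeZero q] (L t : ℝ) (w : (ZMod q)ˣ → ℝ → ℂ), Ctx η N q L t w →
      ∀ (χ : DirichletCharacter ℂ q) (lam : ℝ),
        rho N L w * (N : ℝ) ^ (-(2 * η)) ≤ ‖hc N L w χ 1‖ →
        (∀ x, 0 ≤ x → x ≤ Real.log 16 →
          ‖hc N L w χ (Real.exp x) / hc N L w χ 1 - Complex.exp (lam * x * Complex.I)‖ ≤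
            (N : ℝ) ^ (-(80 * η))) →
        ∃ κ : ℂ, ‖κ‖ = 1 ∧ ∀ Y : ℝ, 4 * XA η N (rho N L w) ≤ Y →
          Y ≤ XB η N q t (rho N L w) / 2 →
          ‖hc N L w χ Y / hc N L w χ 1 - κ * (Y : ℂ) ^ (lam * Complex.I : ℂ)‖ ≤
            (N : ℝ) ^ (-(78 * η)) := by
  filter_upwards [ctx_facts hη hη1, good hη hη1, eventually61 hη] with N hfacts hgood hlarge
  obtain ⟨hN1, hlog, h1000⟩ := hlarge
  intro q hq0 L t w hC χ lam hρχ hexp
  obtain ⟨hρ0, hρ2, hXA12, -, -, hz, -, hXBN, -, -, -⟩ := hfacts q L t w hC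
  have hgood' := hgood q L t w hC
  set ρ : ℝ := rho N L w with hρ
  set XA' : ℝ := XA η N ρ with hXA'
  set XB' : ℝ := XB η N q t ρ with hXB'
  have hNR : (1 : ℝ) ≤ N := by exact_mod_cast hN1
  have hN0 : (0 : ℝ) < N := by linarith
  have hXA1 : 1 ≤ XA' := le_trans (Real.one_le_rpow hNR (by norm_num)) hXA12
  have hXA0 : 0 < XA' := by linarith
  have hq1 : (1 : ℝ) ≤ q := by
    have : 1 ≤ q := NeZero.one_le
    exact_mod_cast this
  have hB1 : 1 ≤ t * N := hC.htN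
  -- `ρ ≤ 2 q B ^ 2`
  have hρle : ρ ≤ 2 * (q * (t * N) ^ 2) := by
    have h1 : 1 ≤ q * (t * N) := by nlinarith
    have h2 : ρ ^ 2 ≤ (2 * (q * (t * N))) ^ 2 := by nlinarith
    have h3 : ρ ≤ 2 * (q * (t * N)) := by
      exact le_of_sq_le_sq h2 (by positivity)
    nlinarith
  have hratio : 8 ≤ XB' / XA' := by
    have h1 : 1 / 2 ≤ q * (t * N) ^ 2 / ρ := by
      rw [le_div_iff₀ hρ0]
      linarith
    calc (8 : ℝ) = 16 * (1 / 2) := by norm_num
      _ ≤ (N : ℝ) ^ (1000 * η) * (q * (t * N) ^ 2 / ρ) := by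
          apply mul_le_mul h1000 h1 (by norm_num) (by positivity)
      _ ≤ XB' / XA' := hz
  have h8 : 8 * XA' ≤ XB' := by
    rwa [le_div_iff₀ hXA0] at hratio
  have hXB0 : 0 < XB' := by linarith
  have hc0 : 0 < ‖hc N L w χ 1‖ := lt_of_lt_of_le (by positivity) hρχ
  have hcne : hc N L w χ 1 ≠ 0 := norm_pos_iff.1 hc0
  have hlog2 := Real.log_two_gt_d9
  have hlog4 : Real.log 4 = 2 * Real.log 2 := by
    rw [show (4 : ℝ) = 2 ^ 2 by norm_num, Real.log_pow]
    norm_num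
  have hlog16 : Real.log 16 = 4 * Real.log 2 := by
    rw [show (16 : ℝ) = 2 ^ 4 by norm_num, Real.log_pow]
    norm_num
  set ε : ℝ := (N : ℝ) ^ (-(80 * η)) with hε
  have hε0 : 0 ≤ ε := by positivity
  obtain ⟨κ, hκ1, hκ⟩ := chain (H := fun x => hc N L w χ (Real.exp x) / hc N L w χ 1) (T := Real.log 16)
    (U₁ := Real.log XA') (U₂ := Real.log (XB' / 2)) (ε := ε) (lam := lam) (ℓ := Real.log 4)
    ⌈Real.log N / Real.log 4⌉₊ (by rw [hlog4]; linarith) (by rw [hlog4, hlog16]; linarith) hε0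
    (by
      rw [← Real.log_mul hXA0.ne' (by norm_num)]
      apply Real.log_le_log (by positivity)
      linarith)
    (by
      have h1 : 0 ≤ Real.log XA' := Real.log_nonneg hXA1
      have h2 : Real.log (XB' / 2) ≤ Real.log N := Real.log_le_log (by positivity) (by linarith)
      have h3 := Nat.le_ceil (Real.log N / Real.log 4)
      have h4 : 0 < Real.log 4 := by rw [hlog4]; linarith
      rw [div_le_iff₀ h4] at h3
      linarith)
    hexp
    (by
      intro u hu1 hu2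
      set X : ℕ := ⌈Real.exp u⌉₊ with hX
      have e1 : XA' ≤ Real.exp u := by
        rw [← Real.exp_log hXA0]
        exact Real.exp_le_exp.2 hu1
      have e2 : Real.exp u ≤ XB' / 2 := by
        rw [← Real.exp_log (show 0 < XB' / 2 by positivity)]
        exact Real.exp_le_exp.2 hu2
      have e3 : Real.exp u ≤ X := Nat.le_ceil _
      have e4 : (X : ℝ) ≤ Real.exp u + 1 := (Nat.ceil_lt_add_one (Real.exp_pos u).le).le
      have e5 : (X : ℝ) ≤ 2 * Real.exp u := by linarith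
      have hX0 : (0 : ℝ) < X := lt_of_lt_of_le (Real.exp_pos u) e3
      obtain ⟨P, hP, hPc⟩ := hgood' X (by linarith) (by linarith)
      have hPpos : (0 : ℝ) < P.card := lt_of_lt_of_le (by positivity) hPc
      have hPne : P.Nonempty := by
        rw [← Finset.card_pos]
        exact_mod_cast hPpos
      obtain ⟨p, hp⟩ := hPne
      obtain ⟨hpp, hXp, hpX, hpq, hrel⟩ := hP p hp
      have hXp' : (X : ℝ) ≤ p := by exact_mod_cast hXp
      have hpX' : (p : ℝ) < 2 * X := by exact_mod_cast hpX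
      have hp0 : (0 : ℝ) < p := by linarith
      have hχp : ‖χ (p : ZMod q)‖ = 1 := by
        have := χ.unit_norm_eq_one (ZMod.unitOfCoprime p hpq)
        rwa [ZMod.coe_unitOfCoprime] at this
      have hχp0 : χ (p : ZMod q) ≠ 0 := by
        intro h
        rw [h, norm_zero] at hχp
        norm_num at hχp
      refine ⟨Real.log p, ?_, ?_, -(χ (p : ZMod q))⁻¹, ?_, ?_⟩
      · rw [Real.le_log_iff_exp_le hp0]
        linarith
      · rw [Real.log_le_iff_le_exp hp0, Real.exp_add, Real.exp_log (by norm_num)]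
        linarith
      · rw [norm_neg, norm_inv, hχp, inv_one]
      · intro x hx0 hx1
        have r1 : 1 ≤ Real.exp x := Real.one_le_exp hx0
        have r2 : Real.exp x ≤ 16 := by
          rw [← Real.exp_log (show (0 : ℝ) < 16 by norm_num)]
          exact Real.exp_le_exp.2 hx1
        have r3 := hc_rel hpq (fun g => hrel (Real.exp x) r1 r2 g) χ
        have r4 : Real.exp (Real.log p + x) = Real.exp x * p := by
          rw [Real.exp_add, Real.exp_log hp0, mul_comm]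
        show ‖hc N L w χ (Real.exp (Real.log p + x)) / hc N L w χ 1 -
          -(χ (p : ZMod q))⁻¹ * (hc N L w χ (Real.exp x) / hc N L w χ 1)‖ ≤ ε
        rw [r4]
        have r5 : hc N L w χ (Real.exp x * p) / hc N L w χ 1 -
            -(χ (p : ZMod q))⁻¹ * (hc N L w χ (Real.exp x) / hc N L w χ 1) =
            (χ (p : ZMod q))⁻¹ * ((hc N L w χ (Real.exp x) + χ p * hc N L w χ (Real.exp x * p)) /
              hc N L w χ 1) := by
          field_simp
          ring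
        rw [r5, norm_mul, norm_inv, hχp, inv_one, one_mul, norm_div]
        rw [div_le_iff₀ hc0]
        refine r3.trans ?_
        have r6 : ρ * (N : ℝ) ^ (-(96 * η)) ≤ ε * (ρ * (N : ℝ) ^ (-(2 * η))) := by
          have r7 : (N : ℝ) ^ (-(96 * η)) ≤ ε * (N : ℝ) ^ (-(2 * η)) := by
            rw [hε, ← Real.rpow_add hN0]
            exact Real.rpow_le_rpow_of_exponent_le hNR (by linarith)
          calc ρ * (N : ℝ) ^ (-(96 * η)) ≤ ρ * (ε * (N : ℝ) ^ (-(2 * η))) :=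
                mul_le_mul_of_nonneg_left r7 hρ0.le
            _ = ε * (ρ * (N : ℝ) ^ (-(2 * η))) := by ring
        exact r6.trans (mul_le_mul_of_nonneg_left hρχ hε0))
  refine ⟨κ, hκ1, fun Y hY1 hY2 => ?_⟩
  have hY0 : 0 < Y := by linarith
  have h1 := hκ (Real.log Y)
    (by
      rw [← Real.log_mul hXA0.ne' (by norm_num)]
      apply Real.log_le_log (by positivity)
      linarith)
    (Real.log_le_log hY0 hY2)
  have h2 : (Y : ℂ) ^ (lam * Complex.I : ℂ) = Complex.exp (lam * (Real.log Y : ℝ) * Complex.I) := by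
    rw [Complex.cpow_def_of_ne_zero (by exact_mod_cast hY0.ne'), ← Complex.ofReal_log hY0.le]
    congr 1
    ring
  have h3 : Real.exp (Real.log Y) = Y := Real.exp_log hY0
  simp only [h3] at h1
  rw [h2]
  refine h1.trans ?_
  -- the numerical bound
  have h4 : 0 < Real.log 4 := by rw [hlog4]; linarith
  have h5 : 0 ≤ Real.log N := Real.log_nonneg hNR
  have h6 : ((⌈Real.log N / Real.log 4⌉₊ : ℕ) : ℝ) ≤ Real.log N + 1 := by
    have h7 := (Nat.ceil_lt_add_one (show 0 ≤ Real.log N / Real.log 4 by positivity)).le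
    have h8' : Real.log N / Real.log 4 ≤ Real.log N := by
      apply div_le_self h5
      rw [hlog4]
      linarith
    linarith
  have h7 : 4 * ((⌈Real.log N / Real.log 4⌉₊ : ℕ) : ℝ) + 2 ≤ (N : ℝ) ^ (2 * η) := by linarith
  calc (4 * ((⌈Real.log N / Real.log 4⌉₊ : ℕ) : ℝ) + 2) * ε ≤ (N : ℝ) ^ (2 * η) * ε :=
        mul_le_mul_of_nonneg_right h7 hε0
    _ = (N : ℝ) ^ (-(78 * η)) := by
        rw [hε, ← Real.rpow_add hN0]
        congr 1
        ring

end Pool.Agent.Helper17.L3
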