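import Pool.Agent.Helper17.L3.N0
import Pool.Agent.Helper17.L3.I4

/-!
Block L3-N5.  The contradiction, nonprincipal character.

`A = N^η`, `B = tN`, `X = 4 XA`, `z = XB/(8 XA)`, so `X z = XB/2`.  `z ≥ A^1000 q B²/(8ρ) ≥ 1` (`ρ ≤ √(2qB) ≤ 2 q B²`), `z ≤ N`, `X ≥ 1`,
`q ≤ L/(X z)` (`q XB ≤ L`).  `PV` with `δ = η`: `P = C q^(1/2+η) ≤ C √q A`.  `ID1` (`t L ≤ B`) divided by `‖hc χ 1‖ ≥ ρ A^(-2)`:
`‖∑_{n ≤ z} (χ(n)/n) hc χ (X n)/hc χ 1‖ ≤ (42 √q C √q A B²/z + 8 XA q² t) A²/ρ ≤ 336 C A^3 A^(-1000) + 8 A² A^(-100) ≤ A^(-90)`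
(`ctx_facts`).  For `n ≤ z`: `X n ∈ [4 XA, XB/2]`, so by `hκ` `hc χ (X n)/hc χ 1 = κ (X n)^(iλ) + O(A^(-78))` and, `|χ(n)/n| ≤ 1/n`,
`∑ 1/n ≤ 1 + log N`: `‖κ X^(iλ) ∑_{n ≤ z} χ(n) n^(-1+iλ)‖ ≤ A^(-90) + (1 + log N) A^(-78) ≤ A^(-70)`; `‖κ X^(iλ)‖ = 1`
(`(X n)^(iλ) = X^(iλ) n^(iλ)`, positive reals).
`AN1` with `κ = η`: `√q (1 + |λ|) A ≤ z`: `√q ≤ 2 q B²/ρ` (`ρ ≤ √(2qB)`) and `√q |λ| ≤ A^105 √q B √(qB)/ρ ≤ A^105 q B²/ρ`, while
`z ≥ A^1000 q B²/(8ρ)`.  So `A^(-1) ≤ A^(-70)`: impossible for `N ≥ 2`.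
-/

namespace Pool.Agent.Helper17.L3

open MeasureTheory Filter Pool.Agent.Helper25.MOB

private theorem n5_log {η : ℝ} (hη : 0 < η) :
    ∀ᶠ N : ℕ in atTop, 1 + Real.log N ≤ (N : ℝ) ^ η := by
  have h1 : ∀ᶠ x : ℝ in atTop, ‖Real.log x‖ ≤ 1 / 2 * ‖x ^ η‖ :=
    (isLittleO_log_rpow_atTop hη).bound (by norm_num)
  have h2 : ∀ᶠ x : ℝ in atTop, 2 ≤ x ^ η := (tendsto_rpow_atTop hη).eventually_ge_atTop 2
  have h3 : ∀ᶠ x : ℝ in atTop, 1 + Real.log x ≤ x ^ η := by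
    filter_upwards [h1, h2] with x h1 h2
    rw [Real.norm_eq_abs, Real.norm_eq_abs, abs_of_pos (by linarith : 0 < x ^ η)] at h1
    have := le_abs_self (Real.log x)
    linarith
  exact tendsto_natCast_atTop_atTop.eventually h3

private theorem n5_sum {q : ℕ} [NeZero q] (χ : DirichletCharacter ℂ q) {z M : ℝ} (hz : 1 ≤ z)
    (hM : 1 + Real.log z ≤ M) :
    ∑ n ∈ Finset.Icc 1 ⌊z⌋₊, ‖χ (n : ZMod q) / (n : ℂ)‖ ≤ M := by
  have h1 : ∀ n ∈ Finset.Icc 1 ⌊z⌋₊, ‖χ (n : ZMod q) / (n : ℂ)‖ ≤ ((n : ℝ))⁻¹ := by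
    intro n hn
    rw [norm_div, Complex.norm_natCast, ← one_div]
    exact div_le_div_of_nonneg_right (DirichletCharacter.norm_le_one χ _) (Nat.cast_nonneg n)
  refine (Finset.sum_le_sum h1).trans ?_
  have h2 := harmonic_floor_le_one_add_log z hz
  rw [harmonic_eq_sum_Icc] at h2
  push_cast at h2
  linarith

/-- the real numbers of the block -/
private theorem n5_num {A q B ρ z xa xb C : ℝ} (hA : 1000 ≤ A) (hAC : 336 * C ≤ A) (hq : 1 ≤ q)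
    (hB : 1 ≤ B) (hρ : 0 < ρ) (hρ2 : ρ ^ 2 ≤ 2 * (q * B))
    (hz : z = xb / (8 * xa)) (h6 : A ^ 1000 * (q * B ^ 2 / ρ) ≤ xb / xa) :
    1 ≤ z ∧ (∀ l, 0 ≤ l → l ≤ A ^ 105 * B * √(q * B) / ρ → √q * (1 + l) * A ≤ z) ∧
      C * A * (q * B ^ 2) * 42 / z ≤ ρ * A⁻¹ ^ 100 := by
  have hA0 : 0 < A := by linarith
  have hA1 : 1 ≤ A := by linarith
  have hqB : 0 < q * B := by positivity
  have hz1 : A ^ 1000 * (q * B ^ 2 / ρ) / 8 ≤ z := by
    rw [hz, mul_comm 8 xa, ← div_div]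
    linarith
  -- `ρ ≤ 2 q B²` and `√q ρ ≤ 2 q B²`
  have hsq : √q * ρ ≤ 2 * q * B ^ 2 := by
    have h1 : (√q * ρ) ^ 2 ≤ (2 * q * B ^ 2) ^ 2 := by
      rw [mul_pow, Real.sq_sqrt (by linarith)]
      have h2 : q * ρ ^ 2 ≤ q * (2 * (q * B)) := mul_le_mul_of_nonneg_left hρ2 (by linarith)
      have h3 : B ≤ B ^ 4 := by
        calc B = B ^ 1 := (pow_one B).symm
          _ ≤ B ^ 4 := pow_le_pow_right₀ hB (by norm_num)
      have h4 : (0 : ℝ) ≤ q ^ 2 := by positivity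
      nlinarith
    exact le_of_sq_le_sq h1 (by positivity)
  have hsq1 : 1 ≤ √q := by
    rw [Real.one_le_sqrt]
    exact hq
  have hw : √q ≤ 2 * (q * B ^ 2 / ρ) := by
    rw [← mul_div_assoc, le_div_iff₀ hρ]
    linarith
  set W := q * B ^ 2 / ρ with hW
  have hW0 : 0 < W := by positivity
  have hW1 : 1 / 2 ≤ W := by linarith
  have hp : ∀ m n : ℕ, m ≤ n → A ^ m ≤ A ^ n := fun m n h => pow_le_pow_right₀ hA1 h
  refine ⟨?_, ?_, ?_⟩
  · have h1 : A ^ 1 ≤ A ^ 1000 := hp _ _ (by norm_num)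
    rw [pow_one] at h1
    nlinarith
  · intro l hl0 hl
    have h1 : √q * l ≤ A ^ 105 * W := by
      have h2 : √q * l ≤ √q * (A ^ 105 * B * √(q * B) / ρ) :=
        mul_le_mul_of_nonneg_left hl (Real.sqrt_nonneg q)
      refine h2.trans ?_
      have h3 : √q * √(q * B) ≤ q * B := by
        rw [← Real.sqrt_mul (by linarith)]
        rw [Real.sqrt_le_left hqB.le]
        have h5 : (0 : ℝ) ≤ q ^ 2 * B := by positivity
        nlinarith
      rw [hW, ← mul_div_assoc, ← mul_div_assoc]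
      refine div_le_div_of_nonneg_right ?_ hρ.le
      calc √q * (A ^ 105 * B * √(q * B)) = A ^ 105 * B * (√q * √(q * B)) := by ring
        _ ≤ A ^ 105 * B * (q * B) := mul_le_mul_of_nonneg_left h3 (by positivity)
        _ = A ^ 105 * (q * B ^ 2) := by ring
    have h4 : √q * (1 + l) * A ≤ (2 * W + A ^ 105 * W) * A := by
      refine mul_le_mul_of_nonneg_right ?_ hA0.le
      linarith
    refine h4.trans (le_trans ?_ hz1)
    have h5 : A ^ 1 ≤ A ^ 105 := hp _ _ (by norm_num)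
    have h6 : (2 * W + A ^ 105 * W) * A ≤ 2 * (A ^ 106 * W) := by
      have h7 : 2 * W ≤ A ^ 105 * W := by
        refine mul_le_mul_of_nonneg_right ?_ hW0.le
        rw [pow_one] at h5
        linarith
      calc (2 * W + A ^ 105 * W) * A ≤ (A ^ 105 * W + A ^ 105 * W) * A :=
            mul_le_mul_of_nonneg_right (by linarith) hA0.le
        _ = 2 * (A ^ 106 * W) := by ring
    refine h6.trans ?_
    have h8 : 16 * A ^ 106 ≤ A ^ 1000 := by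
      calc 16 * A ^ 106 ≤ A * A ^ 106 := mul_le_mul_of_nonneg_right (by linarith) (by positivity)
        _ = A ^ 107 := by ring
        _ ≤ A ^ 1000 := hp _ _ (by norm_num)
    have h9 : 16 * A ^ 106 * W ≤ A ^ 1000 * W := mul_le_mul_of_nonneg_right h8 hW0.le
    linarith
  · have hz0 : 0 < z := lt_of_lt_of_le (by positivity) hz1
    rw [div_le_iff₀ hz0]
    have h1 : ρ * A⁻¹ ^ 100 * (A ^ 1000 * W / 8) ≤ ρ * A⁻¹ ^ 100 * z :=
      mul_le_mul_of_nonneg_left hz1 (by positivity)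
    refine le_trans ?_ h1
    have h2 : ρ * A⁻¹ ^ 100 * (A ^ 1000 * W / 8) = A ^ 900 * (q * B ^ 2) / 8 := by
      rw [hW]
      have : A ^ 1000 = A ^ 900 * A ^ 100 := by ring
      rw [this, inv_pow]
      field_simp
    rw [h2]
    have h3 : C * A * 42 * 8 ≤ A ^ 900 := by
      have h4 : A ^ 2 ≤ A ^ 900 := hp _ _ (by norm_num)
      nlinarith
    have h5 : C * A * 42 * 8 * (q * B ^ 2) ≤ A ^ 900 * (q * B ^ 2) :=
      mul_le_mul_of_nonneg_right h3 (by positivity)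
    linarith

theorem contra_one {η : ℝ} (hη : 0 < η) (hη1 : η ≤ 1 / 100000) : ∀ᶠ N : ℕ in atTop,
    ∀ (q : ℕ) [NeZero q] (L t : ℝ) (w : (ZMod q)ˣ → ℝ → ℂ), Ctx η N q L t w →
      ∀ (χ : DirichletCharacter ℂ q) (lam : ℝ) (κ : ℂ), χ ≠ 1 →
        rho N L w * (N : ℝ) ^ (-(2 * η)) ≤ ‖hc N L w χ 1‖ →
        |lam| ≤ (N : ℝ) ^ (105 * η) * (t * N) * √(q * (t * N)) / rho N L w → ‖κ‖ = 1 →
        (∀ Y : ℝ, 4 * XA η N (rho N L w) ≤ Y → Y ≤ XB η N q t (rho N L w) / 2 →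
          ‖hc N L w χ Y / hc N L w χ 1 - κ * (Y : ℂ) ^ (lam * Complex.I : ℂ)‖ ≤
            (N : ℝ) ^ (-(78 * η))) → False := by
  obtain ⟨C, hC, hPV⟩ := PV hη
  have e1 : ∀ᶠ N : ℕ in atTop, max 1000 (336 * C) ≤ (N : ℝ) ^ η :=
    tendsto_natCast_atTop_atTop.eventually ((tendsto_rpow_atTop hη).eventually_ge_atTop _)
  filter_upwards [ctx_facts hη hη1, AN1 hη, e1, n5_log hη, eventually_ge_atTop 1] with N hctx han
    hA hlog hN
  intro q _ L t w ctx χ lam κ hχ hh1 hlam hκ happ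
  obtain ⟨f1, f2, f3, f4, f5, f6, f7, f8, f9, f10, f11⟩ := hctx q L t w ctx
  have hNr : (1 : ℝ) ≤ N := by exact_mod_cast hN
  have hN0 : (0 : ℝ) < N := by linarith
  set A : ℝ := (N : ℝ) ^ η with hAdef
  have hA0 : 0 < A := Real.rpow_pos_of_pos hN0 η
  have hA1000 : 1000 ≤ A := (le_max_left _ _).trans hA
  have hAC : 336 * C ≤ A := (le_max_right _ _).trans hA
  have hpow : ∀ k : ℕ, (N : ℝ) ^ ((k : ℝ) * η) = A ^ k := by
    intro k
    rw [hAdef, mul_comm, Real.rpow_mul hN0.le, Real.rpow_natCast]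
  have hpown : ∀ k : ℕ, (N : ℝ) ^ (-((k : ℝ) * η)) = A⁻¹ ^ k := by
    intro k
    rw [Real.rpow_neg hN0.le, hpow, inv_pow]
  have p2 : (N : ℝ) ^ (-(2 * η)) = A⁻¹ ^ 2 := by
    have := hpown 2
    norm_num at this ⊢
    exact this
  have p78 : (N : ℝ) ^ (-(78 * η)) = A⁻¹ ^ 78 := by
    have := hpown 78
    norm_num at this ⊢
    exact this
  have p100 : (N : ℝ) ^ (-(100 * η)) = A⁻¹ ^ 100 := by
    have := hpown 100
    norm_num at this ⊢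
    exact this
  have p105 : (N : ℝ) ^ (105 * η) = A ^ 105 := by
    have := hpow 105
    norm_num at this ⊢
    exact this
  have p1000 : (N : ℝ) ^ (1000 * η) = A ^ 1000 := by
    have := hpow 1000
    norm_num at this ⊢
    exact this
  set ρ := rho N L w with hρdef
  set xa := XA η N ρ with hxadef
  set xb := XB η N q t ρ with hxbdef
  set B := t * N with hBdef
  have hB1 : 1 ≤ B := ctx.htN
  have hq1 : (1 : ℝ) ≤ q := by
    have := NeZero.pos q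
    exact_mod_cast this
  have hq0 : (0 : ℝ) < q := by linarith
  have ht : 0 < t := by
    by_contra hcon
    push Not at hcon
    have : t * N ≤ 0 := mul_nonpos_of_nonpos_of_nonneg hcon hN0.le
    linarith
  have hL : 0 < L := by
    have := ctx.hL
    linarith
  have htL : 1 / 2 ≤ t * L := by
    have h1 : t * (N / 2) ≤ t * L := mul_le_mul_of_nonneg_left ctx.hL ht.le
    have h2 : t * (N / 2) = B / 2 := by rw [hBdef]; ring
    linarith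
  have htLB : t * L ≤ B := mul_le_mul_of_nonneg_left ctx.hLN ht.le
  have hxa1 : 1 ≤ xa := by
    refine le_trans ?_ f3
    exact Real.one_le_rpow hNr (by norm_num)
  have hxa0 : 0 < xa := by linarith
  rw [p1000] at f6
  rw [p100] at f7
  rw [p2] at hh1
  rw [p105] at hlam
  obtain ⟨hz1, hzl, hzs⟩ := n5_num (z := xb / (8 * xa)) hA1000 hAC hq1 hB1 f1 f2 rfl f6
  set z := xb / (8 * xa) with hzdef
  have hz0 : 0 < z := by linarith
  have hxb0 : 0 < xb := by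
    have : xb = z * (8 * xa) := by rw [hzdef]; field_simp
    rw [this]
    positivity
  have hXz : 4 * xa * z = xb / 2 := by
    rw [hzdef]
    field_simp
    norm_num
  have hzN : z ≤ N := by
    rw [hzdef, div_le_iff₀ (by positivity)]
    nlinarith
  have hqN : (q : ℝ) ≤ N := by
    have h1 := ctx.hq
    have h2 : (N : ℝ) ^ (1 / 3 - 1000 * η) ≤ N := by
      calc (N : ℝ) ^ (1 / 3 - 1000 * η) ≤ (N : ℝ) ^ (1 : ℝ) :=
            Real.rpow_le_rpow_of_exponent_le hNr (by linarith)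
        _ = N := Real.rpow_one _
    have h3 : (q : ℝ) * 1 ≤ q * (t * N) := mul_le_mul_of_nonneg_left hB1 hq0.le
    linarith
  have hqL : (q : ℝ) ≤ L / (4 * xa * z) := by
    rw [hXz, le_div_iff₀ (by positivity)]
    linarith
  have hX1 : 1 ≤ 4 * xa := by linarith
  have hid := ID1 ctx.hw ht hL ctx.hLN htL hX1 hz1 hqL χ (hPV q χ hχ)
  -- the right side of the identity
  have hid2 : ‖∑ n ∈ Finset.Icc 1 ⌊z⌋₊, χ (n : ZMod q) / (n : ℂ) * hc N L w χ (4 * xa * n)‖ ≤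
      9 * (ρ * A⁻¹ ^ 100) := by
    refine hid.trans ?_
    have h1 : 42 * √(q : ℝ) * (C * (q : ℝ) ^ (1 / 2 + η)) * (t * L) ^ 2 / z ≤
        C * A * (q * B ^ 2) * 42 / z := by
      refine div_le_div_of_nonneg_right ?_ hz0.le
      have h2 : (q : ℝ) ^ (1 / 2 + η) ≤ √q * A := by
        rw [Real.rpow_add hq0, ← Real.sqrt_eq_rpow]
        exact mul_le_mul_of_nonneg_left (Real.rpow_le_rpow hq0.le hqN hη.le) (Real.sqrt_nonneg _)
      have h3 : (t * L) ^ 2 ≤ B ^ 2 := pow_le_pow_left₀ (by positivity) htLB 2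
      calc 42 * √(q : ℝ) * (C * (q : ℝ) ^ (1 / 2 + η)) * (t * L) ^ 2
          ≤ 42 * √(q : ℝ) * (C * (√q * A)) * B ^ 2 := by gcongr
        _ = C * A * ((√q * √q) * B ^ 2) * 42 := by ring
        _ = C * A * (q * B ^ 2) * 42 := by rw [Real.mul_self_sqrt hq0.le]
    have h4 : 2 * (4 * xa) * (q : ℝ) ^ 2 * t ≤ 8 * (ρ * A⁻¹ ^ 100) := by
      have : 2 * (4 * xa) * (q : ℝ) ^ 2 * t = 8 * (xa * (q : ℝ) ^ 2 * t) := by ring
      rw [this]
      linarith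
    linarith
  -- division
  set h1 := hc N L w χ 1 with hh1def
  have hn0 : 0 < ρ * A⁻¹ ^ 2 := by positivity
  have hh0 : h1 ≠ 0 := by
    intro h
    rw [h, norm_zero] at hh1
    linarith
  have hdiv : ‖∑ n ∈ Finset.Icc 1 ⌊z⌋₊, χ (n : ZMod q) / (n : ℂ) *
      (hc N L w χ (4 * xa * n) / h1)‖ ≤ 9 * A⁻¹ ^ 98 := by
    have e : ∑ n ∈ Finset.Icc 1 ⌊z⌋₊, χ (n : ZMod q) / (n : ℂ) * (hc N L w χ (4 * xa * n) / h1) =
        (∑ n ∈ Finset.Icc 1 ⌊z⌋₊, χ (n : ZMod q) / (n : ℂ) * hc N L w χ (4 * xa * n)) / h1 := by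
      rw [Finset.sum_div]
      exact Finset.sum_congr rfl fun n _ => by rw [mul_div_assoc]
    rw [e, norm_div, div_le_iff₀ (norm_pos_iff.2 hh0)]
    refine hid2.trans ?_
    have h2 : 9 * A⁻¹ ^ 98 * (ρ * A⁻¹ ^ 2) ≤ 9 * A⁻¹ ^ 98 * ‖h1‖ :=
      mul_le_mul_of_nonneg_left hh1 (by positivity)
    refine le_trans (le_of_eq ?_) h2
    ring
  -- comparison with the powers
  have hcmp : ‖∑ n ∈ Finset.Icc 1 ⌊z⌋₊, χ (n : ZMod q) / (n : ℂ) *
      (κ * ((4 * xa * n : ℝ) : ℂ) ^ (lam * Complex.I : ℂ))‖ ≤ 9 * A⁻¹ ^ 98 + A * A⁻¹ ^ 78 := by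
    have e : ∑ n ∈ Finset.Icc 1 ⌊z⌋₊, χ (n : ZMod q) / (n : ℂ) *
        (κ * ((4 * xa * n : ℝ) : ℂ) ^ (lam * Complex.I : ℂ)) =
        ∑ n ∈ Finset.Icc 1 ⌊z⌋₊, χ (n : ZMod q) / (n : ℂ) * (hc N L w χ (4 * xa * n) / h1) -
        ∑ n ∈ Finset.Icc 1 ⌊z⌋₊, χ (n : ZMod q) / (n : ℂ) * (hc N L w χ (4 * xa * n) / h1 -
          κ * ((4 * xa * n : ℝ) : ℂ) ^ (lam * Complex.I : ℂ)) := by
      rw [← Finset.sum_sub_distrib]
      exact Finset.sum_congr rfl fun n _ => by ring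
    rw [e]
    refine (norm_sub_le _ _).trans (add_le_add hdiv ?_)
    refine (norm_sum_le _ _).trans ?_
    have h2 : ∀ n ∈ Finset.Icc 1 ⌊z⌋₊, ‖χ (n : ZMod q) / (n : ℂ) * (hc N L w χ (4 * xa * n) / h1 -
          κ * ((4 * xa * n : ℝ) : ℂ) ^ (lam * Complex.I : ℂ))‖ ≤
        ‖χ (n : ZMod q) / (n : ℂ)‖ * A⁻¹ ^ 78 := by
      intro n hn
      rw [Finset.mem_Icc] at hn
      rw [norm_mul]
      refine mul_le_mul_of_nonneg_left ?_ (norm_nonneg _)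
      rw [← p78]
      have hn1 : (1 : ℝ) ≤ n := by exact_mod_cast hn.1
      have hnz : (n : ℝ) ≤ z := (Nat.le_floor_iff hz0.le).1 hn.2
      refine happ (4 * xa * n) ?_ ?_
      · nlinarith
      · rw [← hXz]
        exact mul_le_mul_of_nonneg_left hnz (by positivity)
    refine (Finset.sum_le_sum h2).trans ?_
    rw [← Finset.sum_mul]
    refine mul_le_mul_of_nonneg_right ?_ (by positivity)
    refine n5_sum χ hz1 (le_trans ?_ hlog)
    have := Real.log_le_log hz0 hzN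
    linarith
  -- the sum of the powers
  have hfin : ‖∑ n ∈ Finset.Icc 1 ⌊z⌋₊, χ (n : ZMod q) / (n : ℂ) *
      (κ * ((4 * xa * n : ℝ) : ℂ) ^ (lam * Complex.I : ℂ))‖ =
      ‖∑ n ∈ Finset.Icc 1 ⌊z⌋₊, χ (n : ZMod q) * (n : ℂ) ^ (-1 + lam * Complex.I : ℂ)‖ := by
    have e : ∑ n ∈ Finset.Icc 1 ⌊z⌋₊, χ (n : ZMod q) / (n : ℂ) *
        (κ * ((4 * xa * n : ℝ) : ℂ) ^ (lam * Complex.I : ℂ)) =
        (κ * ((4 * xa : ℝ) : ℂ) ^ (lam * Complex.I : ℂ)) *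
          ∑ n ∈ Finset.Icc 1 ⌊z⌋₊, χ (n : ZMod q) * (n : ℂ) ^ (-1 + lam * Complex.I : ℂ) := by
      rw [Finset.mul_sum]
      refine Finset.sum_congr rfl fun n hn => ?_
      rw [Finset.mem_Icc] at hn
      have hn0 : (n : ℂ) ≠ 0 := by
        have : n ≠ 0 := by omega
        exact_mod_cast this
      rw [Complex.cpow_add _ _ hn0, Complex.cpow_neg_one, Complex.ofReal_mul (4 * xa) (n : ℝ),
        Complex.mul_cpow_ofReal_nonneg (by positivity) (Nat.cast_nonneg n), Complex.ofReal_natCast]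
      ring
    rw [e, norm_mul, norm_mul, hκ]
    have h2 : ‖((4 * xa : ℝ) : ℂ) ^ (lam * Complex.I : ℂ)‖ = 1 := by
      rw [Complex.norm_cpow_eq_rpow_re_of_pos (by positivity)]
      simp
    rw [h2, one_mul, one_mul]
  have hanr := han q χ lam z (by exact_mod_cast hqN) hχ (hzl |lam| (abs_nonneg _) hlam) hzN
  rw [← hfin] at hanr
  have hlast := hanr.trans hcmp
  rw [Real.rpow_neg hN0.le, ← hAdef] at hlast
  have hAi0 : 0 < A⁻¹ := by positivity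
  have hAi1 : A⁻¹ ≤ 1 / 1000 := by
    rw [inv_le_comm₀ hA0 (by norm_num)]
    norm_num
    exact hA1000
  have g1 : A⁻¹ ^ 98 ≤ A⁻¹ * (1 / 1000) := by
    calc A⁻¹ ^ 98 ≤ A⁻¹ ^ 2 := pow_le_pow_of_le_one hAi0.le (by linarith) (by norm_num)
      _ = A⁻¹ * A⁻¹ := sq _
      _ ≤ A⁻¹ * (1 / 1000) := mul_le_mul_of_nonneg_left hAi1 hAi0.le
  have g2 : A * A⁻¹ ^ 78 ≤ A⁻¹ * (1 / 1000) := by
    have : A * A⁻¹ ^ 78 = A⁻¹ ^ 77 := by
      rw [pow_succ' A⁻¹ 77, ← mul_assoc, mul_inv_cancel₀ hA0.ne', one_mul]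
    rw [this]
    calc A⁻¹ ^ 77 ≤ A⁻¹ ^ 2 := pow_le_pow_of_le_one hAi0.le (by linarith) (by norm_num)
      _ = A⁻¹ * A⁻¹ := sq _
      _ ≤ A⁻¹ * (1 / 1000) := mul_le_mul_of_nonneg_left hAi1 hAi0.le
  linarith

end Pool.Agent.Helper17.L3
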