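import Pool.Agent.Helper17.L3.N0
import Pool.Agent.Helper17.L3.I4

/-!
Block L3-N6.  The contradiction, principal character.

`A = N^η`, `B = tN`, `X = 4 XA`, `z = XB/(8 XA)`, `X z = XB/2`; `A^1000 q B²/(8ρ) ≤ z ≤ N`.  `AN2` with `κ = η`: `(1 + |λ|) A ≤ z`
(`|λ| ≤ A^105 B √(qB)/ρ ≤ A^105 q B²/ρ`, `1 ≤ 2 q B²/ρ`); it gives `r ∈ [1, A^(1/2)]` with
`A^(-1) ≤ ‖SS q λ z - r^(iλ) SS q λ (z/r)‖`.
`ID0` for `(X, z)` and for `(r X, z/r)` (same product `X z`, so the same `J`; `q ≤ L/(XB/2)`; `z/r ≥ 1`); subtract, divide by `‖hc 1 1‖ ≥ ρ A^(-2)`: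
`‖∑_{n ≤ z} (1/n) H(X n) - ∑_{n ≤ z/r} (1/n) H(r X n)‖ ≤ (168 q B² (1 + r)/z + 2 X q² t (1 + r)) A²/ρ ≤ A^(-90)`, `H Y = hc 1 Y/hc 1 1`, sums over `n` prime to
`q`.  All arguments lie in `[4 XA, XB/2]`, so `H(Xn) = κ (Xn)^(iλ) + O(A^(-78))`, `H(rXn) = κ (r X n)^(iλ) + O(A^(-78))`, and
`‖κ X^(iλ) (SS q λ z - r^(iλ) SS q λ (z/r))‖ ≤ A^(-90) + 2 (1 + log N) A^(-78) ≤ A^(-70)`.  So `A^(-1) ≤ A^(-70)`, impossible.
-/

namespace Pool.Agent.Helper17.L3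

open MeasureTheory Filter Pool.Agent.Helper25.MOB

private theorem n6_harm {N : ℕ} {z : ℝ} (hz : 1 ≤ z) (hzN : z ≤ N) :
    ∑ n ∈ Finset.Icc 1 ⌊z⌋₊, (1 / (n : ℝ)) ≤ 1 + Real.log N := by
  have h1 : (harmonic ⌊z⌋₊ : ℝ) ≤ 1 + Real.log ⌊z⌋₊ := harmonic_le_one_add_log _
  have h2 : (harmonic ⌊z⌋₊ : ℝ) = ∑ n ∈ Finset.Icc 1 ⌊z⌋₊, (1 / (n : ℝ)) := by
    rw [harmonic_eq_sum_Icc]
    push_cast
    simp
  rw [← h2]
  refine h1.trans ?_
  have h3 : (1 : ℝ) ≤ (⌊z⌋₊ : ℝ) := by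
    have : 1 ≤ ⌊z⌋₊ := Nat.le_floor (by simpa using hz)
    exact_mod_cast this
  have h4 : (⌊z⌋₊ : ℝ) ≤ N := (Nat.floor_le (by linarith)).trans hzN
  have := Real.log_le_log (by linarith) h4
  linarith

private theorem n6_close {q N : ℕ} {lam X z ε : ℝ} {κ : ℂ} {f : ℝ → ℂ} {h1 : ℂ} (hX : 0 < X)
    (hz : 1 ≤ z) (hzN : z ≤ N) (hε : 0 ≤ ε)
    (hf : ∀ n : ℕ, 1 ≤ n → n ≤ ⌊z⌋₊ →
      ‖f (X * n) / h1 - κ * ((X * n : ℝ) : ℂ) ^ (lam * Complex.I : ℂ)‖ ≤ ε) :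
    ‖(∑ n ∈ (Finset.Icc 1 ⌊z⌋₊).filter (fun n => n.Coprime q), 1 / (n : ℂ) * f (X * n)) / h1 -
      κ * (X : ℂ) ^ (lam * Complex.I : ℂ) * SS q lam z‖ ≤ ε * (1 + Real.log N) := by
  rw [SS, Finset.mul_sum, Finset.sum_div, ← Finset.sum_sub_distrib]
  refine (norm_sum_le _ _).trans ?_
  have key : ∀ n ∈ (Finset.Icc 1 ⌊z⌋₊).filter (fun n => n.Coprime q),
      ‖1 / (n : ℂ) * f (X * n) / h1 -
        κ * (X : ℂ) ^ (lam * Complex.I : ℂ) * (n : ℂ) ^ (-1 + lam * Complex.I : ℂ)‖ ≤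
      ε * (1 / (n : ℝ)) := by
    intro n hn
    rw [Finset.mem_filter, Finset.mem_Icc] at hn
    obtain ⟨⟨hn1, hn2⟩, -⟩ := hn
    have hn0 : (0 : ℝ) < n := by exact_mod_cast hn1
    have hnC : (n : ℂ) ≠ 0 := by exact_mod_cast hn0.ne'
    have e1 : (n : ℂ) ^ (-1 + lam * Complex.I : ℂ) =
        1 / (n : ℂ) * (n : ℂ) ^ (lam * Complex.I : ℂ) := by
      rw [Complex.cpow_add _ _ hnC, Complex.cpow_neg_one, one_div]
    have e2 : ((X * n : ℝ) : ℂ) ^ (lam * Complex.I : ℂ) =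
        (X : ℂ) ^ (lam * Complex.I : ℂ) * (n : ℂ) ^ (lam * Complex.I : ℂ) := by
      have := Complex.mul_cpow_ofReal_nonneg hX.le hn0.le (lam * Complex.I : ℂ)
      push_cast at this ⊢
      exact this
    have e3 : 1 / (n : ℂ) * f (X * n) / h1 -
        κ * (X : ℂ) ^ (lam * Complex.I : ℂ) * (n : ℂ) ^ (-1 + lam * Complex.I : ℂ) =
        1 / (n : ℂ) * (f (X * n) / h1 - κ * ((X * n : ℝ) : ℂ) ^ (lam * Complex.I : ℂ)) := by
      rw [e1, e2]; ring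
    rw [e3, norm_mul, mul_comm ε]
    have e4 : ‖1 / (n : ℂ)‖ = 1 / (n : ℝ) := by simp
    rw [e4]
    exact mul_le_mul_of_nonneg_left (hf n hn1 hn2) (by positivity)
  refine (Finset.sum_le_sum key).trans ?_
  rw [← Finset.mul_sum]
  refine mul_le_mul_of_nonneg_left ?_ hε
  refine (Finset.sum_le_sum_of_subset_of_nonneg (Finset.filter_subset _ _)
    (fun _ _ _ => by positivity)).trans (n6_harm hz hzN)

private theorem n6_rpow {N : ℕ} {η : ℝ} (k : ℕ) :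
    (N : ℝ) ^ (k * η) = ((N : ℝ) ^ η) ^ k := by
  rw [mul_comm, Real.rpow_mul (Nat.cast_nonneg _), Real.rpow_natCast]

private theorem n6_rpow_neg {N : ℕ} {η : ℝ} (k : ℕ) :
    (N : ℝ) ^ (-(k * η)) = (((N : ℝ) ^ η) ^ k)⁻¹ := by
  rw [Real.rpow_neg (Nat.cast_nonneg _), n6_rpow]

theorem contra_zero {η : ℝ} (hη : 0 < η) (hη1 : η ≤ 1 / 100000) : ∀ᶠ N : ℕ in atTop,
    ∀ (q : ℕ) [NeZero q] (L t : ℝ) (w : (ZMod q)ˣ → ℝ → ℂ), Ctx η N q L t w →
      ∀ (lam : ℝ) (κ : ℂ),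
        rho N L w * (N : ℝ) ^ (-(2 * η)) ≤ ‖hc N L w (1 : DirichletCharacter ℂ q) 1‖ →
        |lam| ≤ (N : ℝ) ^ (105 * η) * (t * N) * √(q * (t * N)) / rho N L w → ‖κ‖ = 1 →
        (∀ Y : ℝ, 4 * XA η N (rho N L w) ≤ Y → Y ≤ XB η N q t (rho N L w) / 2 →
          ‖hc N L w (1 : DirichletCharacter ℂ q) Y / hc N L w (1 : DirichletCharacter ℂ q) 1 -
              κ * (Y : ℂ) ^ (lam * Complex.I : ℂ)‖ ≤ (N : ℝ) ^ (-(78 * η))) → False := by
  have hlog : ∀ᶠ N : ℕ in atTop, 1 + Real.log N ≤ (N : ℝ) ^ η := by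
    have h1 : ∀ᶠ x : ℝ in atTop, 1 + Real.log x ≤ x ^ η := by
      have h2 : (fun x : ℝ => 1 + Real.log x) =o[atTop] fun x => x ^ η :=
        (Asymptotics.isLittleO_const_left.2 (Or.inr
          (tendsto_norm_atTop_atTop.comp (tendsto_rpow_atTop hη)))).add
          (isLittleO_log_rpow_atTop hη)
      filter_upwards [h2.bound one_pos, eventually_ge_atTop (1 : ℝ)] with x hx hx1
      rw [Real.norm_eq_abs, Real.norm_eq_abs, one_mul,
        abs_of_nonneg (Real.rpow_nonneg (by linarith) _)] at hx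
      exact (le_abs_self _).trans hx
    exact tendsto_natCast_atTop_atTop.eventually h1
  have hbig : ∀ᶠ N : ℕ in atTop, (3000 : ℝ) ≤ (N : ℝ) ^ η :=
    ((tendsto_rpow_atTop hη).comp tendsto_natCast_atTop_atTop).eventually_ge_atTop 3000
  filter_upwards [ctx_facts hη hη1, AN2 hη, hlog, hbig, eventually_ge_atTop 1] with
    N hN hAN hlN hbN hN1
  intro q _ L t w hC lam κ hρ1 hlam hκ hH
  obtain ⟨f0, f1, f2, -, -, f5, f6, f7, f8, -, -⟩ := hN q L t w hC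
  have hNpos : (0 : ℝ) < N := by exact_mod_cast hN1
  set ρ := rho N L w with hρ
  set xa := XA η N ρ with hxa
  set xb := XB η N q t ρ with hxb
  set a := (N : ℝ) ^ η with ha
  have ha0 : 0 < a := by linarith
  have ha1 : 1 ≤ a := by linarith
  have r2 : (N : ℝ) ^ (-(2 * η)) = (a ^ 2)⁻¹ := by
    have := n6_rpow_neg (N := N) (η := η) 2; push_cast at this; exact this
  have r105 : (N : ℝ) ^ (105 * η) = a ^ 105 := by
    have := n6_rpow (N := N) (η := η) 105; push_cast at this; exact this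
  have r1000 : (N : ℝ) ^ (1000 * η) = a ^ 1000 := by
    have := n6_rpow (N := N) (η := η) 1000; push_cast at this; exact this
  have r100 : (N : ℝ) ^ (-(100 * η)) = (a ^ 100)⁻¹ := by
    have := n6_rpow_neg (N := N) (η := η) 100; push_cast at this; exact this
  have r78 : (N : ℝ) ^ (-(78 * η)) = (a ^ 78)⁻¹ := by
    have := n6_rpow_neg (N := N) (η := η) 78; push_cast at this; exact this
  rw [r2] at hρ1
  rw [r105] at hlam
  rw [r1000] at f5
  rw [r100] at f6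
  set B := t * (N : ℝ) with hB
  have hB1 : 1 ≤ B := hC.htN
  have hq0 : 0 < q := Nat.pos_of_ne_zero (NeZero.ne q)
  have hq1 : (1 : ℝ) ≤ q := by exact_mod_cast hq0
  have hqB : 1 ≤ (q : ℝ) * B := by nlinarith
  have ht : 0 < t := by
    by_contra h
    have : t * (N : ℝ) ≤ 0 := mul_nonpos_of_nonpos_of_nonneg (not_lt.1 h) hNpos.le
    linarith
  have hL : 0 < L := by have := hC.hL; linarith
  have htL : 1 / 2 ≤ t * L := by
    have := mul_le_mul_of_nonneg_left hC.hL ht.le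
    have h2 : t * (N / 2 : ℝ) = B / 2 := by rw [hB]; ring
    linarith
  have htLB : t * L ≤ B := mul_le_mul_of_nonneg_left hC.hLN ht.le
  -- `P = q B² / ρ`
  set P := (q : ℝ) * B ^ 2 / ρ with hP
  have hqB2 : (q : ℝ) * B ≤ q * B ^ 2 := by nlinarith
  have hP0 : 0 < P := by positivity
  have hP1 : 1 ≤ 2 * P := by
    have h1 : ρ ≤ 2 * (q * B ^ 2) := by
      have h2 : ρ ^ 2 ≤ (2 * (q * B ^ 2)) ^ 2 := by
        calc ρ ^ 2 ≤ 2 * (q * B) := f1
          _ ≤ (2 * (q * B)) ^ 2 := by nlinarith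
          _ ≤ (2 * (q * B ^ 2)) ^ 2 := by
            apply pow_le_pow_left₀ (by positivity)
            linarith
      exact le_of_sq_le_sq h2 (by positivity)
    rw [hP, ← mul_div_assoc, le_div_iff₀ f0]
    linarith
  have hxa1 : 1 ≤ xa := by
    refine le_trans ?_ f2
    exact Real.one_le_rpow (by exact_mod_cast hN1) (by norm_num)
  have hxa0 : 0 < xa := by linarith
  have hxb0 : 0 < xb := by
    have h3 : 0 < xb / xa := lt_of_lt_of_le (by positivity) f5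
    exact (div_pos_iff_of_pos_right hxa0).1 h3
  set X := 4 * xa with hX
  set z := xb / (8 * xa) with hz
  have hX1 : 1 ≤ X := by rw [hX]; linarith
  have hX0 : 0 < X := by linarith
  have hXz : X * z = xb / 2 := by rw [hX, hz]; field_simp; norm_num
  have hz8 : xb / xa = 8 * z := by rw [hz]; field_simp
  have hzP : a ^ 1000 * P ≤ 8 * z := by rw [← hz8]; exact f5
  have hzN : z ≤ N := by
    have : xb / (8 * xa) ≤ xb / 1 := div_le_div_of_nonneg_left hxb0.le one_pos (by linarith)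
    rw [div_one] at this
    exact this.trans f7
  have hz0 : 0 < z := by positivity
  have hqN : q ≤ N := by
    have h1 : (q : ℝ) ≤ q * B := by nlinarith
    have h2 : (N : ℝ) ^ (1 / 3 - 1000 * η) ≤ (N : ℝ) ^ (1 : ℝ) :=
      Real.rpow_le_rpow_of_exponent_le (by exact_mod_cast hN1) (by linarith)
    rw [Real.rpow_one] at h2
    have h3 : (q : ℝ) ≤ N := h1.trans (hC.hq.trans h2)
    exact_mod_cast h3
  have hlam2 : |lam| ≤ a ^ 105 * P := by
    refine hlam.trans ?_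
    rw [hP, ← mul_div_assoc]
    refine div_le_div_of_nonneg_right ?_ f0.le
    have h1 : √((q : ℝ) * B) ≤ q * B := by
      rw [Real.sqrt_le_left (by positivity)]
      nlinarith
    calc a ^ 105 * B * √((q : ℝ) * B) ≤ a ^ 105 * B * (q * B) :=
          mul_le_mul_of_nonneg_left h1 (by positivity)
      _ = a ^ 105 * (q * B ^ 2) := by ring
  have hpow : ∀ k : ℕ, 1 ≤ a ^ k := fun k => one_le_pow₀ ha1
  have hstep : (1 + |lam|) * a ≤ z := by
    have h1 : 1 + |lam| ≤ 3 * (a ^ 105 * P) := by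
      have h2 : 2 * P ≤ 2 * (a ^ 105 * P) := by nlinarith [hpow 105]
      linarith
    have h3 : 3 * (a ^ 105 * P) * a = 3 * a ^ 106 * P := by ring
    have h4 : 24 * a ^ 106 ≤ a ^ 1000 := by
      have h5 : a ^ 1000 = a ^ 894 * a ^ 106 := by rw [← pow_add]
      rw [h5]
      refine mul_le_mul_of_nonneg_right ?_ (by positivity)
      calc (24 : ℝ) ≤ a := by linarith
        _ = a ^ 1 := (pow_one a).symm
        _ ≤ a ^ 894 := pow_le_pow_right₀ ha1 (by norm_num)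
    have h6 : (1 + |lam|) * a ≤ 3 * a ^ 106 * P := by
      rw [← h3]; exact mul_le_mul_of_nonneg_right h1 ha0.le
    have h7 : 24 * a ^ 106 * P ≤ a ^ 1000 * P := mul_le_mul_of_nonneg_right h4 hP0.le
    linarith
  obtain ⟨r, hr1, hr2, hr3⟩ := hAN q lam z hq0 hqN hstep hzN
  have hra : r ≤ a := hr2.trans (Real.rpow_le_rpow_of_exponent_le (by exact_mod_cast hN1)
    (by linarith))
  have hr0 : 0 < r := by linarith
  have hzbig : a ^ 998 ≤ z := by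
    have h1 : a ^ 1000 ≤ 2 * (a ^ 1000 * P) := by nlinarith [hpow 1000]
    have h2 : a ^ 1000 = a ^ 2 * a ^ 998 := by rw [← pow_add]
    have h3 : 16 * a ^ 998 ≤ a ^ 2 * a ^ 998 := by
      refine mul_le_mul_of_nonneg_right ?_ (by positivity)
      nlinarith
    linarith
  have hz1 : 1 ≤ z := (hpow 998).trans hzbig
  have hzr1 : 1 ≤ z / r := by
    rw [le_div_iff₀ hr0, one_mul]
    refine hra.trans (le_trans ?_ hzbig)
    calc a = a ^ 1 := (pow_one a).symm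
      _ ≤ a ^ 998 := pow_le_pow_right₀ ha1 (by norm_num)
  have hzrN : z / r ≤ N := (div_le_self hz0.le hr1).trans hzN
  have hqL : (q : ℝ) ≤ L / (X * z) := by
    rw [hXz, le_div_iff₀ (by positivity)]
    have : (q : ℝ) * (xb / 2) ≤ q * xb := by
      have : 0 ≤ (q : ℝ) * xb := by positivity
      linarith
    linarith
  have hXzr : r * X * (z / r) = X * z := by field_simp
  obtain ⟨J, hJ⟩ := ID0 hC.hw ht hL hC.hLN htL
  have i1 := hJ X z hX1 hz1 hqL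
  have i2 := hJ (r * X) (z / r) (by nlinarith) hzr1 (by rw [hXzr]; exact hqL)
  rw [hXzr] at i2
  set h1 := hc N L w (1 : DirichletCharacter ℂ q) 1 with hh1
  have hh1p : 0 < ‖h1‖ := lt_of_lt_of_le (by positivity) hρ1
  set S1 := ∑ n ∈ (Finset.Icc 1 ⌊z⌋₊).filter (fun n => n.Coprime q),
    1 / (n : ℂ) * hc N L w (1 : DirichletCharacter ℂ q) (X * n) with hS1
  set S2 := ∑ n ∈ (Finset.Icc 1 ⌊z / r⌋₊).filter (fun n => n.Coprime q),
    1 / (n : ℂ) * hc N L w (1 : DirichletCharacter ℂ q) (r * X * n) with hS2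
  -- the main error
  have e1 : 168 * (q : ℝ) * (t * L) ^ 2 / z ≤ 1344 * ρ * (a ^ 1000)⁻¹ := by
    have h2 : (t * L) ^ 2 ≤ B ^ 2 := pow_le_pow_left₀ (by positivity) htLB 2
    have h3 : (q : ℝ) * B ^ 2 = P * ρ := by rw [hP]; field_simp
    rw [div_le_iff₀ hz0]
    have h4 : 168 * (q : ℝ) * (t * L) ^ 2 ≤ 168 * (P * ρ) := by
      rw [← h3]; nlinarith
    refine h4.trans ?_
    have h5 : 1344 * ρ * (a ^ 1000)⁻¹ * z = 168 * ρ * ((a ^ 1000)⁻¹ * (8 * z)) := by ring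
    rw [h5]
    have h6 : P ≤ (a ^ 1000)⁻¹ * (8 * z) := by
      rw [inv_mul_eq_div, le_div_iff₀ (by positivity), mul_comm]
      exact hzP
    have h7 := mul_le_mul_of_nonneg_left h6 (show 0 ≤ 168 * ρ by positivity)
    linarith
  have e2 : 2 * X * (q : ℝ) ^ 2 * t ≤ 8 * ρ * (a ^ 100)⁻¹ := by
    have h2 : 2 * X * (q : ℝ) ^ 2 * t = 8 * (xa * (q : ℝ) ^ 2 * t) := by rw [hX]; ring
    rw [h2]
    linarith
  have hinv : (a ^ 1000)⁻¹ ≤ (a ^ 100)⁻¹ :=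
    inv_anti₀ (by positivity) (pow_le_pow_right₀ ha1 (by norm_num))
  have hE : 168 * (q : ℝ) * (t * L) ^ 2 / z + 2 * X * (q : ℝ) ^ 2 * t ≤
      1352 * ρ * (a ^ 100)⁻¹ := by
    have h2 := mul_le_mul_of_nonneg_left hinv (show 0 ≤ 1344 * ρ by positivity)
    linarith
  have hE2 : 168 * (q : ℝ) * (t * L) ^ 2 / (z / r) + 2 * (r * X) * (q : ℝ) ^ 2 * t ≤
      a * (1352 * ρ * (a ^ 100)⁻¹) := by
    have h2 : 168 * (q : ℝ) * (t * L) ^ 2 / (z / r) + 2 * (r * X) * (q : ℝ) ^ 2 * t =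
        r * (168 * (q : ℝ) * (t * L) ^ 2 / z + 2 * X * (q : ℝ) ^ 2 * t) := by
      field_simp
    rw [h2]
    have h3 : 0 ≤ 168 * (q : ℝ) * (t * L) ^ 2 / z + 2 * X * (q : ℝ) ^ 2 * t := by positivity
    exact mul_le_mul hra hE h3 ha0.le
  have hS : ‖S1 - S2‖ ≤ 2 * a * (1352 * ρ * (a ^ 100)⁻¹) := by
    have h2 : S1 - S2 = (S1 + J (X * z)) - (S2 + J (X * z)) := by ring
    rw [h2]
    refine (norm_sub_le _ _).trans ?_
    have h3 : 1352 * ρ * (a ^ 100)⁻¹ ≤ a * (1352 * ρ * (a ^ 100)⁻¹) :=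
      le_mul_of_one_le_left (by positivity) ha1
    have := i1.trans hE
    have := i2.trans hE2
    linarith
  have hSd : ‖S1 / h1 - S2 / h1‖ ≤ (a ^ 90)⁻¹ := by
    rw [← sub_div, norm_div, div_le_iff₀ hh1p]
    refine hS.trans ?_
    have h2 : (a ^ 90)⁻¹ * (ρ * (a ^ 2)⁻¹) ≤ (a ^ 90)⁻¹ * ‖h1‖ :=
      mul_le_mul_of_nonneg_left hρ1 (by positivity)
    refine le_trans ?_ h2
    have h3 : 2 * a * (1352 * ρ * (a ^ 100)⁻¹) = (2704 * (a ^ 7)⁻¹) * (ρ * (a ^ 92)⁻¹) := by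
      have : a ^ 100 = a * (a ^ 7 * a ^ 92) := by ring
      rw [this]
      field_simp
      norm_num
    have h4 : (a ^ 90)⁻¹ * (ρ * (a ^ 2)⁻¹) = 1 * (ρ * (a ^ 92)⁻¹) := by
      have : a ^ 92 = a ^ 90 * a ^ 2 := by ring
      rw [this]
      field_simp
    rw [h3, h4]
    refine mul_le_mul_of_nonneg_right ?_ (by positivity)
    rw [← div_eq_mul_inv, div_le_one (by positivity)]
    calc (2704 : ℝ) ≤ a := by linarith
      _ = a ^ 1 := (pow_one a).symm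
      _ ≤ a ^ 7 := pow_le_pow_right₀ ha1 (by norm_num)
  -- the two comparisons
  have hcl1 := n6_close (q := q) (N := N) (lam := lam) (X := X) (z := z) (ε := (a ^ 78)⁻¹)
    (κ := κ) (f := hc N L w (1 : DirichletCharacter ℂ q)) (h1 := h1) hX0 hz1 hzN (by positivity)
    (fun n hn1 hn2 => by
      rw [← r78]
      have hnr : (1 : ℝ) ≤ n := by exact_mod_cast hn1
      have hnz : (n : ℝ) ≤ z := (Nat.le_floor_iff hz0.le).1 hn2
      refine hH (X * n) ?_ ?_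
      · nlinarith
      · rw [← hXz]; exact mul_le_mul_of_nonneg_left hnz hX0.le)
  have hcl2 := n6_close (q := q) (N := N) (lam := lam) (X := r * X) (z := z / r)
    (ε := (a ^ 78)⁻¹) (κ := κ) (f := hc N L w (1 : DirichletCharacter ℂ q)) (h1 := h1)
    (by positivity) hzr1 hzrN (by positivity)
    (fun n hn1 hn2 => by
      rw [← r78]
      have hnr : (1 : ℝ) ≤ n := by exact_mod_cast hn1
      have hnz : (n : ℝ) ≤ z / r := (Nat.le_floor_iff (by positivity)).1 hn2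
      have hrX : X ≤ r * X := le_mul_of_one_le_left hX0.le hr1
      refine hH (r * X * n) ?_ ?_
      · have : r * X * 1 ≤ r * X * n := mul_le_mul_of_nonneg_left hnr (by positivity)
        linarith
      · rw [← hXz, ← hXzr]; exact mul_le_mul_of_nonneg_left hnz (by positivity))
  rw [← hS1] at hcl1
  rw [← hS2] at hcl2
  have hrX : ((r * X : ℝ) : ℂ) ^ (lam * Complex.I : ℂ) =
      (r : ℂ) ^ (lam * Complex.I : ℂ) * (X : ℂ) ^ (lam * Complex.I : ℂ) := by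
    have := Complex.mul_cpow_ofReal_nonneg hr0.le hX0.le (lam * Complex.I : ℂ)
    push_cast at this ⊢
    exact this
  have hnX : ‖(X : ℂ) ^ (lam * Complex.I : ℂ)‖ = 1 := by
    rw [Complex.norm_cpow_eq_rpow_re_of_pos hX0]
    simp
  have hfin : ‖SS q lam z - (r : ℂ) ^ (lam * Complex.I : ℂ) * SS q lam (z / r)‖ ≤
      (a ^ 90)⁻¹ + 2 * ((a ^ 78)⁻¹ * a) := by
    have h2 : ‖SS q lam z - (r : ℂ) ^ (lam * Complex.I : ℂ) * SS q lam (z / r)‖ =
        ‖κ * (X : ℂ) ^ (lam * Complex.I : ℂ) *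
          (SS q lam z - (r : ℂ) ^ (lam * Complex.I : ℂ) * SS q lam (z / r))‖ := by
      rw [norm_mul, norm_mul, hκ, hnX]; ring
    rw [h2]
    have h3 : κ * (X : ℂ) ^ (lam * Complex.I : ℂ) *
          (SS q lam z - (r : ℂ) ^ (lam * Complex.I : ℂ) * SS q lam (z / r)) =
        (S1 / h1 - S2 / h1) - (S1 / h1 - κ * (X : ℂ) ^ (lam * Complex.I : ℂ) * SS q lam z) +
        (S2 / h1 - κ * ((r * X : ℝ) : ℂ) ^ (lam * Complex.I : ℂ) * SS q lam (z / r)) := by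
      rw [hrX]; ring
    rw [h3]
    refine (norm_add_le _ _).trans ?_
    have h4 := norm_sub_le (S1 / h1 - S2 / h1)
      (S1 / h1 - κ * (X : ℂ) ^ (lam * Complex.I : ℂ) * SS q lam z)
    have h5 : (a ^ 78)⁻¹ * (1 + Real.log N) ≤ (a ^ 78)⁻¹ * a :=
      mul_le_mul_of_nonneg_left hlN (by positivity)
    linarith
  have hlow : a⁻¹ ≤ (a ^ 90)⁻¹ + 2 * ((a ^ 78)⁻¹ * a) := by
    have h2 : (N : ℝ) ^ (-η) = a⁻¹ := by rw [Real.rpow_neg hNpos.le]
    rw [← h2]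
    exact hr3.trans hfin
  have h77 : (a ^ 78)⁻¹ * a = (a ^ 77)⁻¹ := by
    have : a ^ 78 = a ^ 77 * a := by ring
    rw [this]; field_simp
  rw [h77] at hlow
  have h90 : (a ^ 90)⁻¹ ≤ (a ^ 2)⁻¹ :=
    inv_anti₀ (by positivity) (pow_le_pow_right₀ ha1 (by norm_num))
  have h77' : (a ^ 77)⁻¹ ≤ (a ^ 2)⁻¹ :=
    inv_anti₀ (by positivity) (pow_le_pow_right₀ ha1 (by norm_num))
  have h8 : a⁻¹ ≤ 3 * (a ^ 2)⁻¹ := by linarith
  have h9 : a ^ 2 * a⁻¹ ≤ a ^ 2 * (3 * (a ^ 2)⁻¹) := mul_le_mul_of_nonneg_left h8 (by positivity)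
  have h10 : a ^ 2 * a⁻¹ = a := by field_simp
  have h11 : a ^ 2 * (3 * (a ^ 2)⁻¹) = 3 := by field_simp
  rw [h10, h11] at h9
  linarith

end Pool.Agent.Helper17.L3
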