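import Pool.Agent.Helper17.L3.W
import Pool.Agent.Helper17.L3.N2
import Pool.Agent.Helper17.L3.N3
import Pool.Agent.Helper17.L3.N4
import Pool.Agent.Helper17.L3.N5
import Pool.Agent.Helper17.L3.N6

/-!
Assembly of part L: the low level theorem.
-/

namespace Pool.Agent.Helper17.L3

open MeasureTheory Filter Pool.Agent.Helper25.MOB

theorem not_ctx {η : ℝ} (hη : 0 < η) (hη1 : η ≤ 1 / 100000) : ∀ᶠ N : ℕ in atTop,
    ∀ (q : ℕ) [NeZero q] (L t : ℝ) (w : (ZMod q)ˣ → ℝ → ℂ), ¬ Ctx η N q L t w := by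
  filter_upwards [one_char hη hη1, real_direction hη hη1, chain_num hη hη1, contra_one hη hη1,
    contra_zero hη hη1] with N h1 h2 h3 h4 h5 q _ L t w hC
  obtain ⟨χ, hχ⟩ := h1 q L t w hC
  obtain ⟨lam, hl, hH⟩ := h2 q L t w hC χ hχ
  obtain ⟨κ, hκ, hY⟩ := h3 q L t w hC χ lam hχ hH
  by_cases hne : χ = 1
  · subst hne
    exact h5 q L t w hC lam κ hχ hl hκ hY
  · exact h4 q L t w hC χ lam κ hne hχ hl hκ hY

theorem low_level {η : ℝ} (hη : 0 < η) (hη1 : η ≤ 1 / 100000) : ∀ᶠ N : ℕ in atTop,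
    (∫ y, ‖F N y‖) ≤ (N : ℝ) ^ (1 / 3 - 1000 * η) →
    ∀ (q : ℕ) (L t : ℝ), 0 < q → 1 ≤ t * N → N / 2 ≤ L → L ≤ N →
      q * (t * N) ≤ (N : ℝ) ^ (1 / 3 - 1000 * η) →
      (∫ y in cl t q, ‖sig N L y‖) ^ 3 ≤
        (N : ℝ) ^ (-(1 / 3) + 1000 * η) * (q : ℝ) ^ 2 * (t * N) ^ 3 := by
  filter_upwards [not_ctx hη hη1, eventually_ge_atTop 4] with N h hN hF q L t hq ht hL hLN hqt
  by_contra hcon
  push Not at hcon
  have : NeZero q := ⟨hq.ne'⟩
  have hN0 : (4 : ℝ) ≤ N := by exact_mod_cast hN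
  have ht0 : 0 < t := by
    by_contra hh
    push Not at hh
    nlinarith
  have hq1 : (1 : ℝ) ≤ q := by exact_mod_cast hq
  have ht1 : 2 * t ≤ 1 := by
    have h1 : t * N ≤ (N : ℝ) ^ (1 / 3 - 1000 * η) := by
      refine le_trans ?_ hqt
      exact le_mul_of_one_le_left (by linarith) hq1
    have h2 : (N : ℝ) ^ (1 / 3 - 1000 * η) ≤ √(N : ℝ) := by
      rw [Real.sqrt_eq_rpow]
      exact Real.rpow_le_rpow_of_exponent_le (by linarith) (by linarith)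
    have h3 : √(N : ℝ) ≤ N / 2 := by
      rw [Real.sqrt_le_left (by linarith)]
      nlinarith
    by_contra hh
    push Not at hh
    nlinarith
  obtain ⟨w, hw, hle⟩ := exists_phases (q := q) N (L := L) ht0 ht1
  refine h q L t w ⟨hw, ht, hL, hLN, hF, hqt, ?_⟩
  refine hcon.le.trans ?_
  refine pow_le_pow_left₀ (integral_nonneg fun y => norm_nonneg _) hle 3

end Pool.Agent.Helper17.L3
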