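import Pool.Agent.Helper17.L3.B0

/-!
Block L3-M1.  From `F` to its Fejer means.

`avg_close`: `(N/K) (1 - n/N) - ((N-K)/K) (1 - n/(N-K))_+` is `1` for `n ≤ N - K` and `(N - n)/K ∈ [0, 1]` for
`N - K < n ≤ N`.  So the difference is a trigonometric polynomial with coefficients of modulus `≤ 1`, supported on
`N - K < n ≤ N`; Parseval (`integral_mul_conj` in `Helper25.MOB.Bas`).

`exists_fejer`.  Let `A = (N/K) sig N N - ((N-K)/K) sig N (N-K)`.  `I = ∫_R ‖F‖² ≥ V² vol R ≥ n₀`.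
`∫_R ‖F‖ ‖A‖ ≥ I - ∫_R ‖F‖ ‖F - A‖ ≥ I - √(∫ ‖F‖²) √(∫ ‖F - A‖²) ≥ I - √N √K ≥ I/2` (`√(N K) ≤ n₀/2 ≤ I/2`; `∫ ‖F‖² ≤ N`).  So
`2V ∫_R ‖A‖ ≥ V² vol R/2`, `∫_R ‖A‖ ≥ V vol R/4`, and `∫_R ‖A‖ ≤ (N/K)(∫_R ‖sig N N‖ + ∫_R ‖sig N (N-K)‖)`.
-/

namespace Pool.Agent.Helper17.L3

open MeasureTheory Pool.Agent.Helper25.MOB

private theorem int89 {f : UnitAddCircle → ℝ} (hf : Continuous f) : Integrable f volume :=
  hf.integrable_of_hasCompactSupport (HasCompactSupport.of_compactSpace f)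

private theorem norm_mu89 (n : ℕ) : ‖mu n‖ ≤ 1 := by
  unfold mu
  rw [Complex.norm_intCast]
  exact_mod_cast ArithmeticFunction.abs_moebius_le_one

private theorem continuous_sig89 (N : ℕ) (L : ℝ) : Continuous (sig N L) := by
  unfold sig
  exact continuous_finsetSum _ fun n _ => continuous_const.mul (continuous_ex _)

/-- the coefficients of the difference -/
private noncomputable def dd89 (N K n : ℕ) : ℝ :=
  1 - (((N : ℝ) / K) * kf N n - (((N - K : ℕ) : ℝ) / K) * kf ((N - K : ℕ) : ℝ) n)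

private theorem dd89_bd {N K n : ℕ} (hK : 1 ≤ K) (hKN : K < N) (hn : n ≤ N) :
    |dd89 N K n| ≤ if N - K < n then 1 else 0 := by
  have hK0 : (0 : ℝ) < K := by exact_mod_cast hK
  have hN0 : (0 : ℝ) < N := by
    have : 0 < N := by omega
    exact_mod_cast this
  have hnN : (n : ℝ) ≤ N := by exact_mod_cast hn
  have hM : ((N - K : ℕ) : ℝ) = (N : ℝ) - K := by
    rw [Nat.cast_sub hKN.le]
  have hM0 : (0 : ℝ) < (N : ℝ) - K := by
    have : (K : ℝ) < N := by exact_mod_cast hKN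
    linarith
  have h1 : kf N n = 1 - n / N := by
    unfold kf
    apply max_eq_left
    have : (n : ℝ) / N ≤ 1 := (div_le_one hN0).2 hnN
    linarith
  have h2 : ((N : ℝ) / K) * kf N n = (N - n) / K := by
    rw [h1]
    field_simp
  split_ifs with h
  · have h3 : (N : ℝ) - K < n := by
      rw [← hM]
      exact_mod_cast h
    have h4 : kf ((N - K : ℕ) : ℝ) n = 0 := by
      unfold kf
      rw [hM]
      apply max_eq_right
      have : 1 ≤ (n : ℝ) / (N - K) := (one_le_div hM0).2 h3.le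
      linarith
    unfold dd89
    rw [h2, h4, mul_zero, sub_zero]
    have h5 : ((N : ℝ) - n) / K ≤ 1 := (div_le_one hK0).2 (by linarith)
    have h6 : 0 ≤ ((N : ℝ) - n) / K := div_nonneg (by linarith) hK0.le
    rw [abs_le]
    constructor <;> linarith
  · have h3 : (n : ℝ) ≤ (N : ℝ) - K := by
      rw [← hM]
      exact_mod_cast not_lt.1 h
    have h4 : (((N - K : ℕ) : ℝ) / K) * kf ((N - K : ℕ) : ℝ) n = (N - K - n) / K := by
      unfold kf
      rw [hM, max_eq_left (by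
        have : (n : ℝ) / (N - K) ≤ 1 := (div_le_one hM0).2 h3
        linarith)]
      field_simp
    unfold dd89
    rw [h2, h4]
    have : 1 - (((N : ℝ) - n) / K - (N - K - n) / K) = 0 := by
      field_simp
      ring
    rw [this, abs_zero]

private theorem diff89 (N K : ℕ) (y : UnitAddCircle) :
    F N y - (((N : ℂ) / K) * sig N N y - (((N - K : ℕ) : ℂ) / K) * sig N ((N - K : ℕ) : ℝ) y) =
      ∑ n ∈ Finset.Icc 1 N, ((dd89 N K n : ℂ) * mu n) * ex n y := by
  unfold F sig dd89 mu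
  rw [Finset.mul_sum, Finset.mul_sum, ← Finset.sum_sub_distrib, ← Finset.sum_sub_distrib]
  refine Finset.sum_congr rfl fun n _ => ?_
  push_cast
  ring

theorem avg_close {N K : ℕ} (hK : 1 ≤ K) (hKN : K < N) :
    ∫ y, ‖F N y - (((N : ℂ) / K) * sig N N y - (((N - K : ℕ) : ℂ) / K) * sig N ((N - K : ℕ) : ℝ) y)‖ ^ 2 ≤ K := by
  simp_rw [diff89]
  rw [integral_norm_sq (Finset.Icc 1 N) fun n => (dd89 N K n : ℂ) * mu n]
  have h1 : ∀ n ∈ Finset.Icc 1 N, ‖(dd89 N K n : ℂ) * mu n‖ ^ 2 ≤ if N - K < n then (1 : ℝ) else 0 := by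
    intro n hn
    have h2 := dd89_bd hK hKN (Finset.mem_Icc.1 hn).2
    have h3 : ‖(dd89 N K n : ℂ) * mu n‖ ≤ if N - K < n then (1 : ℝ) else 0 := by
      rw [norm_mul, Complex.norm_real, Real.norm_eq_abs]
      calc |dd89 N K n| * ‖mu n‖ ≤ |dd89 N K n| * 1 :=
            mul_le_mul_of_nonneg_left (norm_mu89 n) (abs_nonneg _)
        _ ≤ _ := by rw [mul_one]; exact h2
    split_ifs at h3 ⊢ with h
    · exact pow_le_one₀ (norm_nonneg _) h3
    · have : ‖(dd89 N K n : ℂ) * mu n‖ = 0 := le_antisymm h3 (norm_nonneg _)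
      rw [this]
      norm_num
  refine (Finset.sum_le_sum h1).trans ?_
  rw [Finset.sum_ite, Finset.sum_const_zero, add_zero, Finset.sum_const, nsmul_eq_mul, mul_one]
  have h4 : (Finset.Icc 1 N).filter (fun n => N - K < n) ⊆ Finset.Ioc (N - K) N := by
    intro n hn
    rw [Finset.mem_filter, Finset.mem_Icc] at hn
    rw [Finset.mem_Ioc]
    exact ⟨hn.2, hn.1.2⟩
  have h5 := Finset.card_le_card h4
  rw [Nat.card_Ioc] at h5
  have h6 : N - (N - K) = K := by omega
  rw [h6] at h5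
  exact_mod_cast h5

theorem exists_fejer {N K : ℕ} (hK : 1 ≤ K) (hKN : K < N) {R : Set UnitAddCircle}
    (hR : MeasurableSet R) {V n₀ : ℝ} (hV : 0 < V)
    (hVR : ∀ y ∈ R, V ≤ ‖F N y‖ ∧ ‖F N y‖ ≤ 2 * V) (h1 : n₀ ≤ V ^ 2 * volume.real R)
    (h2 : 2 * √((N : ℝ) * K) ≤ n₀) :
    ∃ L : ℝ, (N : ℝ) - K ≤ L ∧ L ≤ N ∧
      (K : ℝ) / N * (V * volume.real R / 8) ≤ ∫ y in R, ‖sig N L y‖ := by
  have hK0 : (0 : ℝ) < K := by exact_mod_cast hK
  have hN0 : (0 : ℝ) < N := by
    have : 0 < N := by omega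
    exact_mod_cast this
  have hM : ((N - K : ℕ) : ℝ) = (N : ℝ) - K := by
    rw [Nat.cast_sub hKN.le]
  set A : UnitAddCircle → ℂ := fun y =>
    ((N : ℂ) / K) * sig N N y - (((N - K : ℕ) : ℂ) / K) * sig N ((N - K : ℕ) : ℝ) y with hA
  have cA : Continuous A :=
    (continuous_const.mul (continuous_sig89 _ _)).sub (continuous_const.mul (continuous_sig89 _ _))
  have cF := continuous_F N
  have hclose : ∫ y, ‖F N y - A y‖ ^ 2 ≤ K := avg_close hK hKN
  have hFN := integral_F_sq_le N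
  -- `∫_R ‖F‖ ‖F - A‖ ≤ √(N K)`
  have h3 : ∫ y in R, ‖F N y‖ * ‖F N y - A y‖ ≤ √((N : ℝ) * K) := by
    have e1 : ∫ y in R, ‖F N y‖ * ‖F N y - A y‖ ≤ ∫ y, ‖F N y‖ * ‖F N y - A y‖ :=
      setIntegral_le_integral (int89 (cF.norm.mul (cF.sub cA).norm))
        (Filter.Eventually.of_forall fun y => mul_nonneg (norm_nonneg _) (norm_nonneg _))
    obtain ⟨lam, hl⟩ : ∃ lam : ℝ, lam = √(K / N) := ⟨_, rfl⟩
    have hl0 : 0 < lam := by
      rw [hl]
      exact Real.sqrt_pos.2 (div_pos hK0 hN0)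
    have hl2 : lam ^ 2 = K / N := by
      rw [hl]
      exact Real.sq_sqrt (div_nonneg hK0.le hN0.le)
    have e2 : ∫ y, ‖F N y‖ * ‖F N y - A y‖ ≤
        ∫ y, (lam / 2 * ‖F N y‖ ^ 2 + 1 / (2 * lam) * ‖F N y - A y‖ ^ 2) := by
      apply integral_mono (int89 (cF.norm.mul (cF.sub cA).norm))
        (int89 ((continuous_const.mul (cF.norm.pow 2)).add
          (continuous_const.mul ((cF.sub cA).norm.pow 2))))
      intro y
      show ‖F N y‖ * ‖F N y - A y‖ ≤ lam / 2 * ‖F N y‖ ^ 2 + 1 / (2 * lam) * ‖F N y - A y‖ ^ 2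
      have e3 : lam / 2 * ‖F N y‖ ^ 2 + 1 / (2 * lam) * ‖F N y - A y‖ ^ 2 - ‖F N y‖ * ‖F N y - A y‖ =
          (lam * ‖F N y‖ - ‖F N y - A y‖) ^ 2 / (2 * lam) := by
        field_simp
        ring
      have e4 : 0 ≤ (lam * ‖F N y‖ - ‖F N y - A y‖) ^ 2 / (2 * lam) := by positivity
      linarith
    have e5 : ∫ y, (lam / 2 * ‖F N y‖ ^ 2 + 1 / (2 * lam) * ‖F N y - A y‖ ^ 2) =
        lam / 2 * (∫ y, ‖F N y‖ ^ 2) + 1 / (2 * lam) * ∫ y, ‖F N y - A y‖ ^ 2 := by
      have i1 : Integrable (fun y => lam / 2 * ‖F N y‖ ^ 2) volume :=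
        int89 (continuous_const.mul (cF.norm.pow 2))
      have i2 : Integrable (fun y => 1 / (2 * lam) * ‖F N y - A y‖ ^ 2) volume :=
        int89 (continuous_const.mul ((cF.sub cA).norm.pow 2))
      rw [integral_add i1 i2, integral_const_mul, integral_const_mul]
    have e6 : lam / 2 * N + 1 / (2 * lam) * K = √((N : ℝ) * K) := by
      have k1 : √((N : ℝ) * K) = lam * N := by
        rw [hl]
        have k2 : (N : ℝ) * K = (K / N) * (N * N) := by field_simp
        rw [k2, Real.sqrt_mul (div_nonneg hK0.le hN0.le), Real.sqrt_mul_self hN0.le]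
      have k3 : (K : ℝ) = lam ^ 2 * N := by
        rw [hl2]
        field_simp
      rw [k1]
      nth_rewrite 1 [k3]
      field_simp
      ring
    have e7 : lam / 2 * (∫ y, ‖F N y‖ ^ 2) ≤ lam / 2 * N :=
      mul_le_mul_of_nonneg_left hFN (by positivity)
    have e8 : 1 / (2 * lam) * (∫ y, ‖F N y - A y‖ ^ 2) ≤ 1 / (2 * lam) * K :=
      mul_le_mul_of_nonneg_left hclose (by positivity)
    linarith
  -- `I ≤ ∫_R ‖F‖ ‖A‖ + √(N K)`
  have h4 : ∫ y in R, ‖F N y‖ ^ 2 ≤ (∫ y in R, ‖F N y‖ * ‖A y‖) + ∫ y in R, ‖F N y‖ * ‖F N y - A y‖ := by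
    have i1 : Integrable (fun y => ‖F N y‖ * ‖A y‖) (volume.restrict R) :=
      (int89 (cF.norm.mul cA.norm)).integrableOn
    have i2 : Integrable (fun y => ‖F N y‖ * ‖F N y - A y‖) (volume.restrict R) :=
      (int89 (cF.norm.mul (cF.sub cA).norm)).integrableOn
    rw [← integral_add i1 i2]
    apply integral_mono (int89 (cF.norm.pow 2)).integrableOn
      (int89 ((cF.norm.mul cA.norm).add (cF.norm.mul (cF.sub cA).norm))).integrableOn
    intro y
    show ‖F N y‖ ^ 2 ≤ ‖F N y‖ * ‖A y‖ + ‖F N y‖ * ‖F N y - A y‖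
    have e1 : ‖F N y‖ ≤ ‖A y‖ + ‖F N y - A y‖ := by
      have := norm_add_le (A y) (F N y - A y)
      rwa [add_sub_cancel] at this
    have := mul_le_mul_of_nonneg_left e1 (norm_nonneg (F N y))
    nlinarith
  have h5 : V ^ 2 * volume.real R ≤ ∫ y in R, ‖F N y‖ ^ 2 := by
    have e1 : ∫ _y in R, V ^ 2 = V ^ 2 * volume.real R := by
      rw [setIntegral_const, smul_eq_mul, mul_comm]
    rw [← e1]
    apply setIntegral_mono_on (integrableOn_const) (int89 (cF.norm.pow 2)).integrableOn hR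
    intro y hy
    exact pow_le_pow_left₀ hV.le (hVR y hy).1 2
  have h6 : ∫ y in R, ‖F N y‖ * ‖A y‖ ≤ 2 * V * ∫ y in R, ‖A y‖ := by
    rw [← integral_const_mul]
    apply setIntegral_mono_on (int89 (cF.norm.mul cA.norm)).integrableOn
      (int89 (continuous_const.mul cA.norm)).integrableOn hR
    intro y hy
    exact mul_le_mul_of_nonneg_right (hVR y hy).2 (norm_nonneg _)
  have h7 : V * volume.real R / 4 ≤ ∫ y in R, ‖A y‖ := by
    have e1 : V ^ 2 * volume.real R / 2 ≤ 2 * V * ∫ y in R, ‖A y‖ := by linarith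
    have e2 : V * (V * volume.real R / 4) ≤ V * ∫ y in R, ‖A y‖ := by linarith
    exact le_of_mul_le_mul_left e2 hV
  have h8 : ∫ y in R, ‖A y‖ ≤ (N : ℝ) / K * (∫ y in R, ‖sig N N y‖) +
      (N : ℝ) / K * ∫ y in R, ‖sig N ((N - K : ℕ) : ℝ) y‖ := by
    have i1 : Integrable (fun y => (N : ℝ) / K * ‖sig N N y‖) (volume.restrict R) :=
      (int89 (continuous_const.mul (continuous_sig89 N N).norm)).integrableOn
    have i2 : Integrable (fun y => (N : ℝ) / K * ‖sig N ((N - K : ℕ) : ℝ) y‖) (volume.restrict R) :=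
      (int89 (continuous_const.mul (continuous_sig89 N _).norm)).integrableOn
    rw [← integral_const_mul, ← integral_const_mul, ← integral_add i1 i2]
    apply integral_mono (int89 cA.norm).integrableOn
      (int89 ((continuous_const.mul (continuous_sig89 N N).norm).add
        (continuous_const.mul (continuous_sig89 N _).norm))).integrableOn
    intro y
    show ‖A y‖ ≤ (N : ℝ) / K * ‖sig N N y‖ + (N : ℝ) / K * ‖sig N ((N - K : ℕ) : ℝ) y‖
    refine (norm_sub_le _ _).trans ?_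
    rw [norm_mul, norm_mul, norm_div, norm_div, Complex.norm_natCast, Complex.norm_natCast,
      Complex.norm_natCast]
    have e1 : ((N - K : ℕ) : ℝ) / K ≤ (N : ℝ) / K := by
      apply div_le_div_of_nonneg_right _ hK0.le
      rw [hM]
      linarith
    have := mul_le_mul_of_nonneg_right e1 (norm_nonneg (sig N ((N - K : ℕ) : ℝ) y))
    linarith
  by_contra hcon
  push Not at hcon
  have k1 := hcon N (by linarith) le_rfl
  have k2 := hcon ((N - K : ℕ) : ℝ) (by rw [hM]) (by rw [hM]; linarith)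
  have k3 : (N : ℝ) / K * (∫ y in R, ‖sig N N y‖) < (N : ℝ) / K * ((K : ℝ) / N * (V * volume.real R / 8)) :=
    mul_lt_mul_of_pos_left k1 (by positivity)
  have k4 : (N : ℝ) / K * (∫ y in R, ‖sig N ((N - K : ℕ) : ℝ) y‖) <
      (N : ℝ) / K * ((K : ℝ) / N * (V * volume.real R / 8)) :=
    mul_lt_mul_of_pos_left k2 (by positivity)
  have k5 : (N : ℝ) / K * ((K : ℝ) / N * (V * volume.real R / 8)) = V * volume.real R / 8 := by
    field_simp
  rw [k5] at k3 k4
  linarith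

end Pool.Agent.Helper17.L3
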