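import Pool.Agent.Helper17.L3.M1
import Pool.Agent.Helper17.L3.LL

/-!
Block L3-M2.  The low level theorem applied to the structured set.

Write `n = N`, `a = #Qs`, `B = 2^j`, `r = n vol R`, `W = a Q0 B ≤ n^d' r`.  Let `η = d'/2000` (so `1000 η = d'/2 ≤ d`), `K = ⌊n^(1-2d')/4⌋₊`
(for `N` large `1 ≤ K ≤ N/2`, `K ≥ n^(1-2d')/8`); `2 √(N K) ≤ n^(1-d')`.  `exists_fejer` with `n₀ = n^(1-d')`: `L ∈ [N/2, N]` with
`∫_R ‖sig N L‖ ≥ (K/N) V vol R/8`, and `V vol R = √(V² vol R vol R) ≥ n^(-d'/2) √r`, so it is `≥ n^(-3d') √r` for `N` large.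
`R` is covered by the `a ≥ 1` sets `cl (B/N) q`, `q ∈ Qs`, so for some `q ∈ Qs`: `∫_{cl} ‖sig N L‖ ≥ n^(-3d') √r/a`.
`low_level hη` with `t = B/N`: `t N = B ≥ 1`, `q B ≤ 2 Q0 B ≤ 2 W ≤ 2 n^d' r ≤ 2 n^(1/3 - 3d') ≤ n^(1/3 - d'/2)`, `∫ ‖F‖ ≤ n^(1/3 - d) ≤ n^(1/3 - d'/2)`:
`n^(-9d') r^(3/2) a^(-3) ≤ n^(-1/3 + d'/2) q² B³ ≤ 4 n^(-1/3 + d'/2) Q0² B³`.  With `r ≥ n^(-d') a Q0 B`:
`(a Q0 B)^(3/2) n^(-3d'/2) ≤ 4 n^(-1/3 + 19d'/2) a³ Q0² B³`, i.e. `1 ≤ 4 n^(-1/3 + 11 d') (aB)^(3/2) Q0^(1/2)`; square: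
`(a B)³ Q0 ≥ n^(2/3 - 22 d')/16 ≥ n^(2/3 - 30 d')`.
-/

namespace Pool.Agent.Helper17.L3

open MeasureTheory Filter Pool.Agent.Helper25.MOB

private theorem cont_sig (N : ℕ) (L : ℝ) : Continuous (sig N L) := by
  unfold sig
  exact continuous_finsetSum _ fun n _ => continuous_const.mul (continuous_ex n)

private theorem int_cover {f : UnitAddCircle → ℝ} (hf : Continuous f) (hf0 : ∀ y, 0 ≤ f y)
    {R : Set UnitAddCircle} (hR : MeasurableSet R) (t : ℝ) (Qs : Finset ℕ)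
    (hc : R ⊆ ⋃ q ∈ Qs, cl t q) :
    ∫ y in R, f y ≤ ∑ q ∈ Qs, ∫ y in cl t q, f y := by
  have hi : Integrable f volume :=
    hf.integrable_of_hasCompactSupport (HasCompactSupport.of_compactSpace f)
  rw [← integral_indicator hR]
  have h1 : ∀ q ∈ Qs, ∫ y in cl t q, f y = ∫ y, (cl t q).indicator f y := fun q _ =>
    (integral_indicator (measurableSet_cl t q)).symm
  rw [Finset.sum_congr rfl h1,
    ← integral_finsetSum _ fun q _ => hi.indicator (measurableSet_cl t q)]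
  apply integral_mono (hi.indicator hR)
    (integrable_finsetSum _ fun q _ => hi.indicator (measurableSet_cl t q))
  intro y
  show R.indicator f y ≤ ∑ q ∈ Qs, (cl t q).indicator f y
  by_cases hy : y ∈ R
  · have h1 := hc hy
    simp only [Set.mem_iUnion] at h1
    obtain ⟨q, hq, hyq⟩ := h1
    rw [Set.indicator_of_mem hy]
    calc f y = (cl t q).indicator f y := (Set.indicator_of_mem hyq f).symm
      _ ≤ _ := Finset.single_le_sum (f := fun q => (cl t q).indicator f y)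
          (fun i _ => Set.indicator_nonneg (fun x _ => hf0 x) y) hq
  · rw [Set.indicator_of_notMem hy]
    exact Finset.sum_nonneg fun i _ => Set.indicator_nonneg (fun x _ => hf0 x) y

private theorem fin_arith {n a B Q0 r d' J : ℝ} (hn : 1 ≤ n) (ha : 1 ≤ a) (hB : 1 ≤ B)
    (hQ : 1 ≤ Q0) (hr : 0 < r) (h16 : 16 ≤ n ^ (8 * d'))
    (h2 : a * Q0 * B ≤ n ^ d' * r)
    (hJ : n ^ (-(3 * d')) * √r ≤ a * J) (hJ0 : 0 ≤ J)
    (hJ3 : J ^ 3 ≤ n ^ (-(1 / 3) + d' / 2) * (2 * Q0) ^ 2 * B ^ 3) :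
    n ^ (2 / 3 - 30 * d') ≤ (a * B) ^ 3 * Q0 := by
  have hn0 : 0 < n := by linarith
  have ha0 : 0 < a := by linarith
  have hB0 : 0 < B := by linarith
  have hQ0 : 0 < Q0 := by linarith
  -- sixth power of the lower bound
  have e1 : (n ^ (-(3 * d')) * √r) ^ 6 = n ^ (-(18 * d')) * r ^ 3 := by
    rw [mul_pow]
    congr 1
    · rw [← Real.rpow_natCast (n ^ (-(3 * d'))) 6, ← Real.rpow_mul hn0.le]
      congr 1
      push_cast
      ring
    · have : √r ^ 2 = r := Real.sq_sqrt hr.le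
      calc √r ^ 6 = (√r ^ 2) ^ 3 := by ring
        _ = r ^ 3 := by rw [this]
  have e2 : n ^ (-(18 * d')) * r ^ 3 ≤ a ^ 6 * J ^ 6 := by
    rw [← e1, ← mul_pow]
    exact pow_le_pow_left₀ (by positivity) hJ 6
  have e3 : J ^ 6 ≤ 16 * n ^ (-(2 / 3) + d') * Q0 ^ 4 * B ^ 6 := by
    have h1 : J ^ 6 = (J ^ 3) ^ 2 := by ring
    have h3 : n ^ (-(2 / 3) + d') = (n ^ (-(1 / 3) + d' / 2)) ^ 2 := by
      rw [← Real.rpow_natCast (n ^ (-(1 / 3) + d' / 2)) 2, ← Real.rpow_mul hn0.le]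
      congr 1
      push_cast
      ring
    have h4 := pow_le_pow_left₀ (by positivity) hJ3 2
    rw [h1, h3]
    refine h4.trans (le_of_eq ?_)
    ring
  have e4 : (a * Q0 * B) ^ 3 * n ^ (-(3 * d')) ≤ r ^ 3 := by
    have h1 := pow_le_pow_left₀ (by positivity) h2 3
    have h3 : (n ^ d') ^ 3 * n ^ (-(3 * d')) = 1 := by
      rw [← Real.rpow_natCast (n ^ d') 3, ← Real.rpow_mul hn0.le, ← Real.rpow_add hn0]
      have : d' * ((3 : ℕ) : ℝ) + -(3 * d') = 0 := by push_cast; ring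
      rw [this, Real.rpow_zero]
    calc (a * Q0 * B) ^ 3 * n ^ (-(3 * d')) ≤ (n ^ d' * r) ^ 3 * n ^ (-(3 * d')) := by
          apply mul_le_mul_of_nonneg_right h1 (by positivity)
      _ = ((n ^ d') ^ 3 * n ^ (-(3 * d'))) * r ^ 3 := by ring
      _ = r ^ 3 := by rw [h3, one_mul]
  have e5 : n ^ (-(18 * d')) * ((a * Q0 * B) ^ 3 * n ^ (-(3 * d'))) ≤
      a ^ 6 * (16 * n ^ (-(2 / 3) + d') * Q0 ^ 4 * B ^ 6) :=
    (mul_le_mul_of_nonneg_left e4 (by positivity)).trans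
      (e2.trans (mul_le_mul_of_nonneg_left e3 (by positivity)))
  have e6 : n ^ (-(18 * d')) * n ^ (-(3 * d')) = n ^ (2 / 3 - 22 * d') * n ^ (-(2 / 3) + d') := by
    rw [← Real.rpow_add hn0, ← Real.rpow_add hn0]
    congr 1
    ring
  have hpos : 0 < n ^ (-(2 / 3) + d') * (a * Q0 * B) ^ 3 := by positivity
  have e7 : n ^ (2 / 3 - 22 * d') ≤ 16 * ((a * B) ^ 3 * Q0) := by
    apply le_of_mul_le_mul_right _ hpos
    calc n ^ (2 / 3 - 22 * d') * (n ^ (-(2 / 3) + d') * (a * Q0 * B) ^ 3)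
        = (n ^ (2 / 3 - 22 * d') * n ^ (-(2 / 3) + d')) * (a * Q0 * B) ^ 3 := by ring
      _ = (n ^ (-(18 * d')) * n ^ (-(3 * d'))) * (a * Q0 * B) ^ 3 := by rw [e6]
      _ = n ^ (-(18 * d')) * ((a * Q0 * B) ^ 3 * n ^ (-(3 * d'))) := by ring
      _ ≤ a ^ 6 * (16 * n ^ (-(2 / 3) + d') * Q0 ^ 4 * B ^ 6) := e5
      _ = _ := by ring
  have e8 : n ^ (2 / 3 - 22 * d') = n ^ (2 / 3 - 30 * d') * n ^ (8 * d') := by
    rw [← Real.rpow_add hn0]
    congr 1
    ring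
  have h0 : 0 < n ^ (2 / 3 - 30 * d') := by positivity
  nlinarith

theorem low_structured {d d' : ℝ} (hd' : 0 < d') (hd'1 : d' ≤ 1 / 1000) (hdd : d' ≤ d) :
    ∀ᶠ N : ℕ in atTop, ∫ y, ‖F N y‖ ≤ (N : ℝ) ^ (1 / 3 - d) →
    ∀ (R : Set UnitAddCircle) (V : ℝ) (Q0 j : ℕ) (Qs : Finset ℕ), MeasurableSet R → 0 < V →
      (∀ y ∈ R, V ≤ ‖F N y‖ ∧ ‖F N y‖ ≤ 2 * V) →
      (N : ℝ) ^ (1 - d') ≤ V ^ 2 * volume.real R → 1 ≤ Q0 →
      Qs ⊆ Finset.Ico Q0 (2 * Q0) → R ⊆ ⋃ q ∈ Qs, cl (2 ^ j / N) q →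
      (Qs.card : ℝ) * Q0 * 2 ^ j ≤ (N : ℝ) ^ d' * (N * volume.real R) →
      N * volume.real R ≤ (N : ℝ) ^ (1 / 3 - 4 * d') →
      (N : ℝ) ^ (2 / 3 - 30 * d') ≤ ((Qs.card : ℝ) * 2 ^ j) ^ 3 * Q0 := by
  have t1 := (tendsto_rpow_atTop (show 0 < 5 * d' / 2 by linarith)).comp
    (tendsto_natCast_atTop_atTop (R := ℝ))
  have t2 := (tendsto_rpow_atTop (show 0 < 8 * d' by linarith)).comp
    (tendsto_natCast_atTop_atTop (R := ℝ))
  have t3 := (tendsto_rpow_atTop (show 0 < d' / 2 by linarith)).comp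
    (tendsto_natCast_atTop_atTop (R := ℝ))
  have t4 := (tendsto_rpow_atTop (show 0 < 1 - 2 * d' by linarith)).comp
    (tendsto_natCast_atTop_atTop (R := ℝ))
  filter_upwards [low_level (η := d' / 2000) (by linarith) (by linarith),
    t1.eventually_ge_atTop 2, t2.eventually_ge_atTop 16, t3.eventually_ge_atTop 64,
    t4.eventually_ge_atTop 8, eventually_ge_atTop 1] with N hlow hb1 hb2 hb3 hb4 hN1
  simp only [Function.comp] at hb1 hb2 hb3 hb4
  intro hF R V Q0 j Qs hR hV hVR h1 hQ0 hQs hcov h2 h3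
  have hn : (1 : ℝ) ≤ N := by exact_mod_cast hN1
  have hn0 : (0 : ℝ) < N := by linarith
  set n : ℝ := (N : ℝ) with hndef
  set m : ℝ := volume.real R with hm
  have h1000 : 1000 * (d' / 2000) = d' / 2 := by ring
  rw [h1000] at hlow
  have hF' : ∫ y, ‖F N y‖ ≤ n ^ (1 / 3 - d' / 2) :=
    hF.trans (Real.rpow_le_rpow_of_exponent_le hn (by linarith))
  have hm0 : 0 < m := by
    have h4 : 0 < V ^ 2 * m := lt_of_lt_of_le (by positivity) h1
    have h5 : 0 ≤ m := measureReal_nonneg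
    rcases h5.lt_or_eq with h6 | h6
    · exact h6
    · rw [← h6] at h4; simp at h4
  have hr0 : 0 < n * m := by positivity
  -- the parameter K
  obtain ⟨K, hK⟩ : ∃ K, K = ⌊n ^ (1 - 2 * d') / 4⌋₊ := ⟨_, rfl⟩
  have hKle : (K : ℝ) ≤ n ^ (1 - 2 * d') / 4 := by
    rw [hK]; exact Nat.floor_le (by positivity)
  have hKgt : n ^ (1 - 2 * d') / 4 < K + 1 := by
    rw [hK]; exact Nat.lt_floor_add_one _
  have hK8 : n ^ (1 - 2 * d') / 8 ≤ K := by linarith
  have hK1 : 1 ≤ K := by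
    have : (1 : ℝ) ≤ K := by linarith
    exact_mod_cast this
  have hnp : n ^ (1 - 2 * d') ≤ n := by
    calc n ^ (1 - 2 * d') ≤ n ^ (1 : ℝ) := Real.rpow_le_rpow_of_exponent_le hn (by linarith)
      _ = n := Real.rpow_one n
  have hKn : (K : ℝ) ≤ n / 4 := by linarith
  have hKN : K < N := by
    have : (K : ℝ) < N := by
      have : (K : ℝ) < n := by linarith
      exact this
    exact_mod_cast this
  have hsq : 2 * √(n * K) ≤ n ^ (1 - d') := by
    have h4 : n * K ≤ (n ^ (1 - d') / 2) ^ 2 := by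
      have h5 : (n ^ (1 - d')) ^ 2 = n * n ^ (1 - 2 * d') := by
        rw [← Real.rpow_natCast (n ^ (1 - d')) 2, ← Real.rpow_mul hn0.le]
        nth_rewrite 2 [← Real.rpow_one n]
        rw [← Real.rpow_add hn0]
        congr 1
        push_cast
        ring
      rw [div_pow, h5]
      nlinarith
    have h6 : √(n * K) ≤ n ^ (1 - d') / 2 := by
      rw [Real.sqrt_le_left (by positivity)]
      exact h4
    linarith
  obtain ⟨L, hL1, hL2, hL3⟩ := exists_fejer hK1 hKN hR hV hVR h1 hsq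
  -- lower bound of the integral over R
  have hVm : n ^ (-(d' / 2)) * √(n * m) ≤ V * m := by
    have h4 : 0 ≤ V * m := by positivity
    have h5 : (n ^ (-(d' / 2)) * √(n * m)) ^ 2 ≤ (V * m) ^ 2 := by
      rw [mul_pow, Real.sq_sqrt hr0.le, ← Real.rpow_natCast (n ^ (-(d' / 2))) 2,
        ← Real.rpow_mul hn0.le]
      have h6 : n ^ (-(d' / 2) * ((2 : ℕ) : ℝ)) * (n * m) = n ^ (1 - d') * m := by
        nth_rewrite 2 [← Real.rpow_one n]
        rw [← mul_assoc, ← Real.rpow_add hn0]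
        congr 2
        push_cast
        ring
      rw [h6]
      calc n ^ (1 - d') * m ≤ (V ^ 2 * m) * m := mul_le_mul_of_nonneg_right h1 hm0.le
        _ = (V * m) ^ 2 := by ring
    exact (pow_le_pow_iff_left₀ (by positivity) h4 (by norm_num)).1 h5
  have hlowR : n ^ (-(3 * d')) * √(n * m) ≤ ∫ y in R, ‖sig N L y‖ := by
    refine le_trans ?_ hL3
    have hs0 : 0 ≤ √(n * m) := Real.sqrt_nonneg _
    have h4 : n ^ (-(2 * d')) / 8 ≤ (K : ℝ) / n := by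
      rw [le_div_iff₀ hn0]
      refine le_trans (le_of_eq ?_) hK8
      have h5 : n ^ (1 - 2 * d') = n ^ (-(2 * d')) * n := by
        nth_rewrite 3 [← Real.rpow_one n]
        rw [← Real.rpow_add hn0]
        congr 1
        ring
      rw [h5]; ring
    have h6 : n ^ (-(3 * d')) = n ^ (-(2 * d')) * n ^ (-(d' / 2)) * n ^ (-(d' / 2)) := by
      rw [← Real.rpow_add hn0, ← Real.rpow_add hn0]
      congr 1
      ring
    have h7 : n ^ (-(d' / 2)) ≤ 1 / 64 := by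
      rw [Real.rpow_neg hn0.le, ← one_div]
      exact one_div_le_one_div_of_le (by norm_num) hb3
    have h8 : 0 ≤ n ^ (-(2 * d')) * n ^ (-(d' / 2)) * √(n * m) := by positivity
    calc n ^ (-(3 * d')) * √(n * m)
        = n ^ (-(2 * d')) * n ^ (-(d' / 2)) * √(n * m) * n ^ (-(d' / 2)) := by rw [h6]; ring
      _ ≤ n ^ (-(2 * d')) * n ^ (-(d' / 2)) * √(n * m) * (1 / 64) :=
          mul_le_mul_of_nonneg_left h7 h8
      _ = n ^ (-(2 * d')) / 8 * (n ^ (-(d' / 2)) * √(n * m) / 8) := by ring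
      _ ≤ (K : ℝ) / n * (V * m / 8) :=
          mul_le_mul h4 (by linarith) (by positivity) (by positivity)
  have hcov' := int_cover (f := fun y => ‖sig N L y‖) (cont_sig N L).norm
    (fun y => norm_nonneg _) hR _ Qs hcov
  have hne : Qs.Nonempty := by
    by_contra hcon
    rw [Finset.not_nonempty_iff_eq_empty] at hcon
    rw [hcon] at hcov'
    simp only [Finset.sum_empty] at hcov'
    have : 0 < n ^ (-(3 * d')) * √(n * m) := by positivity
    linarith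
  have ha : (1 : ℝ) ≤ Qs.card := by exact_mod_cast hne.card_pos
  obtain ⟨q, hq, hqmax⟩ := Finset.exists_max_image Qs
    (fun q => ∫ y in cl (2 ^ j / n) q, ‖sig N L y‖) hne
  obtain ⟨J, hJdef⟩ : ∃ J, J = ∫ y in cl (2 ^ j / n) q, ‖sig N L y‖ := ⟨_, rfl⟩
  have hJ0 : 0 ≤ J := by rw [hJdef]; exact integral_nonneg fun y => norm_nonneg _
  have haJ : n ^ (-(3 * d')) * √(n * m) ≤ Qs.card * J := by
    refine hlowR.trans (hcov'.trans ?_)
    rw [← nsmul_eq_mul]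
    refine Finset.sum_le_card_nsmul Qs _ J fun i hi => ?_
    rw [hJdef]
    exact hqmax i hi
  -- the low level theorem
  have hqI := Finset.mem_Ico.1 (hQs hq)
  have hq1 : (q : ℝ) ≤ 2 * Q0 := by exact_mod_cast hqI.2.le
  have hQ1 : (1 : ℝ) ≤ Q0 := by exact_mod_cast hQ0
  have hB1 : (1 : ℝ) ≤ 2 ^ j := one_le_pow₀ (by norm_num)
  have htN : (2 : ℝ) ^ j / n * n = 2 ^ j := by field_simp
  have hqpos : 0 < q := by omega
  have hcond : (q : ℝ) * ((2 : ℝ) ^ j / n * n) ≤ n ^ (1 / 3 - d' / 2) := by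
    rw [htN]
    have h4 : (q : ℝ) * 2 ^ j ≤ 2 * (Qs.card * Q0 * 2 ^ j) := by
      have h5 : (q : ℝ) * 2 ^ j ≤ 2 * Q0 * 2 ^ j :=
        mul_le_mul_of_nonneg_right hq1 (by positivity)
      have h6 : (Q0 : ℝ) * 2 ^ j ≤ Qs.card * (Q0 * 2 ^ j) :=
        le_mul_of_one_le_left (by positivity) ha
      nlinarith
    have h5 : n ^ d' * (n * m) ≤ n ^ (1 / 3 - 3 * d') := by
      calc n ^ d' * (n * m) ≤ n ^ d' * n ^ (1 / 3 - 4 * d') :=
            mul_le_mul_of_nonneg_left h3 (by positivity)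
        _ = n ^ (1 / 3 - 3 * d') := by
            rw [← Real.rpow_add hn0]
            congr 1
            ring
    have h6 : 2 * n ^ (1 / 3 - 3 * d') ≤ n ^ (1 / 3 - d' / 2) := by
      have h7 : n ^ (1 / 3 - d' / 2) = n ^ (5 * d' / 2) * n ^ (1 / 3 - 3 * d') := by
        rw [← Real.rpow_add hn0]
        congr 1
        ring
      rw [h7]
      exact mul_le_mul_of_nonneg_right hb1 (by positivity)
    linarith
  have hLn : n / 2 ≤ L := by linarith
  have hJ3 := hlow hF' q L (2 ^ j / n) hqpos (by rw [htN]; exact hB1) hLn hL2 hcond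
  rw [← hJdef, htN] at hJ3
  have hJ3' : J ^ 3 ≤ n ^ (-(1 / 3) + d' / 2) * (2 * Q0) ^ 2 * (2 ^ j) ^ 3 := by
    refine hJ3.trans ?_
    apply mul_le_mul_of_nonneg_right _ (by positivity)
    apply mul_le_mul_of_nonneg_left _ (by positivity)
    exact pow_le_pow_left₀ (by positivity) hq1 2
  exact fin_arith hn ha hB1 hQ1 hr0 hb2 h2 haJ hJ0 hJ3'

end Pool.Agent.Helper17.L3
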