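import Pool.Agent.Helper17.L3.SLOW

/-!
Block L3-N0.  The numerical context and its first consequences.

Write `A = N^η`, `B = t N ≥ 1`, `Θ = N^(1/3 - 1000η)`, `ρ = rho N L w = ‖hh N L w 1 1‖`.  `XA = Θ A^100/ρ`, `XB = ρ N/(q B Θ A^100)`.
The context: `∫ ‖F N‖ ≤ Θ`, `q B ≤ Θ`, `N^(-1/3 + 1000η) q² B³ ≤ ρ³`.

Facts (for `N` large; `B ≥ 1`, `q ≥ 1`, `t L ≤ B`, all powers of `N` beat constants):
* `f_pos`: `ρ³ > 0`.   `f_le`: `ρ² ≤ 2 q t L ≤ 2 q B` by `hh_le` with `X = 1`: `2 q t = 2 q B/N ≤ 2 Θ/N ≤ 1`.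
* (low) `ρ ≥ N^(-1/9 + 333η) q^(2/3) B` (cube root).
* `f_XA`: `ρ ≤ √(2Θ)`, so `XA ≥ N^(1/3 - 900η)/√(2 N^(1/3 - 1000η)) ≥ N^(1/12)`.
* `f_XB`: `64 q t XB = 64 ρ N^(-1/3 + 900η) ≤ 64 √(2 N^(1/3-1000η)) N^(-1/3+900η) ≤ 1`.
* `f_s`: `N^(110η) q ≤ XB ρ/(B √(q B)) = ρ² N^(2/3 + 900η)/(q^(3/2) B^(5/2))`: by (low) the right side is at least
  `N^(-2/9 + 666η) q^(4/3) B² N^(2/3+900η) q^(-3/2) B^(-5/2) = N^(4/9 + 1566η) q^(-1/6) B^(-1/2)`, and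
  `q^(7/6) B^(1/2) ≤ (q B)^(7/6) ≤ N^(7/18)`, `4/9 - 7/18 = 1/18`.
* `f_z`: `N^(1000η) q B²/ρ ≤ XB/XA = ρ² N^(1/3 + 1800η)/(q B)`: equivalent to `N^(-1/3 - 800η) q² B³ ≤ ρ³`.
* `f_err`: `XA q² B/N ≤ ρ N^(-100η)`: equivalent to `q² B N^(-2/3 - 800η) ≤ ρ²`; (low): `ρ² ≥ N^(-2/9) q^(4/3) B²`, and
  `q^(2/3) ≤ N^(2/9)`.
* `f_XBN`: `XB ≤ N`: `XB ≤ √2 N^(2/3+900η)/√(qB)`.   `f_q`: `q XB ≤ L`: `XB q = ρ N^(2/3+900η)/B ≤ √(2 N^(1/3-1000η)) N^(2/3+900η) ≤ N/2`.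
-/

namespace Pool.Agent.Helper17.L3

open MeasureTheory Filter Pool.Agent.Helper25.MOB

/-- `ρ`. -/
noncomputable def rho {q : ℕ} [NeZero q] (N : ℕ) (L : ℝ) (w : (ZMod q)ˣ → ℝ → ℂ) : ℝ :=
  ‖hh N L w 1 (1 : ZMod q)‖

/-- The numerical context. -/
structure Ctx (η : ℝ) (N q : ℕ) [NeZero q] (L t : ℝ) (w : (ZMod q)ˣ → ℝ → ℂ) : Prop where
  hw : ∀ b, Ph t (w b)
  htN : 1 ≤ t * N
  hL : N / 2 ≤ L
  hLN : L ≤ N
  hF : ∫ y, ‖F N y‖ ≤ (N : ℝ) ^ (1 / 3 - 1000 * η)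
  hq : q * (t * N) ≤ (N : ℝ) ^ (1 / 3 - 1000 * η)
  hρ : (N : ℝ) ^ (-(1 / 3) + 1000 * η) * (q : ℝ) ^ 2 * (t * N) ^ 3 ≤ rho N L w ^ 3

/-- Lower end of the window. -/
noncomputable def XA (η : ℝ) (N : ℕ) (ρ : ℝ) : ℝ := (N : ℝ) ^ (1 / 3 - 900 * η) / ρ

/-- Upper end of the window. -/
noncomputable def XB (η : ℝ) (N q : ℕ) (t ρ : ℝ) : ℝ :=
  ρ * (N : ℝ) ^ (2 / 3 + 900 * η) / (q * (t * N))

/-- The numerical core: `n = N`, `B = t N`. -/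
theorem facts_core {η n q B ρ : ℝ} (hη : 0 < η) (hη1 : η ≤ 1 / 100000) (hn : 2 ^ 72 ≤ n)
    (hn2 : 64 * 2 ^ 2 ≤ n ^ (1 / 20 : ℝ))
    (hq : 1 ≤ q) (hB : 1 ≤ B) (hρ0 : 0 < ρ) (hρ2 : ρ ^ 2 ≤ 2 * (q * B))
    (hqB : q * B ≤ n ^ (1 / 3 - 1000 * η))
    (hρ : n ^ (-(1 / 3) + 1000 * η) * q ^ 2 * B ^ 3 ≤ ρ ^ 3) :
    n ^ (1 / 12 : ℝ) ≤ n ^ (1 / 3 - 900 * η) / ρ ∧
    64 * (ρ * n ^ (2 / 3 + 900 * η)) ≤ n ∧
    n ^ (110 * η) * q ≤ (ρ * n ^ (2 / 3 + 900 * η) / (q * B)) * (ρ / (B * √(q * B))) ∧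
    n ^ (1000 * η) * (q * B ^ 2 / ρ) ≤
      (ρ * n ^ (2 / 3 + 900 * η) / (q * B)) / (n ^ (1 / 3 - 900 * η) / ρ) ∧
    n ^ (1 / 3 - 900 * η) / ρ * q ^ 2 * (B / n) ≤ ρ * n ^ (-(100 * η)) ∧
    ρ * n ^ (2 / 3 + 900 * η) / (q * B) ≤ n ∧
    ρ * n ^ (2 / 3 + 900 * η) / B ≤ n / 2 ∧
    n ^ (-(1 / 2) : ℝ) ≤ ρ / (B * √(q * B)) ∧
    n ^ (1 / 3 - 900 * η) / ρ ≤ n := by
  have hn0 : 0 < n := lt_of_lt_of_le (by norm_num) hn
  have hq0 : 0 < q := by linarith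
  have hB0 : 0 < B := by linarith
  obtain ⟨r, rfl⟩ : ∃ r, ρ = Real.exp r := ⟨Real.log ρ, (Real.exp_log hρ0).symm⟩
  obtain ⟨ν, rfl⟩ : ∃ r, n = Real.exp r := ⟨Real.log n, (Real.exp_log hn0).symm⟩
  obtain ⟨a, rfl⟩ : ∃ r, q = Real.exp r := ⟨Real.log q, (Real.exp_log hq0).symm⟩
  obtain ⟨b, rfl⟩ : ∃ r, B = Real.exp r := ⟨Real.log B, (Real.exp_log hB0).symm⟩
  obtain ⟨ℓ, hℓ⟩ : ∃ ℓ : ℝ, (2 : ℝ) = Real.exp ℓ := ⟨Real.log 2, (Real.exp_log (by norm_num)).symm⟩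
  have e2 : ∀ x : ℝ, Real.exp x ^ 2 = Real.exp (2 * x) := fun x => by
    rw [← Real.exp_nat_mul]; norm_num
  have e3 : ∀ x : ℝ, Real.exp x ^ 3 = Real.exp (3 * x) := fun x => by
    rw [← Real.exp_nat_mul]; norm_num
  have ha : 0 ≤ a := by rwa [← Real.exp_zero, Real.exp_le_exp] at hq
  have hb : 0 ≤ b := by rwa [← Real.exp_zero, Real.exp_le_exp] at hB
  have hℓ0 : 0 ≤ ℓ := by
    have : Real.exp 0 ≤ Real.exp ℓ := by rw [Real.exp_zero, ← hℓ]; norm_num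
    rwa [Real.exp_le_exp] at this
  have h1 : 2 * r ≤ ℓ + (a + b) := by
    have h0 : Real.exp (2 * r) ≤ Real.exp (ℓ + (a + b)) := by
      rw [← e2, Real.exp_add, Real.exp_add, ← hℓ]
      exact hρ2
    rwa [Real.exp_le_exp] at h0
  have h2 : a + b ≤ ν * (1 / 3 - 1000 * η) := by
    rw [← Real.exp_mul, ← Real.exp_add, Real.exp_le_exp] at hqB
    exact hqB
  have h3 : ν * (-(1 / 3) + 1000 * η) + 2 * a + 3 * b ≤ 3 * r := by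
    rw [e2, e3, e3, ← Real.exp_mul, ← Real.exp_add, ← Real.exp_add, Real.exp_le_exp] at hρ
    exact hρ
  have h4 : 8 * ℓ ≤ ν * (1 / 20) := by
    have : (64 * 2 ^ 2 : ℝ) = Real.exp (8 * ℓ) := by
      have : Real.exp (8 * ℓ) = Real.exp ℓ ^ 8 := by rw [← Real.exp_nat_mul]; norm_num
      rw [this, ← hℓ]; norm_num
    rw [this, ← Real.exp_mul, Real.exp_le_exp] at hn2
    exact hn2
  have h5 : 72 * ℓ ≤ ν := by
    have : (2 ^ 72 : ℝ) = Real.exp (72 * ℓ) := by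
      have : Real.exp (72 * ℓ) = Real.exp ℓ ^ 72 := by rw [← Real.exp_nat_mul]; norm_num
      rw [this, ← hℓ]
    rw [this, Real.exp_le_exp] at hn
    exact hn
  have hν : 0 ≤ ν := by linarith
  obtain ⟨h, hh⟩ : ∃ h, h = ν * η := ⟨_, rfl⟩
  have hh0 : 0 ≤ h := by rw [hh]; positivity
  have hh1 : h ≤ ν / 100000 := by
    rw [hh]
    have := mul_le_mul_of_nonneg_left hη1 hν
    linarith
  have h2' : a + b ≤ ν / 3 - 1000 * h := by rw [hh]; linarith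
  have h3' : -(ν / 3) + 1000 * h + 2 * a + 3 * b ≤ 3 * r := by rw [hh]; linarith
  have hs : √(Real.exp a * Real.exp b) = Real.exp ((a + b) / 2) := by
    rw [← Real.exp_add, Real.sqrt_eq_rpow, ← Real.exp_mul]
    congr 1
    ring
  have p1 : ∀ c : ℝ, Real.exp ν ^ (c * η) = Real.exp (c * h) := fun c => by
    rw [← Real.exp_mul, hh]; congr 1; ring
  have p2 : Real.exp ν ^ (1 / 3 - 900 * η) = Real.exp (ν / 3 - 900 * h) := by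
    rw [← Real.exp_mul, hh]; congr 1; ring
  have p3 : Real.exp ν ^ (2 / 3 + 900 * η) = Real.exp (2 * ν / 3 + 900 * h) := by
    rw [← Real.exp_mul, hh]; congr 1; ring
  have p4 : Real.exp ν ^ (-(100 * η)) = Real.exp (-(100 * h)) := by
    rw [← Real.exp_mul, hh]; congr 1; ring
  have p5 : (64 : ℝ) = Real.exp (6 * ℓ) := by
    have : Real.exp (6 * ℓ) = Real.exp ℓ ^ 6 := by rw [← Real.exp_nat_mul]; norm_num
    rw [this, ← hℓ]; norm_num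
  have p6 : Real.exp ν / 2 = Real.exp (ν - ℓ) := by rw [Real.exp_sub, ← hℓ]
  rw [hs, p1, p1, p2, p3, p4, p6]
  refine ⟨?_, ?_, ?_, ?_, ?_, ?_, ?_, ?_, ?_⟩
  · rw [← Real.exp_mul, ← Real.exp_sub, Real.exp_le_exp]
    linarith
  · rw [p5, ← Real.exp_add, ← Real.exp_add, Real.exp_le_exp]
    linarith
  · simp only [← Real.exp_add, ← Real.exp_sub]
    rw [Real.exp_le_exp]
    linarith
  · simp only [e2, ← Real.exp_add, ← Real.exp_sub]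
    rw [Real.exp_le_exp]
    linarith
  · simp only [e2, ← Real.exp_add, ← Real.exp_sub]
    rw [Real.exp_le_exp]
    linarith
  · simp only [← Real.exp_add, ← Real.exp_sub]
    rw [Real.exp_le_exp]
    linarith
  · simp only [← Real.exp_add, ← Real.exp_sub]
    rw [Real.exp_le_exp]
    linarith
  · rw [← Real.exp_mul]
    simp only [← Real.exp_add, ← Real.exp_sub]
    rw [Real.exp_le_exp]
    linarith
  · rw [← Real.exp_sub, Real.exp_le_exp]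
    linarith

theorem ctx_facts {η : ℝ} (hη : 0 < η) (hη1 : η ≤ 1 / 100000) : ∀ᶠ N : ℕ in atTop,
    ∀ (q : ℕ) [NeZero q] (L t : ℝ) (w : (ZMod q)ˣ → ℝ → ℂ), Ctx η N q L t w →
      0 < rho N L w ∧ rho N L w ^ 2 ≤ 2 * (q * (t * N)) ∧
      (N : ℝ) ^ (1 / 12 : ℝ) ≤ XA η N (rho N L w) ∧
      64 * q * t * XB η N q t (rho N L w) ≤ 1 ∧
      (N : ℝ) ^ (110 * η) * q ≤
        XB η N q t (rho N L w) * (rho N L w / (t * N * √(q * (t * N)))) ∧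
      (N : ℝ) ^ (1000 * η) * (q * (t * N) ^ 2 / rho N L w) ≤
        XB η N q t (rho N L w) / XA η N (rho N L w) ∧
      XA η N (rho N L w) * (q : ℝ) ^ 2 * t ≤ rho N L w * (N : ℝ) ^ (-(100 * η)) ∧
      XB η N q t (rho N L w) ≤ N ∧ q * XB η N q t (rho N L w) ≤ L ∧
      (N : ℝ) ^ (-(1 / 2) : ℝ) ≤ rho N L w / (t * N * √(q * (t * N))) ∧
      XA η N (rho N L w) ≤ N := by
  have hev : ∀ᶠ N : ℕ in atTop, (64 * 2 ^ 2 : ℝ) ≤ (N : ℝ) ^ (1 / 20 : ℝ) :=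
    ((tendsto_rpow_atTop (by norm_num)).comp tendsto_natCast_atTop_atTop).eventually_ge_atTop _
  filter_upwards [hev, eventually_ge_atTop (2 ^ 72)] with N hN20 hN q _ L t w hC
  have hn72 : (2 : ℝ) ^ 72 ≤ N := by exact_mod_cast hN
  have hn1 : (1 : ℝ) ≤ N := le_trans (by norm_num) hn72
  have hn0 : (0 : ℝ) < N := by linarith
  have hq1 : (1 : ℝ) ≤ q := by
    have := NeZero.pos q
    exact_mod_cast this
  have hB := hC.htN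
  have ht0 : 0 < t := by
    by_contra hh
    push Not at hh
    nlinarith
  have hL0 : 0 < L := lt_of_lt_of_le (by linarith) hC.hL
  have hρ0 : 0 < rho N L w := by
    have h1 : 0 < rho N L w ^ 3 := lt_of_lt_of_le (by positivity) hC.hρ
    by_contra hh
    push Not at hh
    have h2 : 0 ≤ rho N L w := norm_nonneg _
    have h3 : rho N L w = 0 := le_antisymm hh h2
    rw [h3] at h1
    norm_num at h1
  -- 2 q t ≤ 1
  have hqt : 2 * (q : ℝ) * (t * 1) ≤ 1 := by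
    have h1 : (N : ℝ) ^ (1 / 3 - 1000 * η) ≤ √(N : ℝ) := by
      rw [Real.sqrt_eq_rpow]
      exact Real.rpow_le_rpow_of_exponent_le hn1 (by linarith)
    have h3 : √(N : ℝ) ≤ N / 2 := by
      rw [Real.sqrt_le_left (by linarith)]
      nlinarith
    have h4 : q * (t * N) ≤ N / 2 := hC.hq.trans (h1.trans h3)
    have h5 : (2 * (q : ℝ) * (t * 1)) * N ≤ 1 * N := by linarith
    exact le_of_mul_le_mul_right h5 hn0
  have hρ2 : rho N L w ^ 2 ≤ 2 * (q * (t * N)) := by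
    have h1 := hh_le hC.hw ht0 hL0 (X := 1) one_pos hqt (N := N) 1
    have h2 : rho N L w ≤ √(2 * q * (t * L)) := by
      unfold rho
      simpa using h1
    have h3 : rho N L w ^ 2 ≤ 2 * q * (t * L) := by
      have := pow_le_pow_left₀ hρ0.le h2 2
      rwa [Real.sq_sqrt (by positivity)] at this
    refine h3.trans ?_
    have h4 : t * L ≤ t * N := mul_le_mul_of_nonneg_left hC.hLN ht0.le
    nlinarith
  obtain ⟨c1, c2, c3, c4, c5, c6, c7, c8, c9⟩ := facts_core hη hη1 hn72 hN20 hq1 hB hρ0 hρ2 hC.hq hC.hρ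
  refine ⟨hρ0, hρ2, c1, ?_, c3, c4, ?_, c6, ?_, c8, c9⟩
  · unfold XB
    have h1 : 64 * (q : ℝ) * t * (rho N L w * (N : ℝ) ^ (2 / 3 + 900 * η) / (q * (t * N))) =
        64 * (rho N L w * (N : ℝ) ^ (2 / 3 + 900 * η)) / N := by
      field_simp
    rw [h1, div_le_one hn0]
    exact c2
  · unfold XA
    have h1 : t = t * N / N := by field_simp
    rw [h1]
    exact c5
  · unfold XB
    have h1 : (q : ℝ) * (rho N L w * (N : ℝ) ^ (2 / 3 + 900 * η) / (q * (t * N))) =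
        rho N L w * (N : ℝ) ^ (2 / 3 + 900 * η) / (t * N) := by
      field_simp
    rw [h1]
    exact c7.trans hC.hL

end Pool.Agent.Helper17.L3
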