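import Pool.Agent.Helper17.L3.D

/-!
Block L3-PTS.  The points `g b / q + a / p` are separated.

`D = pnt p g b a - pnt p' g' b' a'` is killed by `q p p'` (if `p = p'`: by `q p`).  It is not `0`:
* `p ≠ p'`: if `D = 0` then `a/p - a'/p' = (g'b' - gb)/q` in the circle; multiply by `q p'`: `q p' a / p ∈ ℤ` (the other terms
  `q p' a'/p' = q a'` and `q (g'b' - g b) p'/q` vanish in the circle), so `p ∣ q p' a`; but `p` is prime,
  `p ∤ q`, `p ≠ p'` primes, `0 < a < p`: a contradiction.
* `p = p'`, `g = g'`: `D = 0` gives `(a - a')/p = g (b' - b)/q`; multiply by `q`: `p ∣ q (a - a')`, so `a = a'` (both in `[1, p-1]`);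
  then `g b = g b'` in `ZMod q` (`ZMod.toAddCircle_injective`), so `b = b'`, against `hne`.
A nonzero point of the circle killed by `k ≥ 1` has norm `≥ 1/k` (`one_le_norm_of_torsion` in
`Helper25.MOB.Pt`: read its statement), and `q p p' ≤ 4 q X²` (also `q p ≤ 4 q X²`).
-/

namespace Pool.Agent.Helper17.L3

open MeasureTheory Pool.Agent.Helper25.MOB

private theorem aux36_frac (k a p : ℕ) :
    k • (((a : ℝ) / p : ℝ) : UnitAddCircle) = (((k * a : ℕ) : ℝ) / p : ℝ) := by
  rw [← AddCircle.coe_nsmul, nsmul_eq_mul]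
  congr 1
  push_cast
  ring

private theorem aux36_zero {c p : ℕ} (hp : 0 < p)
    (h : (((c : ℝ) / p : ℝ) : UnitAddCircle) = 0) : p ∣ c := by
  rw [AddCircle.coe_eq_zero_iff] at h
  obtain ⟨z, hz⟩ := h
  have hp' : (p : ℝ) ≠ 0 := by exact_mod_cast hp.ne'
  have h1 : (z : ℝ) * p = c := by
    rw [zsmul_eq_mul, mul_one] at hz
    rw [hz]
    field_simp
  have h2 : z * (p : ℤ) = (c : ℤ) := by exact_mod_cast h1
  have h3 : (p : ℤ) ∣ (c : ℤ) := ⟨z, by rw [← h2, mul_comm]⟩
  exact_mod_cast h3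

private theorem aux36_kill (a p k : ℕ) (hp : 0 < p) :
    (p * k) • (((a : ℝ) / p : ℝ) : UnitAddCircle) = 0 := by
  rw [aux36_frac]
  have hp' : (p : ℝ) ≠ 0 := by exact_mod_cast hp.ne'
  have h1 : (((p * k * a : ℕ) : ℝ) / p : ℝ) = (((k * a : ℕ) : ℤ) : ℝ) := by
    push_cast
    field_simp
  rw [h1, AddCircle.coe_eq_zero_iff]
  exact ⟨((k * a : ℕ) : ℤ), by rw [zsmul_eq_mul, mul_one]⟩

private theorem aux36_tor {q : ℕ} [NeZero q] (x : ZMod q) (k : ℕ) :
    (q * k) • (ZMod.toAddCircle x : UnitAddCircle) = 0 := by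
  rw [← map_nsmul, nsmul_eq_mul, Nat.cast_mul, ZMod.natCast_self, zero_mul, zero_mul, map_zero]

theorem pnt_sep {q : ℕ} [NeZero q] {X p p' : ℕ} (hp : p.Prime) (hp' : p'.Prime)
    (h1 : p < 2 * X) (h1' : p' < 2 * X) (hq : ¬ p ∣ q) (hq' : ¬ p' ∣ q) (g g' b b' : (ZMod q)ˣ)
    (a a' : ℕ) (ha : a ∈ Finset.Icc 1 (p - 1)) (ha' : a' ∈ Finset.Icc 1 (p' - 1))
    (hg : p = p' → g = g') (hne : ¬ (p = p' ∧ b = b' ∧ a = a')) :
    1 / (4 * (q : ℝ) * (X : ℝ) ^ 2) ≤
      ‖pnt p (g : ZMod q) b a - pnt p' (g' : ZMod q) b' a'‖ := by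
  have hp0 : 0 < p := hp.pos
  have hp0' : 0 < p' := hp'.pos
  have hq0 : 0 < q := Nat.pos_of_ne_zero (NeZero.ne q)
  rw [Finset.mem_Icc] at ha ha'
  set D : UnitAddCircle := pnt p (g : ZMod q) b a - pnt p' (g' : ZMod q) b' a' with hD
  have hkill : (q * (p * p')) • D = 0 := by
    rw [hD, nsmul_sub]
    unfold pnt
    rw [nsmul_add, nsmul_add, aux36_tor, aux36_tor]
    have e1 : (q * (p * p')) = p * (q * p') := by ring
    have e2 : (q * (p * p')) = p' * (q * p) := by ring
    have h3 : (q * (p * p')) • (((a : ℝ) / p : ℝ) : UnitAddCircle) = 0 := by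
      rw [e1]
      exact aux36_kill a p _ hp0
    have h4 : (q * (p * p')) • (((a' : ℝ) / p' : ℝ) : UnitAddCircle) = 0 := by
      rw [e2]
      exact aux36_kill a' p' _ hp0'
    rw [h3, h4, sub_self]
  have hne0 : D ≠ 0 := by
    intro h0
    have h1 : pnt p (g : ZMod q) b a = pnt p' (g' : ZMod q) b' a' := sub_eq_zero.1 h0
    by_cases hpp : p = p'
    · subst hpp
      have hgg := hg rfl
      subst hgg
      have h2 : (q * 1) • pnt p (g : ZMod q) b a = (q * 1) • pnt p (g : ZMod q) b' a' := by rw [h1]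
      unfold pnt at h2
      rw [nsmul_add, nsmul_add, aux36_tor, aux36_tor, zero_add, zero_add, aux36_frac, aux36_frac] at h2
      have h3 : a = a' := by
        rcases le_total a a' with h | h
        · have h4 : ((((q * 1 * (a' - a) : ℕ) : ℝ) / p : ℝ) : UnitAddCircle) = 0 := by
            have h5 : (((q * 1 * (a' - a) : ℕ) : ℝ) / p : ℝ) =
                ((q * 1 * a' : ℕ) : ℝ) / p - ((q * 1 * a : ℕ) : ℝ) / p := by
              rw [Nat.mul_sub, Nat.cast_sub (Nat.mul_le_mul_left _ h)]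
              ring
            rw [h5, AddCircle.coe_sub, h2, sub_self]
          have h6 := aux36_zero hp0 h4
          rw [mul_one] at h6
          rcases (Nat.Prime.dvd_mul hp).1 h6 with h7 | h7
          · exact absurd h7 hq
          · rcases Nat.eq_zero_or_pos (a' - a) with h8 | h8
            · omega
            · have h9 := Nat.le_of_dvd h8 h7
              omega
        · have h4 : ((((q * 1 * (a - a') : ℕ) : ℝ) / p : ℝ) : UnitAddCircle) = 0 := by
            have h5 : (((q * 1 * (a - a') : ℕ) : ℝ) / p : ℝ) =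
                ((q * 1 * a : ℕ) : ℝ) / p - ((q * 1 * a' : ℕ) : ℝ) / p := by
              rw [Nat.mul_sub, Nat.cast_sub (Nat.mul_le_mul_left _ h)]
              ring
            rw [h5, AddCircle.coe_sub, h2, sub_self]
          have h6 := aux36_zero hp0 h4
          rw [mul_one] at h6
          rcases (Nat.Prime.dvd_mul hp).1 h6 with h7 | h7
          · exact absurd h7 hq
          · rcases Nat.eq_zero_or_pos (a - a') with h8 | h8
            · omega
            · have h9 := Nat.le_of_dvd h8 h7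
              omega
      subst h3
      unfold pnt at h1
      have h4 := add_right_cancel h1
      have h5 := ZMod.toAddCircle_injective q h4
      have h6 : (b : ZMod q) = b' := by
        have h7 : ((g⁻¹ : (ZMod q)ˣ) : ZMod q) * ((g : ZMod q) * (b : ZMod q)) =
            ((g⁻¹ : (ZMod q)ˣ) : ZMod q) * ((g : ZMod q) * (b' : ZMod q)) := by rw [h5]
        rwa [← mul_assoc, ← mul_assoc, Units.inv_mul, one_mul, one_mul] at h7
      exact hne ⟨rfl, Units.ext h6, rfl⟩
    · have h2 : (q * p') • pnt p (g : ZMod q) b a = (q * p') • pnt p' (g' : ZMod q) b' a' := by rw [h1]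
      unfold pnt at h2
      rw [nsmul_add, nsmul_add, aux36_tor, aux36_tor, zero_add, zero_add] at h2
      have h3 : (q * p') • (((a' : ℝ) / p' : ℝ) : UnitAddCircle) = 0 := by
        rw [mul_comm q p']
        exact aux36_kill a' p' _ hp0'
      rw [h3, aux36_frac] at h2
      have h4 := aux36_zero hp0 h2
      rcases (Nat.Prime.dvd_mul hp).1 h4 with h5 | h5
      · rcases (Nat.Prime.dvd_mul hp).1 h5 with h6 | h6
        · exact hq h6
        · exact hpp ((Nat.prime_dvd_prime_iff_eq hp hp').1 h6)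
      · have h6 := Nat.le_of_dvd (by omega) h5
        omega
  have hpos : 0 < q * (p * p') := Nat.mul_pos hq0 (Nat.mul_pos hp0 hp0')
  refine le_trans ?_ (one_le_norm_of_torsion hpos hkill hne0)
  have hpR : (p : ℝ) ≤ 2 * X := by exact_mod_cast h1.le
  have hpR' : (p' : ℝ) ≤ 2 * X := by exact_mod_cast h1'.le
  have hposR : (0 : ℝ) < ((q * (p * p') : ℕ) : ℝ) := by exact_mod_cast hpos
  refine one_div_le_one_div_of_le hposR ?_
  push_cast
  have h5 : (p : ℝ) * p' ≤ (2 * X) * (2 * X) :=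
    mul_le_mul hpR hpR' (Nat.cast_nonneg _) (by positivity)
  calc (q : ℝ) * ((p : ℝ) * p') ≤ q * ((2 * X) * (2 * X)) :=
        mul_le_mul_of_nonneg_left h5 (Nat.cast_nonneg _)
    _ = 4 * (q : ℝ) * (X : ℝ) ^ 2 := by ring

end Pool.Agent.Helper17.L3
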