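import Mathlib

/-!
Block L3-SEP.  Sums over separated points of the circle.

Write `x - y i = u i` with `u i ∈ (-1/2, 1/2]` (lift, `|u i| = ‖x - y i‖`); `|u i - u j| ≥ ‖y i - y j‖ ≥ d` for `i ≠ j`, so
`i ↦ k i = ⌊u i / d⌋` is injective on `s`, and `|u i| ≥ d m` with `m = m(k) = k` for `k ≥ 0`, `m = -k-1` for `k < 0`.
So, with `τ = t / d`, `v i ≤ min 1 (c τ² / m²)` and every `m ≥ 0` is attained by at most two `i`:
`∑ v i ≤ 2 ∑_{m ≥ 0} min(1, c τ²/m²) ≤ 2 (1 + τ + c τ² ∑_{m > τ} 1/m²) ≤ 2 (1 + τ + 2 c τ)` (`m = 0` and `1 ≤ m ≤ τ`: terms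
`≤ 1`; `∑_{m ≥ M} 1/m² ≤ 2/M`, `M = ⌊τ⌋ + 1 > τ`), which is `≤ (2 + 8c)(1 + τ)`.
(Any other proof is fine: e.g. dyadic shells, the number of `i` with `‖x - y i‖ ≤ s` is at most `1 + 2 s/d`.)
-/

namespace Pool.Agent.Helper17.L3

private theorem half56 {ι : Type*} (s : Finset ι) (w : ι → ℝ) {d t c : ℝ} (hd : 0 < d)
    (ht : 0 < t) (hc : 0 ≤ c) (hw : ∀ i ∈ s, 0 ≤ w i)
    (hy : ∀ i ∈ s, ∀ j ∈ s, i ≠ j → d ≤ |w i - w j|)
    (v : ι → ℝ) (hv0 : ∀ i ∈ s, 0 ≤ v i) (hv1 : ∀ i ∈ s, v i ≤ 1)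
    (hv2 : ∀ i ∈ s, v i * w i ^ 2 ≤ c * t ^ 2) :
    ∑ i ∈ s, v i ≤ (1 + 4 * c) * (1 + t / d) := by
  classical
  set m : ι → ℕ := fun i => ⌊w i / d⌋₊ with hm
  set k : ℕ := ⌊t / d⌋₊ with hk
  have hτ : 0 < t / d := by positivity
  have hinj : ∀ i ∈ s, ∀ j ∈ s, m i = m j → i = j := by
    intro i hi j hj hij
    by_contra hne
    have h1 := hy i hi j hj hne
    have hi0 : 0 ≤ w i / d := div_nonneg (hw i hi) hd.le
    have hj0 : 0 ≤ w j / d := div_nonneg (hw j hj) hd.le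
    have a1 := Nat.floor_le hi0
    have a2 := Nat.lt_floor_add_one (w i / d)
    have b1 := Nat.floor_le hj0
    have b2 := Nat.lt_floor_add_one (w j / d)
    have hij' : (⌊w i / d⌋₊ : ℝ) = (⌊w j / d⌋₊ : ℝ) := by exact_mod_cast hij
    rw [hij'] at a1 a2
    have h2 : |w i / d - w j / d| < 1 := by
      rw [abs_lt]
      constructor <;> linarith
    have h3 : |w i - w j| < d := by
      have h4 : w i / d - w j / d = (w i - w j) / d := by ring
      rw [h4, abs_div, abs_of_pos hd, div_lt_one hd] at h2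
      exact h2
    linarith
  have hA : ∑ i ∈ s.filter (fun i => m i ≤ k), v i ≤ 1 + t / d := by
    have h1 : ∑ i ∈ s.filter (fun i => m i ≤ k), v i ≤ ∑ i ∈ s.filter (fun i => m i ≤ k), (1 : ℝ) :=
      Finset.sum_le_sum fun i hi => hv1 i (Finset.mem_filter.1 hi).1
    have h2 : (s.filter (fun i => m i ≤ k)).card ≤ (Finset.range (k + 1)).card := by
      apply Finset.card_le_card_of_injOn m
      · intro i hi
        have := (Finset.mem_filter.1 hi).2
        exact Finset.mem_coe.2 (Finset.mem_range.2 (Nat.lt_succ_of_le this))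
      · intro i hi j hj hij
        exact hinj i (Finset.mem_filter.1 hi).1 j (Finset.mem_filter.1 hj).1 hij
    rw [Finset.card_range] at h2
    have h3 : ((s.filter (fun i => m i ≤ k)).card : ℝ) ≤ (k : ℝ) + 1 := by exact_mod_cast h2
    have h4 : (k : ℝ) ≤ t / d := Nat.floor_le hτ.le
    rw [Finset.sum_const, nsmul_eq_mul, mul_one] at h1
    linarith
  have hB : ∑ i ∈ s.filter (fun i => ¬ m i ≤ k), v i ≤ 2 * c * (t / d) := by
    have h1 : ∀ i ∈ s.filter (fun i => ¬ m i ≤ k), v i ≤ c * (t / d) ^ 2 * (((m i : ℕ) : ℝ) ^ 2)⁻¹ := by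
      intro i hi
      obtain ⟨his, hik⟩ := Finset.mem_filter.1 hi
      have hm1 : 1 ≤ m i := by omega
      have hm1' : (0 : ℝ) < m i := by exact_mod_cast hm1
      have h2 : (m i : ℝ) ≤ w i / d := Nat.floor_le (div_nonneg (hw i his) hd.le)
      have h3 : (m i : ℝ) * d ≤ w i := by
        rw [le_div_iff₀ hd] at h2
        exact h2
      have h4 : ((m i : ℝ) * d) ^ 2 ≤ w i ^ 2 := pow_le_pow_left₀ (by positivity) h3 2
      have h5 : v i * ((m i : ℝ) * d) ^ 2 ≤ c * t ^ 2 :=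
        (mul_le_mul_of_nonneg_left h4 (hv0 i his)).trans (hv2 i his)
      have h6 : v i ≤ c * t ^ 2 / ((m i : ℝ) * d) ^ 2 := by
        rw [le_div_iff₀ (by positivity)]
        exact h5
      refine h6.trans (le_of_eq ?_)
      field_simp
    have h2 : ∑ i ∈ s.filter (fun i => ¬ m i ≤ k), (((m i : ℕ) : ℝ) ^ 2)⁻¹ ≤ 2 / ((k : ℝ) + 1) := by
      have h3 : ∑ i ∈ s.filter (fun i => ¬ m i ≤ k), (((m i : ℕ) : ℝ) ^ 2)⁻¹ =
          ∑ n ∈ (s.filter (fun i => ¬ m i ≤ k)).image m, ((n : ℝ) ^ 2)⁻¹ := by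
        rw [Finset.sum_image]
        intro i hi j hj hij
        exact hinj i (Finset.mem_filter.1 hi).1 j (Finset.mem_filter.1 hj).1 hij
      rw [h3]
      refine le_trans ?_ (sum_Ioo_inv_sq_le k (((s.filter (fun i => ¬ m i ≤ k)).image m).sup id + 1))
      apply Finset.sum_le_sum_of_subset_of_nonneg
      · intro n hn
        obtain ⟨i, hi, rfl⟩ := Finset.mem_image.1 hn
        have hik := (Finset.mem_filter.1 hi).2
        rw [Finset.mem_Ioo]
        refine ⟨by omega, ?_⟩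
        have := Finset.le_sup (f := id) hn
        simp only [id] at this
        exact Nat.lt_succ_of_le this
      · intro n _ _
        positivity
    have h3 : (t / d) < (k : ℝ) + 1 := Nat.lt_floor_add_one _
    calc ∑ i ∈ s.filter (fun i => ¬ m i ≤ k), v i
        ≤ ∑ i ∈ s.filter (fun i => ¬ m i ≤ k), c * (t / d) ^ 2 * (((m i : ℕ) : ℝ) ^ 2)⁻¹ :=
          Finset.sum_le_sum h1
      _ = c * (t / d) ^ 2 * ∑ i ∈ s.filter (fun i => ¬ m i ≤ k), (((m i : ℕ) : ℝ) ^ 2)⁻¹ := by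
          rw [Finset.mul_sum]
      _ ≤ c * (t / d) ^ 2 * (2 / ((k : ℝ) + 1)) :=
          mul_le_mul_of_nonneg_left h2 (by positivity)
      _ ≤ c * (t / d) ^ 2 * (2 / (t / d)) := by
          apply mul_le_mul_of_nonneg_left _ (by positivity)
          exact div_le_div_of_nonneg_left (by norm_num) hτ h3.le
      _ = 2 * c * (t / d) := by
          field_simp
  rw [← Finset.sum_filter_add_sum_filter_not s (fun i => m i ≤ k)]
  have h5 : 0 ≤ c * (t / d) := by positivity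
  calc ∑ i ∈ s.filter (fun i => m i ≤ k), v i + ∑ i ∈ s.filter (fun i => ¬ m i ≤ k), v i
      ≤ (1 + t / d) + 2 * c * (t / d) := add_le_add hA hB
    _ ≤ (1 + 4 * c) * (1 + t / d) := by nlinarith

theorem sep_sum {ι : Type*} (s : Finset ι) (y : ι → UnitAddCircle) {d t c : ℝ} (hd : 0 < d)
    (ht : 0 < t) (hc : 0 ≤ c) (hy : ∀ i ∈ s, ∀ j ∈ s, i ≠ j → d ≤ ‖y i - y j‖)
    (x : UnitAddCircle) (v : ι → ℝ) (hv0 : ∀ i ∈ s, 0 ≤ v i) (hv1 : ∀ i ∈ s, v i ≤ 1)
    (hv2 : ∀ i ∈ s, v i * ‖x - y i‖ ^ 2 ≤ c * t ^ 2) :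
    ∑ i ∈ s, v i ≤ (2 + 8 * c) * (1 + t / d) := by
  classical
  -- lifts
  have hlift : ∀ z : UnitAddCircle, ∃ u : ℝ, (u : UnitAddCircle) = z ∧ |u| = ‖z‖ := by
    intro z
    induction z using QuotientAddGroup.induction_on with
    | H r =>
      refine ⟨r - round r, ?_, ?_⟩
      · rw [AddCircle.coe_sub]
        have : (((round r : ℤ) : ℝ) : UnitAddCircle) = 0 := by
          have h := AddCircle.coe_eq_zero_iff (p := (1 : ℝ)) (x := ((round r : ℤ) : ℝ))
          exact h.2 ⟨round r, by simp⟩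
        rw [this, sub_zero]
      · exact (UnitAddCircle.norm_eq (x := r)).symm
  choose U hU1 hU2 using hlift
  set u : ι → ℝ := fun i => U (x - y i) with hu
  have hsep : ∀ i ∈ s, ∀ j ∈ s, i ≠ j → d ≤ |u i - u j| := by
    intro i hi j hj hij
    have h1 := hy i hi j hj hij
    have h2 : ((u i - u j : ℝ) : UnitAddCircle) = y j - y i := by
      rw [AddCircle.coe_sub]
      simp only [hu, hU1]
      abel
    have h3 : ‖((u i - u j : ℝ) : UnitAddCircle)‖ ≤ |u i - u j| := by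
      rw [UnitAddCircle.norm_eq]
      have := round_le (u i - u j) 0
      simpa using this
    rw [h2, norm_sub_rev] at h3
    exact h1.trans h3
  have hpos := half56 (s.filter (fun i => 0 ≤ u i)) u hd ht hc
    (fun i hi => (Finset.mem_filter.1 hi).2)
    (fun i hi j hj hij => hsep i (Finset.mem_filter.1 hi).1 j (Finset.mem_filter.1 hj).1 hij)
    v (fun i hi => hv0 i (Finset.mem_filter.1 hi).1) (fun i hi => hv1 i (Finset.mem_filter.1 hi).1)
    (fun i hi => by
      have h1 := hv2 i (Finset.mem_filter.1 hi).1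
      rw [← hU2 (x - y i), sq_abs] at h1
      exact h1)
  have hneg := half56 (s.filter (fun i => ¬ 0 ≤ u i)) (fun i => - u i) hd ht hc
    (fun i hi => by
      have := (Finset.mem_filter.1 hi).2
      show 0 ≤ - u i
      linarith)
    (fun i hi j hj hij => by
      have h1 := hsep i (Finset.mem_filter.1 hi).1 j (Finset.mem_filter.1 hj).1 hij
      show d ≤ |- u i - - u j|
      have h2 : - u i - - u j = -(u i - u j) := by ring
      rw [h2, abs_neg]
      exact h1)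
    v (fun i hi => hv0 i (Finset.mem_filter.1 hi).1) (fun i hi => hv1 i (Finset.mem_filter.1 hi).1)
    (fun i hi => by
      have h1 := hv2 i (Finset.mem_filter.1 hi).1
      rw [← hU2 (x - y i), sq_abs] at h1
      show v i * (- u i) ^ 2 ≤ c * t ^ 2
      rw [neg_sq]
      exact h1)
  rw [← Finset.sum_filter_add_sum_filter_not s (fun i => 0 ≤ u i)]
  calc ∑ i ∈ s.filter (fun i => 0 ≤ u i), v i + ∑ i ∈ s.filter (fun i => ¬ 0 ≤ u i), v i
      ≤ (1 + 4 * c) * (1 + t / d) + (1 + 4 * c) * (1 + t / d) := add_le_add hpos hneg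
    _ = (2 + 8 * c) * (1 + t / d) := by ring

end Pool.Agent.Helper17.L3
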