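import Pool.Agent.Helper17.L3.C2
import Pool.Agent.Helper17.L3.K2
import Pool.Agent.Helper17.L3.SEP
import Pool.Agent.Helper17.L3.PTS

/-!
Block L3-S1.  The inequality of the copies.

Choose `c p ∈ ℂ`, `‖c p‖ = 1` (or `0`), with `c p * (hh r g + hh (r p) (g p)) = ‖..‖`.  Put `T x = ∑_{p ∈ P} c p TT N L (r p) w p (g p) x`.
By `copy` `∑_p ‖hh + hh‖ ≤ ‖∫ F T‖ + ∑_p 2 q L t / p ≤ sup ‖T‖ ∫ ‖F‖ + #P 2 q L t / X`.
`‖T x‖ ≤ ∑_{p, b, a} ‖ker N L (r p) (w b) (x - pnt p (g p) b a)‖`; apply `sep_sum` to the index set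
`{(p, b, a)}` (a `Finset.sigma`, or a product with a filter), `y = pnt`, `d = 1/(4 q X²)` (`pnt_sep`), `c = 2048`
(`ker_decay`, `r ≤ 16`: `8 r² t² ≤ 2048 t²`), `ker_le_one`: the sum is at most `16386 (1 + 4 q X² t)`.
`32 t ≤ 1` gives `2 r t ≤ 1`; `r ≤ 16 ≤ L`.
-/

namespace Pool.Agent.Helper17.L3

open MeasureTheory Pool.Agent.Helper25.MOB

theorem S1 {q : ℕ} [NeZero q] {N X : ℕ} {L t : ℝ} {w : (ZMod q)ˣ → ℝ → ℂ}
    (hw : ∀ b, Ph t (w b)) (ht : 0 < t) (hL : 16 ≤ L) (hLN : L ≤ N) (htL : 1 / 2 ≤ t * L)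
    (ht1 : 32 * t ≤ 1) (hX : 1 ≤ X) (P : Finset ℕ)
    (hP : ∀ p ∈ P, p.Prime ∧ X ≤ p ∧ p < 2 * X ∧ ¬ p ∣ q) (r : ℕ → ℝ)
    (hr : ∀ p ∈ P, 1 ≤ r p ∧ r p ≤ 16) (g : ℕ → (ZMod q)ˣ) :
    ∑ p ∈ P, ‖hh N L w (r p) (g p : ZMod q) + hh N L w (r p * p) ((g p : ZMod q) * p)‖ ≤
      16386 * (1 + 4 * q * (X : ℝ) ^ 2 * t) * (∫ y, ‖F N y‖) + 2 * q * L * t / X * P.card := by
  classical
  have hL0 : 0 < L := by linarith
  have hq0 : (0 : ℝ) < q := by exact_mod_cast Nat.pos_of_ne_zero (NeZero.ne q)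
  have hX0 : (0 : ℝ) < X := by exact_mod_cast (by omega : 0 < X)
  have hcontker : ∀ (rr : ℝ) (v : ℝ → ℂ), Continuous (ker N L rr v) := by
    intro rr v
    unfold ker
    exact continuous_finsetSum _ fun n _ => continuous_const.mul (continuous_ex _)
  have hcontTT : ∀ (rr : ℝ) (p : ℕ) (h : ZMod q), Continuous (TT N L rr w p h) := by
    intro rr p h
    unfold TT
    exact continuous_finsetSum _ fun b _ => continuous_finsetSum _ fun a _ =>
      (hcontker rr (w b)).comp (continuous_id.sub continuous_const)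
  have hint : ∀ f : UnitAddCircle → ℂ, Continuous f → Integrable f volume := fun f hf =>
    hf.integrable_of_hasCompactSupport (HasCompactSupport.of_compactSpace f)
  have hintr : ∀ f : UnitAddCircle → ℝ, Continuous f → Integrable f volume := fun f hf =>
    hf.integrable_of_hasCompactSupport (HasCompactSupport.of_compactSpace f)
  -- the unimodular coefficients
  have hex : ∀ z : ℂ, ∃ c : ℂ, ‖c‖ ≤ 1 ∧ c * z = (‖z‖ : ℂ) := by
    intro z
    by_cases hz : z = 0
    · exact ⟨0, by simp, by simp [hz]⟩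
    · refine ⟨(starRingEnd ℂ) z / ‖z‖, ?_, ?_⟩
      · rw [norm_div, Complex.norm_conj, Complex.norm_real, norm_norm]
        exact div_self_le_one _
      · have hz' : (‖z‖ : ℂ) ≠ 0 := by
          rw [Ne, Complex.ofReal_eq_zero]; exact norm_ne_zero_iff.mpr hz
        rw [div_mul_eq_mul_div, div_eq_iff hz', mul_comm, Complex.mul_conj,
          Complex.normSq_eq_norm_sq]
        push_cast
        ring
  set Z : ℕ → ℂ := fun p => hh N L w (r p) (g p : ZMod q) +
    hh N L w (r p * p) ((g p : ZMod q) * p) with hZ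
  choose c hc1 hc2 using fun p => hex (Z p)
  set T : UnitAddCircle → ℂ := fun x => ∑ p ∈ P, c p * TT N L (r p) w p (g p : ZMod q) x with hT
  set K : ℝ := 16386 * (1 + 4 * q * (X : ℝ) ^ 2 * t) with hK
  -- the bound of T
  have hTb : ∀ x, ‖T x‖ ≤ K := by
    intro x
    set s : Finset (Σ _ : ℕ, (ZMod q)ˣ × ℕ) :=
      P.sigma (fun p => Finset.univ ×ˢ Finset.Icc 1 (p - 1)) with hs
    have h1 : ‖T x‖ ≤ ∑ i ∈ s, ‖ker N L (r i.1) (w i.2.1) (x - pnt i.1 (g i.1 : ZMod q) i.2.1 i.2.2)‖ := by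
      rw [hs, Finset.sum_sigma]
      refine (norm_sum_le _ _).trans (Finset.sum_le_sum fun p _ => ?_)
      rw [norm_mul, Finset.sum_product]
      have h2 : ‖TT N L (r p) w p (g p : ZMod q) x‖ ≤ ∑ b : (ZMod q)ˣ, ∑ a ∈ Finset.Icc 1 (p - 1),
          ‖ker N L (r p) (w b) (x - pnt p (g p : ZMod q) b a)‖ := by
        unfold TT
        exact (norm_sum_le _ _).trans (Finset.sum_le_sum fun b _ => norm_sum_le _ _)
      calc ‖c p‖ * ‖TT N L (r p) w p (g p : ZMod q) x‖
          ≤ 1 * ‖TT N L (r p) w p (g p : ZMod q) x‖ :=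
            mul_le_mul_of_nonneg_right (hc1 p) (norm_nonneg _)
        _ ≤ _ := by rw [one_mul]; exact h2
    have hd : (0 : ℝ) < 1 / (4 * (q : ℝ) * (X : ℝ) ^ 2) := by positivity
    have h3 := sep_sum s (fun i => pnt i.1 (g i.1 : ZMod q) i.2.1 i.2.2)
      (d := 1 / (4 * (q : ℝ) * (X : ℝ) ^ 2)) (t := t) (c := 2048) hd ht (by norm_num)
      (by
        rintro ⟨p, b, a⟩ hi ⟨p', b', a'⟩ hj hne
        rw [hs, Finset.mem_sigma, Finset.mem_product] at hi hj
        obtain ⟨hp1, _, hp3, hp4⟩ := hP p hi.1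
        obtain ⟨hp1', _, hp3', hp4'⟩ := hP p' hj.1
        refine pnt_sep hp1 hp1' hp3 hp3' hp4 hp4' (g p) (g p') b b' a a' hi.2.2 hj.2.2
          (fun h => by rw [h]) ?_
        rintro ⟨h1, h2, h3⟩
        subst h1; subst h2; subst h3
        exact hne rfl)
      x (fun i => ‖ker N L (r i.1) (w i.2.1) (x - pnt i.1 (g i.1 : ZMod q) i.2.1 i.2.2)‖)
      (fun i _ => norm_nonneg _)
      (by
        rintro ⟨p, b, a⟩ hi
        rw [hs, Finset.mem_sigma] at hi
        have hrp := hr p hi.1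
        exact ker_le_one (hw b) hrp.1 (hrp.2.trans hL) hLN (by nlinarith) _)
      (by
        rintro ⟨p, b, a⟩ hi
        rw [hs, Finset.mem_sigma] at hi
        have hrp := hr p hi.1
        refine (ker_decay (hw b) hrp.1 (hrp.2.trans hL) hLN (by nlinarith) htL _).trans ?_
        have h5 : (r p) ^ 2 ≤ 256 := by nlinarith
        have h6 : 0 ≤ t ^ 2 := by positivity
        nlinarith)
    refine h1.trans (h3.trans (le_of_eq ?_))
    rw [hK]
    field_simp
    ring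
  have hTc : Continuous T := continuous_finsetSum _ fun p _ =>
    continuous_const.mul (hcontTT (r p) p (g p : ZMod q))
  have hK0 : 0 ≤ K := by rw [hK]; positivity
  -- the integral against T
  have hIT : ∫ x, F N x * T x = ∑ p ∈ P, c p * ∫ x, F N x * TT N L (r p) w p (g p : ZMod q) x := by
    have h1 : ∀ x, F N x * T x = ∑ p ∈ P, c p * (F N x * TT N L (r p) w p (g p : ZMod q) x) := by
      intro x
      rw [hT, Finset.mul_sum]
      exact Finset.sum_congr rfl fun p _ => by ring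
    simp_rw [h1]
    rw [integral_finsetSum]
    · exact Finset.sum_congr rfl fun p _ => integral_const_mul _ _
    · intro p _
      exact (hint _ ((continuous_F N).mul (hcontTT (r p) p (g p : ZMod q)))).const_mul _
  have hIb : ‖∫ x, F N x * T x‖ ≤ K * ∫ y, ‖F N y‖ := by
    refine (norm_integral_le_integral_norm _).trans ?_
    rw [← integral_const_mul]
    refine integral_mono (hintr _ ((continuous_F N).mul hTc).norm)
      ((hintr _ (continuous_F N).norm).const_mul K) ?_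
    intro x
    change ‖F N x * T x‖ ≤ K * ‖F N x‖
    rw [norm_mul, mul_comm]
    exact mul_le_mul_of_nonneg_right (hTb x) (norm_nonneg _)
  -- the sum
  have hsum : ((∑ p ∈ P, ‖Z p‖ : ℝ) : ℂ) = ∑ p ∈ P, c p * ((∫ x, F N x * TT N L (r p) w p (g p : ZMod q) x)
      + Z p) - ∫ x, F N x * T x := by
    rw [hIT, ← Finset.sum_sub_distrib]
    push_cast
    refine Finset.sum_congr rfl fun p _ => ?_
    rw [← hc2 p]; ring
  have herr : ‖∑ p ∈ P, c p * ((∫ x, F N x * TT N L (r p) w p (g p : ZMod q) x) + Z p)‖ ≤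
      2 * q * L * t / X * P.card := by
    refine (norm_sum_le _ _).trans ?_
    have h1 : ∀ p ∈ P, ‖c p * ((∫ x, F N x * TT N L (r p) w p (g p : ZMod q) x) + Z p)‖ ≤
        2 * q * L * t / X := by
      intro p hp
      obtain ⟨hp1, hp2, _, _⟩ := hP p hp
      have h2 := copy hw ht.le hL0 hLN (hr p hp).1 hp1 (g p : ZMod q)
      rw [add_assoc] at h2
      rw [norm_mul]
      have hpX : (X : ℝ) ≤ p := by exact_mod_cast hp2
      have h3 : 2 * q * L * t / (p : ℝ) ≤ 2 * q * L * t / X :=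
        div_le_div_of_nonneg_left (by positivity) hX0 hpX
      calc ‖c p‖ * ‖(∫ x, F N x * TT N L (r p) w p (g p : ZMod q) x) + Z p‖
          ≤ 1 * ‖(∫ x, F N x * TT N L (r p) w p (g p : ZMod q) x) + Z p‖ :=
            mul_le_mul_of_nonneg_right (hc1 p) (norm_nonneg _)
        _ ≤ 2 * q * L * t / X := by rw [one_mul]; exact h2.trans h3
    refine (Finset.sum_le_sum h1).trans ?_
    rw [Finset.sum_const, nsmul_eq_mul, mul_comm]
  have hfin : (∑ p ∈ P, ‖Z p‖) = ‖((∑ p ∈ P, ‖Z p‖ : ℝ) : ℂ)‖ := by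
    rw [Complex.norm_real, Real.norm_of_nonneg (Finset.sum_nonneg fun p _ => norm_nonneg _)]
  have hgoal : (∑ p ∈ P, ‖Z p‖) ≤ K * (∫ y, ‖F N y‖) + 2 * q * L * t / X * P.card := by
    rw [hfin, hsum]
    refine (norm_sub_le _ _).trans ?_
    linarith
  exact hgoal

end Pool.Agent.Helper17.L3
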