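import Pool.Agent.Helper17.L3.N0
import Pool.Agent.Helper17.L3.S1
import Pool.Agent.Helper25.MOB.X0
import Pool.Agent.Helper25.MOB.A3

/-!
Block L3-N1.  Good primes in a dyadic block.

`A = N^η`, `Θ = N^(1/3 - 1000η)`.  Let `P₀` be the primes `p ∈ [X, 2X)` not dividing `q`, and `P ⊆ P₀` the good ones (those with the stated
bound `e₀ = ρ A^(-96)` for all `r ∈ [1,16]`, `g`).  For the bad ones choose `r p`, `g p` violating it.  `S1` for the set of
bad primes: `e₀ #bad ≤ 16386 (1 + 4 q X² t) Θ + 2 q L t/X #bad`.  Here `16386 Θ ≤ 16386 X ρ A^(-100)` (`X ≥ XA = Θ A^100/ρ`),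
`16386 * 4 q X² t Θ ≤ 65544 X ρ A^(-100)` (`X ≤ XB = ρ N/(q B Θ A^100)`, `t = B/N`), `#bad ≤ X` and
`2 q L t ≤ 2 q B ≤ 2 Θ ≤ 2 X ρ A^(-100)`.  Total `≤ 10^5 X ρ A^(-100) ≤ X ρ A^(-99)`, so `#bad ≤ X A^(-3)`.
`#{primes in [X,2X)} ≥ X^(1 - η/2) ≥ X A^(-1/2)` (`primesIn_ge (η/2)`, `X ≤ XB ≤ N`, `X ≥ N^(1/12)` large), at most `log₂ q ≤ log₂ N`
primes divide `q` (`card_prime_dvd_le` in MOB, or directly).  So `#P ≥ X A^(-1/2) - X A^(-3) - log₂ N ≥ X A^(-1)`.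
Side conditions of `S1`: `L ≥ N/2 ≥ 16`, `t L ≥ t N/2 ≥ 1/2`, `32 t ≤ 1` (`t ≤ Θ/N`).
-/

namespace Pool.Agent.Helper17.L3

open MeasureTheory Filter Pool.Agent.Helper25.MOB

/-- The number of primes in a finite set which divide `q`. -/
private theorem card_dvd63 (S : Finset ℕ) {q : ℕ} (hq : 0 < q) (hS : ∀ p ∈ S, p.Prime ∧ p ∣ q) :
    S.card ≤ Nat.log 2 q := by
  have h1 : ∏ p ∈ S, p ∣ q :=
    Finset.prod_primes_dvd q (fun p hp => (hS p hp).1.prime) fun p hp => (hS p hp).2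
  have h2 : 2 ^ S.card ≤ ∏ p ∈ S, p := Finset.pow_card_le_prod _ _ _ fun p hp => (hS p hp).1.two_le
  exact Nat.le_log_of_pow_le one_lt_two (h2.trans (Nat.le_of_dvd hq h1))

theorem good {η : ℝ} (hη : 0 < η) (hη1 : η ≤ 1 / 100000) : ∀ᶠ N : ℕ in atTop,
    ∀ (q : ℕ) [NeZero q] (L t : ℝ) (w : (ZMod q)ˣ → ℝ → ℂ), Ctx η N q L t w →
      ∀ X : ℕ, XA η N (rho N L w) ≤ X → (X : ℝ) ≤ XB η N q t (rho N L w) →
      ∃ P : Finset ℕ, (∀ p ∈ P, p.Prime ∧ X ≤ p ∧ p < 2 * X ∧ p.Coprime q ∧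
          ∀ r : ℝ, 1 ≤ r → r ≤ 16 → ∀ g : (ZMod q)ˣ,
            ‖hh N L w r (g : ZMod q) + hh N L w (r * p) ((g : ZMod q) * p)‖ ≤
              rho N L w * (N : ℝ) ^ (-(96 * η))) ∧
        (X : ℝ) * (N : ℝ) ^ (-η) ≤ P.card := by
  obtain ⟨H0, hH0⟩ := eventually_atTop.1 (primesIn_ge (half_pos hη))
  have hbig : ∀ᶠ N : ℕ in atTop, (H0 : ℝ) ≤ (N : ℝ) ^ (1 / 12 : ℝ) :=
    ((tendsto_rpow_atTop (by norm_num : (0 : ℝ) < 1 / 12)).comp
      tendsto_natCast_atTop_atTop).eventually_ge_atTop _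
  filter_upwards [ctx_facts hη hη1, hbig, rpow_ev 32 (a := 1 / 3 - 1000 * η) (b := 1) (by linarith),
    rpow_ev 100000 (a := 0) (b := η) hη, rpow_ev 4 (a := 0) (b := η / 2) (by linarith),
    natlog_ev 1 (a := 1 / 24) (by norm_num), eventually_ge_atTop 32] with N hctx hbigN h32 h5 h4
    hlog hN32 q hq0 L t w hC X hXA hXB
  obtain ⟨hρ0, -, hXA1, -, -, -, -, hXBN, -, -, -⟩ := hctx q L t w hC
  set ρ := rho N L w with hρdef
  have hNR : (32 : ℝ) ≤ N := by exact_mod_cast hN32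
  have hN0 : (0 : ℝ) < N := by linarith
  have hN1 : (1 : ℝ) ≤ N := by linarith
  have hqpos : 0 < q := Nat.pos_of_ne_zero (NeZero.ne q)
  have hq1 : (1 : ℝ) ≤ q := by exact_mod_cast hqpos
  have htN := hC.htN
  have ht : 0 < t := by
    by_contra hcon
    push Not at hcon
    have := mul_nonpos_of_nonpos_of_nonneg hcon hN0.le
    linarith
  rw [Real.rpow_one] at h32
  rw [Real.rpow_zero, mul_one] at h5 h4
  have hXN1 : (1 : ℝ) ≤ (N : ℝ) ^ (1 / 12 : ℝ) := Real.one_le_rpow hN1 (by norm_num)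
  have hXlow : (N : ℝ) ^ (1 / 12 : ℝ) ≤ X := hXA1.trans hXA
  have hXR1 : (1 : ℝ) ≤ X := hXN1.trans hXlow
  have hX0 : (0 : ℝ) < X := by linarith
  have hX1 : 1 ≤ X := by exact_mod_cast hXR1
  have hXH : H0 ≤ X := by exact_mod_cast hbigN.trans hXlow
  have hXN : (X : ℝ) ≤ N := hXB.trans hXBN
  set Θ : ℝ := (N : ℝ) ^ (1 / 3 - 1000 * η) with hΘ
  have hΘ0 : 0 < Θ := Real.rpow_pos_of_pos hN0 _
  have hqB : q * (t * N) ≤ Θ := hC.hq
  have hB : t * N ≤ Θ := by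
    refine le_trans ?_ hqB
    exact le_mul_of_one_le_left (by linarith) hq1
  have hqΘ : (q : ℝ) ≤ Θ := by
    refine le_trans ?_ hqB
    exact le_mul_of_one_le_right (by linarith) htN
  have hqN : (q : ℝ) ≤ N := by linarith
  have ht1 : 32 * t ≤ 1 := by
    have : 32 * t * N ≤ 1 * N := by linarith
    exact le_of_mul_le_mul_right this hN0
  -- the classes of primes
  set e₀ : ℝ := ρ * (N : ℝ) ^ (-(96 * η)) with he₀
  have he₀0 : 0 < e₀ := mul_pos hρ0 (Real.rpow_pos_of_pos hN0 _)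
  set Good : ℕ → Prop := fun p => ∀ r : ℝ, 1 ≤ r → r ≤ 16 → ∀ g : (ZMod q)ˣ,
    ‖hh N L w r (g : ZMod q) + hh N L w (r * p) ((g : ZMod q) * p)‖ ≤ e₀ with hGood
  classical
  set P₀ : Finset ℕ := (primesIn X).filter (fun p => ¬ p ∣ q) with hP₀
  set D : Finset ℕ := (primesIn X).filter (fun p => p ∣ q) with hD
  set Bad : Finset ℕ := P₀.filter (fun p => ¬ Good p) with hBad
  have hprim : ∀ p ∈ primesIn X, p.Prime ∧ X ≤ p ∧ p < 2 * X := by
    intro p hp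
    unfold primesIn at hp
    rw [Finset.mem_filter, Finset.mem_Ico] at hp
    exact ⟨hp.2, hp.1.1, hp.1.2⟩
  -- the bad primes
  have hch : ∀ p : ℕ, ∃ r : ℝ, ∃ g : (ZMod q)ˣ, p ∈ Bad → 1 ≤ r ∧ r ≤ 16 ∧
      e₀ < ‖hh N L w r (g : ZMod q) + hh N L w (r * p) ((g : ZMod q) * p)‖ := by
    intro p
    by_cases hp : p ∈ Bad
    · have h1 := (Finset.mem_filter.1 hp).2
      rw [hGood] at h1
      push Not at h1
      obtain ⟨r, h2, h3, g, h4⟩ := h1
      exact ⟨r, g, fun _ => ⟨h2, h3, h4⟩⟩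
    · exact ⟨1, 1, fun h => absurd h hp⟩
  choose r g hrg using hch
  have hS := S1 (q := q) (N := N) (X := X) (L := L) (t := t) (w := w) hC.hw ht
    (by have := hC.hL; linarith) hC.hLN
    (by
      have h1 := mul_le_mul_of_nonneg_left hC.hL ht.le
      linarith) ht1 hX1 Bad
    (by
      intro p hp
      have h1 := Finset.mem_filter.1 hp
      have h2 := Finset.mem_filter.1 h1.1
      have h3 := hprim p h2.1
      exact ⟨h3.1, h3.2.1, h3.2.2, h2.2⟩) r (fun p hp => ⟨(hrg p hp).1, (hrg p hp).2.1⟩) g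
  have hlow : Bad.card * e₀ ≤ ∑ p ∈ Bad,
      ‖hh N L w (r p) (g p : ZMod q) + hh N L w (r p * p) ((g p : ZMod q) * p)‖ := by
    rw [← nsmul_eq_mul]
    exact Finset.card_nsmul_le_sum _ _ _ fun p hp => (hrg p hp).2.2.le
  have hBadX : (Bad.card : ℝ) ≤ X := by
    have h1 : Bad ⊆ Finset.Ico X (2 * X) := by
      intro p hp
      have h1 := Finset.mem_filter.1 hp
      have h2 := Finset.mem_filter.1 h1.1
      have h3 := hprim p h2.1
      exact Finset.mem_Ico.2 h3.2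
    have h2 := Finset.card_le_card h1
    rw [Nat.card_Ico, show 2 * X - X = X by omega] at h2
    exact_mod_cast h2
  set Y : ℝ := X * ρ * (N : ℝ) ^ (-(100 * η)) with hY
  have hY0 : 0 < Y := mul_pos (mul_pos hX0 hρ0) (Real.rpow_pos_of_pos hN0 _)
  have hΘY : Θ ≤ Y := by
    have h1 : (N : ℝ) ^ (1 / 3 - 900 * η) ≤ X * ρ := by
      have := hXA
      unfold XA at this
      rwa [div_le_iff₀ hρ0] at this
    have h2 : Θ = (N : ℝ) ^ (1 / 3 - 900 * η) * (N : ℝ) ^ (-(100 * η)) := by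
      rw [hΘ, ← Real.rpow_add hN0]
      congr 1
      ring
    rw [h2, hY]
    exact mul_le_mul_of_nonneg_right h1 (Real.rpow_pos_of_pos hN0 _).le
  have hXY : q * (X : ℝ) ^ 2 * t * Θ ≤ Y := by
    have h1 : (X : ℝ) * (q * (t * N)) ≤ ρ * (N : ℝ) ^ (2 / 3 + 900 * η) := by
      have := hXB
      unfold XB at this
      rwa [le_div_iff₀ (by positivity)] at this
    have h2 : (N : ℝ) ^ (2 / 3 + 900 * η) * Θ = (N : ℝ) ^ (-(100 * η)) * N := by
      rw [hΘ, ← Real.rpow_add hN0]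
      nth_rewrite 3 [← Real.rpow_one (N : ℝ)]
      rw [← Real.rpow_add hN0]
      congr 1
      ring
    have h3 : q * (X : ℝ) ^ 2 * t * Θ * N ≤ Y * N := by
      calc q * (X : ℝ) ^ 2 * t * Θ * N = X * Θ * (X * (q * (t * N))) := by ring
        _ ≤ X * Θ * (ρ * (N : ℝ) ^ (2 / 3 + 900 * η)) := by gcongr
        _ = X * ρ * ((N : ℝ) ^ (2 / 3 + 900 * η) * Θ) := by ring
        _ = Y * N := by rw [h2, hY]; ring
    exact le_of_mul_le_mul_right h3 hN0
  have hup : 16386 * (1 + 4 * q * (X : ℝ) ^ 2 * t) * (∫ y, ‖F N y‖) +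
      2 * q * L * t / X * Bad.card ≤ 100000 * Y := by
    have h1 : 16386 * (1 + 4 * q * (X : ℝ) ^ 2 * t) * (∫ y, ‖F N y‖) ≤
        16386 * (1 + 4 * q * (X : ℝ) ^ 2 * t) * Θ := mul_le_mul_of_nonneg_left hC.hF (by positivity)
    have h2 : 2 * q * L * t / X * Bad.card ≤ 2 * Θ := by
      have hL0 : 0 ≤ L := by have := hC.hL; linarith
      calc 2 * q * L * t / X * Bad.card ≤ 2 * q * L * t / X * X :=
            mul_le_mul_of_nonneg_left hBadX (by positivity)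
        _ = 2 * q * L * t := by field_simp
        _ ≤ 2 * q * N * t := by
            have := hC.hLN
            gcongr
        _ = 2 * (q * (t * N)) := by ring
        _ ≤ 2 * Θ := by linarith
    have h3 : 16386 * (1 + 4 * q * (X : ℝ) ^ 2 * t) * Θ =
        16386 * Θ + 65544 * (q * (X : ℝ) ^ 2 * t * Θ) := by ring
    linarith
  -- powers of `N`
  have hA0 : 0 < (N : ℝ) ^ (-η) := Real.rpow_pos_of_pos hN0 _
  have hBad3 : (Bad.card : ℝ) ≤ X * (N : ℝ) ^ (-η) := by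
    have h1 : Bad.card * e₀ ≤ 100000 * Y := hlow.trans (hS.trans hup)
    have h2 : 100000 * Y ≤ (N : ℝ) ^ η * Y := mul_le_mul_of_nonneg_right h5 hY0.le
    have h3 : (N : ℝ) ^ η * Y = X * (N : ℝ) ^ (-(3 * η)) * e₀ := by
      have h31 : (N : ℝ) ^ η * (N : ℝ) ^ (-(100 * η)) =
          (N : ℝ) ^ (-(3 * η)) * (N : ℝ) ^ (-(96 * η)) := by
        rw [← Real.rpow_add hN0, ← Real.rpow_add hN0]
        congr 1
        ring
      calc (N : ℝ) ^ η * Y = X * ρ * ((N : ℝ) ^ η * (N : ℝ) ^ (-(100 * η))) := by rw [hY]; ring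
        _ = X * (N : ℝ) ^ (-(3 * η)) * e₀ := by rw [h31, he₀]; ring
    have h4 : (Bad.card : ℝ) ≤ X * (N : ℝ) ^ (-(3 * η)) := by
      refine le_of_mul_le_mul_right ?_ he₀0
      rw [← h3]
      exact h1.trans h2
    refine h4.trans (mul_le_mul_of_nonneg_left ?_ hX0.le)
    exact Real.rpow_le_rpow_of_exponent_le hN1 (by linarith)
  have hDc : (D.card : ℝ) ≤ X * (N : ℝ) ^ (-η) := by
    have h1 : D.card ≤ Nat.log 2 N := by
      have hqN' : q ≤ N := by exact_mod_cast hqN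
      refine (card_dvd63 D hqpos fun p hp => ?_).trans (Nat.log_mono_right hqN')
      have h2 := Finset.mem_filter.1 hp
      exact ⟨(hprim p h2.1).1, h2.2⟩
    have h2 : (D.card : ℝ) ≤ Nat.log 2 N := by exact_mod_cast h1
    have h3 : (N : ℝ) ^ (1 / 24 : ℝ) ≤ (N : ℝ) ^ (1 / 12 : ℝ) * (N : ℝ) ^ (-η) := by
      rw [← Real.rpow_add hN0]
      exact Real.rpow_le_rpow_of_exponent_le hN1 (by linarith)
    have h4 := mul_le_mul_of_nonneg_right hXlow hA0.le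
    linarith
  have hprimes : 4 * (X * (N : ℝ) ^ (-η)) ≤ (primesIn X).card := by
    refine le_trans ?_ (hH0 X hXH)
    have h1 : (X : ℝ) ^ (1 - η / 2) = X * (X : ℝ) ^ (-(η / 2)) := by
      rw [sub_eq_add_neg, Real.rpow_add hX0, Real.rpow_one]
    have h2 : (N : ℝ) ^ (-(η / 2)) ≤ (X : ℝ) ^ (-(η / 2)) :=
      Real.rpow_le_rpow_of_nonpos hX0 hXN (by linarith)
    have h3 : 4 * (N : ℝ) ^ (-η) ≤ (N : ℝ) ^ (-(η / 2)) := by
      have h31 : (N : ℝ) ^ (-(η / 2)) = (N : ℝ) ^ (η / 2) * (N : ℝ) ^ (-η) := by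
        rw [← Real.rpow_add hN0]
        congr 1
        ring
      rw [h31]
      exact mul_le_mul_of_nonneg_right h4 hA0.le
    rw [h1]
    calc 4 * (X * (N : ℝ) ^ (-η)) = X * (4 * (N : ℝ) ^ (-η)) := by ring
      _ ≤ X * (X : ℝ) ^ (-(η / 2)) := mul_le_mul_of_nonneg_left (h3.trans h2) hX0.le
  refine ⟨P₀.filter Good, ?_, ?_⟩
  · intro p hp
    have h1 := Finset.mem_filter.1 hp
    have h2 := Finset.mem_filter.1 h1.1
    have h3 := hprim p h2.1
    exact ⟨h3.1, h3.2.1, h3.2.2, (Nat.Prime.coprime_iff_not_dvd h3.1).2 h2.2, h1.2⟩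
  · have h1 : (P₀.filter Good).card + Bad.card = P₀.card :=
      Finset.card_filter_add_card_filter_not (s := P₀) Good
    have h2 : D.card + P₀.card = (primesIn X).card :=
      Finset.card_filter_add_card_filter_not (s := primesIn X) (fun p => p ∣ q)
    have h1' : ((P₀.filter Good).card : ℝ) + Bad.card = P₀.card := by exact_mod_cast h1
    have h2' : (D.card : ℝ) + P₀.card = (primesIn X).card := by exact_mod_cast h2
    have h3 : 0 ≤ X * (N : ℝ) ^ (-η) := by positivity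
    linarith

end Pool.Agent.Helper17.L3
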