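import Pool.Agent.Helper17.L3.BES

/-!
Block L3-SLOW.  Size and slow variation of `hh` in `X`.

`hh_le`: `hh X g = ∑_m a_m ∑_b Phi (w b) (X m) e(m g b/q)`, `a_m = X μ(m) kf L (X m)`, zero unless `X m < L`; `∑ |a_m|² ≤ X² (L/X)`
(`card_lt`); `bessel`: `‖hh‖² ≤ (2tq/X) X L = 2 q t L`.

`hh_slow`, `X ≤ X' ≤ 2 X`: `hh X g - hh X' g = A + B`,
* `A = ∑_m a_m ∑_b Phi(w b)(X m) e(..)`, `a_m = μ(m)(X kf(X m) - X' kf(X' m))`, zero unless `X m < L`, and then
  `|a_m| ≤ (X' - X) kf(Xm) + X' |kf(Xm) - kf(X'm)| ≤ (X' - X)(1 + X' m/L) ≤ 3 (X' - X)`.  So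
  `‖A‖² ≤ (2tq/X) 9 (X'-X)² L/X`, `‖A‖ ≤ 3 (X'/X - 1) √(2qtL)`.
* `B = ∑_m a'_m ∑_b (Phi(w b)(X m) - Phi(w b)(X' m)) e(..)`, `a'_m = μ(m) X' kf(X' m)`.  The function
  `f(s) = ∑_m a'_m ∑_b Phi(w b)(s m) e(..)` has derivative `∑_m a'_m 2πi m t ∑_b Phi(v b)(s m) e(..)`, `v b β = (β/t) w b β` (again
  phases: `Ph t (v b)`; differentiate under the integral, `hasDerivAt_integral_of_dominated_loc_of_deriv_le`), of norm at most
  `√((2tq/s) ∑ |a'_m|² 4π² m² t²) ≤ √((2tq/X) 4π² t² X'² (L/X')³) ≤ 2π t L √(2qtL)/X` (`X ≤ X'`; `m < L/X'`, at most `L/X'` terms) by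
  `bessel` (`2 q t s ≤ 2 q t X' ≤ 1`).  Mean value inequality: `‖B‖ ≤ (X' - X) 2πtL √(2qtL)/X`.
Total `(3 + 2π t L)(X'/X - 1) √(2qtL) ≤ 13 tL √(2qtL) (X'/X - 1)` since `1/2 ≤ tL`.
-/

namespace Pool.Agent.Helper17.L3

open MeasureTheory Pool.Agent.Helper25.MOB

private theorem norm_mu_le (n : ℕ) : ‖mu n‖ ≤ 1 := by
  unfold mu
  rw [Complex.norm_intCast]
  exact_mod_cast ArithmeticFunction.abs_moebius_le_one

private theorem sum_sq_le {N : ℕ} {L X K : ℝ} (hX : 0 < X) (hL : 0 ≤ L) (c : ℕ → ℂ)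
    (h1 : ∀ m : ℕ, X * m < L → ‖c m‖ ≤ K) (h2 : ∀ m : ℕ, L ≤ X * m → c m = 0) :
    ∑ m ∈ Finset.Icc 1 N, ‖c m‖ ^ 2 ≤ K ^ 2 * (L / X) := by
  have h3 : ∑ m ∈ Finset.Icc 1 N, ‖c m‖ ^ 2 ≤
      ∑ m ∈ (Finset.Icc 1 N).filter (fun m : ℕ => X * m < L), K ^ 2 := by
    rw [Finset.sum_filter]
    refine Finset.sum_le_sum fun m _ => ?_
    split_ifs with h
    · exact pow_le_pow_left₀ (norm_nonneg _) (h1 m h) 2
    · rw [h2 m (not_lt.mp h)]
      simp
  refine h3.trans ?_
  rw [Finset.sum_const, nsmul_eq_mul, mul_comm]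
  exact mul_le_mul_of_nonneg_left (card_lt hX hL) (sq_nonneg _)

/-- the linear form -/
private noncomputable def lf {q : ℕ} [NeZero q] (N : ℕ) (a : ℕ → ℂ) (v : (ZMod q)ˣ → ℝ → ℂ)
    (g : (ZMod q)ˣ) (s : ℝ) : ℂ :=
  ∑ m ∈ Finset.Icc 1 N, a m * ∑ b : (ZMod q)ˣ, Phi (v b) (s * m) *
        ZMod.stdAddChar ((m : ZMod q) * (g : ZMod q) * (b : ZMod q))

private theorem hh_eq {q : ℕ} [NeZero q] (N : ℕ) (L X : ℝ) (w : (ZMod q)ˣ → ℝ → ℂ)
    (g : (ZMod q)ˣ) :
    hh N L w X (g : ZMod q) = lf N (fun m => (X : ℂ) * mu m * (kf L (X * m) : ℂ)) w g X := by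
  unfold hh lf Psi
  rw [Finset.sum_comm]
  refine Finset.sum_congr rfl fun m _ => ?_
  rw [Finset.mul_sum]
  refine Finset.sum_congr rfl fun b _ => ?_
  ring

private theorem sq_bound {q : ℕ} [NeZero q] {N : ℕ} {L t X K Y s : ℝ} (ht : 0 < t) (hX : 0 < X)
    (hK : 0 ≤ K) (hY : 0 < Y)
    (hL : 0 < L) (hs : X ≤ s) (hY2 : X ≤ Y) (hqs : 2 * q * (t * s) ≤ 1)
    {v : (ZMod q)ˣ → ℝ → ℂ} (hv : ∀ b, Ph t (v b))
    (g : (ZMod q)ˣ) (a : ℕ → ℂ)
    (h1 : ∀ m : ℕ, Y * m < L → ‖a m‖ ≤ K) (h2 : ∀ m : ℕ, L ≤ Y * m → a m = 0) :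
    ‖lf N a v g s‖ ≤ K / X * √(2 * q * (t * L)) := by
  have hs0 : 0 < s := hX.trans_le hs
  have h3 := bessel (N := N) ht hs0 hqs hv g a
  have h4 := sum_sq_le (N := N) hY hL.le a h1 h2
  have h5 : ‖lf N a v g s‖ ^ 2 ≤ (K / X * √(2 * q * (t * L))) ^ 2 := by
    refine h3.trans ?_
    rw [mul_pow, Real.sq_sqrt (by positivity)]
    calc 2 * t * q / s * ∑ m ∈ Finset.Icc 1 N, ‖a m‖ ^ 2
        ≤ 2 * t * q / s * (K ^ 2 * (L / Y)) := by gcongr
      _ ≤ 2 * t * q / X * (K ^ 2 * (L / X)) := by gcongr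
      _ = (K / X) ^ 2 * (2 * q * (t * L)) := by
        field_simp
  exact (sq_le_sq₀ (norm_nonneg _) (by positivity)).mp h5

theorem hh_le {q : ℕ} [NeZero q] {N : ℕ} {L t X : ℝ} {w : (ZMod q)ˣ → ℝ → ℂ}
    (hw : ∀ b, Ph t (w b)) (ht : 0 < t) (hL : 0 < L) (hX : 0 < X) (hqs : 2 * q * (t * X) ≤ 1)
    (g : (ZMod q)ˣ) : ‖hh N L w X (g : ZMod q)‖ ≤ √(2 * q * (t * L)) := by
  rw [hh_eq]
  have h := sq_bound (N := N) (K := X) ht hX hX.le hX hL le_rfl le_rfl hqs hw g
    (fun m => (X : ℂ) * mu m * (kf L (X * m) : ℂ)) (fun m _ => ?_) (fun m hm => ?_)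
  · rwa [div_self hX.ne', one_mul] at h
  · rw [norm_mul, norm_mul, Complex.norm_real, Complex.norm_real, Real.norm_of_nonneg hX.le,
      Real.norm_of_nonneg (kf_nonneg _ _)]
    have e1 := norm_mu_le m
    have e2 : kf L (X * m) ≤ 1 := kf_le_one hL (by positivity)
    have e3 := kf_nonneg L (X * m)
    calc X * ‖mu m‖ * kf L (X * m) ≤ X * 1 * 1 := by gcongr
      _ = X := by ring
  · simp only [kf_eq_zero hL hm, Complex.ofReal_zero, mul_zero]

/-- the derivative of `Phi` -/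
private theorem Phi_deriv {t : ℝ} (ht : 0 < t) {v : ℝ → ℂ} (hv : Ph t v) (y : ℝ) :
    HasDerivAt (Phi v) (2 * Real.pi * Complex.I * t * Phi (fun β => (β / t : ℝ) * v β) y) y := by
  have hint := integrable_Ph hv
  have hb : ∀ β, ‖v β * (2 * Real.pi * Complex.I * β)‖ ≤ 2 * Real.pi * t * ‖v β‖ := by
    intro β
    by_cases h : t < |β|
    · rw [hv.supp β h]; simp
    · push Not at h
      rw [norm_mul, norm_mul, norm_mul, norm_mul, Complex.norm_I, Complex.norm_real,
        Complex.norm_real, Real.norm_of_nonneg Real.pi_pos.le, Real.norm_eq_abs]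
      have : ‖(2 : ℂ)‖ = 2 := by simp
      rw [this]
      calc ‖v β‖ * (2 * Real.pi * 1 * |β|) ≤ ‖v β‖ * (2 * Real.pi * 1 * t) := by gcongr
        _ = 2 * Real.pi * t * ‖v β‖ := by ring
  have hec : ∀ β x : ℝ, HasDerivAt (fun x : ℝ => ec (x * β)) (2 * Real.pi * Complex.I * β * ec (x * β)) x := by
    intro β x
    unfold ec
    have h1 : HasDerivAt (fun x : ℝ => (2 * Real.pi * Complex.I * ((x * β : ℝ) : ℂ)))
        (2 * Real.pi * Complex.I * β) x := by
      have h2 : HasDerivAt (fun x : ℝ => (((x * β : ℝ)) : ℂ)) (β : ℂ) x := by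
        have := (hasDerivAt_mul_const (x := x) β).ofReal_comp
        simpa using this
      simpa using h2.const_mul (2 * Real.pi * Complex.I)
    have h3 := h1.cexp
    convert h3 using 1
    ring
  have hcont : ∀ x : ℝ, Continuous fun β : ℝ => ec (x * β) := fun x =>
    continuous_ec.comp (continuous_const.mul continuous_id)
  have key := hasDerivAt_integral_of_dominated_loc_of_deriv_le (μ := volume) (𝕜 := ℝ)
    (F := fun x β => v β * ec (x * β))
    (F' := fun x β => v β * (2 * Real.pi * Complex.I * β) * ec (x * β)) (x₀ := y)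
    (s := Set.univ) (bound := fun β => 2 * Real.pi * t * ‖v β‖) Filter.univ_mem ?_ ?_ ?_ ?_ ?_ ?_
  · refine key.2.congr_deriv ?_
    unfold Phi
    symm
    rw [← integral_const_mul]
    refine integral_congr_ae (Filter.Eventually.of_forall fun β => ?_)
    beta_reduce
    push_cast
    have : (t : ℂ) ≠ 0 := by exact_mod_cast ht.ne'
    field_simp
  · exact Filter.Eventually.of_forall fun x =>
      (hv.meas.mul (hcont x).measurable).aestronglyMeasurable
  · refine (hint.norm).mono' (hv.meas.mul (hcont y).measurable).aestronglyMeasurable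
      (Filter.Eventually.of_forall fun β => ?_)
    rw [norm_mul, norm_ec, mul_one]
  · refine Measurable.aestronglyMeasurable ?_
    refine (hv.meas.mul ?_).mul (hcont y).measurable
    exact measurable_const.mul Complex.measurable_ofReal
  · refine Filter.Eventually.of_forall fun β x _ => ?_
    rw [norm_mul, norm_ec, mul_one]
    exact hb β
  · exact hint.norm.const_mul _
  · refine Filter.Eventually.of_forall fun β x _ => ?_
    exact ((hec β x).const_mul (v β)).congr_deriv (by ring)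

private theorem Ph_mul {t : ℝ} (ht : 0 < t) {v : ℝ → ℂ} (hv : Ph t v) :
    Ph t (fun β => (β / t : ℝ) * v β) := by
  refine ⟨(Complex.measurable_ofReal.comp (measurable_id.div_const t)).mul hv.meas, fun β => ?_,
    fun β h => ?_⟩
  · by_cases h : t < |β|
    · rw [hv.supp β h]; simp
    · push Not at h
      rw [norm_mul, Complex.norm_real, Real.norm_eq_abs, abs_div, abs_of_pos ht]
      have h1 : |β| / t ≤ 1 := (div_le_one ht).mpr h
      have h2 := hv.bd β
      calc |β| / t * ‖v β‖ ≤ 1 * 1 := by gcongr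
        _ = 1 := by ring
  · rw [hv.supp β h, mul_zero]

private theorem lf_deriv {q : ℕ} [NeZero q] (N : ℕ) (a : ℕ → ℂ) {t : ℝ} (ht : 0 < t)
    {v : (ZMod q)ˣ → ℝ → ℂ} (hv : ∀ b, Ph t (v b)) (g : (ZMod q)ˣ) (s : ℝ) :
    HasDerivAt (lf N a v g) (lf N (fun m => a m * (2 * Real.pi * Complex.I * m * t))
      (fun b β => (β / t : ℝ) * v b β) g s) s := by
  unfold lf
  refine HasDerivAt.fun_sum fun m _ => ?_
  rw [mul_assoc (a m), Finset.mul_sum]
  refine HasDerivAt.const_mul _ (HasDerivAt.fun_sum fun b _ => ?_)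
  have h1 : HasDerivAt (fun s : ℝ => s * (m : ℝ)) (m : ℝ) s := hasDerivAt_mul_const _
  have h2 := ((Phi_deriv ht (hv b) (s * m)).scomp s h1).mul_const
    (ZMod.stdAddChar ((m : ZMod q) * (g : ZMod q) * (b : ZMod q)) : ℂ)
  refine h2.congr_deriv ?_
  rw [Complex.real_smul]
  push_cast
  ring

theorem hh_slow {q : ℕ} [NeZero q] {N : ℕ} {L t X X' : ℝ} {w : (ZMod q)ˣ → ℝ → ℂ}
    (hw : ∀ b, Ph t (w b)) (ht : 0 < t) (hL : 0 < L) (htL : 1 / 2 ≤ t * L) (hX : 0 < X)
    (hXX : X ≤ X') (hX2 : X' ≤ 2 * X) (hqs : 2 * q * (t * X') ≤ 1) (g : (ZMod q)ˣ) :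
    ‖hh N L w X (g : ZMod q) - hh N L w X' (g : ZMod q)‖ ≤
      13 * (t * L) * √(2 * q * (t * L)) * (X' / X - 1) := by
  have hX'0 : 0 < X' := hX.trans_le hXX
  have hqX : 2 * q * (t * X) ≤ 1 := by
    refine le_trans ?_ hqs
    gcongr
  have hmono : ∀ s, s ≤ X' → 2 * q * (t * s) ≤ 1 := by
    intro s hs
    refine le_trans ?_ hqs
    gcongr
  rw [hh_eq, hh_eq]
  set a : ℕ → ℂ := fun m => (X : ℂ) * mu m * (kf L (X * m) : ℂ) with ha
  set a' : ℕ → ℂ := fun m => (X' : ℂ) * mu m * (kf L (X' * m) : ℂ) with ha'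
  have hsplit : lf N a w g X - lf N a' w g X' =
      lf N (fun m => a m - a' m) w g X + (lf N a' w g X - lf N a' w g X') := by
    have h1 : lf N (fun m => a m - a' m) w g X = lf N a w g X - lf N a' w g X := by
      unfold lf
      rw [← Finset.sum_sub_distrib]
      refine Finset.sum_congr rfl fun m _ => ?_
      ring
    rw [h1]
    ring
  rw [hsplit]
  -- the first part
  have hA : ‖lf N (fun m => a m - a' m) w g X‖ ≤ 3 * (X' - X) / X * √(2 * q * (t * L)) := by
    refine sq_bound ht hX (by nlinarith) hX hL le_rfl le_rfl hqX hw g _ (fun m hm => ?_)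
      (fun m hm => ?_)
    · have h1 : a m - a' m = mu m * ((X * kf L (X * m) - X' * kf L (X' * m) : ℝ) : ℂ) := by
        rw [ha, ha']
        push_cast
        ring
      simp only [h1]
      rw [norm_mul, Complex.norm_real, Real.norm_eq_abs]
      have e1 := norm_mu_le m
      have e2 : kf L (X * m) ≤ 1 := kf_le_one hL (by positivity)
      have e3 := kf_nonneg L (X * m)
      have e4 := kf_lip hL (X * m) (X' * m)
      have e5 : |X * (m : ℝ) - X' * m| = (X' - X) * m := by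
        rw [← sub_mul, abs_mul, abs_of_nonpos (by linarith), abs_of_nonneg (by positivity)]
        ring
      rw [e5] at e4
      have e6 : |X * kf L (X * m) - X' * kf L (X' * m)| ≤ 3 * (X' - X) := by
        have e7 : X * kf L (X * m) - X' * kf L (X' * m) =
            -((X' - X) * kf L (X * m)) + X' * (kf L (X * m) - kf L (X' * m)) := by ring
        rw [e7]
        refine (abs_add_le _ _).trans ?_
        rw [abs_neg, abs_mul, abs_mul, abs_of_nonneg (by linarith : 0 ≤ X' - X), abs_of_nonneg e3,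
          abs_of_pos hX'0]
        have e8 : X' * ((X' - X) * m / L) ≤ 2 * (X' - X) := by
          have e9 : X' * m ≤ 2 * L := by
            calc X' * m ≤ 2 * X * m := by gcongr
              _ = 2 * (X * m) := by ring
              _ ≤ 2 * L := by linarith
          rw [show X' * ((X' - X) * m / L) = (X' * m) * (X' - X) / L by ring, div_le_iff₀ hL]
          calc X' * m * (X' - X) ≤ 2 * L * (X' - X) := by
                refine mul_le_mul_of_nonneg_right e9 (by linarith)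
            _ = 2 * (X' - X) * L := by ring
        have e10 : (X' - X) * kf L (X * m) ≤ (X' - X) * 1 :=
          mul_le_mul_of_nonneg_left e2 (by linarith)
        have e11 : X' * |kf L (X * m) - kf L (X' * m)| ≤ X' * ((X' - X) * m / L) :=
          mul_le_mul_of_nonneg_left e4 hX'0.le
        linarith
      calc ‖mu m‖ * |X * kf L (X * m) - X' * kf L (X' * m)| ≤ 1 * (3 * (X' - X)) := by
            gcongr
        _ = 3 * (X' - X) := by ring
    · have hm' : L ≤ X' * m := hm.trans (by gcongr)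
      simp only [ha, ha', kf_eq_zero hL hm, kf_eq_zero hL hm', Complex.ofReal_zero, mul_zero,
        sub_zero]
  -- the second part
  have hB : ‖lf N a' w g X' - lf N a' w g X‖ ≤
      2 * Real.pi * (t * L) / X * √(2 * q * (t * L)) * (X' - X) := by
    refine norm_image_sub_le_of_norm_deriv_le_segment' (f := lf N a' w g)
      (f' := fun s => lf N (fun m => a' m * (2 * Real.pi * Complex.I * m * t))
      (fun b β => (β / t : ℝ) * w b β) g s) (a := X) (b := X')
      (fun s _ => (lf_deriv N a' ht hw g s).hasDerivWithinAt) (fun s hs => ?_) X'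
      (Set.right_mem_Icc.mpr hXX)
    refine sq_bound ht hX (by positivity) hX'0 hL hs.1 hXX (hmono s hs.2.le)
      (fun b => Ph_mul ht (hw b)) g _ (fun m hm => ?_) (fun m hm => ?_)
    · rw [ha']
      simp only [norm_mul, Complex.norm_I, Complex.norm_real, Complex.norm_natCast,
        Real.norm_of_nonneg hX'0.le, Real.norm_of_nonneg (kf_nonneg _ _),
        Real.norm_of_nonneg Real.pi_pos.le, Real.norm_of_nonneg ht.le]
      have e0 : ‖(2 : ℂ)‖ = 2 := by simp
      rw [e0]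
      have e1 := norm_mu_le m
      have e2 : kf L (X' * m) ≤ 1 := kf_le_one hL (by positivity)
      have e3 := kf_nonneg L (X' * m)
      calc X' * ‖mu m‖ * kf L (X' * m) * (2 * Real.pi * 1 * m * t)
          ≤ X' * 1 * 1 * (2 * Real.pi * 1 * m * t) := by gcongr
        _ = 2 * Real.pi * (t * (X' * m)) := by ring
        _ ≤ 2 * Real.pi * (t * L) := by gcongr
    · simp only [ha', kf_eq_zero hL hm, Complex.ofReal_zero, mul_zero, zero_mul]
  rw [norm_sub_rev] at hB
  refine (norm_add_le _ _).trans ((add_le_add hA hB).trans ?_)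
  have hsq := Real.sqrt_nonneg (2 * q * (t * L))
  have hXd : X' / X - 1 = (X' - X) / X := by field_simp
  rw [hXd]
  have hd : 0 ≤ (X' - X) / X := div_nonneg (by linarith) hX.le
  have e1 : 3 * (X' - X) / X * √(2 * q * (t * L)) + 2 * Real.pi * (t * L) / X *
      √(2 * q * (t * L)) * (X' - X) =
      (3 + 2 * Real.pi * (t * L)) * (√(2 * q * (t * L)) * ((X' - X) / X)) := by ring
  rw [e1, show 13 * (t * L) * √(2 * q * (t * L)) * ((X' - X) / X) =
    (13 * (t * L)) * (√(2 * q * (t * L)) * ((X' - X) / X)) by ring]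
  refine mul_le_mul_of_nonneg_right ?_ (mul_nonneg hsq hd)
  have hpi := Real.pi_lt_d2
  nlinarith

end Pool.Agent.Helper17.L3
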