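import Pool.Agent.Helper17.L3.B0

/-!
Block L3-W.  The phases.

`w b β = conj (s) / ‖s‖` (or `0` if `s = 0`) for `|β| ≤ t`, `s = sig N L (b/q + β)`, and `0` for `|β| > t`.  Measurable (`sig` is
continuous), bounded by `1`.  `hh N L w 1 1 = ∑_b ∫ w b β ∑_m μ(m) kf L m ec (m β) stdAddChar (m b) dβ
= ∑_b ∫_{|β| ≤ t} ‖sig N L (b/q + β)‖ dβ` (`ex_toAddCircle`, `ex_real`), a nonnegative real number; and `cl t q` is covered by the arcs `b/q + [-t, t]`
(`mem_cl`/`pt` in `Helper25.MOB`: a point of exact order `q` is `toAddCircle b` with `b` a unit), so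
`∫_{cl t q} ‖sig‖ ≤ ∑_b ∫_{|β| ≤ t} ‖sig(b/q + β)‖ dβ` (`2t ≤ 1`: an arc of length `2t` is the injective image of the interval
`[-t, t]`; `AddCircle` integrals: `UnitAddCircle.intervalIntegral_preimage`, or the measure preserving map
`AddCircle.measurePreserving_mk`).
-/

namespace Pool.Agent.Helper17.L3

open MeasureTheory Pool.Agent.Helper25.MOB

open scoped ComplexConjugate in
private theorem sig_cont53 (N : ℕ) (L : ℝ) : Continuous (sig N L) := by
  unfold sig
  exact continuous_finset_sum _ fun n _ => continuous_const.mul (continuous_ex n)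

private theorem shift_cont53 (N : ℕ) (L : ℝ) (a : UnitAddCircle) :
    Continuous fun β : ℝ => sig N L (a + (β : UnitAddCircle)) :=
  (sig_cont53 N L).comp (continuous_const.add (AddCircle.continuous_mk' 1))

/-- Integrals over an arc of the circle. -/
private theorem arc_le53 {t : ℝ} (f : UnitAddCircle → ℝ) (hf : Continuous f)
    (h0 : ∀ z, 0 ≤ f z) (a : UnitAddCircle) :
    ∫ z in {z : UnitAddCircle | ‖z - a‖ ≤ t}, f z ≤ ∫ β in Set.Icc (-t) t, f (a + (β : UnitAddCircle)) := by
  have hm : MeasurableSet {z : UnitAddCircle | ‖z - a‖ ≤ t} := measurableSet_ball' t a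
  have hc : Continuous fun β : ℝ => f (a + (β : UnitAddCircle)) :=
    hf.comp (continuous_const.add (AddCircle.continuous_mk' 1))
  rw [← integral_indicator hm]
  have h1 : ∫ z : UnitAddCircle, {z : UnitAddCircle | ‖z - a‖ ≤ t}.indicator f z =
      ∫ z : UnitAddCircle, {z : UnitAddCircle | ‖z‖ ≤ t}.indicator (fun z => f (a + z)) z := by
    rw [← integral_add_left_eq_self _ a]
    congr 1
    ext z
    simp only [Set.indicator_apply, Set.mem_setOf_eq, add_sub_cancel_left]
  rw [h1, ← UnitAddCircle.integral_preimage (-(1 / 2))]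
  have h2 : ∫ β in Set.Ioc (-(1 / 2) : ℝ) (-(1 / 2) + 1),
      {z : UnitAddCircle | ‖z‖ ≤ t}.indicator (fun z => f (a + z)) (β : UnitAddCircle) =
      ∫ β in Set.Ioc (-(1 / 2) : ℝ) (-(1 / 2) + 1),
      (Set.Icc (-t) t).indicator (fun β : ℝ => f (a + (β : UnitAddCircle))) β := by
    refine setIntegral_congr_fun measurableSet_Ioc fun β hβ => ?_
    have hβ1 : |β| ≤ 1 / 2 := by
      rw [abs_le]
      constructor
      · linarith [hβ.1]
      · linarith [hβ.2]
    have hn : ‖((β : ℝ) : UnitAddCircle)‖ = |β| := by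
      rw [AddCircle.norm_coe_eq_abs_iff 1 one_ne_zero]
      rw [abs_one]
      exact hβ1
    simp only [Set.indicator_apply, Set.mem_setOf_eq, hn, Set.mem_Icc, abs_le]
  rw [h2, setIntegral_indicator measurableSet_Icc]
  refine setIntegral_mono_set ?_ ?_ ?_
  · exact hc.integrableOn_Icc
  · exact Filter.Eventually.of_forall fun β => h0 _
  · exact Filter.Eventually.of_forall fun β hβ => hβ.2

theorem exists_phases {q : ℕ} [NeZero q] (N : ℕ) {L t : ℝ} (ht : 0 < t) (ht1 : 2 * t ≤ 1) :
    ∃ w : (ZMod q)ˣ → ℝ → ℂ, (∀ b, Ph t (w b)) ∧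
      ∫ y in cl t q, ‖sig N L y‖ ≤ ‖hh N L w 1 (1 : ZMod q)‖ := by
  classical
  set sb : (ZMod q)ˣ → ℝ → ℂ := fun b β => sig N L (ZMod.toAddCircle (b : ZMod q) + (β : UnitAddCircle))
    with hsb
  have hsc : ∀ b, Continuous (sb b) := fun b => shift_cont53 N L _
  set w : (ZMod q)ˣ → ℝ → ℂ := fun b => (Set.Icc (-t) t).indicator
    (fun β => (starRingEnd ℂ) (sb b β) / (‖sb b β‖ : ℂ)) with hw
  have hval : ∀ b β, ‖(starRingEnd ℂ) (sb b β) / (‖sb b β‖ : ℂ)‖ ≤ 1 := by
    intro b β
    rw [norm_div, RCLike.norm_conj, Complex.norm_real, norm_norm]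
    exact div_self_le_one _
  have hPh : ∀ b, Ph t (w b) := by
    intro b
    refine ⟨?_, ?_, ?_⟩
    · refine Measurable.indicator ?_ measurableSet_Icc
      refine Measurable.div ?_ ?_
      · exact (Complex.continuous_conj.comp (hsc b)).measurable
      · exact (Complex.continuous_ofReal.comp (hsc b).norm).measurable
    · intro β
      rw [hw]
      simp only []
      by_cases hβ : β ∈ Set.Icc (-t) t
      · rw [Set.indicator_of_mem hβ]
        exact hval b β
      · rw [Set.indicator_of_notMem hβ, norm_zero]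
        exact zero_le_one
    · intro β hβ
      rw [hw]
      simp only []
      refine Set.indicator_of_notMem ?_ _
      rw [Set.mem_Icc, ← abs_le]
      exact not_le.2 hβ
  refine ⟨w, hPh, ?_⟩
  -- the value of hh
  have hI : ∀ b, ∀ m : ℕ, Integrable fun β : ℝ => w b β * ec ((m : ℝ) * β) := by
    intro b m
    refine (integrable_Ph (hPh b)).mono ?_ (Filter.Eventually.of_forall fun β => ?_)
    · exact ((hPh b).meas.mul
        (continuous_ec.comp (by fun_prop : Continuous fun β : ℝ => (m : ℝ) * β)).measurable).aestronglyMeasurable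
    · rw [norm_mul, norm_ec, mul_one]
  have hb : ∀ b : (ZMod q)ˣ, ∑ m ∈ Finset.Icc 1 N,
      ((1 : ℝ) : ℂ) * mu m * Psi L (w b) (1 * m) * ZMod.stdAddChar ((m : ZMod q) * 1 * (b : ZMod q)) =
      ((∫ β in Set.Icc (-t) t, ‖sb b β‖ : ℝ) : ℂ) := by
    intro b
    have e1 : ∀ m : ℕ, ((1 : ℝ) : ℂ) * mu m * Psi L (w b) (1 * m) *
        ZMod.stdAddChar ((m : ZMod q) * 1 * (b : ZMod q)) =
        ∫ β : ℝ, (kf L m : ℂ) * mu m * ex m (ZMod.toAddCircle (b : ZMod q)) * (w b β * ec ((m : ℝ) * β)) := by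
      intro m
      have h1 := ex_toAddCircle (m : ℤ) (b : ZMod q)
      rw [integral_const_mul, h1]
      unfold Psi Phi
      simp only [one_mul, mul_one, Complex.ofReal_one, Int.cast_natCast]
      ring
    rw [Finset.sum_congr rfl fun m _ => e1 m, ← integral_finset_sum _ fun m _ => (hI b m).const_mul _]
    rw [← integral_complex_ofReal, ← integral_indicator measurableSet_Icc]
    congr 1
    ext β
    have e2 : ∑ m ∈ Finset.Icc 1 N,
        (kf L m : ℂ) * mu m * ex m (ZMod.toAddCircle (b : ZMod q)) * (w b β * ec ((m : ℝ) * β)) =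
        w b β * sb b β := by
      rw [hsb]
      simp only []
      unfold sig
      rw [Finset.mul_sum]
      refine Finset.sum_congr rfl fun m _ => ?_
      rw [ex_add_arg, ex_real]
      push_cast
      ring
    rw [e2]
    by_cases hβ : β ∈ Set.Icc (-t) t
    · rw [Set.indicator_of_mem hβ, hw]
      simp only []
      rw [Set.indicator_of_mem hβ]
      by_cases h0 : sb b β = 0
      · rw [h0]; simp
      · have h1 : (‖sb b β‖ : ℂ) ≠ 0 := by
          rw [Complex.ofReal_ne_zero]
          exact norm_ne_zero_iff.2 h0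
        rw [div_mul_eq_mul_div, div_eq_iff h1, mul_comm, Complex.mul_conj, Complex.normSq_eq_norm_sq]
        push_cast
        ring
    · rw [Set.indicator_of_notMem hβ, hw]
      simp only []
      rw [Set.indicator_of_notMem hβ, zero_mul]
  have hhv : hh N L w 1 (1 : ZMod q) = ((∑ b : (ZMod q)ˣ, ∫ β in Set.Icc (-t) t, ‖sb b β‖ : ℝ) : ℂ) := by
    unfold hh
    rw [Complex.ofReal_sum]
    exact Finset.sum_congr rfl fun b _ => hb b
  rw [hhv, Complex.norm_real, Real.norm_eq_abs,
    abs_of_nonneg (Finset.sum_nonneg fun b _ => integral_nonneg fun β => norm_nonneg _)]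
  -- the arcs
  have hfc : Continuous fun z => ‖sig N L z‖ := (sig_cont53 N L).norm
  have hfi : ∀ A : Set UnitAddCircle, MeasurableSet A → Integrable (A.indicator fun z => ‖sig N L z‖) := by
    intro A hA
    rw [integrable_indicator_iff hA]
    exact (hfc.integrable_of_hasCompactSupport (HasCompactSupport.of_compactSpace _)).integrableOn
  have hstep : ∫ y in cl t q, ‖sig N L y‖ ≤
      ∑ b : (ZMod q)ˣ, ∫ z in {z : UnitAddCircle | ‖z - ZMod.toAddCircle (b : ZMod q)‖ ≤ t}, ‖sig N L z‖ := by
    rw [← integral_indicator (measurableSet_cl t q)]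
    have e3 : ∀ b : (ZMod q)ˣ, ∫ z in {z : UnitAddCircle | ‖z - ZMod.toAddCircle (b : ZMod q)‖ ≤ t}, ‖sig N L z‖ =
        ∫ z, ({z : UnitAddCircle | ‖z - ZMod.toAddCircle (b : ZMod q)‖ ≤ t}).indicator
          (fun z => ‖sig N L z‖) z := fun b => (integral_indicator (measurableSet_ball' t _)).symm
    rw [Finset.sum_congr rfl fun b _ => e3 b,
      ← integral_finset_sum _ fun b _ => hfi _ (measurableSet_ball' t _)]
    refine integral_mono (hfi _ (measurableSet_cl t q))
      (integrable_finset_sum _ fun b _ => hfi _ (measurableSet_ball' t _)) fun y => ?_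
    by_cases hy : y ∈ cl t q
    · rw [Set.indicator_of_mem hy]
      obtain ⟨a, ha, hya⟩ := hy
      have hbe : ∃ b : (ZMod q)ˣ, ZMod.toAddCircle (b : ZMod q) = a := by
        simp only [pt, Finset.mem_image, Finset.bind_def, Finset.pure_def, Finset.mem_sup,
          Finset.mem_singleton, Finset.mem_filter, Finset.mem_range] at ha
        obtain ⟨x, ⟨m, ⟨h1, h2⟩, h4⟩, h3⟩ := ha
        refine ⟨ZMod.unitOfCoprime m h2, ?_⟩
        rw [ZMod.coe_unitOfCoprime, ZMod.toAddCircle_natCast, ← h3, h4]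
      obtain ⟨b, hb⟩ := hbe
      have hmem : y ∈ {z : UnitAddCircle | ‖z - ZMod.toAddCircle (b : ZMod q)‖ ≤ t} := by
        rw [Set.mem_setOf_eq, hb]
        exact hya
      calc ‖sig N L y‖ = ({z : UnitAddCircle | ‖z - ZMod.toAddCircle (b : ZMod q)‖ ≤ t}).indicator
            (fun z => ‖sig N L z‖) y := (Set.indicator_of_mem hmem (fun z => ‖sig N L z‖)).symm
        _ ≤ _ := Finset.single_le_sum
            (f := fun b : (ZMod q)ˣ => ({z : UnitAddCircle | ‖z - ZMod.toAddCircle (b : ZMod q)‖ ≤ t}).indicator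
              (fun z => ‖sig N L z‖) y)
            (fun b' _ => Set.indicator_nonneg (fun z _ => norm_nonneg _) y) (Finset.mem_univ b)
    · rw [Set.indicator_of_notMem hy]
      exact Finset.sum_nonneg fun b _ => Set.indicator_nonneg (fun z _ => norm_nonneg _) y
  refine hstep.trans (Finset.sum_le_sum fun b _ => ?_)
  exact arc_le53 (fun z => ‖sig N L z‖) hfc (fun z => norm_nonneg _) _

end Pool.Agent.Helper17.L3
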